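import Pool.Agent.H13.SB.Num.Pl

/-!
# The relator map is onto; no invariant vectors
-/

namespace H13SB.Num

def e0 : Dat := ⟨[⟨0, 0, 0, 0, 0, 0⟩, ⟨0, 0, 0, 0, 0, -1⟩, ⟨0, 0, 0, 0, 0, 0⟩, ⟨0, 0, 0, 0, 0, 0⟩, ⟨1, 0, 0, 0, 0, 0⟩, ⟨0, 0, 0, 0, 0, 0⟩, ⟨0, 0, 0, 0, 0, 0⟩, ⟨0, 0, 0, 0, 0, 0⟩, ⟨0, 0, 0, 0, 0, 0⟩, ⟨0, 0, 0, 0, 0, 0⟩, ⟨0, 0, 0, 0, 0, 0⟩, ⟨0, 0, 0, 0, 0, 0⟩, ⟨0, 0, 0, 0, 0, 0⟩, ⟨0, 0, 0, 0, 0, 0⟩, ⟨0, 0, 0, 0, 0, 0⟩, ⟨0, 0, 0, 0, 0, 0⟩, ⟨0, 0, 0, 0, 0, 0⟩, ⟨0, 0, 0, 0, 0, 0⟩],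
  [⟨0, 0, 0, 0, 0, 0⟩, ⟨0, 0, 0, 0, 0, 0⟩, ⟨0, 0, 0, 0, -2, -1⟩, ⟨0, 0, 0, 0, -2, -1⟩, ⟨0, 0, 0, 0, 1, 0⟩, ⟨0, 0, 0, 0, 1, 0⟩, ⟨0, 0, 0, 0, 1, 0⟩, ⟨0, 0, 0, 0, 1, 0⟩, ⟨0, 0, 0, 0, 1, 0⟩, ⟨1, 0, 0, 0, 1, 0⟩, ⟨1, 0, 0, 0, 1, 0⟩, ⟨1, 0, 0, 0, 0, 0⟩, ⟨1, 0, 0, 0, 0, 0⟩, ⟨1, 0, 0, 0, 0, 0⟩, ⟨1, 0, 0, 0, 0, 0⟩, ⟨1, 0, 0, 0, 0, 0⟩, ⟨1, 0, 0, 0, 0, 0⟩, ⟨1, 0, 0, 0, 0, 0⟩, ⟨1, 0, 0, 0, 0, 0⟩, ⟨1, 0, 0, 0, 0, 0⟩, ⟨1, 0, 0, 0, 0, 0⟩, ⟨1, 0, 0, 0, 0, 0⟩, ⟨1, 0, 0, 0, 0, 0⟩, ⟨1, 0, 0, 0, 0, 0⟩, ⟨1, 0, 0, 0, 0, 0⟩, ⟨1, 0, 0, 0, 0, 0⟩, ⟨1, 0, 0, 0, 0, 0⟩, ⟨1, 0, 0, 0, 0, 0⟩, ⟨1, 0, 0, 0, 0, 0⟩, ⟨1, 0,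 0, 0, 0, 0⟩, ⟨1, 0, 0, 0, 0, 0⟩, ⟨1, 0, 0, 0, 0, 0⟩, ⟨1, 0, 0, 0, 0, 0⟩, ⟨1, 0, 0, 0, 0, 0⟩, ⟨1, 0, 0, 0, 0, 0⟩, ⟨1, 0, 0, 0, 0, 0⟩, ⟨1, 0, 0, 0, 0, 0⟩]⟩

def e1 : Dat := ⟨[⟨0, 0, 0, 0, 0, 0⟩, ⟨0, 0, 0, 0, 0, 0⟩, ⟨0, 0, -1, 0, 0, 1⟩, ⟨0, 0, 0, 0, 0, 0⟩, ⟨-2, 0, 0, 0, 0, 0⟩, ⟨0, 0, 0, 0, 0, 0⟩, ⟨0, 0, 0, 0, 0, 0⟩, ⟨0, 0, 0, 0, 0, 0⟩, ⟨0, 0, 0, 0, 0, 0⟩, ⟨0, 0, 0, 0, 0, 0⟩, ⟨0, 0, 0, 0, 0, 0⟩, ⟨0, 0, 0, 0, 0, 0⟩, ⟨0, 0, 0, 0, 0, 0⟩, ⟨0, 0, 0, 0, 0, 0⟩, ⟨0, 0, 0, 0, 0, 0⟩, ⟨0, 0, 0, 0, 0, 0⟩, ⟨0, 0, 0, 0, 0, 0⟩, ⟨0, 0, 0, 0, 0, 0⟩],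
  [⟨0, 0, 0, 0, 0, 0⟩, ⟨0, 0, 0, 0, 0, 0⟩, ⟨0, 0, 0, 0, 0, 0⟩, ⟨0, 0, 0, 0, 0, 0⟩, ⟨0, 0, 0, 0, 0, 0⟩, ⟨-1, 0, 0, 0, 3, 1⟩, ⟨-1, 0, 0, 0, 3, 1⟩, ⟨2, 1, 0, 0, -2, 0⟩, ⟨2, 1, 0, 0, -2, 0⟩, ⟨0, 1, 0, 0, -2, 0⟩, ⟨0, 1, 0, 0, -2, 0⟩, ⟨0, 1, 0, 0, 0, 0⟩, ⟨0, 1, 0, 0, 0, 0⟩, ⟨0, 1, 0, 0, 0, 0⟩, ⟨0, 1, 0, 0, 0, 0⟩, ⟨0, 1, 0, 0, 0, 0⟩, ⟨0, 1, 0, 0, 0, 0⟩, ⟨0, 1, 0, 0, 0, 0⟩, ⟨0, 1, 0, 0, 0, 0⟩, ⟨0, 1, 0, 0, 0, 0⟩, ⟨0, 1, 0, 0, 0, 0⟩, ⟨0, 1, 0, 0, 0, 0⟩, ⟨0, 1, 0, 0, 0, 0⟩, ⟨0, 1, 0, 0, 0, 0⟩, ⟨0, 1, 0, 0, 0, 0⟩, ⟨0, 1, 0, 0, 0, 0⟩, ⟨0, 1, 0, 0, 0, 0⟩, ⟨0, 1, 0, 0, 0, 0⟩, ⟨0, 1, 0, 0, 0, 0⟩, ⟨0,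 1, 0, 0, 0, 0⟩, ⟨0, 1, 0, 0, 0, 0⟩, ⟨0, 1, 0, 0, 0, 0⟩, ⟨0, 1, 0, 0, 0, 0⟩, ⟨0, 1, 0, 0, 0, 0⟩, ⟨0, 1, 0, 0, 0, 0⟩, ⟨0, 1, 0, 0, 0, 0⟩, ⟨0, 1, 0, 0, 0, 0⟩]⟩

def e2 : Dat := ⟨[⟨0, 0, 0, 0, 0, 0⟩, ⟨0, 0, 0, 0, 0, 0⟩, ⟨0, -1, 0, 0, 0, 0⟩, ⟨0, 0, 0, 0, 0, 0⟩, ⟨0, 0, 0, 0, 0, 0⟩, ⟨0, 0, 0, 0, 0, 0⟩, ⟨0, 0, 0, 0, 0, 0⟩, ⟨0, 0, 0, 0, 0, 0⟩, ⟨0, 0, 0, 0, 0, 0⟩, ⟨0, 0, 0, 0, 0, 0⟩, ⟨0, 0, 0, 0, 0, 0⟩, ⟨0, 0, 0, 0, 0, 0⟩, ⟨0, 0, 0, 0, 0, 0⟩, ⟨0, 0, 0, 0, 0, 0⟩, ⟨0, 0, 0, 0, 0, 0⟩, ⟨0, 0, 0, 0, 0, 0⟩, ⟨0, 0, 0, 0, 0, 0⟩, ⟨0, 0, 0, 0, 0, 0⟩],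
  [⟨0, 0, 0, 0, 0, 0⟩, ⟨0, 0, 0, 0, 0, 0⟩, ⟨0, 0, 0, 0, 0, 0⟩, ⟨0, 0, 0, 0, 0, 0⟩, ⟨0, 0, 0, 0, 0, 0⟩, ⟨0, 0, -1, -1, 0, 0⟩, ⟨0, 0, -1, -1, 0, 0⟩, ⟨0, 0, 1, 0, 0, 0⟩, ⟨0, 0, 1, 0, 0, 0⟩, ⟨0, 0, 1, 0, 0, 0⟩, ⟨0, 0, 1, 0, 0, 0⟩, ⟨0, 0, 1, 0, 0, 0⟩, ⟨0, 0, 1, 0, 0, 0⟩, ⟨0, 0, 1, 0, 0, 0⟩, ⟨0, 0, 1, 0, 0, 0⟩, ⟨0, 0, 1, 0, 0, 0⟩, ⟨0, 0, 1, 0, 0, 0⟩, ⟨0, 0, 1, 0, 0, 0⟩, ⟨0, 0, 1, 0, 0, 0⟩, ⟨0, 0, 1, 0, 0, 0⟩, ⟨0, 0, 1, 0, 0, 0⟩, ⟨0, 0, 1, 0, 0, 0⟩, ⟨0, 0, 1, 0, 0, 0⟩, ⟨0, 0, 1, 0, 0, 0⟩, ⟨0, 0, 1, 0, 0, 0⟩, ⟨0, 0, 1, 0, 0, 0⟩, ⟨0, 0, 1, 0, 0, 0⟩, ⟨0, 0, 1, 0, 0, 0⟩, ⟨0, 0, 1, 0, 0, 0⟩, ⟨0, 0,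 1, 0, 0, 0⟩, ⟨0, 0, 1, 0, 0, 0⟩, ⟨0, 0, 1, 0, 0, 0⟩, ⟨0, 0, 1, 0, 0, 0⟩, ⟨0, 0, 1, 0, 0, 0⟩, ⟨0, 0, 1, 0, 0, 0⟩, ⟨0, 0, 1, 0, 0, 0⟩, ⟨0, 0, 1, 0, 0, 0⟩]⟩

def e3 : Dat := ⟨[⟨0, 0, 0, 0, 0, 0⟩, ⟨0, 0, 0, 0, 0, 1⟩, ⟨0, 0, 0, 0, 0, 0⟩, ⟨0, 0, 0, 0, 0, 0⟩, ⟨0, 0, 0, 0, 0, 0⟩, ⟨0, 0, 0, 0, 0, 0⟩, ⟨0, 1, 0, 1, 0, 0⟩, ⟨0, 0, 0, 0, 0, 0⟩, ⟨0, 0, 0, 0, 0, 0⟩, ⟨0, 0, 0, 0, 0, 0⟩, ⟨0, 0, 0, 0, 0, 0⟩, ⟨0, 0, 0, 0, 0, 0⟩, ⟨0, 0, 0, 0, 0, 0⟩, ⟨0, 0, 0, 0, 0, 0⟩, ⟨0, 0, 0, 0, 0, 0⟩, ⟨0, 0, 0, 0, 0, 0⟩, ⟨0, 0, 0, 0, 0, 0⟩, ⟨0, 0, 0, 0, 0, 0⟩],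
  [⟨0, 0, 0, 0, 0, 0⟩, ⟨0, 0, 0, 0, 0, 0⟩, ⟨0, 0, 0, 0, 2, 1⟩, ⟨0, 0, 0, 0, 2, 1⟩, ⟨0, 0, 0, 0, -1, 0⟩, ⟨0, 0, 0, 0, -1, 0⟩, ⟨0, 0, 0, 0, -1, 0⟩, ⟨0, 0, 0, 0, -1, 0⟩, ⟨0, 0, 0, 0, -1, 0⟩, ⟨0, 0, 0, 0, -1, 0⟩, ⟨0, 0, 0, 0, -1, 0⟩, ⟨0, 0, 0, 0, -1, 0⟩, ⟨0, 0, 0, 0, -1, 0⟩, ⟨0, 1, 0, 1, -1, 0⟩, ⟨0, 1, 0, 1, -1, 0⟩, ⟨0, 0, 0, 1, 0, 0⟩, ⟨0, 0, 0, 1, 0, 0⟩, ⟨0, 0, 0, 1, 0, 0⟩, ⟨0, 0, 0, 1, 0, 0⟩, ⟨0, 0, 0, 1, 0, 0⟩, ⟨0, 0, 0, 1, 0, 0⟩, ⟨0, 0, 0, 1, 0, 0⟩, ⟨0, 0, 0, 1, 0, 0⟩, ⟨0, 0, 0, 1, 0, 0⟩, ⟨0, 0, 0, 1, 0, 0⟩, ⟨0, 0, 0, 1, 0, 0⟩, ⟨0, 0, 0, 1, 0, 0⟩, ⟨0, 0, 0, 1, 0, 0⟩, ⟨0, 0, 0, 1, 0, 0⟩,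 ⟨0, 0, 0, 1, 0, 0⟩, ⟨0, 0, 0, 1, 0, 0⟩, ⟨0, 0, 0, 1, 0, 0⟩, ⟨0, 0, 0, 1, 0, 0⟩, ⟨0, 0, 0, 1, 0, 0⟩, ⟨0, 0, 0, 1, 0, 0⟩, ⟨0, 0, 0, 1, 0, 0⟩, ⟨0, 0, 0, 1, 0, 0⟩]⟩

def e4 : Dat := ⟨[⟨0, 0, 0, 0, 0, 0⟩, ⟨0, 0, 0, 0, 0, -1⟩, ⟨0, 0, 0, 0, 0, 0⟩, ⟨0, 0, 0, 0, 0, 0⟩, ⟨0, 0, 0, 0, 0, 0⟩, ⟨0, 0, 0, 0, 0, 0⟩, ⟨0, 0, 0, 0, 0, 0⟩, ⟨0, 0, 0, 0, 0, 0⟩, ⟨0, 0, 0, 0, 0, 0⟩, ⟨0, 0, 0, 0, 0, 0⟩, ⟨0, 0, 0, 0, 0, 0⟩, ⟨0, 0, 0, 0, 0, 0⟩, ⟨0, 0, 0, 0, 0, 0⟩, ⟨0, 0, 0, 0, 0, 0⟩, ⟨0, 0, 0, 0, 0, 0⟩, ⟨0, 0, 0, 0, 0, 0⟩, ⟨0, 0, 0, 0, 0, 0⟩, ⟨0, 0, 0, 0, 0, 0⟩],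
  [⟨0, 0, 0, 0, 0, 0⟩, ⟨0, 0, 0, 0, 0, 0⟩, ⟨0, 0, 0, 0, -2, -1⟩, ⟨0, 0, 0, 0, -2, -1⟩, ⟨0, 0, 0, 0, 1, 0⟩, ⟨0, 0, 0, 0, 1, 0⟩, ⟨0, 0, 0, 0, 1, 0⟩, ⟨0, 0, 0, 0, 1, 0⟩, ⟨0, 0, 0, 0, 1, 0⟩, ⟨0, 0, 0, 0, 1, 0⟩, ⟨0, 0, 0, 0, 1, 0⟩, ⟨0, 0, 0, 0, 1, 0⟩, ⟨0, 0, 0, 0, 1, 0⟩, ⟨0, 0, 0, 0, 1, 0⟩, ⟨0, 0, 0, 0, 1, 0⟩, ⟨0, 0, 0, 0, 1, 0⟩, ⟨0, 0, 0, 0, 1, 0⟩, ⟨0, 0, 0, 0, 1, 0⟩, ⟨0, 0, 0, 0, 1, 0⟩, ⟨0, 0, 0, 0, 1, 0⟩, ⟨0, 0, 0, 0, 1, 0⟩, ⟨0, 0, 0, 0, 1, 0⟩, ⟨0, 0, 0, 0, 1, 0⟩, ⟨0, 0, 0, 0, 1, 0⟩, ⟨0, 0, 0, 0, 1, 0⟩, ⟨0, 0, 0, 0, 1, 0⟩, ⟨0, 0, 0, 0, 1, 0⟩, ⟨0, 0, 0, 0, 1, 0⟩, ⟨0, 0, 0, 0, 1, 0⟩, ⟨0, 0,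 0, 0, 1, 0⟩, ⟨0, 0, 0, 0, 1, 0⟩, ⟨0, 0, 0, 0, 1, 0⟩, ⟨0, 0, 0, 0, 1, 0⟩, ⟨0, 0, 0, 0, 1, 0⟩, ⟨0, 0, 0, 0, 1, 0⟩, ⟨0, 0, 0, 0, 1, 0⟩, ⟨0, 0, 0, 0, 1, 0⟩]⟩

def e5 : Dat := ⟨[⟨0, 0, 0, 0, 0, 1⟩, ⟨0, 0, 0, 0, 0, 0⟩, ⟨0, 0, 0, 0, 1, 0⟩, ⟨0, 0, 0, 0, 0, 0⟩, ⟨1, 0, 0, 0, 0, 0⟩, ⟨0, 0, 0, 0, 0, 0⟩, ⟨0, 0, 0, 0, 0, 0⟩, ⟨0, 0, 0, 0, 0, 0⟩, ⟨0, 0, 0, 0, 0, 0⟩, ⟨0, 0, 0, 0, 0, 0⟩, ⟨0, 0, 0, 0, 0, 0⟩, ⟨0, 0, 0, 0, 0, 0⟩, ⟨0, 0, 0, 0, 0, 0⟩, ⟨0, 0, 0, 0, 0, 0⟩, ⟨0, 0, 0, 0, 0, 0⟩, ⟨0, 0, 0, 0, 0, 0⟩, ⟨0, 0, 0, 0, 0, 0⟩, ⟨0, 0, 0, 0, 0, 0⟩],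
  [⟨0, 0, 0, 0, 0, 0⟩, ⟨0, 0, 0, 0, 0, 1⟩, ⟨0, 0, 0, 0, 0, 1⟩, ⟨1, 1, -2, -1, 0, 1⟩, ⟨1, 1, -2, -1, 0, 1⟩, ⟨1, 1, -2, -1, 1, 1⟩, ⟨1, 1, -2, -1, 1, 1⟩, ⟨-1, 0, 0, 0, 1, 1⟩, ⟨-1, 0, 0, 0, 1, 1⟩, ⟨0, 0, 0, 0, 1, 1⟩, ⟨0, 0, 0, 0, 1, 1⟩, ⟨0, 0, 0, 0, 0, 1⟩, ⟨0, 0, 0, 0, 0, 1⟩, ⟨0, 0, 0, 0, 0, 1⟩, ⟨0, 0, 0, 0, 0, 1⟩, ⟨0, 0, 0, 0, 0, 1⟩, ⟨0, 0, 0, 0, 0, 1⟩, ⟨0, 0, 0, 0, 0, 1⟩, ⟨0, 0, 0, 0, 0, 1⟩, ⟨0, 0, 0, 0, 0, 1⟩, ⟨0, 0, 0, 0, 0, 1⟩, ⟨0, 0, 0, 0, 0, 1⟩, ⟨0, 0, 0, 0, 0, 1⟩, ⟨0, 0, 0, 0, 0, 1⟩, ⟨0, 0, 0, 0, 0, 1⟩, ⟨0, 0, 0, 0, 0, 1⟩, ⟨0, 0, 0, 0, 0, 1⟩, ⟨0, 0, 0, 0, 0, 1⟩, ⟨0, 0, 0, 0, 0, 1⟩,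 ⟨0, 0, 0, 0, 0, 1⟩, ⟨0, 0, 0, 0, 0, 1⟩, ⟨0, 0, 0, 0, 0, 1⟩, ⟨0, 0, 0, 0, 0, 1⟩, ⟨0, 0, 0, 0, 0, 1⟩, ⟨0, 0, 0, 0, 0, 1⟩, ⟨0, 0, 0, 0, 0, 1⟩, ⟨0, 0, 0, 0, 0, 1⟩]⟩

/-- Check of a walk. -/
def okE (d : Dat) (v : V6) : Bool :=
  chkU d.xs ltn Pl d.Us && (decide (d.Us.head? = some V6.zero) &&
    decide (d.Us.getLast? = some v))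

theorem walk_of_okE (d : Dat) (v : V6) (h : okE d v = true) :
    walk X.piece.lin (xr d.xs) 1 0 (lets 9) = v.r := by
  obtain ⟨xs, Us⟩ := d
  simp only [okE, Bool.and_eq_true, decide_eq_true_eq] at h
  obtain ⟨h2, h3, h4⟩ := h
  cases Us with
  | nil => simp at h3
  | cons U Us =>
    simp only [List.head?_cons, Option.some.injEq] at h3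
    subst h3
    have hP : Pl = M6.one :: Pl.tail := by decide +kernel
    have hM : chkM ltn (M6.one :: Pl.tail) = true := by rw [← hP]; exact chkM_Pl
    rw [hP] at h2
    have h5 := track_walk xs ltn Pl.tail Us 1 M6.one V6.zero hM h2
      (by rw [map_one, M6.fn_one])
    have h6 : (V6.zero :: Us).getLast (List.cons_ne_nil _ _) = v := by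
      rw [List.getLast?_eq_some_getLast (List.cons_ne_nil _ _)] at h4
      exact Option.some.inj h4
    rw [h6, V6.r_zero, ← lets9] at h5
    exact h5

theorem num_rel : ∃ c : Fin 6 → Gen 9 → Gen 3 → ℝ, ∀ s : Fin 6 → ℝ,
    walk X.piece.lin (∑ k, s k • c k) 1 0 (lets 9) = 0 → s = 0 := by
  refine ⟨![xr e0.xs, xr e1.xs, xr e2.xs, xr e3.xs, xr e4.xs, xr e5.xs], fun s hs => ?_⟩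
  rw [← walkL_apply] at hs
  rw [map_sum] at hs
  simp only [map_smul] at hs
  simp only [Fin.sum_univ_succ, Fin.sum_univ_zero, Matrix.cons_val_zero,
    Matrix.cons_val_succ] at hs
  simp only [walkL_apply] at hs
  rw [walk_of_okE e0 ⟨1, 0, 0, 0, 0, 0⟩ (by decide +kernel),
    walk_of_okE e1 ⟨0, 1, 0, 0, 0, 0⟩ (by decide +kernel),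
    walk_of_okE e2 ⟨0, 0, 1, 0, 0, 0⟩ (by decide +kernel),
    walk_of_okE e3 ⟨0, 0, 0, 1, 0, 0⟩ (by decide +kernel),
    walk_of_okE e4 ⟨0, 0, 0, 0, 1, 0⟩ (by decide +kernel),
    walk_of_okE e5 ⟨0, 0, 0, 0, 0, 1⟩ (by decide +kernel)] at hs
  have h0 := congrFun hs (0, false)
  have h1 := congrFun hs (0, true)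
  have h2 := congrFun hs (1, false)
  have h3 := congrFun hs (1, true)
  have h4 := congrFun hs (2, false)
  have h5 := congrFun hs (2, true)
  simp at h0 h1 h2 h3 h4 h5
  funext k
  fin_cases k
  · exact h0
  · exact h1
  · exact h2
  · exact h3
  · exact h4
  · exact h5

theorem num_inv (w : Gen 3 → ℝ) (hw : ∀ x, X.piece.lin (sgen x) w = w) : w = 0 := by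
  have key : ∀ (x : Gen 9) (y : Gen 3), ∑ z, ((MM x).fn y z : ℝ) * w z = w y := by
    intro x y
    have h := congrFun (hw x) y
    rw [lin_eq _ _ (mat_gen x)] at h
    exact h
  have a0 := key (2, false) (0, false)
  have a4 := key (2, false) (2, false)
  have b0 := key (3, true) (0, false)
  have b1 := key (3, true) (0, true)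
  have b2 := key (3, true) (1, false)
  have c2 := key (2, true) (1, false)
  simp only [V6.sum_gen] at a0 a4 b0 b1 b2 c2
  have eA : MM (2, false) = ⟨⟨1, -2, 0, 0, 0, 0⟩, ⟨0, 1, 0, 0, 0, 0⟩, ⟨0, 0, 1, 0, 0, 0⟩, ⟨0, 0, 0, 1, 0, 0⟩, ⟨0, 0, 0, 0, 1, 2⟩, ⟨0, 0, 0, 0, 0, 1⟩⟩ := rfl
  have eB : MM (3, true) = ⟨⟨1, 0, 1, 0, 0, -1⟩, ⟨0, 0, 0, 1, 0, 0⟩, ⟨1, 0, 0, 0, 0, 0⟩, ⟨0, 1, 0, -1, 0, 0⟩, ⟨0, 0, 0, -1, 1, 0⟩, ⟨0, 0, 0, 0, 0, 1⟩⟩ := rfl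
  have eC : MM (2, true) = ⟨⟨0, 1, 1, 0, 0, 0⟩, ⟨0, 0, 0, 1, 0, 0⟩, ⟨0, 1, 0, 0, 1, 0⟩, ⟨0, 0, 0, 0, 0, 1⟩, ⟨1, 0, 0, 1, 0, 1⟩, ⟨0, 1, 0, 0, 0, 0⟩⟩ := rfl
  rw [eA] at a0 a4
  rw [eB] at b0 b1 b2
  rw [eC] at c2
  simp at a0 a4 b0 b1 b2 c2
  apply V6.ext_gen <;> simp only [Pi.zero_apply] <;> linarith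

end H13SB.Num
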