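import Pool.Agent.H13.SB.Num.Rows

/-!
# The positive definite space of cocycles
-/

namespace H13SB.Num

theorem diag_pos {ι : Type*} [Fintype ι] (G : ι → ι → ℝ) (hs : ∀ i j, G i j = G j i)
    (hd : ∀ i, ∑ j, |G i j| < 2 * G i i) (t : ι → ℝ) (ht : t ≠ 0) :
    0 < ∑ i, ∑ j, t i * t j * G i j := by
  classical
  have h1 : ∀ i j, -(|G i j| * (t i ^ 2 + t j ^ 2) / 2) + (if i = j then 2 * t i ^ 2 * G i i else 0)
      ≤ t i * t j * G i j := by
    intro i j
    by_cases h : i = j
    · subst h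
      have h0 : 0 ≤ ∑ j, |G i j| := Finset.sum_nonneg fun _ _ => abs_nonneg _
      have h2 := hd i
      have h3 : |G i i| = G i i := abs_of_nonneg (by linarith)
      rw [if_pos rfl, h3]
      nlinarith
    · rw [if_neg h, add_zero]
      have h2 : |t i * t j * G i j| ≤ |G i j| * (t i ^ 2 + t j ^ 2) / 2 := by
        rw [abs_mul, mul_comm]
        have h3 : |t i * t j| ≤ (t i ^ 2 + t j ^ 2) / 2 := by
          rw [abs_le]
          constructor <;> nlinarith [sq_nonneg (t i - t j), sq_nonneg (t i + t j)]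
        calc |G i j| * |t i * t j| ≤ |G i j| * ((t i ^ 2 + t j ^ 2) / 2) :=
              mul_le_mul_of_nonneg_left h3 (abs_nonneg _)
          _ = _ := by ring
      linarith [(abs_le.1 h2).1]
  have h2 : ∑ i, ∑ j, (-(|G i j| * (t i ^ 2 + t j ^ 2) / 2) +
      (if i = j then 2 * t i ^ 2 * G i i else 0)) = ∑ i, t i ^ 2 * (2 * G i i - ∑ j, |G i j|) := by
    have h3 : ∑ i, ∑ j, |G i j| * t j ^ 2 = ∑ i, ∑ j, |G i j| * t i ^ 2 := by
      rw [Finset.sum_comm]
      refine Finset.sum_congr rfl fun i _ => Finset.sum_congr rfl fun j _ => ?_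
      rw [hs j i]
    simp only [Finset.sum_add_distrib, Finset.sum_neg_distrib, Finset.sum_ite_eq,
      Finset.mem_univ, if_true]
    have h4 : ∑ i, ∑ j, |G i j| * (t i ^ 2 + t j ^ 2) / 2 = ∑ i, ∑ j, |G i j| * t i ^ 2 := by
      have h5 : ∀ i j, |G i j| * (t i ^ 2 + t j ^ 2) / 2 =
          (|G i j| * t i ^ 2) / 2 + (|G i j| * t j ^ 2) / 2 := fun i j => by ring
      simp only [h5, Finset.sum_add_distrib, ← Finset.sum_div]
      rw [h3]; ring
    rw [h4, ← Finset.sum_neg_distrib, ← Finset.sum_add_distrib]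
    refine Finset.sum_congr rfl fun i _ => ?_
    rw [← Finset.sum_mul]; ring
  refine lt_of_lt_of_le ?_ (Finset.sum_le_sum fun i _ => Finset.sum_le_sum fun j _ => h1 i j)
  rw [h2]
  obtain ⟨i, hi⟩ := Function.ne_iff.1 ht
  refine Finset.sum_pos' (fun j _ => mul_nonneg (sq_nonneg _) (by linarith [hd j]))
    ⟨i, Finset.mem_univ _, mul_pos (pow_pos_of_ne hi) (by linarith [hd i])⟩
where
  pow_pos_of_ne {x : ℝ} (h : x ≠ (0 : ℝ)) : 0 < x ^ 2 := by positivity

theorem mat_one : X.piece.mat 1 = M6.one.fn := by rw [map_one, M6.fn_one]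

theorem exists_cocycle (d : Dat) (h : okD d = true) : ∃ u : SurfaceGroup 9 → Gen 3 → ℝ,
    Coc X.piece.lin u ∧ (∀ y, u (sgen y) = xr d.xs y) ∧
      vals u 1 (lets 9) = d.Us.map V6.r ∧ d.xs.length = 18 := by
  obtain ⟨xs, Us⟩ := d
  simp only [okD, Bool.and_eq_true, decide_eq_true_eq] at h
  obtain ⟨h1, h2, h3, h4⟩ := h
  have h1' : xs.length = 18 := Nat.eq_of_beq_eq_true h1
  cases Us with
  | nil => simp at h3
  | cons U Us =>
    simp only [List.head?_cons, Option.some.injEq] at h3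
    subst h3
    have hP : Pl = M6.one :: Pl.tail := by decide +kernel
    have hM : chkM ltn (M6.one :: Pl.tail) = true := by rw [← hP]; exact chkM_Pl
    rw [hP] at h2
    have h5 := track_walk xs ltn Pl.tail Us 1 M6.one V6.zero hM h2 mat_one
    have h6 : (V6.zero :: Us).getLast (List.cons_ne_nil _ _) = V6.zero := by
      rw [List.getLast?_eq_some_getLast (List.cons_ne_nil _ _)] at h4
      exact Option.some.inj h4
    rw [h6, V6.r_zero, ← lets9] at h5
    obtain ⟨u, hu, hx⟩ := exists_coc X.piece.lin (xr xs) h5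
    refine ⟨u, hu, hx, ?_, h1'⟩
    rw [lets9]
    exact track_vals xs u hu hx ltn Pl.tail Us 1 M6.one V6.zero hM h2 mat_one
      (by rw [hu.one, V6.r_zero])

theorem sum_getElem (L : List Dat) (f : Dat → ℕ) :
    ∑ i : Fin L.length, f L[i] = L.foldr (fun d s => f d + s) 0 := by
  induction L with
  | nil => simp
  | cons d L ih =>
    rw [List.foldr_cons, ← ih]
    exact Fin.sum_univ_succ _

theorem num_pos_aux (L : List Dat) (h1 : L.all okD = true) (h0 : L.all okL = true)
    (h2 : L.all (rowOK L) = true) :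
    ∃ c : Fin L.length → SurfaceGroup 9 → Gen 3 → ℝ, (∀ k, Coc X.piece.lin (c k)) ∧
    ∀ t : Fin L.length → ℝ, t ≠ 0 →
      0 < formT X.piece.lin (∑ k, t k • c k) (∑ k, t k • c k) := by
  rw [List.all_eq_true] at h0 h1 h2
  have h3 : ∀ k : Fin L.length, ∃ u : SurfaceGroup 9 → Gen 3 → ℝ,
      Coc X.piece.lin u ∧ (∀ y, u (sgen y) = xr (L[k]).xs y) ∧
      vals u 1 (lets 9) = (L[k]).Us.map V6.r ∧ (L[k]).xs.length = 18 :=
    fun k => exists_cocycle _ (h1 _ (List.getElem_mem _))
  choose c hc hx hv hl using h3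
  have hG : ∀ i j, formT X.piece.lin (c i) (c j) = (gram L[i] L[j] : ℝ) := by
    intro i j
    rw [formT_eq_pairR num_symp (hc i) (hc j), hv, hv, pairR_r]
    simp only [hx]
    rw [sum_oml _ _ (hl i) (hl j), gram]
    push_cast
    ring
  refine ⟨c, hc, fun t ht => ?_⟩
  have h4 : formT X.piece.lin (∑ k, t k • c k) (∑ k, t k • c k) =
      ∑ i, ∑ j, t i * t j * (gram L[i] L[j] : ℝ) := by
    rw [← formB_apply]
    simp only [map_sum, LinearMap.sum_apply, map_smul, LinearMap.smul_apply, formB_apply, hG,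
      smul_eq_mul, Finset.mul_sum]
    rw [Finset.sum_comm]
    refine Finset.sum_congr rfl fun i _ => Finset.sum_congr rfl fun j _ => ?_
    ring
  rw [h4]
  have hL : ∀ i : Fin L.length, okL L[i] = true := fun i => h0 _ (List.getElem_mem (l := L) i.2)
  refine diag_pos (fun i j => (gram L[i] L[j] : ℝ)) (fun i j => ?_) (fun i => ?_) t ht
  · rw [← hG, ← hG]
    exact formT_symm num_symp (hc i) (hc j)
  · have h5 := h2 _ (List.getElem_mem (l := L) i.2)
    simp only [rowOK, Bool.and_eq_true] at h5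
    have h51 : gm L[i] L[i] < gp L[i] L[i] := Nat.le_of_ble_eq_true h5.1
    have h52 : rowsum L L[i] < 2 * (gp L[i] L[i] - gm L[i] L[i]) := Nat.le_of_ble_eq_true h5.2
    have h6 := gram_eq (hL i) (hL i)
    have h7 : ∑ j : Fin L.length, (gram L[i] L[j]).natAbs = rowsum L L[i] := by
      rw [rowsum]
      have h71 := sum_getElem L (fun d' => absG L[i] d')
      rw [← Finset.sum_congr rfl fun j _ => (absG_eq (hL i) (hL j)).symm] at h71
      exact h71
    have h8 : ((rowsum L L[i] : ℕ) : ℤ) < 2 * gram L[i] L[i] := by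
      rw [h6]; omega
    have h9 : ((rowsum L L[i] : ℕ) : ℝ) < 2 * (gram L[i] L[i] : ℝ) := by exact_mod_cast h8
    calc ∑ j : Fin L.length, |(gram L[i] L[j] : ℝ)| = ((rowsum L L[i] : ℕ) : ℝ) := by
          rw [← h7]
          push_cast
          refine Finset.sum_congr rfl fun j _ => ?_
          rw [← Int.cast_abs, Int.abs_eq_natAbs, Int.cast_natCast]
      _ < _ := h9

theorem num_pos : ∃ c : Fin 50 → SurfaceGroup 9 → Gen 3 → ℝ, (∀ k, Coc X.piece.lin (c k)) ∧
    ∀ t : Fin 50 → ℝ, t ≠ 0 →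
      0 < formT X.piece.lin (∑ k, t k • c k) (∑ k, t k • c k) := by
  have h := num_pos_aux dlist okD_all okL_all rows_all
  rw [dlist_length] at h
  exact h

end H13SB.Num
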