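import Pool.Agent.H13.SB.Num.Pl

namespace H13SB.Num

def m12 : Dat := ⟨[⟨2, -3, 3, 0, 0, 11⟩, ⟨1, -4, 0, 1, 0, 2⟩, ⟨0, 4, 5, 0, -1, -4⟩, ⟨8, -3, -4, -1, -2, 1⟩, ⟨2, 13, 4, -2, 0, 0⟩, ⟨-1, -8, 0, -6, 6, 1⟩, ⟨2, -2, 0, -3, -1, 15⟩, ⟨-1, 0, 0, -7, 7, 2⟩, ⟨-23, -2, 13, 0, -9, -7⟩, ⟨-4, -2, 3, 25, -3, 20⟩, ⟨-9, 11, -1, 9, -3, -16⟩, ⟨6, 10, 3, 13, -7, 7⟩, ⟨-5, 11, -3, 8, -1, -14⟩, ⟨5, 8, 3, 10, -6, 3⟩, ⟨-3, 11, -4, 7, -1, -13⟩, ⟨5, 6, 3, 10, -6, 1⟩, ⟨-2, 10, -4, 6, 0, -13⟩, ⟨5, 5, 3, 10, -6, 0⟩],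
  [⟨0, 0, 0, 0, 0, 0⟩, ⟨2, -3, 3, 0, 0, 11⟩, ⟨8, 0, 1, -6, 4, 13⟩, ⟨21, 9, -17, -17, 8, 14⟩, ⟨20, 8, -14, -13, 2, 12⟩, ⟨25, 8, -10, -9, -11, 8⟩, ⟨-17, -19, 36, 14, -8, 9⟩, ⟨-27, -22, 24, 8, 17, 14⟩, ⟨-29, -19, 30, 9, 13, 13⟩, ⟨-1, -6, 30, 7, 13, 13⟩, ⟨-2, -14, 18, 1, 27, 14⟩, ⟨-19, -12, 5, 1, -103, 1⟩, ⟨-18, -4, 5, 7, -119, 0⟩, ⟨-16, -6, 5, 4, 30, 15⟩, ⟨-37, -6, 5, -3, 37, 17⟩, ⟨-24, -3, -147, -4, -125, 2⟩, ⟨-23, -3, -167, 3, -82, 0⟩, ⟨-46, -5, -224, 3, -161, -7⟩, ⟨-50, -7, -41, 28, 241, 13⟩, ⟨-52, 2, 74, 21, 263, 20⟩, ⟨-48, 4, -89, -4, -94, 0⟩, ⟨-57, 15, -218, 5, -153, -16⟩, ⟨-51, 25, -166, 18, -20, -9⟩,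 ⟨-28, 12, -15, 11, 58, 7⟩, ⟨-34, 2, -60, -2, -55, 0⟩, ⟨-39, 13, -147, 6, -92, -14⟩, ⟨-34, 21, -129, 16, -33, -11⟩, ⟨-9, 8, -26, 10, 23, 3⟩, ⟨-14, 0, -41, 0, -23, 0⟩, ⟨-17, 11, -97, 7, -48, -13⟩, ⟨-12, 17, -91, 17, -21, -12⟩, ⟨8, 5, -25, 11, 11, 1⟩, ⟨3, -1, -30, 1, -5, 0⟩, ⟨1, 9, -60, 7, -19, -13⟩, ⟨6, 14, -57, 17, -15, -13⟩, ⟨5, 5, 3, 10, -6, 0⟩, ⟨0, 0, 0, 0, 0, 0⟩]⟩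

def m13 : Dat := ⟨[⟨-1, -3, -14, -10, 3, 2⟩, ⟨-3, 15, 13, 15, 2, 16⟩, ⟨1, -24, -38, -6, 1, 18⟩, ⟨-27, 25, -9, 14, 18, 7⟩, ⟨-5, -5, 4, -7, -2, 11⟩, ⟨-4, 0, 6, 3, -3, 2⟩, ⟨0, 5, -3, 12, 0, -2⟩, ⟨7, 2, -4, 1, -1, 0⟩, ⟨2, 6, 0, -12, -2, 14⟩, ⟨-2, 2, -1, -5, 8, 4⟩, ⟨-3, 4, -2, 3, 0, -5⟩, ⟨2, 3, 1, 5, -3, 1⟩, ⟨-2, 4, -3, 3, 0, -5⟩, ⟨2, 2, 2, 5, -3, -1⟩, ⟨-2, 5, -3, 2, 1, -6⟩, ⟨3, 2, 2, 6, -3, -1⟩, ⟨-2, 6, -3, 3, 1, -6⟩, ⟨3, 2, 2, 6, -4, -2⟩],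
  [⟨0, 0, 0, 0, 0, 0⟩, ⟨-1, -3, -14, -10, 3, 2⟩, ⟨-35, -20, 0, 37, 37, 18⟩, ⟨-15, -37, 36, 38, 74, 15⟩, ⟨-43, -52, 24, 23, 24, -1⟩, ⟨-87, -58, 1, -1, 79, 17⟩, ⟨-31, 3, -91, -23, 132, 24⟩, ⟨20, 20, 0, 23, -28, -9⟩, ⟨-3, -5, -19, 9, -88, -16⟩, ⟨-18, -10, -29, 2, -24, -5⟩, ⟨-22, -10, -17, 5, -11, -3⟩, ⟨-21, -3, -10, -6, 40, 2⟩, ⟨-17, -3, -16, -9, 23, 0⟩, ⟨-17, 2, -19, 3, 3, -2⟩, ⟨-10, 4, -23, 4, -18, -2⟩, ⟨-9, -8, -3, 11, 84, 0⟩, ⟨-16, -10, 1, 10, 75, 0⟩, ⟨-14, -4, 141, -2, 93, 14⟩, ⟨-16, -2, 176, -7, 92, 18⟩, ⟨-12, 2, 36, -5, -4, 4⟩, ⟨-10, 0, 5, 0, -4, 0⟩, ⟨-13, 4, -37, 3, -20, -5⟩, ⟨-11, 7, -29, 8, 19, -4⟩,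 ⟨-1, 2, 15, 6, 43, 1⟩, ⟨-3, -1, 8, 1, 10, 0⟩, ⟨-5, 3, -25, 4, -2, -5⟩, ⟨-3, 5, -28, 9, 15, -6⟩, ⟨8, 0, 7, 7, 35, -1⟩, ⟨6, -2, 9, 2, 22, 0⟩, ⟨4, 3, -18, 4, 7, -6⟩, ⟨7, 5, -19, 10, 19, -7⟩, ⟨-3, 2, 10, 6, 10, -1⟩, ⟨-6, 0, 10, 0, 3, 0⟩, ⟨-8, 6, -5, 3, -2, -6⟩, ⟨-5, 8, -5, 9, -2, -8⟩, ⟨3, 2, 2, 6, -4, -2⟩, ⟨0, 0, 0, 0, 0, 0⟩]⟩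

def m14 : Dat := ⟨[⟨1, 2, -4, 1, 1, 3⟩, ⟨0, 5, 1, 6, 3, 3⟩, ⟨0, -5, -8, -1, 0, 5⟩, ⟨-4, 6, -3, 3, 4, 3⟩, ⟨0, 2, 4, 0, 0, 7⟩, ⟨0, -4, 4, 0, 1, -2⟩, ⟨0, 2, -9, -2, -1, 1⟩, ⟨-1, 6, 2, 1, 1, 1⟩, ⟨-12, 4, -2, 16, 1, -24⟩, ⟨7, 7, 5, 16, -14, -1⟩, ⟨-4, 11, -5, 8, 3, -15⟩, ⟨7, 9, 4, 7, -9, -5⟩, ⟨-1, 1, -2, 1, -1, -2⟩, ⟨1, 3, 0, 2, -1, 2⟩, ⟨2, -9, 0, -5, -6, 10⟩, ⟨-5, -2, -3, -2, 6, 9⟩, ⟨9, -30, 6, -15, -15, 32⟩, ⟨-17, -13, -10, -11, 19, 25⟩],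
  [⟨0, 0, 0, 0, 0, 0⟩, ⟨1, 2, -4, 1, 1, 3⟩, ⟨-5, 6, -8, 8, 10, 6⟩, ⟨13, 5, 6, 6, 2, 0⟩, ⟨6, -1, 1, 1, -10, -3⟩, ⟨-3, -2, -4, -4, 5, 2⟩, ⟨0, 6, -14, -3, 24, 5⟩, ⟨15, 11, 2, 5, -10, -2⟩, ⟨7, 5, -1, 2, -32, -5⟩, ⟨11, 7, 3, 2, 10, 2⟩, ⟨11, 3, 7, 2, -5, 0⟩, ⟨5, 3, 5, -5, -32, -2⟩, ⟨5, 7, 1, -5, -13, 0⟩, ⟨5, 9, -8, -7, -4, 1⟩, ⟨-6, 15, -6, -6, -63, 2⟩, ⟨4, 17, -16, -10, -114, 1⟩, ⟨5, 11, -28, -11, -135, 0⟩, ⟨-7, 15, -270, 5, -214, -24⟩, ⟨0, 22, -274, 21, -93, -25⟩, ⟨12, 10, -28, 13, 40, -1⟩, ⟨5, 3, -25, -3, -66, 0⟩, ⟨1, 14, -150, 5, -119, -15⟩, ⟨8, 23, -181, 12, -114, -20⟩, ⟨23, 11, -56, 5, -62, -5⟩, ⟨16, 2, -30,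 -2, -65, 0⟩, ⟨15, 3, -44, -1, -72, -2⟩, ⟨16, 6, -34, 1, -53, 0⟩, ⟨17, 5, -16, 0, -46, 2⟩, ⟨16, 2, -24, -2, -61, 0⟩, ⟨18, -7, 16, -7, -47, 10⟩, ⟨13, -9, 40, -9, -20, 19⟩, ⟨3, 0, -6, -4, -31, 9⟩, ⟨8, 2, -21, -2, -51, 0⟩, ⟨17, -28, 49, -17, -32, 32⟩, ⟨0, -41, 64, -28, 1, 57⟩, ⟨-17, -13, -10, -11, 19, 25⟩, ⟨0, 0, 0, 0, 0, 0⟩]⟩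

def m15 : Dat := ⟨[⟨0, 1, -1, 0, 0, 0⟩, ⟨0, 1, 0, 1, 1, 1⟩, ⟨0, -2, -2, -1, 0, 1⟩, ⟨-1, 1, -1, 1, 1, 1⟩, ⟨0, 0, 0, 0, 0, 1⟩, ⟨0, -1, 1, 0, 0, 0⟩, ⟨0, 0, -2, -1, 0, 0⟩, ⟨0, 1, 1, 0, 0, 0⟩, ⟨-3, 1, -1, 3, 0, -6⟩, ⟨2, 2, 1, 4, -4, -1⟩, ⟨-2, 6, -2, 4, 3, -8⟩, ⟨4, 4, 2, 3, -5, -4⟩, ⟨-1, 4, -2, 3, 2, -5⟩, ⟨2, 2, 2, 2, -3, -3⟩, ⟨13, -36, 7, -18, -15, 38⟩, ⟨-20, -19, -12, -13, 23, 25⟩, ⟨-8, 19, -3, 9, 6, -19⟩, ⟨11, 13, 6, 6, -11, -10⟩],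
  [⟨0, 0, 0, 0, 0, 0⟩, ⟨0, 1, -1, 0, 0, 0⟩, ⟨-1, 2, -2, 1, 3, 1⟩, ⟨1, 2, 0, 1, 1, 0⟩, ⟨0, 1, -1, 0, -3, -1⟩, ⟨-3, 0, -3, -2, 0, 0⟩, ⟨-4, 1, -4, -1, 6, 1⟩, ⟨-1, 2, 2, 2, 2, 0⟩, ⟨-2, 1, 1, 1, -5, -1⟩, ⟨-2, 1, 1, 1, 1, 0⟩, ⟨-2, 0, 2, 1, 1, 0⟩, ⟨-2, 0, 2, 0, 0, 0⟩, ⟨-2, 1, 1, 0, 0, 0⟩, ⟨-2, 1, -1, -1, 0, 0⟩, ⟨-2, 2, 0, -1, -10, 0⟩, ⟨0, 3, 0, -2, -21, 0⟩, ⟨0, 2, -1, -2, -21, 0⟩, ⟨-3, 3, -62, 1, -51, -6⟩, ⟨-1, 5, -70, 5, -28, -7⟩, ⟨-2, 4, -11, 2, -7, -1⟩, ⟨-4, 2, -4, -2, -27, 0⟩, ⟨-6, 8, -70, 2, -56, -8⟩, ⟨-2, 12, -96, 5, -68, -12⟩, ⟨4, 6, -30, 1, -45, -4⟩, ⟨0, 2, -8, -2, -34, 0⟩, ⟨-1, 6, -40, 1, -44, -5⟩, ⟨1,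 8, -53, 3, -52, -8⟩, ⟨11, 3, -19, 1, -34, -3⟩, ⟨9, 1, -9, -1, -27, 0⟩, ⟨22, -35, 150, -19, 38, 38⟩, ⟨2, -54, 213, -32, 97, 63⟩, ⟨-29, -20, 58, -12, 76, 25⟩, ⟨-9, -1, 20, 1, 29, 0⟩, ⟨-17, 18, -21, 10, 15, -19⟩, ⟨-6, 31, -25, 16, 0, -29⟩, ⟨11, 13, 6, 6, -11, -10⟩, ⟨0, 0, 0, 0, 0, 0⟩]⟩

def m16 : Dat := ⟨[⟨0, -1, 1, 0, -1, 0⟩, ⟨0, -1, 0, -1, -1, 0⟩, ⟨0, 1, 1, 0, 0, -1⟩, ⟨1, -1, 1, 0, -1, -1⟩, ⟨0, 0, 0, 0, 0, -1⟩, ⟨0, 0, -1, 0, 0, 0⟩, ⟨0, 0, 2, 1, 0, 0⟩, ⟨0, -1, 0, 0, 0, 0⟩, ⟨3, -1, 0, -3, 0, 5⟩, ⟨-1, -1, -1, -4, 3, 0⟩, ⟨5, -17, 5, -11, -8, 22⟩, ⟨-10, -9, -7, -8, 13, 14⟩, ⟨-13, 35, -6, 18, 15, -37⟩, ⟨20, 19,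 12, 13, -23, -25⟩, ⟨3, -5, 0, -2, -1, 4⟩, ⟨-3, -5, -1, -1, 3, 1⟩, ⟨4, -8, 1, -4, -3, 8⟩, ⟨-5, -6, -3, -2, 5, 4⟩],
  [⟨0, 0, 0, 0, 0, 0⟩, ⟨0, -1, 1, 0, -1, 0⟩, ⟨1, -2, 2, -1, -2, 0⟩, ⟨0, -1, -1, -2, 0, 1⟩, ⟨1, 0, 0, -1, 1, 1⟩, ⟨2, 0, 1, 0, -2, 0⟩, ⟨2, -1, 3, 0, -8, -1⟩, ⟨-1, -2, 1, -1, -3, 0⟩, ⟨0, -1, 0, -1, 4, 1⟩, ⟨0, -1, 0, -1, -2, 0⟩, ⟨0, -1, -1, -1, -2, 0⟩, ⟨0, -1, -1, 0, -1, 0⟩, ⟨0, -1, 0, 0, -1, 0⟩, ⟨0, -1, 2, 1, -1, 0⟩, ⟨0, -2, 2, 1, 9, 0⟩, ⟨-2, -3, 2, 2, 20, 0⟩, ⟨-2, -2, 2, 2, 20, 0⟩, ⟨1, -3, 52, -1, 40, 5⟩, ⟨0, -4, 51, -5, 7, 5⟩, ⟨-2, -2, -1, -3, -18, 0⟩, ⟨-1, -1, 0, 1, 11, 0⟩, ⟨4, -18, 181, -10,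 91, 22⟩, ⟨-6, -27, 272, -18, 146, 36⟩, ⟨-23, -10, 93, -7, 83, 14⟩, ⟨-13, -1, 16, 1, 34, 0⟩, ⟨-26, 34, -212, 19, -65, -37⟩, ⟨-6, 53, -325, 32, -148, -62⟩, ⟨34, 19, -105, 13, -84, -25⟩, ⟨14, 0, -17, 0, -13, 0⟩, ⟨17, -5, -1, -2, -6, 4⟩, ⟨14, -10, 1, -3, -3, 5⟩, ⟨5, -5, -5, -1, -4, 1⟩, ⟨8, 0, -6, 0, -7, 0⟩, ⟨12, -8, 11, -4, -2, 8⟩, ⟨7, -14, 12, -6, 5, 12⟩, ⟨-5, -6, -3, -2, 5, 4⟩, ⟨0, 0, 0, 0, 0, 0⟩]⟩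

def m17 : Dat := ⟨[⟨1, 2, -3, 0, 1, 2⟩, ⟨-1, 4, 1, 4, 2, 2⟩, ⟨0, -6, -8, -2, 0, 5⟩, ⟨-5, 6, -3, 3, 3, 3⟩, ⟨-1, 0, 2, -2, 0, 3⟩, ⟨-1, -2, 2, 0, 0, 0⟩, ⟨0, 0, -8, -3, -1, -1⟩, ⟨-2, 5, 2, 1, 0, 1⟩, ⟨-17, 10, -1, 22, 5, -35⟩, ⟨11, 11, 8, 19, -22, -8⟩, ⟨6, -22, 6, -15, -14, 29⟩, ⟨-13, -10, -9, -8, 18, 22⟩, ⟨-2, -6, 3, -4, -7, 9⟩, ⟨-3, 2, -3, -3, 5, 11⟩, ⟨-6, 4, 0, 2, -2, -3⟩, ⟨3, 8, 1, 1, -2, 3⟩, ⟨-7, 10, -1, 4, 1, -9⟩, ⟨6, 10, 3, 2, -6, -2⟩],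
  [⟨0, 0, 0, 0, 0, 0⟩, ⟨1, 2, -3, 0, 1, 2⟩, ⟨-6, 2, -4, 8, 7, 4⟩, ⟨6, 1, 6, 7, 2, 0⟩, ⟨1, -3, 3, 3, -6, -2⟩, ⟨-9, -5, -3, -3, 9, 3⟩, ⟨-3, 5, -17, -4, 27, 6⟩, ⟨12, 10, 1, 5, -1, 0⟩, ⟨5, 4, -2, 2, -22, -3⟩, ⟨4, 4, -4, 0, -4, 0⟩, ⟨3, 2, -2, 0, -4, 0⟩, ⟨1, 4, -2, -3, -4, 0⟩, ⟨2, 6, -4, -3, -4, 0⟩, ⟨2, 6, -12, -6, -15, -1⟩, ⟨-10, 11, -10, -5, -65, 0⟩, ⟨-3, 14, 0, -8, -87, 1⟩, ⟨-1, 9, -12, -9, -107, 0⟩, ⟨-18, 19, -363, 13, -232, -35⟩, ⟨-7, 30, -427, 32, -155, -43⟩, ⟨13, 11, -70, 19, 25, -8⟩, ⟨2, 0, -14, 0, -41, 0⟩, ⟨8, -22, 224, -15, 57, 29⟩, ⟨-5, -32, 369, -23, 173, 51⟩, ⟨-30, -9, 131, -9, 86, 22⟩, ⟨-17, 1, 8,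 -1, -16, 0⟩, ⟨-19, -5, 65, -5, 7, 9⟩, ⟨-22, -3, 117, -8, 52, 20⟩, ⟨-17, 2, 56, -3, 45, 11⟩, ⟨-14, 0, 15, 0, 8, 0⟩, ⟨-20, 4, 3, 2, 2, -3⟩, ⟨-17, 12, 13, 3, 12, 0⟩, ⟨2, 7, 23, 2, 27, 3⟩, ⟨-1, -1, 16, 1, 21, 0⟩, ⟨-8, 9, -3, 5, 12, -9⟩, ⟨-2, 19, -2, 7, 6, -11⟩, ⟨6, 10, 3, 2, -6, -2⟩, ⟨0, 0, 0, 0, 0, 0⟩]⟩

def m18 : Dat := ⟨[⟨0, 0, -4, 0, 2, 7⟩, ⟨3, 2, 0, 7, 2, 4⟩, ⟨2, 4, 1, 4, -2, -3⟩, ⟨4, -2, -3, 0, 4, 2⟩, ⟨15, 21, 29, 16, 12, 26⟩, ⟨11, -34, 18, -23, 14, -26⟩, ⟨0, 4, -2, 4, 0, 6⟩, ⟨2, 3, 0, -2, 4, 0⟩, ⟨7, -7, 0, -10, -9, 18⟩, ⟨-6, -5, -6, -5, 12, 13⟩, ⟨2, -9, 1, -5, -9, 11⟩, ⟨-5, -3, -4, -2, 8, 13⟩, ⟨0, -7,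 2, -4, -8, 9⟩, ⟨-4, -1, -3, -2, 6, 12⟩, ⟨-1, -6, 1, -3, -7, 6⟩, ⟨-3, 1, -2, -2, 4, 10⟩, ⟨-2, -4, 1, -2, -6, 5⟩, ⟨-2, 2, -2, -2, 3, 9⟩],
  [⟨0, 0, 0, 0, 0, 0⟩, ⟨0, 0, -4, 0, 2, 7⟩, ⟨4, 13, -14, -4, 12, 11⟩, ⟨21, 14, -10, -9, 12, 7⟩, ⟨14, 7, -15, -11, -2, 3⟩, ⟨19, 11, -9, -7, -13, 0⟩, ⟨-7, -5, 18, 7, 1, 2⟩, ⟨-14, -6, 12, 5, -30, -3⟩, ⟨-14, -4, 15, 5, -46, -5⟩, ⟨43, 17, 76, 21, 122, 21⟩, ⟨54, -17, 48, -2, -72, -5⟩, ⟨4, -33, 15, -28, -339, -26⟩, ⟨-7, 1, -3, -5, -93, 0⟩, ⟨-7, 5, -5, -1, -33, 6⟩, ⟨-5, 8, -5, -3, -59, 6⟩, ⟨3, 4, -65, -3, -115, 0⟩, ⟨1, 1, -65, -1, -99, 0⟩, ⟨8, -6, 115, -11, -28, 18⟩, ⟨2, -11, 226,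 -16, 56, 31⟩, ⟨-5, -2, 48, -8, -15, 13⟩, ⟨1, 3, -50, -3, -91, 0⟩, ⟨3, -6, 39, -8, -52, 11⟩, ⟨-2, -9, 126, -10, 33, 24⟩, ⟨-7, -1, 39, -4, 13, 13⟩, ⟨-2, 2, -35, -2, -61, 0⟩, ⟨-2, -5, 21, -6, -39, 9⟩, ⟨-6, -6, 78, -8, 17, 21⟩, ⟨-5, 0, 20, -3, 11, 12⟩, ⟨-1, 1, -25, -1, -35, 0⟩, ⟨-2, -5, 0, -4, -30, 6⟩, ⟨-5, -4, 28, -6, -2, 16⟩, ⟨-10, 2, 13, -3, 1, 10⟩, ⟨-7, 1, -5, -1, -19, 0⟩, ⟨-9, -3, 6, -3, -19, 5⟩, ⟨-11, -1, 13, -5, -9, 14⟩, ⟨-2, 2, -2, -2, 3, 9⟩, ⟨0, 0, 0, 0, 0, 0⟩]⟩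

def m19 : Dat := ⟨[⟨1, 4, 0, 4, 0, 1⟩, ⟨-1, 3, 0, 3, 4, -2⟩, ⟨10, 6, 8, 11, -5, -4⟩, ⟨5, -9, -2, -7, 9, 1⟩, ⟨-8, -5, -14, -29, -11, 16⟩, ⟨-20, 13, 11, 22, -3, 10⟩, ⟨1, -20, -46, -3, -3, -3⟩, ⟨-2, 31, -12, 0, -2, 5⟩, ⟨8, -16, -3, -2, -12, 11⟩, ⟨-6, -9, -7, 2, 8, 18⟩, ⟨1, -5, -2, -2, -7, 5⟩, ⟨-2, 0, -2, 2, 3, 10⟩, ⟨-1, -3, -2, -1, -6, 3⟩, ⟨-2, 1, -1, 2, 2, 9⟩, ⟨-2, -2, -2, 0, -5, 2⟩, ⟨-1, 2, -1, 3, 2, 8⟩, ⟨-2, -1, -2, -1, -5, 2⟩, ⟨-1, 3, -1, 2, 1, 7⟩],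
  [⟨0, 0, 0, 0, 0, 0⟩, ⟨1, 4, 0, 4, 0, 1⟩, ⟨-4, 5, -2, 9, 0, -1⟩, ⟨5, 9, 1, 8, -21, -6⟩, ⟨2, 6, -1, 5, -19, -4⟩, ⟨21, 17, 15, 11, -36, -8⟩, ⟨-4, -6, 43, 18, -22, -7⟩, ⟨-16, -5, 23, 13, -108, -20⟩, ⟨-3, 4, 39, 20, -123, -21⟩, ⟨-21, -1, -33, -9, -38, -5⟩, ⟨-41, 12, 22, 13, 39, 5⟩, ⟨-22, 41, 38, -3, 110, 10⟩, ⟨-2, 28, 27, -25, 13, 0⟩, ⟨-1, 8, -19, -28, -20, -3⟩, ⟨-53, 39, -31, -28, -332, 2⟩, ⟨-11, 42, -2, -11, -132, 5⟩, ⟨-9, 11, -40, -11, -180, 0⟩, ⟨-1, -5, 67, -13, -102, 11⟩, ⟨-7, -14, 222, -11, 86, 29⟩, ⟨-22, -5, 111, -2, 80, 18⟩, ⟨-16, 4, -26, -4, -88, 0⟩, ⟨-15, -1, 12, -6, -71, 5⟩, ⟨-17, -1, 80, -4, 16,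 15⟩, ⟨-19, 3, 42, -1, 12, 10⟩, ⟨-17, 3, -16, -3, -63, 0⟩, ⟨-18, 0, 0, -4, -57, 3⟩, ⟨-20, 1, 44, -2, 0, 12⟩, ⟨-16, 3, 30, 0, 7, 9⟩, ⟨-14, 2, -5, -2, -39, 0⟩, ⟨-16, 0, 1, -2, -36, 2⟩, ⟨-17, 2, 24, 1, -1, 10⟩, ⟨-1, 2, 22, 3, 20, 8⟩, ⟨0, 0, 7, 0, -4, 0⟩, ⟨-2, -1, 9, -1, -7, 2⟩, ⟨-3, 2, 15, 1, 3, 9⟩, ⟨-1, 3, -1, 2, 1, 7⟩, ⟨0, 0, 0, 0, 0, 0⟩]⟩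

def m20 : Dat := ⟨[⟨2, -1, 4, -4, -2, -9⟩, ⟨-3, -1, 3, -7, -4, -2⟩, ⟨15, 4, 11, 16, -3, -7⟩, ⟨-1, -16, 0, -11, 16, -4⟩, ⟨5, 1, 14, -16, 9, 31⟩, ⟨-12, -12, 24, -14, 1, -11⟩, ⟨0, -17, -11, 14, -1, -8⟩, ⟨11, 4, -24, 3, -6, 1⟩, ⟨-11, 23, 4, -3, 21, -9⟩, ⟨7, 15, 9, -7, -7, -27⟩, ⟨-4, 7, 4, 2, 12, -6⟩, ⟨4, 3, 3, -3, -5, -16⟩, ⟨-2, 5, 3, 2, 11, -5⟩, ⟨3, 1, 2, -3, -4, -14⟩, ⟨-1, 5, 3, 2, 10, -5⟩, ⟨3, 0, 2, -3, -3, -13⟩, ⟨0, 4, 2, 2, 9, -4⟩, ⟨3, 0, 2, -3, -3, -12⟩],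
  [⟨0, 0, 0, 0, 0, 0⟩, ⟨2, -1, 4, -4, -2, -9⟩, ⟨-6, -20, 20, 7, -10, -11⟩, ⟨-24, -26, 24, 14, 2, -5⟩, ⟨-20, -19, 28, 15, 12, -3⟩, ⟨7, -3, 47, 19, -12, -10⟩, ⟨5, -17, 48, 6, -16, -14⟩, ⟨-25, -21, 41, 10, -147, -34⟩, ⟨8, -5, 63, 21, -139, -30⟩, ⟨15, -4, 45, 5, 56, 1⟩, ⟨3, -16, 41, -9, -31, -10⟩, ⟨-12, 0, 31, -40, -61, -11⟩, ⟨0, 12, 7, -26, 48, 0⟩, ⟨0, -5, -4, -12, -33, -8⟩, ⟨1, -1, -28, -9, -79, -7⟩, ⟨4, -15, 52, 22, 326, 1⟩, ⟨-7, -19, 66, 19, 292, 0⟩, ⟨-18, 4, -20, 16, 193, -9⟩, ⟨-11, 19, -254, 9, -120, -36⟩, ⟨7, 11, -162, -3, -166, -27⟩, ⟨0, -4, 45, 4, 113, 0⟩, ⟨-4, 3, 1, 6, 93, -6⟩, ⟨0, 6, -108, 3, -45,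 -22⟩, ⟨4, 1, -60, -1, -46, -16⟩, ⟨0, -2, 33, 2, 73, 0⟩, ⟨-2, 3, 6, 4, 66, -5⟩, ⟨1, 4, -62, 1, -23, -19⟩, ⟨2, 0, -31, -2, -27, -14⟩, ⟨-1, -1, 23, 1, 45, 0⟩, ⟨-2, 4, 6, 3, 43, -5⟩, ⟨1, 4, -31, 0, -8, -18⟩, ⟨-1, 0, -12, -3, -18, -13⟩, ⟨-4, 0, 12, 0, 17, 0⟩, ⟨-4, 4, 6, 2, 22, -4⟩, ⟨-1, 4, -4, -1, 4, -16⟩, ⟨3, 0, 2, -3, -3, -12⟩, ⟨0, 0, 0, 0, 0, 0⟩]⟩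

def m21 : Dat := ⟨[⟨18, 7, 31, 10, -14, -24⟩, ⟨-16, -1, -1, -21, -3, -23⟩, ⟨0, -32, -6, -14, -9, 9⟩, ⟨-20, 8, -12, 0, -7, 6⟩, ⟨1, -5, 22, -7, 11, -1⟩, ⟨-6, -15, -1, -28, -4, 3⟩, ⟨1, -12, -11, -25, -1, -6⟩, ⟨-20, 6, 10, 1, -5, 2⟩, ⟨14, -22, -3, 14, -7, -6⟩, ⟨0, -17, -7, 4, -5, 9⟩, ⟨0, 1, 0, 1, 6, -2⟩, ⟨1, 0, 1, 0, -2, -7⟩, ⟨-1, 2, 0, 1, 6, -2⟩, ⟨1, 0, 1, 0, -2, -7⟩, ⟨-1, 1, 0, 0, 5, -1⟩, ⟨1, 0, 1, 0, -1, -6⟩, ⟨-1, 1, 0, 1, 5, -1⟩, ⟨1, 0, 1, 0, -1, -6⟩],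
  [⟨0, 0, 0, 0, 0, 0⟩, ⟨18, 7, 31, 10, -14, -24⟩, ⟨-12, -44, 66, 39, -63, -47⟩, ⟨-30, -34, 72, 49, -125, -44⟩, ⟨-8, -13, 89, 50, -53, -21⟩, ⟨-28, -27, 57, 18, -35, -12⟩, ⟨-8, -3, 5, 2, -12, -6⟩, ⟨37, 15, 45, 22, 42, 2⟩, ⟨41, 7, 57, 22, 13, -4⟩, ⟨32, 2, 65, 15, 18, -5⟩, ⟨26, -13, 8, -13, 38, -2⟩, ⟨9, -6, 2, -12, 95, 3⟩, ⟨15, 9, 3, 16, 69, 0⟩, ⟨16, -3, -8, -9, 8, -6⟩, ⟨-24, 3, 2, -8, -57, -4⟩, ⟨-20, 28, 61, -21, -151, 2⟩, ⟨0, 22, 31, -22, -176, 0⟩, ⟨14, 0, -32, -8, -103, -6⟩, ⟨14, -17, 42, -4, 9, 3⟩, ⟨-6, -17, 87, 4, 127, 9⟩, ⟨-6, 0, 22, 0, 28, 0⟩, ⟨-6, 1, 6, 1, 26, -2⟩, ⟨-5, 1, -42, 1, -25, -9⟩, ⟨-5, 0, -24,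 0, -24, -7⟩, ⟨-6, 0, 17, 0, 20, 0⟩, ⟨-7, 2, 5, 1, 20, -2⟩, ⟨-6, 2, -29, 1, -17, -9⟩, ⟨-3, 0, -17, 0, -18, -7⟩, ⟨-4, 0, 10, 0, 12, 0⟩, ⟨-5, 1, 6, 0, 13, -1⟩, ⟨-4, 1, -11, 0, -6, -7⟩, ⟨-10, 1, -7, -1, -18, -6⟩, ⟨-11, 1, 4, -1, -5, 0⟩, ⟨-12, 2, 2, 0, 0, -1⟩, ⟨-11, 2, -3, 0, -7, -7⟩, ⟨1, 0, 1, 0, -1, -6⟩, ⟨0, 0, 0, 0, 0, 0⟩]⟩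

def m22 : Dat := ⟨[⟨-9, 7, -17, 1, 8, 5⟩, ⟨7, 5, -6, 10, 9, 4⟩, ⟨-5, 11, -2, 1, 5, 0⟩, ⟨9, 2, 6, 2, -2, -1⟩, ⟨1, 1, 0, 11, 2, 3⟩, ⟨11, -1, 3, 8, 1, -10⟩, ⟨0, 13, -14, -3, -1, -8⟩, ⟨-2, 7, 15, 0, -8, 1⟩, ⟨18, -18, -10, 19, -4, -7⟩, ⟨12, -1, -12, -7, -7, 4⟩, ⟨-31, 4, -2, -5, 23, 6⟩, ⟨0, 31, -1, 2, 6, -23⟩, ⟨-30, 1, 0, -2, 16, 4⟩, ⟨0, 28, -1, 1, 4, -15⟩, ⟨-28, 1, 0, -2, 12, 3⟩, ⟨0, 27, -1, 1, 3, -12⟩, ⟨-27, 1, 0, -2, 11, 3⟩, ⟨0, 26, -1, 0, 3, -11⟩],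
  [⟨0, 0, 0, 0, 0, 0⟩, ⟨-9, 7, -17, 1, 8, 5⟩, ⟨6, 43, -46, -20, 25, 9⟩, ⟨13, 39, -37, -17, 17, 0⟩, ⟨9, 29, -49, -22, -4, -4⟩, ⟨8, 30, -43, -11, 1, -4⟩, ⟨5, 26, -25, -3, -6, -5⟩, ⟨0, 21, -38, -12, 8, -3⟩, ⟨-13, 19, -48, -14, 16, -2⟩, ⟨-10, 20, -26, -3, 36, 1⟩, ⟨1, 19, -7, 5, -43, -9⟩, ⟨0, 8, -10, 2, -68, -10⟩, ⟨-11, 9, -13, -6, 31, 0⟩, ⟨-11, 22, -27, -9, -50, -8⟩, ⟨-23, 29, -12, -9, -128, -7⟩, ⟨-17, 32, 68, -25, -210, 1⟩, ⟨-15, 25, 43, -25, -212, 0⟩, ⟨3, 7, -37, -6, -96, -7⟩, ⟨15, 6, -13, -13, -130, -3⟩, ⟨16, -7, 35, -1, 35, 4⟩, ⟨4, -6, 15, 6, 66, 0⟩, ⟨-27, -2, 61, 1, 97, 6⟩, ⟨-27, 29, -101, 3, -44, -17⟩,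 ⟨2, 29, -127, 4, -94, -23⟩, ⟨2, -2, 12, 2, 26, 0⟩, ⟨-28, -1, 36, 0, 54, 4⟩, ⟨-28, 27, -40, 1, -12, -11⟩, ⟨8, 26, -40, 3, -21, -15⟩, ⟨8, -2, 21, 2, 31, 0⟩, ⟨-20, -1, 33, 0, 47, 3⟩, ⟨-20, 26, -4, 1, 17, -9⟩, ⟨5, 26, -6, 2, 1, -12⟩, ⟨5, -1, 19, 1, 20, 0⟩, ⟨-22, 0, 25, -1, 33, 3⟩, ⟨-22, 26, 13, -1, 25, -8⟩, ⟨0, 26, -1, 0, 3, -11⟩, ⟨0, 0, 0, 0, 0, 0⟩]⟩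

def m23 : Dat := ⟨[⟨-6, 5, -16, -7, 7, 3⟩, ⟨-2, 3, 7, 7, 4, 10⟩, ⟨23, 13, 12, 24, 15, 11⟩, ⟨-2, -9, 4, -22, 41, -15⟩, ⟨-2, -18, 3, -1, 7, 6⟩, ⟨-1, 18, 8, -32, -21, 8⟩, ⟨2, 9, 19, -4, -1, -6⟩, ⟨-5, -17, 15, 12, -7, 0⟩, ⟨26, 8, 11, 10, -35, -18⟩, ⟨13, -26, 9, -6, -21, 30⟩, ⟨20, 2, -1, 5, -11, -8⟩, ⟨6, -14, 3, -2, -10, 9⟩, ⟨3, -1, -5, 1, 4, 0⟩, ⟨-1, -2, 0, 4, 0, -3⟩, ⟨-1, -3, -6, -1, 7, 2⟩, ⟨-2, 1, -1, 4, 2, -6⟩, ⟨-3, -2, -6, -1, 7, 2⟩, ⟨-3, 3, -1, 5, 3, -6⟩],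
  [⟨0, 0, 0, 0, 0, 0⟩, ⟨-6, 5, -16, -7, 7, 3⟩, ⟨-20, -6, -7, 14, 31, 13⟩, ⟨-19, -15, 4, 18, 48, 10⟩, ⟨-33, -22, 3, 15, 14, 0⟩, ⟨3, 2, 39, 28, 62, 11⟩, ⟨38, 5, 6, -6, 28, -4⟩, ⟨18, 1, -13, -4, -194, -39⟩, ⟨38, 10, 27, 18, -145, -24⟩, ⟨0, -8, 28, 17, -102, -18⟩, ⟨-1, 10, -28, -15, -59, -10⟩, ⟨14, 11, -17, -21, 118, 8⟩, ⟨15, -7, -25, 11, 59, 0⟩, ⟨17, 2, -6, 7, -2, -6⟩, ⟨12, -15, 9, 19, 161, -6⟩, ⟨-15, -11, 67, 6, 88, 0⟩, ⟨-10, 6, 52, -6, -25, 0⟩, ⟨16, 14, -117, 4, -140, -18⟩, ⟨29, -12, 162, -2, 55, 12⟩, ⟨5, -22, 285, -10, 149, 30⟩, ⟨-8, 4, 36, -4, -22, 0⟩, ⟨12, 6, -29, 1, -57, -8⟩, ⟨18, -8, 37, -1, -18, 1⟩,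 ⟨2, -12, 78, -4, 16, 9⟩, ⟨-4, 2, 21, -2, -16, 0⟩, ⟨-1, 1, 16, -1, -6, 0⟩, ⟨-2, -1, 1, 3, -1, -3⟩, ⟨5, -2, 0, 4, 6, -3⟩, ⟨6, 0, 12, 0, 2, 0⟩, ⟨5, -3, 14, -1, 13, 2⟩, ⟨3, -2, -5, 3, 9, -4⟩, ⟨0, 1, -3, 4, 0, -6⟩, ⟨2, 0, 10, 0, 2, 0⟩, ⟨-1, -2, 8, -1, 11, 2⟩, ⟨-4, 1, 1, 4, 13, -4⟩, ⟨-3, 3, -1, 5, 3, -6⟩, ⟨0, 0, 0, 0, 0, 0⟩]⟩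

end H13SB.Num
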