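import Pool.Agent.H13.SB.Num.Pl

namespace H13SB.Num

def m24 : Dat := ⟨[⟨0, 0, 2, 3, -2, -2⟩, ⟨0, 1, -3, -1, 1, -3⟩, ⟨-7, -2, -3, -6, -4, -3⟩, ⟨2, 2, 1, 7, -13, 4⟩, ⟨0, 4, 0, 3, 0, 0⟩, ⟨3, -5, 0, 10, 5, -5⟩, ⟨-1, 1, -9, 1, 0, -1⟩, ⟨1, 6, 0, -3, -2, 0⟩, ⟨-14, -2, -7, -6, 10, 7⟩, ⟨-8, 7, -1, 10, 8, -8⟩, ⟨49, 12, 7, 14, -34, -22⟩, ⟨20, -32, 10, -15, -27, 28⟩, ⟨-12, -8, -11, -3, 19, 7⟩, ⟨-8, 11, -5, 8, 8, -16⟩, ⟨-21, -10, -11, -5, 22, 10⟩, ⟨-11, 17, -6, 9, 12, -18⟩, ⟨-22, -9, -9, -5, 21, 10⟩, ⟨-11, 18, -6, 9, 12, -17⟩],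
  [⟨0, 0, 0, 0, 0, 0⟩, ⟨0, 0, 2, 3, -2, -2⟩, ⟨2, 5, -3, -2, -7, -5⟩, ⟨2, 7, -3, -2, -16, -6⟩, ⟨6, 8, -4, -3, -8, -3⟩, ⟨-3, 2, -13, -5, -21, -6⟩, ⟨-10, 2, -3, 4, -14, -2⟩, ⟨-4, 3, -2, 1, 49, 8⟩, ⟨-10, 1, -17, -6, 38, 4⟩, ⟨-2, 5, -11, -3, 38, 4⟩, ⟨1, 0, 9, 7, 3, -1⟩, ⟨-3, -3, 5, 7, -40, -5⟩, ⟨-6, 2, 5, -3, 5, 0⟩, ⟨-7, 3, -4, -2, -5, -1⟩, ⟨-6, 9, -4, -5, -67, -1⟩, ⟨3, 8, 7, -5, -56, 0⟩, ⟨2, 2, 7, -2, -24, 0⟩, ⟨-12, 0, 70, -8, -4, 7⟩, ⟨-20, 7, -3, 2, 22, -1⟩, ⟨-13, 14, -50, 3, -34, -8⟩, ⟨-5, 7, 15, -7, -58, 0⟩, ⟨44, 19, -154, 7, -156, -22⟩, ⟨64, -13, 52, -8, -92, 6⟩, ⟨41, -31, 161, -16, 18, 28⟩, ⟨21, 1, -17, -1, -33,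 0⟩, ⟨9, -7, 14, -4, 10, 7⟩, ⟨1, 4, -71, 4, -22, -9⟩, ⟨10, 11, -84, 8, -43, -16⟩, ⟨18, 0, -15, 0, -19, 0⟩, ⟨-3, -10, 14, -5, 23, 10⟩, ⟨-14, 7, -46, 4, 8, -8⟩, ⟨-3, 17, -45, 9, -14, -18⟩, ⟨8, 0, -3, 0, -8, 0⟩, ⟨-14, -9, 8, -5, 23, 10⟩, ⟨-25, 9, -15, 4, 27, -7⟩, ⟨-11, 18, -6, 9, 12, -17⟩, ⟨0, 0, 0, 0, 0, 0⟩]⟩

def m25 : Dat := ⟨[⟨0, 0, 0, 1, 0, 0⟩, ⟨0, 1, 0, 0, 1, 0⟩, ⟨-1, 0, 0, 0, -1, 0⟩, ⟨0, 0, 0, 1, -2, 0⟩, ⟨0, 0, 0, 1, 0, 0⟩, ⟨1, 0, 0, 1, 0, -1⟩, ⟨-1, 1, -1, 0, 0, -1⟩, ⟨0, 1, 1, -1, -1, 0⟩, ⟨-2, -1, -2, 0, 2, 1⟩, ⟨-1, 1, -1, 2, 1, -2⟩, ⟨-9, -3, -4, -2, 6, 4⟩, ⟨-4, 5, -2, 4, 5, -5⟩, ⟨49, 20, 17, 12, -41, -24⟩, ⟨25,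 -37, 14, -18, -29, 34⟩, ⟨-15, -8, -11, -5, 19, 9⟩, ⟨-10, 13, -6, 8, 11, -16⟩, ⟨-26, -13, -13, -6, 26, 13⟩, ⟨-15, 21, -8, 11, 16, -21⟩],
  [⟨0, 0, 0, 0, 0, 0⟩, ⟨0, 0, 0, 1, 0, 0⟩, ⟨-1, 0, 0, 2, 1, 0⟩, ⟨1, 0, 2, 2, -2, -1⟩, ⟨1, 0, 1, 1, -3, -1⟩, ⟨1, 0, 0, 1, -4, -1⟩, ⟨0, 0, 1, 2, -6, -1⟩, ⟨3, 1, -2, 0, 0, 0⟩, ⟨3, 1, -4, -1, 2, 0⟩, ⟨3, 1, -2, 0, 2, 0⟩, ⟨4, 1, 0, 1, -6, -1⟩, ⟨4, 0, 0, 1, -7, -1⟩, ⟨3, 0, 0, 0, 3, 0⟩, ⟨2, 1, -1, 0, -7, -1⟩, ⟨2, 2, 0, -1, -18, -1⟩, ⟨3, 2, 11, -2, -18, 0⟩, ⟨3, 1, 10, -1, -7, 0⟩, ⟨1, 0, 18, -1, 5, 1⟩, ⟨0, 1, -1, 1, 6, -1⟩, ⟨3, 1, -7, 2, 6, -2⟩, ⟨4, 0, 10, 0, 5, 0⟩, ⟨-5, -3, 38, -2, 27, 4⟩,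 ⟨-9, 2, 1, 2, 25, -1⟩, ⟨-2, 5, -17, 4, 11, -5⟩, ⟨2, 0, 15, 0, 12, 0⟩, ⟨51, 20, -112, 12, -101, -24⟩, ⟨76, -17, 72, -6, -50, 10⟩, ⟨43, -37, 143, -18, 19, 34⟩, ⟨18, 0, -7, 0, -16, 0⟩, ⟨3, -8, 18, -5, 19, 9⟩, ⟨-7, 5, -36, 3, 6, -7⟩, ⟨-7, 14, -57, 7, -32, -16⟩, ⟨3, 1, -19, -1, -27, 0⟩, ⟨-23, -12, -6, -7, 13, 13⟩, ⟨-38, 9, -35, 4, 19, -8⟩, ⟨-15, 21, -8, 11, 16, -21⟩, ⟨0, 0, 0, 0, 0, 0⟩]⟩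

def m26 : Dat := ⟨[⟨0, 0, 0, 0, 0, 0⟩, ⟨0, 0, 0, 0, 0, 0⟩, ⟨0, 0, 0, 0, 0, 0⟩, ⟨0, 0, 0, 0, 1, 0⟩, ⟨0, 0, 0, 0, 0, 0⟩, ⟨0, 0, 0, 0, 0, 0⟩, ⟨0, 0, 0, 0, 0, 0⟩, ⟨0, 0, 0, 0, 0, 0⟩, ⟨1, 1, 1, 0, -1, 0⟩, ⟨0, 0, 0, -1, 0, 1⟩, ⟨1, 0, 0, 0, 0, 0⟩, ⟨0, 0, 0, -1, 0, 0⟩, ⟨6, 2, 3, 2, -5, -3⟩, ⟨3, -5, 2, -2, -4, 4⟩, ⟨-43, -19, -17, -11, 38, 22⟩, ⟨-23, 33, -13, 16, 26, -31⟩, ⟨36, 18, 18, 9, -37, -19⟩, ⟨22, -29, 12, -16, -23, 30⟩],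
  [⟨0, 0, 0, 0, 0, 0⟩, ⟨0, 0, 0, 0, 0, 0⟩, ⟨0, 0, 0, 0, 0, 0⟩, ⟨0, 0, 0, 0, 0, 0⟩, ⟨0, 0, 0, 0, 0, 0⟩, ⟨0, 0, 0, 0, 0, 0⟩, ⟨0, 0, 0, 0, 1, 0⟩, ⟨0, 0, 0, 0, 1, 0⟩, ⟨0, 0, 0, 0, 0, 0⟩, ⟨0, 0, 0, 0, 0, 0⟩, ⟨0, 0, 0, 0, 0, 0⟩, ⟨0, 0, 0, 0, 0, 0⟩, ⟨0, 0, 0, 0, 0, 0⟩, ⟨0, 0, 0, 0, 0, 0⟩, ⟨0, 0, 0, 0, 0, 0⟩, ⟨0, 0, 0, 0, 0, 0⟩, ⟨0, 0, 0, 0, 0, 0⟩, ⟨1, 1, 1, 0, -1, 0⟩, ⟨1, 1, 10, -1, -1, 1⟩, ⟨2, 0, 9, -1, 1, 1⟩, ⟨2, 0, 1, 0, 1, 0⟩, ⟨3, 0, 1, 0, 1, 0⟩, ⟨3, 0, 1, -1, -6, 0⟩, ⟨2, 0, -1, -1, -7, 0⟩, ⟨2, 0, -1, 0, -1, 0⟩, ⟨8, 2, -16, 2, -12, -3⟩, ⟨11, -3, 6, 0, -6, 1⟩, ⟨12, -6, 21, -1, 13, 4⟩, ⟨9, -1, 3, 1, 9, 0⟩, ⟨-34, -20, 74,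 -10, 91, 22⟩, ⟨-57, 13, -32, 6, 72, -9⟩, ⟨-30, 32, -65, 17, 23, -31⟩, ⟨-7, -1, 10, 1, 27, 0⟩, ⟨29, 17, -10, 10, -30, -19⟩, ⟨51, -12, 32, -6, -39, 11⟩, ⟨22, -29, 12, -16, -23, 30⟩, ⟨0, 0, 0, 0, 0, 0⟩]⟩

def m27 : Dat := ⟨[⟨1, -7, 5, -1, 1, 5⟩, ⟨7, -9, -3, -3, -8, 0⟩, ⟨-20, -3, -15, -15, -5, -9⟩, ⟨3, 4, -2, 15, -24, 10⟩, ⟨5, 17, -2, -7, -5, -4⟩, ⟨-9, -19, -5, 29, 22, -7⟩, ⟨0, -15, -3, 10, -1, 4⟩, ⟨12, 3, -32, -5, 5, 1⟩, ⟨36, 32, 37, 3, -34, -20⟩, ⟨24, -24, 21, -33, -26, 26⟩, ⟨6, 5, 14, 1, 0, -3⟩, ⟨4, -5, 2, -10, -4, 0⟩, ⟨1, 2, 12, 0, 3, -1⟩, ⟨2, -2, 1, -8, -1, -2⟩, ⟨-1, 0, 10, 0, 5, 1⟩, ⟨0, 0, 0, -7, 1, -4⟩, ⟨-3, -1,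 9, -1, 6, 1⟩, ⟨-1, 1, -1, -6, 2, -4⟩],
  [⟨0, 0, 0, 0, 0, 0⟩, ⟨1, -7, 5, -1, 1, 5⟩, ⟨27, 10, -5, -30, -7, 5⟩, ⟨25, 11, -17, -34, 9, 10⟩, ⟨31, 14, -15, -25, 17, 10⟩, ⟨1, -1, -38, -28, -15, 1⟩, ⟨-27, -7, -9, -3, 11, 11⟩, ⟨-24, -11, 15, -1, 146, 31⟩, ⟨-35, -15, -13, -16, 110, 21⟩, ⟨4, 2, -29, -23, 81, 17⟩, ⟨-5, -17, 24, 6, 47, 10⟩, ⟨-20, -10, 12, 10, -117, -7⟩, ⟨-11, 9, 17, -19, -69, 0⟩, ⟨-11, -6, 14, -9, -30, 4⟩, ⟨-9, -3, -18, -14, -55, 5⟩, ⟨-2, -13, -58, 11, 166, 1⟩, ⟨-14, -16, -36, 16, 201, 0⟩, ⟨22, 16, -199, 19, -3, -20⟩, ⟨46, -8, 56, -14, -92, 6⟩, ⟨26, -26, 187, -31, -49, 26⟩, ⟨2, -2, -42, 2, 33, 0⟩, ⟨8, 3, -52,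 3, 17, -3⟩, ⟨12, -2, -50, -7, -57, -3⟩, ⟨9, -6, -36, -9, -49, 0⟩, ⟨5, -1, -38, 1, 15, 0⟩, ⟨6, 1, -32, 1, 12, -1⟩, ⟨8, -1, -41, -7, -39, -3⟩, ⟨4, -2, -35, -8, -40, -2⟩, ⟨2, 0, -28, 0, 1, 0⟩, ⟨1, 0, -14, 0, 10, 1⟩, ⟨1, 0, -26, -7, -22, -3⟩, ⟨11, -1, -28, -6, -13, -4⟩, ⟨11, -1, -20, 1, 8, 0⟩, ⟨8, -2, -9, 0, 14, 1⟩, ⟨7, -1, -14, -6, 6, -3⟩, ⟨-1, 1, -1, -6, 2, -4⟩, ⟨0, 0, 0, 0, 0, 0⟩]⟩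

def m28 : Dat := ⟨[⟨-12, 1, -21, -8, 15, 14⟩, ⟨10, -14, 1, 6, 0, 12⟩, ⟨-10, 18, -14, 10, 37, 19⟩, ⟨7, 11, 13, -15, 20, -10⟩, ⟨4, -4, 30, -4, -2, -22⟩, ⟨-6, -38, -31, 5, -6, 11⟩, ⟨2, -16, -22, -17, -4, -3⟩, ⟨-25, 14, 3, -14, -4, 3⟩, ⟨5, -21, -2, 11, 21, 1⟩, ⟨3, 2, -17, -3, 2, -14⟩, ⟨11, 15, 30, 2, -7, -9⟩, ⟨16, -9, 9, -20, -13, 5⟩, ⟨6, 10, 24, 3, -4, -7⟩, ⟨11, -6, 6, -16, -9, 3⟩, ⟨4, 8, 22, 2, -3, -5⟩, ⟨9, -4, 5, -14, -8, 2⟩, ⟨3, 6, 20, 2, -2, -5⟩, ⟨8, -3, 4, -13, -7, 2⟩],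
  [⟨0, 0, 0, 0, 0, 0⟩, ⟨-12, 1, -21, -8, 15, 14⟩, ⟨21, 25, -35, -40, 39, 26⟩, ⟨18, 16, -42, -39, 73, 25⟩, ⟨11, 10, -38, -25, 37, 13⟩, ⟨7, 20, -30, -7, 131, 32⟩, ⟨64, 43, -67, -34, 101, 22⟩, ⟨57, 25, -49, -30, 31, 8⟩, ⟨28, 14, -32, -15, 71, 18⟩, ⟨24, 10, -10, -19, -63, -4⟩, ⟨18, -28, -31, -14, 19, 7⟩, ⟨-8, -24, -25, 8, 81, 11⟩, ⟨-2, 14, 6, 3, -23, 0⟩, ⟨0, -2, -16, -14, -57, -3⟩, ⟨-55, 12, -13, -28, -201, 0⟩, ⟨-38, 29, 15, -29, -194, 3⟩, ⟨-13, 15, -18, -15, -80, 0⟩, ⟨-8, -6, -10, -4, 61, 1⟩, ⟨-5, -4, -153, -7, -90, -13⟩, ⟨-5, -6, -151, 5, -4, -14⟩, ⟨-8, -8, -22, 8, 130, 0⟩, ⟨3, 7, -64, 10, 67, -9⟩, ⟨19, -2, -20, -10,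 -51, -4⟩, ⟨9, -12, 22, -17, -39, 5⟩, ⟨-7, -3, -17, 3, 64, 0⟩, ⟨-1, 7, -35, 6, 36, -7⟩, ⟨10, 1, -14, -10, -38, -4⟩, ⟨11, -8, 8, -14, -19, 3⟩, ⟨0, -2, -10, 2, 42, 0⟩, ⟨4, 6, -8, 4, 27, -5⟩, ⟨13, 2, 3, -10, -17, -3⟩, ⟨12, -5, -5, -13, -15, 2⟩, ⟨3, -1, -14, 1, 17, 0⟩, ⟨6, 5, -4, 3, 9, -5⟩, ⟨14, 2, 2, -10, -9, -3⟩, ⟨8, -3, 4, -13, -7, 2⟩, ⟨0, 0, 0, 0, 0, 0⟩]⟩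

def m29 : Dat := ⟨[⟨-3, -6, -2, -4, 3, 5⟩, ⟨3, -9, 6, -1, -8, 7⟩, ⟨-6, 9, -6, 7, 25, 14⟩, ⟨4, 9, 11, -13, 11, -9⟩, ⟨4, -4, 26, -7, -7, -21⟩, ⟨-10, -37, -33, 8, -5, 14⟩, ⟨-2, -19, -5, -9, 0, 5⟩, ⟨-14, 8, -17, -8, 8, 0⟩, ⟨-15, 18, 10, -17, -6, 3⟩, ⟨-19, -10, 22, 13, 5, 4⟩, ⟨-3, -27, -36, -1, 25, 12⟩, ⟨-27, 0, -17, 24, 19, -16⟩, ⟨4, -16, -25, -2, 22, 9⟩, ⟨-19, -2, -11, 16, 14, -14⟩, ⟨6, -12, -19, -3, 20, 8⟩, ⟨-15, -3, -8, 11, 12, -13⟩, ⟨6, -9, -15, -2, 19, 6⟩, ⟨-12, -4, -6, 9, 10, -12⟩],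
  [⟨0, 0, 0, 0, 0, 0⟩, ⟨-3, -6, -2, -4, 3, 5⟩, ⟨6, -13, 8, -7, 9, 12⟩, ⟨0, -16, -2, -9, 36, 17⟩, ⟨-5, -15, 4, 0, 23, 10⟩, ⟨-4, -8, 7, 9, 90, 24⟩, ⟨50, 15, -32, -18, 56, 15⟩, ⟨48, 4, -22, -16, 20, 8⟩, ⟨26, -5, -7, -3, 63, 17⟩, ⟨22, -9, 5, -10, -70, -4⟩, ⟨12, -46, -12, -2, 37, 10⟩, ⟨-10, -39, -1, 19, 101, 14⟩, ⟨0, -2, 32, 11, -34, 0⟩, ⟨-2, -21, 27, 2, 16, 5⟩, ⟨-16, -13, 10, -6, -56, 5⟩, ⟨-4, -4, -38, 4, -15, 0⟩, ⟨10, -12, -21, 12, 57, 0⟩, ⟨-5, 6, 19, -5, -89, 3⟩, ⟨-24, -4, 77, 8, 69, 7⟩, ⟨-32, 9, 59, -6, -77, 4⟩, ⟨-13, 19, 5, -19, -218, 0⟩, ⟨-16, -8, 65, -20, -105, 12⟩, ⟨-43, -8, -64, 4, -30, -4⟩, ⟨-42, 9, -108, 15,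 -39, -16⟩, ⟨-15, 9, 5, -9, -106, 0⟩, ⟨-11, -7, 34, -11, -42, 9⟩, ⟨-30, -9, -47, 5, -18, -5⟩, ⟨-27, 2, -64, 12, -26, -14⟩, ⟨-8, 4, 3, -4, -48, 0⟩, ⟨-2, -8, 16, -7, -8, 8⟩, ⟨-17, -11, -31, 4, -2, -5⟩, ⟨-23, -1, -36, 9, -17, -13⟩, ⟨-8, 2, -2, -2, -25, 0⟩, ⟨-2, -7, -5, -4, 2, 6⟩, ⟨-14, -11, -23, 5, 9, -6⟩, ⟨-12, -4, -6, 9, 10, -12⟩, ⟨0, 0, 0, 0, 0, 0⟩]⟩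

def m30 : Dat := ⟨[⟨-18, 10, -22, 5, -3, -21⟩, ⟨-4, 21, -6, -14, 15, 3⟩, ⟨-21, 4, 1, 5, 2, 0⟩, ⟨21, 6, 24, 7, -30, 2⟩, ⟨-5, -5, 11, 14, 16, 8⟩, ⟨24, -11, 12, 21, -8, -23⟩, ⟨7, 25, -41, 9, -5, -29⟩, ⟨16, 12, 26, -10, -50, 3⟩, ⟨3, 8, -7, 0, -8, -7⟩, ⟨1, -15, 12, 17, -11, 4⟩, ⟨22, -6, -26, 7, 8, -6⟩, ⟨3, -11, -3, 13, -9, -4⟩, ⟨25, 2, -15, 6, 5, -7⟩, ⟨10, -13, 4, 7, -13, -3⟩, ⟨25, 6, -9, 5, 4, -9⟩, ⟨12, -14, 6, 4, -14, -2⟩, ⟨25, 7, -6, 5, 3, -9⟩, ⟨14, -14, 7, 2, -15, -2⟩],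
  [⟨0, 0, 0, 0, 0, 0⟩, ⟨-18, 10, -22, 5, -3, -21⟩, ⟨-41, 0, -16, 22, 18, -18⟩, ⟨-65, -12, 11, 40, 1, -27⟩, ⟨-45, 2, -6, 19, -23, -30⟩, ⟨-39, 7, -23, 23, -21, -30⟩, ⟨-7, 19, -10, 24, -41, -28⟩, ⟨10, 17, -37, 0, 60, -11⟩, ⟨-23, 11, -75, -7, 78, -13⟩, ⟨-38, 6, -36, 7, 142, -5⟩, ⟨-14, -5, 18, 28, -50, -28⟩, ⟨-20, -19, 7, 20, -17, -23⟩, ⟨-44, -8, -5, -1, 221, 0⟩, ⟨-37, 17, -46, 8, -74, -29⟩, ⟨-51, 29, -20, -2, -244, -26⟩, ⟨-46, 20, 263, -18, -100, 3⟩, ⟨-62, 8, 207, -8, 20, 0⟩, ⟨-59, 16, 130, -8, -58, -7⟩, ⟨-58, 1, 178, 9, 120, -3⟩, ⟨-66, 0, 221, 2, 105, 4⟩, ⟨-67, 15, 177, -15, -52, 0⟩, ⟨-45, 9, 103, -8, -36, -6⟩, ⟨-42,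 -2, 72, 5, 18, -10⟩, ⟨-50, -4, 100, 6, 48, -4⟩, ⟨-53, 7, 127, -7, 3, 0⟩, ⟨-28, 9, 70, -1, 2, -7⟩, ⟨-18, -4, 59, 6, 9, -10⟩, ⟨-16, -11, 74, 5, 33, -3⟩, ⟨-26, 2, 82, -2, 30, 0⟩, ⟨-1, 8, 37, 3, 18, -9⟩, ⟨11, -6, 37, 7, 10, -11⟩, ⟨-3, -13, 42, 3, 5, -2⟩, ⟨-15, 1, 40, -1, 15, 0⟩, ⟨10, 8, 16, 4, 10, -9⟩, ⟨24, -6, 21, 6, -5, -11⟩, ⟨14, -14, 7, 2, -15, -2⟩, ⟨0, 0, 0, 0, 0, 0⟩]⟩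

def m31 : Dat := ⟨[⟨33, -13, 47, 4, -15, -9⟩, ⟨1, 21, -3, 1, -21, -26⟩, ⟨-75, 23, -52, 41, 29, 10⟩, ⟨57, 22, 41, -1, 39, 28⟩, ⟨-1, 5, -14, -5, 3, 12⟩, ⟨-11, 20, 26, -8, 11, -7⟩, ⟨0, -2, 12, -3, 1, 1⟩, ⟨-5, -10, 0, 13, 2, -1⟩, ⟨-1, -4, -5, 2, -1, 0⟩, ⟨-1, 1, -5, 2, 1, 1⟩, ⟨-2, 0, 0, 0, -2, 0⟩, ⟨0, 1, 0, 0, 0, 1⟩, ⟨-1, 0, -1, -1, -2, 1⟩, ⟨-1, 1, 0, 1, 0, 1⟩, ⟨-1, 0, -2, 0, -1, 0⟩, ⟨-1, 1, 0, 1, 0, 1⟩, ⟨-1, 0, -2, 0, -1, 0⟩, ⟨-1, 0, 0, 1, 0, 1⟩],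
  [⟨0, 0, 0, 0, 0, 0⟩, ⟨33, -13, 47, 4, -15, -9⟩, ⟨17, -4, 39, 17, -88, -35⟩, ⟨35, 3, 53, 11, -107, -25⟩, ⟨37, 2, 31, -10, -8, 1⟩, ⟨26, 43, -21, 13, 51, 11⟩, ⟨42, 33, 61, 44, 230, 39⟩, ⟨89, 14, 82, 17, 174, 21⟩, ⟨-12, -8, 43, 18, -33, -7⟩, ⟨-3, -3, 19, 13, 42, 5⟩, ⟨-14, 17, 29, 5, -3, -2⟩, ⟨-5, 22, 21, -7, -59, -7⟩, ⟨6, 2, -5, 1, 0, 0⟩, ⟨6, 0, 7, -2, 11, 1⟩, ⟨11, -10, 7, 11, 113, 0⟩, ⟨0, -7, -3, 10, 89, -1⟩, ⟨5, 3, 7, -3, -33, 0⟩, ⟨4, -1, 2, -1, -14, 0⟩, ⟨3, 0, 6, 1, 14, 1⟩, ⟨4, 0, 7, 3, 31, 1⟩, ⟨5, -1, 4, 1, 6, 0⟩, ⟨3, -1, 4, 1, 4, 0⟩, ⟨3, 0, 11, 1, 11, 1⟩, ⟨5, 0, 15, 1, 15, 1⟩, ⟨5, -1, 9, 1, 9, 0⟩, ⟨4, -1, 14, 0,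 7, 1⟩, ⟨3, 0, 19, 1, 17, 2⟩, ⟨-1, 1, 6, 1, 6, 1⟩, ⟨0, 0, 2, 0, -2, 0⟩, ⟨-1, 0, 0, 0, -3, 0⟩, ⟨-2, 1, 3, 1, 3, 1⟩, ⟨-1, 1, 3, 1, 3, 1⟩, ⟨0, 0, 1, 0, -1, 0⟩, ⟨-1, 0, -1, 0, -2, 0⟩, ⟨-2, 0, 0, 1, 0, 1⟩, ⟨-1, 0, 0, 1, 0, 1⟩, ⟨0, 0, 0, 0, 0, 0⟩]⟩

def m32 : Dat := ⟨[⟨19, 2, 15, -14, -59, -36⟩, ⟨-15, 57, 20, -22, -20, 21⟩, ⟨13, -7, 39, 20, 5, 22⟩, ⟨15, 28, 24, -22, -12, -19⟩, ⟨-26, -9, 22, 11, -14, -11⟩, ⟨24, -27, -23, 12, -21, 22⟩, ⟨-7, 13, -4, 18, 2, 8⟩, ⟨39, 13, -11, -17, 18, -1⟩, ⟨4, 7, 6, -1, -5, 0⟩, ⟨10, 12, 2, -17, 0, 2⟩, ⟨-19, 11, 16, -5, -18, 0⟩, ⟨4, 7, 10, -6, 1, 8⟩, ⟨-16, 2, 0, -2, -16, 1⟩, ⟨-1, 7, 2, 1, 3, 8⟩,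 ⟨-13, 0, -7, -2, -15, 2⟩, ⟨-3, 6, 0, 3, 3, 7⟩, ⟨-11, -1, -10, -1, -13, 2⟩, ⟨-4, 5, -1, 4, 4, 6⟩],
  [⟨0, 0, 0, 0, 0, 0⟩, ⟨19, 2, 15, -14, -59, -36⟩, ⟨-88, -90, 92, 113, -37, -15⟩, ⟨-64, -69, 108, 90, -18, -5⟩, ⟨-62, -47, 66, 33, -61, -26⟩, ⟨-3, -27, 72, 26, 10, -4⟩, ⟨98, 19, 10, -14, -97, -23⟩, ⟨141, 36, -75, -50, -100, -17⟩, ⟨70, 8, -55, -28, 26, 2⟩, ⟨26, -1, -11, -17, -54, -9⟩, ⟨50, -28, -10, -5, 101, 13⟩, ⟨37, -39, 13, 6, 217, 22⟩, ⟨13, -12, 36, -6, 18, 0⟩, ⟨6, 1, 32, 12, 100, 8⟩, ⟨55, 14, 21, -5, -12, 7⟩, ⟨74, -4, -52, 0, -26, -1⟩, ⟨35, -17, -31, 17, 136, 0⟩, ⟨39, -10, -25, 16, 121, 0⟩, ⟨49, 2, -5, -1, -14, 2⟩,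 ⟨55, -3, -9, -2, -12, 2⟩, ⟨45, -15, -27, 15, 108, 0⟩, ⟨26, -4, -11, 10, 50, 0⟩, ⟨30, 3, 55, 4, 65, 8⟩, ⟨31, 2, 55, -1, 37, 8⟩, ⟨27, -5, -3, 5, 24, 0⟩, ⟨11, -3, 3, 3, 2, 1⟩, ⟨10, 4, 45, 4, 50, 9⟩, ⟨13, 5, 45, 3, 47, 8⟩, ⟨14, -2, 11, 2, 8, 0⟩, ⟨1, -2, 12, 0, -7, 2⟩, ⟨-2, 4, 33, 3, 26, 9⟩, ⟨-3, 6, 20, 3, 17, 7⟩, ⟨0, 0, 6, 0, -6, 0⟩, ⟨-11, -1, 0, -1, -17, 2⟩, ⟨-15, 4, 5, 3, -3, 8⟩, ⟨-4, 5, -1, 4, 4, 6⟩, ⟨0, 0, 0, 0, 0, 0⟩]⟩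

def m33 : Dat := ⟨[⟨-34, 16, -46, -2, -19, -15⟩, ⟨-15, 13, 2, -32, 31, 36⟩, ⟨-10, -22, 18, 15, 11, 19⟩, ⟨15, 33, 5, -22, -41, -12⟩, ⟨15, 13, -8, -19, 7, 6⟩, ⟨-56, -17, 19, 27, 40, -16⟩, ⟨3, -24, 38, -12, 13, -3⟩, ⟨-36, -46, -36, 76, -8, -4⟩, ⟨1, -19, -20, 11, 0, -2⟩, ⟨4, -1, -27, 7, -6, 0⟩, ⟨-19, 10, 12, -6, -15, 1⟩, ⟨0, -1, 13, 3, 4, 5⟩, ⟨0, -2, -16, 0, -6, 0⟩, ⟨-4, -1, -1, 6, 1, 2⟩, ⟨7, -2, -18, 1, 0, 0⟩, ⟨-3, -2, -2, 6, 0, 0⟩, ⟨10, -2, -16, 1, 3, 0⟩, ⟨-1, -3, -1, 5, -1, -1⟩],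
  [⟨0, 0, 0, 0, 0, 0⟩, ⟨-34, 16, -46, -2, -19, -15⟩, ⟨-79, -50, 5, 45, 84, 21⟩, ⟨-93, -42, -6, 41, 92, 11⟩, ⟨-63, -10, -4, 28, -47, -25⟩, ⟨-30, 5, -36, 6, 21, -6⟩, ⟨0, 18, -46, 4, -80, -18⟩, ⟨45, 26, -64, -10, -20, -5⟩, ⟨-36, -7, -25, 12, 93, 7⟩, ⟨5, 6, -71, -7, 136, 13⟩, ⟨-51, -11, 2, 20, 48, -3⟩, ⟨-56, 8, -18, 14, -84, -16⟩, ⟨0, 25, -37, -13, 36, 0⟩, ⟨3, 1, 1, -25, 19, -3⟩, ⟨7, -45, -35, 51, 471, -7⟩, ⟨-37, -33, -8, 63, 596, -4⟩, ⟨-1, 13, 68, -13, -116, 0⟩, ⟨0, -6, 28, -2, -26, -2⟩, ⟨4, -7, 1, 5, 31, -2⟩, ⟨3, -8, 17, 14, 117, 0⟩, ⟨-1, -7, 44, 7, 67, 0⟩, ⟨-20, 3, 64, 1, 12, 1⟩, ⟨-20, 2, 112, 4, 72, 6⟩, ⟨-24, 3, 100,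 -1, 27, 5⟩, ⟨-24, 4, 57, -4, -25, 0⟩, ⟨-24, 2, 41, -4, -31, 0⟩, ⟨-28, 1, 50, 2, 10, 2⟩, ⟨-32, 3, 50, 2, 6, 2⟩, ⟨-28, 4, 43, -4, -27, 0⟩, ⟨-21, 2, 25, -3, -23, 0⟩, ⟨-24, 0, 23, 3, -5, 0⟩, ⟨-19, 0, 17, 4, -2, 0⟩, ⟨-16, 2, 19, -2, -14, 0⟩, ⟨-6, 0, 3, -1, -9, 0⟩, ⟨-7, -3, 1, 4, -6, -1⟩, ⟨-1, -3, -1, 5, -1, -1⟩, ⟨0, 0, 0, 0, 0, 0⟩]⟩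

def m34 : Dat := ⟨[⟨3, 9, -7, -12, -21, -8⟩, ⟨-3, 16, 7, -9, -5, 18⟩, ⟨8, -13, 19, 9, 13, 15⟩, ⟨2, 27, -5, -22, -7, -17⟩, ⟨-22, 15, -18, 0, 1, 4⟩, ⟨0, 10, 12, 2, 48, 1⟩, ⟨-5, -5, 8, -5, 0, 7⟩, ⟨-15, -2, 0, 5, 21, 0⟩, ⟨-18, 5, -24, -7, -27, 1⟩, ⟨-29, 6, 19, 7, 4, 8⟩, ⟨71, -38, -61, 23, 47, -7⟩, ⟨2, 4, -51, -7, -23, -15⟩, ⟨-1, 8, 49, 0, 13, -2⟩, ⟨17, 5, 7, -20, -6, -4⟩, ⟨-27, 9, 54, -3, -8, -1⟩, ⟨13, 9, 9, -17, -2, 2⟩, ⟨-37, 7, 45, -2, -19, 0⟩, ⟨7, 10, 7, -13, 1, 6⟩],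
  [⟨0, 0, 0, 0, 0, 0⟩, ⟨3, 9, -7, -12, -21, -8⟩, ⟨-26, -20, 19, 24, 10, 10⟩, ⟨-13, -8, 15, 11, 25, 12⟩, ⟨-11, 1, 2, -5, -24, -6⟩, ⟨17, 10, -3, -18, 34, 9⟩, ⟨40, 23, -29, -26, -58, -8⟩, ⟨51, 25, -37, -26, -65, -6⟩, ⟨-5, -2, 12, -4, 44, 11⟩, ⟨3, 13, -6, -4, 69, 15⟩, ⟨3, 23, 10, -2, 125, 16⟩, ⟨6, 23, -6, -6, -7, 1⟩, ⟨6, 13, -18, -8, -65, 0⟩, ⟨1, 8, -10, -13, 5, 7⟩, ⟨-14, 6, -10, -8, 46, 7⟩, ⟨-10, 11, -75, -8, -29, 0⟩, ⟨5, 13, -75, -13, -100, 0⟩, ⟨-13, 18, -89, -20, -187, 1⟩, ⟨-42, 24, 2, -13, -48, 9⟩, ⟨-39, 32, -8, -19, -103, 8⟩, ⟨-10, 26, -91, -26, -227, 0⟩, ⟨61, -12, -208, -3, -52, -7⟩, ⟨63, -8, -364, -10, -229, -22⟩,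 ⟨65, -9, -299, 6, -69, -15⟩, ⟨63, -13, -158, 13, 86, 0⟩, ⟨62, -5, -121, 13, 87, -2⟩, ⟨79, 0, -134, -7, -39, -6⟩, ⟨82, -6, -123, -9, -32, -4⟩, ⟨65, -11, -114, 11, 70, 0⟩, ⟨38, -2, -64, 8, 46, -1⟩, ⟨51, 7, -49, -9, -1, 1⟩, ⟨39, 5, -41, -13, -14, 2⟩, ⟨26, -4, -54, 4, 18, 0⟩, ⟨-11, 3, -9, 2, -5, 0⟩, ⟨-4, 13, 4, -11, -11, 6⟩, ⟨7, 10, 7, -13, 1, 6⟩, ⟨0, 0, 0, 0, 0, 0⟩]⟩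

def m35 : Dat := ⟨[⟨-7, 4, -5, 10, -2, -2⟩, ⟨-10, 6, -13, -4, 28, -5⟩, ⟨-14, 18, -23, -9, -41, -17⟩, ⟨16, -33, 19, 30, -4, 37⟩, ⟨63, -32, 41, -9, -20, -5⟩, ⟨-34, -35, -21, 8, -119, 5⟩, ⟨-6, -3, 19, 7, 14, 1⟩, ⟨27, -23, -36, 44, 5, -4⟩, ⟨-13, -5, -38, 2, -33, -2⟩, ⟨-13, 15, 0, -2, -7, 9⟩, ⟨25, -13, -31, 9, 7, -4⟩, ⟨6, 7, -18, -5, -16, -2⟩, ⟨-14, 7, 17, -2, -12, -1⟩, ⟨10, 6, 10, -7, -4, 3⟩, ⟨-23, 6, 10, -2, -22, -1⟩, ⟨6, 7, 9, -3, -2, 6⟩, ⟨-22, 4, 0, -1, -25, 0⟩, ⟨3, 6, 6, 0, -2, 7⟩],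
  [⟨0, 0, 0, 0, 0, 0⟩, ⟨-7, 4, -5, 10, -2, -2⟩, ⟨-20, 6, -17, 10, 16, -7⟩, ⟨-17, 12, -18, 10, -15, -15⟩, ⟨0, 16, -14, 4, -28, -10⟩, ⟨-32, 7, -10, 22, -120, -27⟩, ⟨-67, -20, 60, 46, 61, 10⟩, ⟨-22, 4, 8, 13, 84, 10⟩, ⟨28, 37, -71, -17, -134, -27⟩, ⟨27, 5, -48, -26, -184, -32⟩, ⟨-7, -30, -53, -18, -263, -27⟩, ⟨-16, -21, -1, -13, 8, 5⟩, ⟨18, 14, 20, -21, 77, 0⟩, ⟨12, 11, 39, -14, 101, 1⟩, ⟨79, -12, 3, 30, 336, -3⟩, ⟨67, -19, -1, 40, 419, -4⟩, ⟨40, 4, 75, -4, 14, 0⟩, ⟨27, -1, 17, -2, -19, -2⟩, ⟨14, 14, 98, -4, 37, 7⟩, ⟨19, 17, 106, -4, 58, 9⟩, ⟨32, 2, 34, -2, 9, 0⟩, ⟨57, -11, -29, 7, 56, -4⟩, ⟨63, -4, -61, 2, -9, -6⟩,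 ⟨64, -5, -32, 7, 55, -2⟩, ⟨58, -12, -2, 12, 113, 0⟩, ⟨44, -5, 9, 10, 83, -1⟩, ⟨54, 1, 34, 3, 59, 2⟩, ⟨51, -1, 31, 0, 46, 3⟩, ⟨41, -7, 9, 7, 66, 0⟩, ⟨18, -1, 15, 5, 32, -1⟩, ⟨24, 6, 42, 2, 39, 5⟩, ⟨18, 5, 36, -1, 25, 6⟩, ⟨12, -2, 15, 2, 21, 0⟩, ⟨-10, 2, 15, 1, -6, 0⟩, ⟨-7, 8, 28, 1, -1, 7⟩, ⟨3, 6, 6, 0, -2, 7⟩, ⟨0, 0, 0, 0, 0, 0⟩]⟩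

end H13SB.Num
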