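import Pool.Agent.H13.SB.Num.Pl

namespace H13SB.Num

def m36 : Dat := ⟨[⟨41, -21, 53, -2, 15, 5⟩, ⟨34, 14, 12, 42, -72, -39⟩, ⟨56, 40, 8, -44, 32, 1⟩, ⟨-38, -4, -1, -6, 21, -28⟩, ⟨-1, 10, 0, -5, 7, -6⟩, ⟨-25, -47, -33, 53, 48, -7⟩, ⟨69, 12, 3, 12, -15, -16⟩, ⟨62, -46, 0, 54, -84, 3⟩, ⟨-15, -21, -59, 11, -38, -5⟩, ⟨-20, 13, -33, 1, -24, 7⟩, ⟨0, 0, -7, 0, -5, -1⟩, ⟨2, 1, 2, 1, -3, 1⟩, ⟨3, 0, -7, 1, -2, -1⟩, ⟨3, 0, 0, 0, -4, 1⟩, ⟨2, 0, -4, 1, -2, 0⟩, ⟨4, 0, 1, 1, -3, 0⟩, ⟨1, 1, -4, 0, -2, -1⟩, ⟨4, 0, 2, 0, -3, 1⟩],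
  [⟨0, 0, 0, 0, 0, 0⟩, ⟨41, -21, 53, -2, 15, 5⟩, ⟨83, 65, 1, -32, -135, -34⟩, ⟨95, 46, 37, -22, -128, -20⟩, ⟨41, 4, -11, -36, 61, 19⟩, ⟨5, -40, 85, 4, 96, 20⟩, ⟨117, 30, -66, -76, -23, -8⟩, ⟨0, -1, -44, -37, -55, -12⟩, ⟨46, 3, -31, -31, 92, 16⟩, ⟨65, 13, -41, -36, 63, 10⟩, ⟨40, -34, 32, 17, 55, 3⟩, ⟨30, -29, 15, 23, -33, -7⟩, ⟨55, 18, 48, -30, -11, 0⟩, ⟨124, 30, 51, -18, -186, -16⟩, ⟨156, -16, 51, 36, 190, -13⟩, ⟨68, -28, 142, 36, 377, 3⟩, ⟨6, 18, 112, -18, -109, 0⟩, ⟨-9, -3, 3, -7, -87, -5⟩, ⟨-29, 10, 33, -6, -39, 2⟩, ⟨-27, 14, 66, 0, 51, 7⟩, ⟨-7, 1, 43, -1, 11, 0⟩, ⟨-7, 1, 28, -1, -2, -1⟩, ⟨-5, 2, 37, 0, 9, 0⟩, ⟨-10, 3, 40, -1,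 4, 1⟩, ⟨-12, 2, 32, -2, -5, 0⟩, ⟨-9, 2, 19, -1, -7, -1⟩, ⟨-6, 2, 24, -1, -6, 0⟩, ⟨-4, 1, 25, -1, -1, 1⟩, ⟨-7, 1, 21, -1, -1, 0⟩, ⟨-5, 1, 17, 0, 1, 0⟩, ⟨-1, 1, 18, 1, 1, 0⟩, ⟨13, -1, 12, 2, 15, 0⟩, ⟨9, -1, 11, 1, 16, 0⟩, ⟨10, 0, 5, 1, 12, -1⟩, ⟨14, 0, 8, 1, 10, 0⟩, ⟨4, 0, 2, 0, -3, 1⟩, ⟨0, 0, 0, 0, 0, 0⟩]⟩

def m37 : Dat := ⟨[⟨14, 17, -8, -28, -13, 1⟩, ⟨0, 0, 29, 6, -38, 23⟩, ⟨-25, -55, 30, 52, -2, 0⟩, ⟨15, 13, -17, 12, -16, -23⟩, ⟨143, 1, -8, -20, -12, -9⟩, ⟨-119, 40, -50, -15, 10, -45⟩, ⟨37, 25, -11, 9, -50, -1⟩, ⟨53, 13, 94, -45, -6, 8⟩, ⟨3, 4, 23, -3, 15, 2⟩, ⟨1, -5, 7, 1, 12, -3⟩, ⟨2, -3, 6, 1, 7, 0⟩, ⟨-5, 0, -7, -1, 3, -1⟩,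 ⟨-8, 1, 13, -2, -1, 1⟩, ⟨-6, 0, 2, -1, 8, 0⟩, ⟨-4, -1, 4, -1, 0, 1⟩, ⟨-8, 0, -2, 0, 6, 0⟩, ⟨0, -1, 1, 0, 2, 1⟩, ⟨-7, 0, -3, 0, 5, 0⟩],
  [⟨0, 0, 0, 0, 0, 0⟩, ⟨14, 17, -8, -28, -13, 1⟩, ⟨-15, -35, 44, 30, -5, 24⟩, ⟨6, -26, 41, 16, 31, 30⟩, ⟨-29, -32, 41, 16, 0, 7⟩, ⟨53, 20, -39, -39, -2, 7⟩, ⟨-59, -31, 71, 37, -133, -16⟩, ⟨-30, -29, 92, 35, -145, -13⟩, ⟨-71, -42, 85, 23, 9, 10⟩, ⟨74, -41, 37, 3, -57, 1⟩, ⟨-45, -1, -43, -12, -407, -44⟩, ⟨-38, 19, -32, -3, -531, -45⟩, ⟨81, -21, 18, 12, -91, 0⟩, ⟨118, 4, 7, 21, -151, -1⟩, ⟨91, 17, 101, -24, -287, 7⟩, ⟨64, 8, 74, -40, -378, 8⟩, ⟨11, -5, -100, 5, -2, 0⟩, ⟨14, -1, -57, 2, 3, 2⟩, ⟨15, -6,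 -77, 3, -3, -1⟩, ⟨14, -6, -82, 2, -24, -3⟩, ⟨13, -1, -65, 1, -20, 0⟩, ⟨15, -4, -59, 2, -5, 0⟩, ⟨10, -4, -73, 1, -16, -1⟩, ⟨10, -3, -57, 2, -2, -1⟩, ⟨15, -3, -44, 3, 7, 0⟩, ⟨7, -2, -25, 1, 0, 1⟩, ⟨1, -2, -23, 0, 3, 1⟩, ⟨-6, 0, -18, -1, -7, 0⟩, ⟨0, 0, -20, 0, -11, 0⟩, ⟨-4, -1, -12, -1, -11, 1⟩, ⟨-12, -1, -14, -1, -5, 1⟩, ⟨-17, 1, -6, -1, -7, 0⟩, ⟨-9, 1, -4, -1, -13, 0⟩, ⟨-9, 0, -1, -1, -9, 1⟩, ⟨-16, 0, -4, -1, -4, 1⟩, ⟨-7, 0, -3, 0, 5, 0⟩, ⟨0, 0, 0, 0, 0, 0⟩]⟩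

def m38 : Dat := ⟨[⟨-5, -12, 7, 12, 8, 1⟩, ⟨5, -2, -3, 1, 4, -10⟩, ⟨7, 9, -3, -10, 10, 1⟩, ⟨-7, 4, 0, -8, 3, -3⟩, ⟨-10, 2, 0, 0, 7, 0⟩, ⟨3, -6, 3, 7, 12, -2⟩, ⟨11, -1, -2, -2, 10, -4⟩, ⟨-10, -6, 1, 8, -27, -2⟩, ⟨17, 7, 41, -3, 43, 3⟩, ⟨34, -28, 0, 19, 20, -6⟩, ⟨51, -17, 4, 12, 57, -3⟩, ⟨32, -5, -66, -3, -19, -8⟩, ⟨-122, 33, 96, -20, -81, 8⟩, ⟨3, 2, 87, 2, 52, 12⟩, ⟨-4, -5, -84, 1, -41, -1⟩, ⟨-28, 0, 0, 13, -5, 6⟩, ⟨57, -10, -92, 5, 15, -2⟩, ⟨-16, -6, -20, 11, -15, -2⟩],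
  [⟨0, 0, 0, 0, 0, 0⟩, ⟨-5, -12, 7, 12, 8, 1⟩, ⟨10, 5, -5, -6, -8, -9⟩, ⟨-2, -2, -4, 1, -15, -9⟩, ⟨0, -3, -7, 3, 11, 1⟩, ⟨-13, -13, 9, 12, 24, 2⟩, ⟨20, 5, -31, -10, 12, -1⟩, ⟨-4, -4, -18, 0, 15, -1⟩, ⟨-5, -8, -2, 8, 30, 2⟩, ⟨-11, -6, -2, 8, 37, 2⟩, ⟨-8, -12, 15, 15, 33, 0⟩, ⟨-10, -12, 6, 15, 23, -2⟩, ⟨-13, -6, 3, 8, 31, 0⟩, ⟨-2, -7, 1, 6, 1, -4⟩, ⟨8, -13, 2, 14, 34, -6⟩, ⟨-5, -11, 31, 13, 52, -2⟩, ⟨5, -5, 50, 5, 19, 0⟩, ⟨22, 2, 121, 2, 62, 3⟩, ⟨56, -26, 67, 21, 199, -3⟩, ⟨50, -30, 44, 21, 160, -6⟩, ⟨16, -2, 92, 2, 36, 0⟩, ⟨67, -19, 72, 14, 165, -3⟩, ⟨99, -24, -50, 11, 69, -11⟩, ⟨95, -28, -26, 20, 141, -8⟩, ⟨63, -23, 88, 23, 226,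 0⟩, ⟨-59, 10, 232, 3, 73, 8⟩, ⟨-56, 12, 379, 5, 195, 20⟩, ⟨-52, 11, 319, -7, 99, 12⟩, ⟨-55, 9, 184, -9, -9, 0⟩, ⟨-59, 4, 96, -8, -50, -1⟩, ⟨-87, 4, 114, 5, 2, 5⟩, ⟨-86, 8, 114, 5, 3, 6⟩, ⟨-58, 8, 102, -8, -30, 0⟩, ⟨-1, -2, 6, -3, -9, -2⟩, ⟨-17, -8, -16, 8, -15, -4⟩, ⟨-16, -6, -20, 11, -15, -2⟩, ⟨0, 0, 0, 0, 0, 0⟩]⟩

def m39 : Dat := ⟨[⟨4, 23, -17, -22, 13, 4⟩, ⟨-18, -25, 4, 10, -8, 8⟩, ⟨-33, -46, 14, 46, -3, -6⟩, ⟨8, -17, -2, 31, -5, -12⟩, ⟨-11, 0, -1, 3, 3, 0⟩, ⟨26, 12, 1, -14, 1, 3⟩, ⟨-13, -3, -5, -2, -2, 1⟩, ⟨-13, 17, -10, -28, 5, 0⟩, ⟨-44, -11, -105, 1, -116, -7⟩, ⟨-123, 69, 46, -52, -59, 14⟩, ⟨6, 16, 119, -7, 67, 7⟩, ⟨61, -24,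 10, 9, 54, -8⟩, ⟨-33, 8, 21, -5, -21, 2⟩, ⟨-7, -3, 25, 5, 21, 3⟩, ⟨40, -8, -37, 4, 26, -1⟩, ⟨-9, -5, -25, 4, -10, -3⟩, ⟨40, -5, 6, 2, 45, 0⟩, ⟨4, -5, -19, 0, -3, -5⟩],
  [⟨0, 0, 0, 0, 0, 0⟩, ⟨4, 23, -17, -22, 13, 4⟩, ⟨-11, -11, -1, -3, 21, 12⟩, ⟨-20, -18, 2, 6, 37, 13⟩, ⟨-34, -28, 45, 31, 21, 5⟩, ⟨26, 18, -34, -15, 0, -1⟩, ⟨-54, -19, 52, 36, -65, -13⟩, ⟨-33, -22, 89, 38, -73, -12⟩, ⟨-7, -5, 29, 7, 4, 0⟩, ⟨-18, -5, 34, 10, 7, 0⟩, ⟨8, 7, 7, -4, 32, 3⟩, ⟨9, 4, 4, -4, 40, 3⟩, ⟨-17, -8, 3, 10, 9, 0⟩, ⟨-30, -11, -2, 8, 17, 1⟩, ⟨-43, 6, -12, -20, -148, 1⟩, ⟨-24, 8, -9, -19, -148, 0⟩, ⟨-11, -9, 1, 9, 127, 0⟩, ⟨-55, -20, -174, 10, -49, -7⟩,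 ⟨-178, 49, -2, -42, -450, 7⟩, ⟨-173, 65, 39, -48, -415, 14⟩, ⟨-50, -4, -119, 4, -52, 0⟩, ⟨-44, 12, 56, -3, 15, 7⟩, ⟨17, -12, 10, 6, 76, -1⟩, ⟨22, -21, -31, 6, 29, -8⟩, ⟨-39, 3, 7, -3, -31, 0⟩, ⟨-72, 11, 40, -8, -70, 2⟩, ⟨-79, 8, 80, -3, -9, 5⟩, ⟨-76, 8, 69, -6, -32, 3⟩, ⟨-69, 11, 32, -11, -85, 0⟩, ⟨-29, 3, -9, -7, -47, -1⟩, ⟨-38, -2, -43, -3, -54, -4⟩, ⟨-39, -1, -42, 0, -48, -3⟩, ⟨-30, 4, -11, -4, -40, 0⟩, ⟨10, -1, -5, -2, 9, 0⟩, ⟨14, -6, -29, -2, 1, -5⟩, ⟨4, -5, -19, 0, -3, -5⟩, ⟨0, 0, 0, 0, 0, 0⟩]⟩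

def m40 : Dat := ⟨[⟨58, 81, -18, -84, 45, 13⟩, ⟨-63, -51, 10, 86, -80, -8⟩, ⟨-61, -115, 57, 119, -7, -19⟩, ⟨12, -75, 15, 127, 0, -57⟩, ⟨-47, -1, 4, 6, 4, -2⟩, ⟨62, -33, -19, 19, -5, 17⟩, ⟨21, -9, 2, -4, 31, -3⟩, ⟨-40, -20, -52, 36, -32, -3⟩, ⟨9, -5, 11, 4, 25, 0⟩, ⟨38, -20, -44, 18, 3, -2⟩, ⟨-2, -7, -56, 3, -32, -3⟩, ⟨-31, 12, -4, -6, -32, 3⟩, ⟨1, 1, 4, 0, 3, 0⟩, ⟨8, 0, 1, 0, -1, 0⟩, ⟨-15, 2, 3, -1, -15, 0⟩, ⟨2, 1, 12, 0, 2, 1⟩, ⟨-2, 0, -17, 0, -11, 0⟩, ⟨-2, 1, 3, 1, -5, 1⟩],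
  [⟨0, 0, 0, 0, 0, 0⟩, ⟨58, 81, -18, -84, 45, 13⟩, ⟨-27, 21, -21, 11, -51, 5⟩, ⟨-22, -6, 30, 43, -19, 13⟩, ⟨-118, -92, 144, 94, 85, 21⟩, ⟨58, 27, -32, -21, 21, 2⟩, ⟨-120, -42, 173, 100, -264, -55⟩, ⟨-102, -54, 252, 109, -327, -56⟩, ⟨36, 21, -17, -18, 15, 1⟩, ⟨-13, 20, -1, -12, 7, -1⟩, ⟨49, -13, 18, 7, 138, 16⟩, ⟨46, -19, 15, 9, 191, 17⟩, ⟨-16, 14, 34, -10, 26, 0⟩, ⟨5, 5, 36, -14, 27, -3⟩, ⟨-5, -15, -16, 22, 195, -6⟩, ⟨-31, -11, -7, 27, 240, -3⟩, ⟨9, 9, 75, -9, -58, 0⟩, ⟨18, 4, 86, -5, 7, 0⟩, ⟨56, -16, 24, 13, 154, -2⟩, ⟨53, -19, 25, 17, 174, -2⟩, ⟨15, 1, 85, -1, 43, 0⟩, ⟨13, -6, 5, 2, 11, -3⟩, ⟨-18, 6, 22, -4, -42, 0⟩, ⟨-21, 10,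 34, -4, -24, 3⟩, ⟨10, -2, 20, 2, 26, 0⟩, ⟨11, -1, 24, 2, 29, 0⟩, ⟨19, -1, 25, 2, 28, 0⟩, ⟨20, -2, 19, 2, 25, 0⟩, ⟨12, -2, 18, 2, 26, 0⟩, ⟨-3, 0, 21, 1, 7, 0⟩, ⟨-1, 1, 36, 1, 12, 1⟩, ⟨2, 1, 43, 0, 17, 1⟩, ⟨0, 0, 29, 0, 13, 0⟩, ⟨-2, 0, 12, 0, 2, 0⟩, ⟨-4, 1, 16, 1, -1, 1⟩, ⟨-2, 1, 3, 1, -5, 1⟩, ⟨0, 0, 0, 0, 0, 0⟩]⟩

def m41 : Dat := ⟨[⟨-7, -9, 2, 10, 6, 0⟩, ⟨3, -8, -1, 0, 8, -5⟩, ⟨-4, -6, 2, 6, 7, 1⟩, ⟨-2, 5, -3, -4, 1, -4⟩, ⟨0, 0, -1, 0, 5, 0⟩, ⟨2, 4, -1, -1, 6, -3⟩, ⟨7, -1, -2, -1, 19, -2⟩, ⟨-10, 4, 2, -7, -24, -1⟩, ⟨-4, 4, -5, -3, -9, 0⟩, ⟨-20, 5, 32, -4, 1, 1⟩, ⟨3, 8, 57, -4, 36, 4⟩, ⟨45, -18, 5, 13, 43, -3⟩, ⟨72, -13, 17, 9, 87,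 -1⟩, ⟨44, -9, -98, 2, -17, -7⟩, ⟨-164, 27, 87, -17, -127, 6⟩, ⟨-10, 4, 141, 2, 77, 10⟩, ⟨81, -16, -173, 8, 0, -4⟩, ⟨-50, -1, -46, 8, -57, 0⟩],
  [⟨0, 0, 0, 0, 0, 0⟩, ⟨-7, -9, 2, 10, 6, 0⟩, ⟨8, -1, -3, -6, 4, -5⟩, ⟨-3, -7, -2, 0, -1, -6⟩, ⟨-2, -7, 3, 8, 6, -1⟩, ⟨6, -1, -7, 2, 16, 0⟩, ⟨9, 2, -15, 0, -3, -4⟩, ⟨2, -4, 1, 6, -5, -4⟩, ⟨-6, -9, 12, 10, 18, 0⟩, ⟨-6, -9, 11, 10, 23, 0⟩, ⟨-4, -5, 8, 9, 5, -3⟩, ⟨-3, -5, 3, 9, 5, -3⟩, ⟨-5, -9, 4, 10, 29, 0⟩, ⟨2, -10, 2, 9, 28, -2⟩, ⟨2, -6, 4, 2, -36, -3⟩, ⟨-5, -5, 17, 2, -36, -1⟩, ⟨5, -9, 25, 9, 68, 0⟩, ⟨1, -5, 20, 6, 29, 0⟩, ⟨-19, 0, 61, 2, 3, 1⟩, ⟨-19, 2, 58, -1, -21, 1⟩, ⟨1, -3, 18, 3, 2,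 0⟩, ⟨4, 5, 107, -1, 38, 4⟩, ⟨49, -13, 91, 12, 151, 1⟩, ⟨50, -17, 62, 12, 117, -3⟩, ⟨5, 1, 75, -1, 14, 0⟩, ⟨77, -12, 86, 8, 149, -1⟩, ⟨121, -21, -47, 10, 107, -8⟩, ⟨124, -25, -40, 18, 145, -7⟩, ⟨80, -16, 86, 16, 182, 0⟩, ⟨-84, 11, 197, -1, 11, 6⟩, ⟨-94, 15, 368, 1, 124, 16⟩, ⟨-94, 16, 341, -10, 79, 10⟩, ⟨-84, 12, 180, -12, -22, 0⟩, ⟨-3, -4, -1, -4, -14, -4⟩, ⟨-53, -5, -47, 4, -63, -4⟩, ⟨-50, -1, -46, 8, -57, 0⟩, ⟨0, 0, 0, 0, 0, 0⟩]⟩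

def m42 : Dat := ⟨[⟨12, 9, 4, -9, 3, 1⟩, ⟨-10, 3, -1, 17, -16, -5⟩, ⟨3, -5, 8, 5, -2, -2⟩, ⟨0, -10, 6, 16, 3, -8⟩, ⟨-3, 0, 1, 0, -1, 0⟩, ⟨-1, -14, -5, 12, -3, 2⟩, ⟨14, -1, 2, -1, 17, 0⟩, ⟨-9, -13, -2, 25, -7, -1⟩, ⟨12, 6, 31, -3, 39, 3⟩, ⟨54, -35, 6, 32, 44, -2⟩, ⟨52, -3, 109, 4, 123, 4⟩, ⟨165, -43, -135, 33, 69, -8⟩, ⟨3, -16, -199, 8, -102, -8⟩, ⟨-138, 31, 3, -19, -128, 6⟩, ⟨-3, 3, 54, -1, 22, 1⟩, ⟨35, -1, 2, -2, 20, -1⟩, ⟨-72, 8, -5, -5, -78, 1⟩, ⟨-19, 6, 65, -1, 13, 5⟩],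
  [⟨0, 0, 0, 0, 0, 0⟩, ⟨12, 9, 4, -9, 3, 1⟩, ⟨-10, 8, -5, 12, -23, -4⟩, ⟨-3, 7, 4, 14, -26, -3⟩, ⟨-19, -10, 11, 11, 5, 2⟩, ⟨-6, -5, 9, 6, -3, 0⟩, ⟨-8, -3, 17, 10, -40, -8⟩, ⟨-13, -3, 14, 10, -48, -8⟩, ⟨7, 7, -24, -6, -3, 0⟩, ⟨4, 7, -23, -6, -4, 0⟩, ⟨3, -7, -4, 6, 9, 2⟩, ⟨2, -7, -3, 6, 12, 2⟩, ⟨3, 7, 2, -6, -5, 0⟩, ⟨17, 6, 4, -7, 12, 0⟩, ⟨18, -7, 2, 18, 135, -1⟩, ⟨2, -6, -12, 18, 117, -1⟩, ⟨11, 7, 0, -7, -116, 0⟩, ⟨23, 13, 61, -10, -77, 3⟩, ⟨77, -22, 49, 22, 237, 1⟩, ⟨74, -25, 26, 22, 196, -2⟩, ⟨20, 10, 36, -10, -88, 0⟩, ⟨72, 7, 177, -6, 99, 4⟩, ⟨237, -36, -14, 27, 343, -4⟩, ⟨231, -45, -29, 35, 348, -8⟩, ⟨66, -2, 154, 2, 129, 0⟩,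 ⟨69, -18, -93, 10, 27, -8⟩, ⟨-69, 13, -60, -9, -166, -2⟩, ⟨-64, 21, -25, -9, -114, 6⟩, ⟨74, -10, -52, 10, 66, 0⟩, ⟨71, -7, 6, 9, 88, 1⟩, ⟨106, -8, 5, 7, 99, 0⟩, ⟨108, -10, 13, 7, 104, -1⟩, ⟨73, -9, 13, 9, 90, 0⟩, ⟨1, -1, 10, 4, 4, 1⟩, ⟨-18, 5, 80, 3, 21, 6⟩, ⟨-19, 6, 65, -1, 13, 5⟩, ⟨0, 0, 0, 0, 0, 0⟩]⟩

def m43 : Dat := ⟨[⟨7, 2, 5, -2, 2, 0⟩, ⟨-5, 2, -1, 11, -8, -5⟩, ⟨3, -2, 6, 3, 0, 0⟩, ⟨0, -3, 3, 8, 3, -6⟩, ⟨2, 0, 0, 0, 0, 0⟩, ⟨-4, -8, -5, 8, -2, -1⟩, ⟨16, 0, 1, 0, 32, 0⟩, ⟨-9, -8, 1, 16, -10, -1⟩, ⟨5, 5, 16, -3, 22, 2⟩, ⟨38, -24, 26, 23, 42, -1⟩, ⟨13, 5, 60, -2, 55, 4⟩, ⟨113, -32, -36, 30, 82, -2⟩, ⟨68, -7, 80, 6, 120, 1⟩, ⟨154,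 -26, -192, 20, 36, -5⟩, ⟨20, -15, -235, 7, -106, -7⟩, ⟨-192, 30, 2, -22, -188, 4⟩, ⟨-117, 15, 73, -9, -86, 3⟩, ⟨6, 3, 154, -1, 81, 3⟩],
  [⟨0, 0, 0, 0, 0, 0⟩, ⟨7, 2, 5, -2, 2, 0⟩, ⟨-4, 5, -3, 8, -16, -5⟩, ⟨1, 3, 6, 10, -21, -5⟩, ⟨-9, -8, 9, 8, 2, 0⟩, ⟨0, -5, 10, 6, 2, 0⟩, ⟨1, -2, 12, 8, -25, -6⟩, ⟨-2, -2, 7, 7, -31, -6⟩, ⟨4, 1, -12, -1, 2, 0⟩, ⟨6, 1, -12, -1, 2, 0⟩, ⟨2, -7, -1, 7, -8, -1⟩, ⟨2, -7, -1, 7, -10, -1⟩, ⟨6, 1, 4, -1, 2, 0⟩, ⟨22, 1, 5, -1, 34, 0⟩, ⟨23, -7, 6, 15, 104, -1⟩, ⟨6, -7, -10, 15, 72, -1⟩, ⟨15, 1, -1, -1, -68, 0⟩, ⟨20, 6, 35, -4, -56, 2⟩, ⟨58, -18, 52, 19, 184, 1⟩, ⟨57, -19, 36, 18, 148, -1⟩, ⟨19, 5, 18, -5, -70,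 0⟩, ⟨32, 10, 110, -7, 1, 4⟩, ⟨145, -22, 60, 23, 279, 2⟩, ⟨146, -27, 30, 25, 250, -2⟩, ⟨33, 5, 78, -5, 0, 0⟩, ⟨101, -2, 164, 1, 162, 1⟩, ⟨255, -28, -53, 21, 273, -4⟩, ⟨252, -34, -53, 28, 285, -5⟩, ⟨98, -8, 159, 8, 189, 0⟩, ⟨118, -23, -104, 15, 83, -7⟩, ⟨-74, 7, -90, -7, -159, -3⟩, ⟨-75, 15, -73, -7, -128, 4⟩, ⟨117, -15, -83, 15, 96, 0⟩, ⟨0, 0, -4, 6, -2, 3⟩, ⟨6, 3, 153, 5, 81, 6⟩, ⟨6, 3, 154, -1, 81, 3⟩, ⟨0, 0, 0, 0, 0, 0⟩]⟩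

def m44 : Dat := ⟨[⟨13, 27, -14, -27, -8, 0⟩, ⟨-16, 13, -1, -6, -24, 17⟩, ⟨8, 22, -13, -21, -11, -1⟩, ⟨3, -24, 14, 12, -7, 17⟩, ⟨-18, 0, 1, 0, -8, 1⟩, ⟨-2, -13, 17, 1, -7, 12⟩, ⟨-29, 1, 3, 1, -126, 2⟩, ⟨20, -14, 6, 21, 62, 5⟩, ⟨1, -5, 2, 3, 9, 0⟩, ⟨19, -10, -69, 10, -15, 0⟩, ⟨12, -7, -8, 4, 9, -1⟩, ⟨4, 2, -73, -2, -32, 0⟩, ⟨7, -8, -78, 4, -38, -3⟩, ⟨-92, 20, -13, -18, -94, 2⟩, ⟨-85, 7, -92, -6, -141, -1⟩, ⟨-142, 21, 182, -14, -35, 5⟩, ⟨108, -4, 203, 4, 218, 3⟩, ⟨199, -22, -194, 11, 82, -8⟩],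
  [⟨0, 0, 0, 0, 0, 0⟩, ⟨13, 27, -14, -27, -8, 0⟩, ⟨-31, -9, 6, 16, 2, 17⟩, ⟨-10, -1, 11, 8, 16, 17⟩, ⟨-3, 5, 14, -5, -11, 0⟩, ⟨-37, -16, 44, 17, -25, -1⟩, ⟨-26, -18, 50, 7, 53, 16⟩, ⟨-15, -8, 20, -4, 66, 16⟩, ⟨30, 16, -18, -16, -29, -1⟩, ⟨12, 16, -17, -16, -31, 0⟩, ⟨10, 3, 2, -15, 58, 12⟩, ⟨9, 3, 10, -16, 75, 12⟩, ⟨11, 16, -7, -17, -38, 0⟩, ⟨-18, 17, -4, -16, -144, 2⟩, ⟨-48, 3, 2, 5, 58, 7⟩, ⟨-20, 2, 11, 5, 165, 5⟩, ⟨-40, 16, -45, -16, -157, 0⟩, ⟨-39, 11, -43, -13, -118, 0⟩, ⟨-20, 1, -112, -3, -43, 0⟩, ⟨-19, 0, -106, 0, -20, 0⟩, ⟨-38, 10, -37, -10, -85, 0⟩, ⟨-26, 3, -53, -6, -52, -1⟩, ⟨-22, 5, -126, -8, -98, -1⟩, ⟨-21, 5, -112, -5,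 -67, 0⟩, ⟨-25, 3, -39, -3, -23, 0⟩, ⟨-18, -5, -135, 1, -55, -3⟩, ⟨-110, 15, -138, -17, -229, -1⟩, ⟨-106, 18, -122, -16, -197, 2⟩, ⟨-14, -2, -117, 2, -39, 0⟩, ⟨-99, 5, -213, -4, -208, -1⟩, ⟨-241, 26, -16, -18, -270, 4⟩, ⟨-247, 32, -20, -25, -282, 5⟩, ⟨-105, 11, -212, -11, -229, 0⟩, ⟨3, 7, -3, -7, 3, 3⟩, ⟨202, -15, -205, 4, 88, -5⟩, ⟨199, -22, -194, 11, 82, -8⟩, ⟨0, 0, 0, 0, 0, 0⟩]⟩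

def m45 : Dat := ⟨[⟨-25, -68, 41, 68, 17, 1⟩, ⟨55, -17, 3, 16, 59, -46⟩, ⟨-16, -55, 38, 55, 23, 4⟩, ⟨-8, 82, -49, -45, 25, -47⟩, ⟨81, 0, -2, 0, 16, -2⟩, ⟨0, 56, -65, -11, 10, -47⟩, ⟨81, -2, -7, -1, 485, -4⟩, ⟨-42, 59, -28, -80, -161, -12⟩, ⟨-2, 7, -6, -4, -28, 1⟩, ⟨-32, 42, 149, -42, 28, 1⟩, ⟨-14, 2, -29, -2, -44, -1⟩, ⟨-78, 31, 103, -30, -41, 1⟩, ⟨-24, 1, -56, -1, -65, -2⟩, ⟨-109, 25, 116, -23, -64, 2⟩, ⟨-51, 6, -38, -4, -78, 0⟩, ⟨-79, 13, 160, -11, -10, 2⟩, ⟨-34, 7, 89, -4, 12, 3⟩, ⟨93, -8, 53, 7, 102, 0⟩],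
  [⟨0, 0, 0, 0, 0, 0⟩, ⟨-25, -68, 41, 68, 17, 1⟩, ⟨99, 52, -24, -53, -16, -45⟩, ⟨64, 34, -26, -37, -59, -47⟩, ⟨45, 18, -64, -20, 20, -1⟩, ⟨138, 73, -135, -75, 55, 3⟩, ⟨93, 73, -147, -38, -155, -44⟩, ⟨75, 54, -91, -18, -199, -45⟩, ⟨-81, -28, 48, 27, 58, 2⟩, ⟨0, -28, 46, 27, 62, 0⟩, ⟨0, 28, -41, 16, -304, -47⟩, ⟨2, 28, -57, 18, -383, -47⟩, ⟨2, -28, 8, 29, 77, 0⟩, ⟨83, -30, 1, 28, 522, -4⟩, ⟨161, 29, -27, -52, -229, -16⟩, ⟨83, 30, -68, -51, -665, -12⟩, ⟨125, -29, 80, 29, 416, 0⟩, ⟨123, -22, 84, 25, 358, 1⟩, ⟨91, 20, 242, -17, 17, 2⟩, ⟨94, 20, 224, -20, 3, 1⟩, ⟨126, -22, 67, 22, 303, 0⟩, ⟨112, -20, 30, 20, 235, -1⟩, ⟨34, 11, 140, -10,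 -9, 0⟩, ⟨31, 14, 137, -13, -13, 1⟩, ⟨109, -17, 28, 17, 202, 0⟩, ⟨85, -16, -40, 16, 119, -2⟩, ⟨-24, 9, 86, -7, -50, 0⟩, ⟨-24, 12, 92, -10, -42, 2⟩, ⟨85, -13, -32, 13, 106, 0⟩, ⟨34, -7, -70, 9, 12, 0⟩, ⟨-45, 6, 96, -2, -25, 2⟩, ⟨-46, 8, 80, -6, -36, 2⟩, ⟨33, -5, -84, 5, -8, 0⟩, ⟨-1, 2, 11, 1, 2, 3⟩, ⟨92, -6, 64, 8, 111, 3⟩, ⟨93, -8, 53, 7, 102, 0⟩, ⟨0, 0, 0, 0, 0, 0⟩]⟩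

end H13SB.Num
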