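import Pool.Agent.H13.SB.Num.Neg0
import Pool.Agent.H13.SB.Num.Neg1
import Pool.Agent.H13.SB.Num.Neg2
import Pool.Agent.H13.SB.Num.Neg3
import Pool.Agent.H13.SB.Num.Diag

/-!
# The negative definite space of cocycles
-/

namespace H13SB.Num

/-- Diagonal dominance of the negative. -/
def rowOKn (D : List Dat) (d : Dat) : Bool :=
  Nat.blt (gp d d) (gm d d) && Nat.blt (rowsum D d) (2 * (gm d d - gp d d))

def N0 : List Dat := [m0, m1, m2, m3, m4, m5, m6, m7, m8, m9, m10, m11]
def N1 : List Dat := [m12, m13, m14, m15, m16, m17, m18, m19, m20, m21, m22, m23]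
def N2 : List Dat := [m24, m25, m26, m27, m28, m29, m30, m31, m32, m33, m34, m35]
def N3 : List Dat := [m36, m37, m38, m39, m40, m41, m42, m43, m44, m45]

/-- All cocycles. -/
def nlist : List Dat := N0 ++ (N1 ++ (N2 ++ N3))

theorem nlist_length : nlist.length = 46 := by decide

theorem okD_n : nlist.all okD = true := by decide +kernel

theorem okL_n : nlist.all okL = true := by decide +kernel

theorem rows_n : nlist.all (rowOKn nlist) = true := by decide +kernel

theorem num_neg_aux (L : List Dat) (h1 : L.all okD = true) (h0 : L.all okL = true)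
    (h2 : L.all (rowOKn L) = true) :
    ∃ c : Fin L.length → SurfaceGroup 9 → Gen 3 → ℝ, (∀ k, Coc X.piece.lin (c k)) ∧
    ∀ t : Fin L.length → ℝ, t ≠ 0 →
      formT X.piece.lin (∑ k, t k • c k) (∑ k, t k • c k) < 0 := by
  rw [List.all_eq_true] at h0 h1 h2
  have h3 : ∀ k : Fin L.length, ∃ u : SurfaceGroup 9 → Gen 3 → ℝ,
      Coc X.piece.lin u ∧ (∀ y, u (sgen y) = xr (L[k]).xs y) ∧
      vals u 1 (lets 9) = (L[k]).Us.map V6.r ∧ (L[k]).xs.length = 18 :=
    fun k => exists_cocycle _ (h1 _ (List.getElem_mem _))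
  choose c hc hx hv hl using h3
  have hG : ∀ i j, formT X.piece.lin (c i) (c j) = (gram L[i] L[j] : ℝ) := by
    intro i j
    rw [formT_eq_pairR num_symp (hc i) (hc j), hv, hv, pairR_r]
    simp only [hx]
    rw [sum_oml _ _ (hl i) (hl j), gram]
    push_cast
    ring
  refine ⟨c, hc, fun t ht => ?_⟩
  have h4 : formT X.piece.lin (∑ k, t k • c k) (∑ k, t k • c k) =
      -∑ i, ∑ j, t i * t j * (-(gram L[i] L[j] : ℝ)) := by
    rw [← formB_apply]
    simp only [map_sum, LinearMap.sum_apply, map_smul, LinearMap.smul_apply, formB_apply, hG,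
      smul_eq_mul, Finset.mul_sum]
    rw [Finset.sum_comm, ← Finset.sum_neg_distrib]
    refine Finset.sum_congr rfl fun i _ => ?_
    rw [← Finset.sum_neg_distrib]
    refine Finset.sum_congr rfl fun j _ => ?_
    ring
  rw [h4, neg_lt_zero]
  have hL : ∀ i : Fin L.length, okL L[i] = true := fun i => h0 _ (List.getElem_mem (l := L) i.2)
  refine diag_pos (fun i j => -(gram L[i] L[j] : ℝ)) (fun i j => ?_) (fun i => ?_) t ht
  · rw [← hG, ← hG]
    rw [formT_symm num_symp (hc i) (hc j)]
  · have h5 := h2 _ (List.getElem_mem (l := L) i.2)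
    simp only [rowOKn, Bool.and_eq_true] at h5
    have h51 : gp L[i] L[i] < gm L[i] L[i] := Nat.le_of_ble_eq_true h5.1
    have h52 : rowsum L L[i] < 2 * (gm L[i] L[i] - gp L[i] L[i]) := Nat.le_of_ble_eq_true h5.2
    have h6 := gram_eq (hL i) (hL i)
    have h7 : ∑ j : Fin L.length, (gram L[i] L[j]).natAbs = rowsum L L[i] := by
      rw [rowsum]
      have h71 := sum_getElem L (fun d' => absG L[i] d')
      rw [← Finset.sum_congr rfl fun j _ => (absG_eq (hL i) (hL j)).symm] at h71
      exact h71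
    have h8 : ((rowsum L L[i] : ℕ) : ℤ) < 2 * -gram L[i] L[i] := by
      rw [h6]; omega
    have h9 : ((rowsum L L[i] : ℕ) : ℝ) < 2 * (-(gram L[i] L[i] : ℝ)) := by exact_mod_cast h8
    calc ∑ j : Fin L.length, |(-(gram L[i] L[j] : ℝ))| = ((rowsum L L[i] : ℕ) : ℝ) := by
          rw [← h7]
          push_cast
          refine Finset.sum_congr rfl fun j _ => ?_
          rw [abs_neg, ← Int.cast_abs, Int.abs_eq_natAbs, Int.cast_natCast]
      _ < _ := h9

theorem num_neg : ∃ c : Fin 46 → SurfaceGroup 9 → Gen 3 → ℝ, (∀ k, Coc X.piece.lin (c k)) ∧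
    ∀ t : Fin 46 → ℝ, t ≠ 0 →
      formT X.piece.lin (∑ k, t k • c k) (∑ k, t k • c k) < 0 := by
  have h := num_neg_aux nlist okD_n okL_n rows_n
  rw [nlist_length] at h
  exact h

end H13SB.Num
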