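import Pool.Agent.H13.SB.Num.Pl

namespace H13SB.Num

def d0 : Dat := ⟨[⟨12, 37, -26, -37, 4, 1⟩, ⟨-30, 26, -15, -26, -51, 27⟩, ⟨14, 41, -27, -41, 1, 0⟩, ⟨0, -19, 11, -9, -18, 27⟩, ⟨13, 0, 1, 0, 0, 0⟩, ⟨-15, 27, 8, -20, 15, -6⟩, ⟨-18, 0, 2, 1, 50, 0⟩, ⟨-29, 27, 5, -48, -14, 1⟩, ⟨6, 7, 18, -4, -7, 2⟩, ⟨-78, 38, -79, -37, -99, 0⟩, ⟨-10, 12, 53, -6, -1, 3⟩, ⟨-121, 24, -143, -23, -171, 0⟩, ⟨-39, 12, 55, -7, -19, 3⟩, ⟨-60, 2, -198, -1, -138, 0⟩, ⟨-25, 1, -42, -2, -38, -1⟩, ⟨90, -17, -102, 16, 51, -1⟩, ⟨90, -13, -103, 8, 48, -3⟩, ⟨61, -6, 202, 6, 168, 1⟩],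
  [⟨0, 0, 0, 0, 0, 0⟩, ⟨12, 37, -26, -37, 4, 1⟩, ⟨-59, -19, 0, 19, 7, 28⟩, ⟨-47, -23, 18, 22, 32, 27⟩, ⟨-6, 3, 22, -4, 2, 0⟩, ⟨-74, -38, 77, 37, 3, 0⟩, ⟨-40, -35, 54, 6, 120, 27⟩, ⟨-56, -36, 42, 7, 147, 27⟩, ⟨-18, -17, 49, 16, 3, 0⟩, ⟨-5, -17, 50, 16, 3, 0⟩, ⟨-20, 10, 18, -4, -30, -6⟩, ⟨-21, 10, 18, -4, -43, -6⟩, ⟨-6, -17, 10, 16, 2, 0⟩, ⟨-24, -17, 12, 17, 52, 0⟩, ⟨-63, 10, 17, -31, -232, 1⟩, ⟨-47, 9, 35, -30, -271, 1⟩, ⟨-18, -18, 20, 18, 213, 0⟩, ⟨-12, -11, 58, 14, 186, 2⟩, ⟨-90, 27, -21, -23, -246, 2⟩, ⟨-92, 26, -39, -25, -262, 0⟩, ⟨-14, -12, 40, 12, 133, 0⟩, ⟨-24, 0, 117, 6, 108, 3⟩, ⟨-145, 24, -26, -17, -224, 3⟩, ⟨-144,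 21, -43, -20, -247, 0⟩, ⟨-23, -3, 100, 3, 62, 0⟩, ⟨-62, 9, 173, -4, 19, 3⟩, ⟨-122, 11, -25, -5, -124, 3⟩, ⟨-122, 10, -38, -9, -150, 0⟩, ⟨-62, 8, 160, -8, -8, 0⟩, ⟨-87, 9, 114, -10, -58, -1⟩, ⟨3, -8, 9, 6, 38, -2⟩, ⟨-11, -4, 15, 3, 15, -1⟩, ⟨-101, 13, 119, -13, -66, 0⟩, ⟨-11, 0, 10, -5, -8, -3⟩, ⟨50, -6, 213, 1, 167, -2⟩, ⟨61, -6, 202, 6, 168, 1⟩, ⟨0, 0, 0, 0, 0, 0⟩]⟩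

def d1 : Dat := ⟨[⟨7, 14, -7, -13, -4, 0⟩, ⟨-2, 17, 1, -7, -22, 9⟩, ⟨7, 13, -6, -13, -6, 0⟩, ⟨4, 2, -1, -7, -3, 9⟩, ⟨18, 0, 0, 0, -6, 1⟩, ⟨-5, 19, -8, -12, 2, -7⟩, ⟨4, 0, 1, 0, 108, -1⟩, ⟨15, 19, -6, -27, 20, 3⟩, ⟨2, 7, 14, -4, 2, 1⟩, ⟨-9, 8, -103, -8, -58, 0⟩, ⟨-17, 7, 12, -5, -10, 1⟩, ⟨23, -8, -135, 8, -43, 0⟩, ⟨-12, -2, -60, 1, -29, -2⟩, ⟨124, -21, -56, 19, 89, -1⟩, ⟨69, -16, -115, 9, 24, -5⟩, ⟨98, -8, 167, 6, 169, 1⟩, ⟨-9, 7, 157, -3, 58, 4⟩, ⟨-163, 16, 20, -12, -142, 1⟩],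
  [⟨0, 0, 0, 0, 0, 0⟩, ⟨7, 14, -7, -13, -4, 0⟩, ⟨-15, 1, 4, 10, -8, 9⟩, ⟨-2, 5, 9, 6, -4, 8⟩, ⟨4, 12, -6, -11, -9, -1⟩, ⟨-15, -1, 14, 2, -15, -1⟩, ⟨-22, -9, 24, 5, 27, 8⟩, ⟨-17, -3, 5, -1, 33, 8⟩, ⟨-25, -5, 20, 6, -18, -1⟩, ⟨-7, -5, 20, 6, -18, 0⟩, ⟨-12, 14, -12, -6, -72, -7⟩, ⟨-12, 14, -6, -7, -91, -7⟩, ⟨-7, -5, 2, 5, -23, 0⟩, ⟨-3, -5, 3, 5, 75, -1⟩, ⟨-18, 14, -3, -22, -95, 2⟩, ⟨-24, 14, 3, -22, -193, 3⟩, ⟨-39, -5, -21, 5, 27, 0⟩, ⟨-37, 2, 3, 1, -1, 1⟩, ⟨-46, 10, -100, -7, -131, 1⟩, ⟨-47, 10, -106, -10, -159, 0⟩, ⟨-38, 2, -3, -2, -37, 0⟩, ⟨-55, 9, 17, -7, -79, 1⟩, ⟨-32, 1, -118, 1, -66, 1⟩, ⟨-36, 3, -120, -3, -101, 0⟩, ⟨-59,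 11, 15, -11, -106, 0⟩, ⟨-71, 9, -57, -10, -141, -2⟩, ⟨53, -12, -118, 9, 38, -3⟩, ⟨59, -10, -112, 8, 35, -1⟩, ⟨-65, 11, -52, -11, -126, 0⟩, ⟨4, -5, -187, -2, -86, -5⟩, ⟨102, -13, -17, 4, 104, -4⟩, ⟨100, -10, 10, 8, 123, 1⟩, ⟨2, -2, -159, 2, -60, 0⟩, ⟨-7, 5, 6, -1, 0, 4⟩, ⟨-170, 21, 27, -13, -153, 5⟩, ⟨-163, 16, 20, -12, -142, 1⟩, ⟨0, 0, 0, 0, 0, 0⟩]⟩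

def d2 : Dat := ⟨[⟨4, 16, -12, -15, 0, 1⟩, ⟨-7, 13, -1, -14, -24, 13⟩, ⟨5, 17, -12, -17, -3, 0⟩, ⟨2, -5, 1, -8, -8, 13⟩, ⟨11, 0, 1, 0, -4, 0⟩, ⟨-4, 20, -1, -15, 7, -5⟩, ⟨-8, 0, 1, -1, 61, 0⟩, ⟨6, 20, -6, -33, 6, 2⟩, ⟨7, 14, 29, -8, 8, 4⟩, ⟨-48, 15, -120, -13, -93, 0⟩, ⟨-19, 9, 17, -5, -10, 1⟩, ⟨7, -10, -114, 10, -39, 0⟩, ⟨34, -15, -109, 9, -5, -5⟩, ⟨103, -15, 90, 12, 140, 0⟩, ⟨2, 7, 140, -4, 60, 4⟩, ⟨-140, 14, 23, -9, -106, 2⟩, ⟨8, -4, -82, 2, -28, -2⟩, ⟨60, -6, -4, 3, 56, -1⟩],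
  [⟨0, 0, 0, 0, 0, 0⟩, ⟨4, 16, -12, -15, 0, 1⟩, ⟨-22, -10, 7, 10, 2, 14⟩, ⟨-15, -9, 11, 9, 11, 13⟩, ⟨0, 5, 5, -4, -4, 0⟩, ⟨-29, -12, 27, 13, -7, 0⟩, ⟨-28, -19, 29, 7, 50, 13⟩, ⟨-27, -16, 18, 4, 62, 13⟩, ⟨-19, -11, 33, 12, -8, 0⟩, ⟨-8, -11, 34, 12, -12, 0⟩, ⟨-12, 9, 3, -3, -45, -5⟩, ⟨-13, 9, 7, -3, -56, -5⟩, ⟨-9, -11, 8, 12, -13, 0⟩, ⟨-17, -11, 9, 11, 48, 0⟩, ⟨-31, 9, 3, -22, -146, 2⟩, ⟨-24, 10, 11, -23, -218, 2⟩, ⟨-30, -10, -3, 10, 86, 0⟩, ⟨-23, 4, 66, 2, 54, 4⟩, ⟨-71, 19, -54, -11, -156, 4⟩, ⟨-70, 17, -87, -15, -212, 0⟩, ⟨-22, 2, 33, -2, -15, 0⟩, ⟨-41, 11, 58, -7, -57, 1⟩, ⟨-34, 1, -56, 3, -26, 1⟩, ⟨-32, 1, -57, -1, -56, 0⟩,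 ⟨-39, 11, 57, -11, -77, 0⟩, ⟨-5, -4, -82, -2, -58, -5⟩, ⟨98, -19, 8, 10, 142, -5⟩, ⟨107, -17, 29, 14, 178, 0⟩, ⟨4, -2, -61, 2, -10, 0⟩, ⟨6, 5, 95, -2, 50, 4⟩, ⟨-134, 19, 124, -11, -77, 6⟩, ⟨-150, 16, 112, -11, -94, 2⟩, ⟨-10, 2, 85, -2, 26, 0⟩, ⟨-2, -2, -1, 0, -2, -2⟩, ⟨58, -8, -6, 3, 56, -3⟩, ⟨60, -6, -4, 3, 56, -1⟩, ⟨0, 0, 0, 0, 0, 0⟩]⟩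

def d3 : Dat := ⟨[⟨3, 7, -3, -6, -2, 1⟩, ⟨4, 7, 5, -4, -9, 4⟩, ⟨2, 4, -2, -4, -5, -1⟩, ⟨3, 2, -2, -5, -1, 5⟩, ⟨10, 0, 0, 0, -4, 0⟩, ⟨0, 10, -5, -7, 0, -3⟩, ⟨0, -1, 0, -2, 61, -1⟩, ⟨25, 10, -6, -14, 27, 3⟩, ⟨3, 14, 21, -8, 11, 3⟩, ⟨-9, -6, -108, 7, -56, 0⟩, ⟨1, -14, -87, 8, -24, -6⟩, ⟨111, -22, 36, 18, 111, -1⟩, ⟨37, -6, 15, 4, 43, 0⟩, ⟨-39, 10, 82, -8, 2, 2⟩, ⟨-82, 12, 8, -7, -81, 1⟩, ⟨36, -8, -120, 4, -26, -4⟩, ⟨75, -6, 52, 4, 100, 0⟩, ⟨-58, 9, 89, -2, -5, 5⟩],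
  [⟨0, 0, 0, 0, 0, 0⟩, ⟨3, 7, -3, -6, -2, 1⟩, ⟨-1, 1, 7, 3, -3, 5⟩, ⟨4, 5, 4, 0, -2, 5⟩, ⟨3, 9, -7, -7, -5, 1⟩, ⟨-3, 5, -1, -3, -13, 0⟩, ⟨-13, -3, 10, 2, 11, 5⟩, ⟨-8, 1, 0, -2, 13, 5⟩, ⟨-15, -1, 12, 3, -16, 0⟩, ⟨-5, -1, 12, 3, -20, 0⟩, ⟨-5, 9, -7, -4, -44, -3⟩, ⟨-5, 9, -3, -4, -54, -3⟩, ⟨-5, -1, 2, 3, -24, 0⟩, ⟨-5, -2, 2, 1, 27, -1⟩, ⟨-10, 8, -4, -13, -46, 2⟩, ⟨-11, 10, 6, -14, -109, 3⟩, ⟨-36, 0, -18, 0, -26, 0⟩, ⟨-33, 14, 33, -8, -65, 3⟩, ⟨-42, 8, -75, -1, -58, 3⟩, ⟨-40, 7, -100, -6, -124, 0⟩, ⟨-31, 13, 8, -13, -124, 0⟩, ⟨-30, -1, -127, -5, -132, -6⟩, ⟨81, -23, -98, 13, 98, -7⟩, ⟨86, -19, -55, 15, 142, -1⟩, ⟨-25, 3, -85, -3,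 -71, 0⟩, ⟨12, -3, -70, 1, -4, 0⟩, ⟨-27, 7, 22, -7, -32, 2⟩, ⟨-28, 5, 19, -3, -15, 2⟩, ⟨11, -5, -71, 5, 7, 0⟩, ⟨-71, 7, -59, -2, -98, 1⟩, ⟨-35, -1, -191, 2, -124, -3⟩, ⟨-32, 0, -191, -4, -136, -4⟩, ⟨-68, 8, -63, -8, -110, 0⟩, ⟨7, 2, -11, -4, -2, 0⟩, ⟨-51, 11, 83, -6, -4, 5⟩, ⟨-58, 9, 89, -2, -5, 5⟩, ⟨0, 0, 0, 0, 0, 0⟩]⟩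

def d4 : Dat := ⟨[⟨1, 9, -8, -8, 1, 0⟩, ⟨-5, 6, 0, -10, -14, 9⟩, ⟨1, 10, -8, -9, -2, 0⟩, ⟨1, -4, 1, -5, -6, 9⟩, ⟨5, -1, 2, 0, -3, 0⟩, ⟨-1, 13, 0, -11, 6, -1⟩, ⟨-9, 0, 2, 0, 24, 0⟩, ⟨5, 12, -6, -22, -1, 1⟩, ⟨12, 21, 40, -12, 19, 5⟩, ⟨-56, 7, -113, -4, -91, 1⟩, ⟨6, -13, -66, 7, -12, -4⟩, ⟨65, -16, 44, 12, 80, -1⟩, ⟨-14, 12, 102, -5, 27, 4⟩, ⟨-84, 7, -26, -2, -72, 1⟩, ⟨76, -12, -31, 7, 65, -2⟩, ⟨-15, 5, 96, -2, 37, 4⟩, ⟨-60, 4, -55, -3, -86, -1⟩, ⟨49, -8, -66, 2, 12, -5⟩],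
  [⟨0, 0, 0, 0, 0, 0⟩, ⟨1, 9, -8, -8, 1, 0⟩, ⟨-15, -11, 7, 8, 5, 9⟩, ⟨-13, -12, 11, 9, 10, 8⟩, ⟨-3, -2, 10, 3, -3, -1⟩, ⟨-20, -11, 21, 13, -5, -1⟩, ⟨-18, -15, 21, 8, 34, 8⟩, ⟨-15, -13, 14, 5, 42, 8⟩, ⟨-8, -9, 23, 10, -6, -1⟩, ⟨-5, -10, 25, 10, -9, -1⟩, ⟨-6, 3, 3, -1, -11, -2⟩, ⟨-7, 3, 7, -1, -6, -1⟩, ⟨-6, -10, 7, 10, -2, 0⟩, ⟨-15, -10, 9, 10, 22, 0⟩, ⟨-20, 2, 3, -12, -99, 1⟩, ⟨-13, 2, 12, -12, -123, 1⟩, ⟨-18, -10, 8, 10, 88, 0⟩, ⟨-6, 11, 98, -2, 37, 5⟩, ⟨-62, 18, -6, -6, -81, 6⟩, ⟨-65, 16, -54, -13, -180, 1⟩, ⟨-9, 9, 51, -9, -65, 0⟩, ⟨-3, -4, -47, -2, -53, -4⟩, ⟨62, -20, -10, 10, 104, -5⟩, ⟨66, -17, 18, 13, 143, -1⟩, ⟨1, -1,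 -20, 1, -3, 0⟩, ⟨-13, 11, 106, -4, 18, 4⟩, ⟨-97, 18, 85, -6, -59, 5⟩, ⟨-91, 12, 61, -7, -74, 1⟩, ⟨-7, 5, 83, -5, 2, 0⟩, ⟨69, -7, 44, 2, 87, -2⟩, ⟨54, -2, 152, 0, 130, 2⟩, ⟨48, -2, 155, 5, 138, 4⟩, ⟨63, -7, 51, 7, 97, 0⟩, ⟨3, -3, -6, 4, 3, -1⟩, ⟨52, -11, -77, 6, 12, -6⟩, ⟨49, -8, -66, 2, 12, -5⟩, ⟨0, 0, 0, 0, 0, 0⟩]⟩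

def d5 : Dat := ⟨[⟨2, 0, 3, 1, 0, 0⟩, ⟨6, 2, 4, 3, 2, -3⟩, ⟨0, -3, 3, 3, 0, 0⟩, ⟨0, 2, -1, 1, 2, -3⟩, ⟨2, 0, 0, 0, 0, 0⟩, ⟨1, -2, -1, 3, -3, -1⟩, ⟨6, -2, -3, -2, 22, -2⟩, ⟨17, -2, 2, 6, 26, 2⟩, ⟨-8, -5, -19, 2, -9, -2⟩, ⟨35, -10, 4, 7, 25, -1⟩, ⟨18, -16, -56, 8, -4, -3⟩, ⟨36, 3, 62, -6, 47, 0⟩, ⟨-91, 17, -3, -11, -96, 2⟩, ⟨50, -12, -124, 5, -22, -7⟩, ⟨31, 1, 89, 1, 71, 2⟩, ⟨-57, 7, 33, 2, -24, 6⟩, ⟨66, -7, -1, 4, 67, -1⟩, ⟨-15, 6, 47, -1, 8, 5⟩],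
  [⟨0, 0, 0, 0, 0, 0⟩, ⟨2, 0, 3, 1, 0, 0⟩, ⟨8, 7, 2, -1, -4, -3⟩, ⟨9, 8, 2, -1, -9, -3⟩, ⟨2, 5, -6, -3, -2, 0⟩, ⟨8, 8, -9, -6, -2, 0⟩, ⟨5, 8, -7, -3, -15, -3⟩, ⟨5, 8, -7, -3, -18, -3⟩, ⟨1, 6, -8, -4, -2, 0⟩, ⟨3, 6, -8, -4, -2, 0⟩, ⟨4, 4, -3, -1, -13, -1⟩, ⟨4, 4, -3, -1, -15, -1⟩, ⟨3, 6, -2, -4, -2, 0⟩, ⟨9, 4, -5, -6, 0, -2⟩, ⟨6, 2, -3, 0, 46, 0⟩, ⟨1, 4, 11, 0, 42, 2⟩, ⟨-16, 6, -11, -6, -64, 0⟩, ⟨-24, 1, -50, -4, -73, -2⟩, ⟨11, -9, -55, 3, 6, -3⟩, ⟨11, -6, -38, 3, 17, -1⟩, ⟨-24, 4, -34, -4, -56, 0⟩, ⟨-6, -12, -114, 4, -20, -3⟩, ⟨30, -9, -52, -2, -15, -3⟩, ⟨29, -6, -34, 3, 34, 0⟩, ⟨-7, -9, -96, 9, 23, 0⟩, ⟨-98, 8, -87, -2, -127,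 2⟩, ⟨-48, -4, -246, 3, -159, -5⟩, ⟨-41, -1, -249, -6, -196, -7⟩, ⟨-91, 11, -97, -11, -166, 0⟩, ⟨-60, 12, 0, -10, -83, 2⟩, ⟨-117, 19, 51, -8, -83, 8⟩, ⟨-112, 14, 40, -5, -77, 6⟩, ⟨-55, 7, -5, -7, -69, 0⟩, ⟨11, 0, -8, -3, 4, -1⟩, ⟨-4, 6, 44, -4, 16, 4⟩, ⟨-15, 6, 47, -1, 8, 5⟩, ⟨0, 0, 0, 0, 0, 0⟩]⟩

def d6 : Dat := ⟨[⟨-2, -4, 1, 3, -7, -1⟩, ⟨-7, -5, -3, 3, 1, 3⟩, ⟨0, 1, 0, -1, -7, -1⟩, ⟨3, 2, 1, -3, 3, 3⟩, ⟨1, 0, 0, 0, -3, 1⟩, ⟨1, 1, -5, -3, 3, 1⟩, ⟨-7, 4, 6, 4, -34, 5⟩, ⟨-32, 1, -9, -5, -50, -4⟩, ⟨23, 20, 55, -9, 35, 6⟩, ⟨-73, 11, -26, -2, -55, 4⟩, ⟨52, -18, 1, 12, 54, -2⟩, ⟨-37, 15, 94, -9, 14, 6⟩, ⟨-34, 0, -70, -2, -65, -1⟩,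 ⟨51, -6, -30, -5, 14, -7⟩, ⟨-41, 4, -17, -3, -50, 0⟩, ⟨18, -5, -27, -2, -2, -6⟩, ⟨-34, 4, 20, -3, -26, 1⟩, ⟨-1, -4, -17, 2, -5, -3⟩],
  [⟨0, 0, 0, 0, 0, 0⟩, ⟨-2, -4, 1, 3, -7, -1⟩, ⟨-8, -9, -1, 6, 0, 2⟩, ⟨-3, -4, -6, 0, 1, 2⟩, ⟨-3, -7, 6, 5, -9, -1⟩, ⟨-4, -8, 7, 6, -19, -2⟩, ⟨-4, -10, 11, 7, -1, 1⟩, ⟨7, -4, -3, 0, 5, 2⟩, ⟨0, -6, 2, 3, -16, -1⟩, ⟨1, -6, 2, 3, -13, 0⟩, ⟨2, -5, -9, 0, -2, 1⟩, ⟨2, -5, -6, -1, -4, 1⟩, ⟨1, -6, -1, 2, -17, 0⟩, ⟨-6, -2, 5, 6, -1, 5⟩, ⟨2, -1, -4, 1, -61, 1⟩, ⟨8, -5, -47, 1, -73, -4⟩, ⟨40, -6, 2, 6, 67, 0⟩, ⟨63, 14, 117, -3, 72, 6⟩, ⟨-10, 25, 127, -5, 35, 10⟩, ⟨-11, 17, 70, -8, -38, 4⟩, ⟨62, 6, 64, -6,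 1, 0⟩, ⟨114, -12, 49, 6, 135, -2⟩, ⟨77, 3, 185, -3, 128, 4⟩, ⟨75, -1, 198, 7, 203, 6⟩, ⟨112, -16, 68, 16, 207, 0⟩, ⟨78, -16, -8, 14, 124, -1⟩, ⟨129, -22, -73, 9, 78, -8⟩, ⟨132, -17, -67, 6, 72, -7⟩, ⟨81, -11, -9, 11, 106, 0⟩, ⟨40, -7, -26, 8, 44, 0⟩, ⟨58, -12, -71, 6, 18, -6⟩, ⟨59, -10, -60, 3, 18, -6⟩, ⟨41, -5, -21, 5, 36, 0⟩, ⟨7, -1, 1, 2, 6, 1⟩, ⟨6, -5, -19, 4, 0, -2⟩, ⟨-1, -4, -17, 2, -5, -3⟩, ⟨0, 0, 0, 0, 0, 0⟩]⟩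

def d7 : Dat := ⟨[⟨-1, 11, -8, -8, -49, -7⟩, ⟨-1, -37, 29, 22, 1, 17⟩, ⟨3, 6, -8, -13, -61, -5⟩, ⟨29, 12, 6, -24, 22, 30⟩, ⟨5, -4, 6, -1, -28, 5⟩, ⟨8, 17, -41, -25, 30, 6⟩, ⟨-45, 10, 20, 4, -40, 16⟩, ⟨-38, 7, -42, -24, -125, -5⟩, ⟨-2, -8, -4, 5, -7, -2⟩, ⟨7, 9, 20, -10, 17, -1⟩, ⟨-30, 4, -29, -4, -43, -1⟩, ⟨39, -7, -40, -1, 11, -5⟩, ⟨-8, 2, 8, -1, -5, -1⟩, ⟨-2, -1, -9, 0, 3, -1⟩, ⟨-1, 1, 12, 0, 3, 0⟩, ⟨-6, 0, -3, 1, 3, 0⟩, ⟨2, 1, 12, 1, 7, -1⟩, ⟨-6, 0, -2, 1, 4, 1⟩],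
  [⟨0, 0, 0, 0, 0, 0⟩, ⟨-1, 11, -8, -8, -49, -7⟩, ⟨5, -27, 29, 15, -14, 10⟩, ⟨40, 19, -17, -27, -11, 11⟩, ⟨-11, -3, 21, 10, -63, -6⟩, ⟨-32, -16, 30, 16, -139, -11⟩, ⟨-59, -50, 92, 38, 33, 19⟩, ⟨45, 6, -13, -13, 53, 21⟩, ⟨-8, -6, 29, 11, -149, -9⟩, ⟨-11, -10, 33, 10, -147, -4⟩, ⟨-3, 7, -58, -15, -69, 2⟩, ⟨-5, 8, -26, -20, -38, 6⟩, ⟨-13, -9, 15, 5, -128, 0⟩, ⟨-58, 1, 35, 9, -8, 16⟩, ⟨-46, 8, -7, -15, -203, 11⟩, ⟨-5, 4, -122, -21, -379, -5⟩, ⟨33, -3, -30, 3, 36, 0⟩, ⟨31, -11, -54, 8, 59, -2⟩, ⟨38, -2, -43, -2, -23, -3⟩, ⟨38, -2, -17, 1, 28, -1⟩, ⟨31, -11, -29, 11, 99, 0⟩, ⟨1, -7, -66, 7, 16, -1⟩, ⟨40, -14, -141, 6, -15, -6⟩, ⟨41,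 -9, -124, 1, -34, -5⟩, ⟨2, -2, -54, 2, -9, 0⟩, ⟨-6, 0, -52, 1, -26, -1⟩, ⟨-8, -1, -66, 1, -28, -2⟩, ⟨-15, 0, -48, -1, -32, -1⟩, ⟨-13, 1, -35, -1, -31, 0⟩, ⟨-14, 2, -23, -1, -28, 0⟩, ⟨-20, 2, -26, 0, -22, 0⟩, ⟨-17, 1, -24, 0, -17, 0⟩, ⟨-11, 1, -21, -1, -22, 0⟩, ⟨-9, 2, -11, 0, -15, -1⟩, ⟨-15, 2, -12, 1, -9, 0⟩, ⟨-6, 0, -2, 1, 4, 1⟩, ⟨0, 0, 0, 0, 0, 0⟩]⟩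

def d8 : Dat := ⟨[⟨5, 21, -7, -16, -63, -14⟩, ⟨5, -60, 54, 37, 29, 8⟩, ⟨6, 11, -10, -17, -13, 5⟩, ⟨12, -25, 30, 11, 3, 20⟩, ⟨-22, -5, 3, 4, -14, -1⟩, ⟨-25, -13, 4, -9, 32, 18⟩, ⟨-61, -14, 0, -9, 51, 1⟩, ⟨59, -4, 38, 3, -5, 7⟩, ⟨-14, 5, -19, -4, -11, -1⟩, ⟨34, -25, -40, 20, 10, -2⟩, ⟨33, -4, 37, 5, 50, 0⟩, ⟨-43, 6, 35, 4, -2, 7⟩, ⟨12, -2, 6, 1, 15, -1⟩, ⟨-8, 1, 7, 2, 3, 2⟩, ⟨6, -1, -1, 1, 6, 0⟩, ⟨-2, 1, 2, 0, 3, 1⟩, ⟨3, 0, -3, 0, 2, 0⟩, ⟨-1, 0, 0, 0, 2, 0⟩],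
  [⟨0, 0, 0, 0, 0, 0⟩, ⟨5, 21, -7, -16, -63, -14⟩, ⟨21, -40, 59, 22, -18, -6⟩, ⟨58, 18, 3, -27, -17, -2⟩, ⟨-33, -19, 58, 33, -70, -10⟩, ⟨-60, -36, 75, 44, -68, -5⟩, ⟨-12, -25, 69, 19, 35, 15⟩, ⟨23, -7, 37, 6, 51, 16⟩, ⟨61, 18, -15, -5, -72, -4⟩, ⟨29, 13, -4, -1, -92, -5⟩, ⟨4, 0, -18, -10, 84, 13⟩, ⟨6, -4, 1, -9, 153, 18⟩, ⟨31, 9, -3, 0, -59, 0⟩, ⟨-30, -5, -3, -9, 2, 1⟩, ⟨-41, -9, 35, -6, 37, 8⟩, ⟨21, 0, 86, -1, 17, 7⟩, ⟨-38, 4, -22, -4, -78, 0⟩, ⟨-52, 9, -51, -8, -139, -1⟩, ⟨-18, -16, -109, 12, 33, -3⟩, ⟨-13, -12, -100, 7, -7, -2⟩, ⟨-47, 13, -44, -13, -161, 0⟩, ⟨-14, 9, -7, -8, -71, 0⟩, ⟨-57, 15, 77, -4, 4, 7⟩, ⟨-58, 9, 74,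 1, 32, 7⟩, ⟨-15, 3, -3, -3, -32, 0⟩, ⟨-3, 1, -3, -2, -17, -1⟩, ⟨-11, 2, 14, 0, 6, 1⟩, ⟨-22, 3, 26, 0, 4, 2⟩, ⟨-14, 2, 11, -2, -15, 0⟩, ⟨-8, 1, 10, -1, -5, 0⟩, ⟨-10, 2, 15, -1, 1, 1⟩, ⟨-2, 1, 16, 0, 11, 1⟩, ⟨0, 0, 12, 0, 6, 0⟩, ⟨3, 0, 9, 0, 8, 0⟩, ⟨2, 0, 9, 0, 10, 0⟩, ⟨-1, 0, 0, 0, 2, 0⟩, ⟨0, 0, 0, 0, 0, 0⟩]⟩

def d9 : Dat := ⟨[⟨-1, 13, -14, -6, 46, 11⟩, ⟨11, 34, -11, -36, -44, 4⟩, ⟨-8, -4, -3, 4, -42, -11⟩, ⟨13, 33, -23, -40, 8, 14⟩, ⟨21, -1, 5, -6, -8, 5⟩, ⟨35, 33, -36, -20, 2, -10⟩, ⟨15, 10, 6, 0, -10, 1⟩, ⟨0, 12, -65, -21, -5, -2⟩, ⟨-27, 4, -38, -5, -28, -3⟩, ⟨62, -32, -54, 22, 19, -4⟩, ⟨33, -5, 28, 5, 46, 0⟩, ⟨-35, 5, 34,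 4, 0, 7⟩, ⟨11, -1, 0, 1, 11, -1⟩, ⟨-4, 1, 6, 0, 3, 2⟩, ⟨5, -1, -5, 1, 3, 0⟩, ⟨0, 1, 2, -1, 2, 0⟩, ⟨2, -1, -7, 0, -1, 0⟩, ⟨1, 0, 0, -1, 1, 0⟩],
  [⟨0, 0, 0, 0, 0, 0⟩, ⟨-1, 13, -14, -6, 46, 11⟩, ⟨-2, 21, -11, -16, 10, 15⟩, ⟨-24, -14, 26, 19, 3, 8⟩, ⟨23, 22, -19, -15, 35, 4⟩, ⟨24, 26, -31, -19, -40, -7⟩, ⟨-34, -13, 17, 13, 38, 7⟩, ⟨25, 18, -39, -19, 47, 8⟩, ⟨-54, -15, 64, 21, -45, -6⟩, ⟨-35, -16, 57, 15, -23, -1⟩, ⟨0, 17, -19, -5, -101, -11⟩, ⟨-4, 23, -10, -10, -111, -10⟩, ⟨-39, -10, 26, 10, -13, 0⟩, ⟨-24, 0, 32, 10, -13, 1⟩, ⟨-4, 12, -33, -11, -138, -1⟩, ⟨-24, 12, -58, -21, -238, -2⟩, ⟨-24, 0, 27, 0, -3, 0⟩, ⟨-51, 4, -41, -5,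 -111, -3⟩, ⟨11, -28, -131, 17, 70, -7⟩, ⟨17, -19, -101, 9, 22, -4⟩, ⟨-45, 13, -15, -13, -141, 0⟩, ⟨-12, 8, 13, -8, -55, 0⟩, ⟨-47, 13, 96, -4, 22, 7⟩, ⟨-50, 8, 88, 1, 46, 7⟩, ⟨-15, 3, 12, -3, -20, 0⟩, ⟨-4, 2, 6, -2, -9, -1⟩, ⟨-8, 3, 22, -2, 4, 1⟩, ⟨-16, 3, 22, -2, -2, 2⟩, ⟨-12, 2, 8, -2, -13, 0⟩, ⟨-7, 1, 3, -1, -6, 0⟩, ⟨-7, 2, 5, -2, -7, 0⟩, ⟨2, 1, 4, -1, 3, 0⟩, ⟨2, 0, 2, 0, 3, 0⟩, ⟨4, -1, -5, 0, 2, 0⟩, ⟨5, -1, -5, -1, 2, 0⟩, ⟨1, 0, 0, -1, 1, 0⟩, ⟨0, 0, 0, 0, 0, 0⟩]⟩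

end H13SB.Num
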