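import Pool.Agent.H13.SB.Num.Pl

namespace H13SB.Num

def d10 : Dat := ⟨[⟨-6, -28, 12, 16, -15, 6⟩, ⟨-19, 16, -27, -8, 8, 17⟩, ⟨-3, 7, -1, 11, 79, 14⟩, ⟨-32, -33, -12, 35, -38, -14⟩, ⟨6, 4, -3, 3, -38, -9⟩, ⟨-14, 5, 45, -20, -18, 8⟩, ⟨-6, 5, 24, 0, -8, 12⟩, ⟨0, 19, -23, -36, -55, -2⟩, ⟨-16, 3, -10, -2, -18, -4⟩, ⟨24, -9, -27, 4, 16, -4⟩, ⟨3, 0, 6, 2, 5, -3⟩, ⟨-7, 0, -3, 3, 11, 1⟩, ⟨-2, 2, 8, 1, 0, -2⟩, ⟨-7, -1, -6, 2, 10, 0⟩, ⟨-3, 3, 12, 0, -1, -2⟩, ⟨-9, -1, -7, 3, 10, 0⟩, ⟨-4, 3, 15, 1, 0, -2⟩, ⟨-10, -1, -7, 4, 10, 0⟩],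
  [⟨0, 0, 0, 0, 0, 0⟩, ⟨-6, -28, 12, 16, -15, 6⟩, ⟨-33, -20, -15, 16, 27, 23⟩, ⟨-12, -9, -32, -5, 41, 25⟩, ⟨23, -1, -29, -21, -18, 8⟩, ⟨33, 10, -25, -14, 103, 22⟩, ⟨13, 17, -49, -19, -5, 8⟩, ⟨-100, -48, 66, 37, -58, -1⟩, ⟨-2, -15, 8, 2, 64, 13⟩, ⟨12, -11, 11, 5, -28, 4⟩, ⟨-2, -6, 16, -15, 18, 12⟩, ⟨-3, -9, 50, -6, -22, 8⟩, ⟨11, -14, 5, 14, -84, 0⟩, ⟨5, -9, 29, 14, 28, 12⟩, ⟨25, 10, 6, -22, -217, 10⟩, ⟨19, 10, -108, -27, -379, -2⟩, ⟨19, -9, -65, 9, 56, 0⟩, ⟨3, -6, -115, 7, -22, -4⟩, ⟨27, -15, -178, 11, -6, -8⟩, ⟨29, -10, -128, 5, -15, -4⟩, ⟨5, -1, -69, 1, -31, 0⟩, ⟨8, -1, -87, 3, -34, -3⟩, ⟨1, -1, -83, 6, 5,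 -2⟩, ⟨-1, -2, -49, 5, 22, 1⟩, ⟨6, -2, -52, 2, -13, 0⟩, ⟨4, 0, -56, 3, -19, -2⟩, ⟨-3, -1, -62, 5, 1, -2⟩, ⟨1, -3, -40, 4, 15, 0⟩, ⟨8, -2, -34, 2, -3, 0⟩, ⟨5, 1, -30, 2, -12, -2⟩, ⟨-4, 0, -37, 5, 7, -2⟩, ⟨-13, -1, -27, 3, 2, 0⟩, ⟨-4, 0, -20, 0, -14, 0⟩, ⟨-8, 3, -9, 1, -16, -2⟩, ⟨-18, 2, -16, 5, -2, -2⟩, ⟨-10, -1, -7, 4, 10, 0⟩, ⟨0, 0, 0, 0, 0, 0⟩]⟩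

def d11 : Dat := ⟨[⟨-5, 4, -9, 2, 64, 16⟩, ⟨11, 23, -10, -44, -24, 2⟩, ⟨-16, -16, 0, 16, -30, -5⟩, ⟨4, 9, -7, -14, 1, 5⟩, ⟨-27, -1, -8, 2, -44, -6⟩, ⟨-9, -35, 24, -13, 2, 29⟩, ⟨-36, -21, 1, -11, 16, 10⟩, ⟨45, -14, 41, 19, -40, 4⟩, ⟨8, -3, 15, 5, 12, -2⟩, ⟨-19, 4, 10, 2, 9, 3⟩, ⟨-3, 2, 7, 0, -3, -2⟩, ⟨-4, -1, -7, 1, 9, -1⟩, ⟨-2, 3, 10, 1, 0, -2⟩, ⟨-7, -1, -6, 2, 9, 0⟩, ⟨-2, 2, 13, 0, 0, -2⟩, ⟨-9, -1, -6, 3, 9, 0⟩, ⟨-3, 3, 15, 1, 1, -2⟩, ⟨-10, -1, -6, 4, 10, 0⟩],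
  [⟨0, 0, 0, 0, 0, 0⟩, ⟨-5, 4, -9, 2, 64, 16⟩, ⟨4, 2, 4, -17, 44, 18⟩, ⟨-37, -46, 43, 31, 35, 12⟩, ⟨17, -2, 9, 8, 53, 10⟩, ⟨33, 14, -23, -8, 8, 5⟩, ⟨16, 1, -9, 0, 34, 10⟩, ⟨77, 26, -43, -25, 34, 10⟩, ⟨55, 17, -8, -11, 3, 5⟩, ⟨26, 16, -12, -9, -77, -1⟩, ⟨17, -19, -14, -22, 157, 28⟩, ⟨26, -21, 31, -16, 198, 29⟩, ⟨35, 14, 7, -3, -94, 0⟩, ⟨-1, -7, 8, -14, 22, 10⟩, ⟨4, -21, 49, 5, 122, 14⟩, ⟨49, -10, -15, 15, 95, 4⟩, ⟨4, 4, -96, -4, -95, 0⟩, ⟨12, 1, -101, 1, -53, -2⟩, ⟨-7, 5, -64, 3, 1, 1⟩, ⟨-7, 0, -39, 6, 47, 3⟩, ⟨12, -4, -73, 4, -2, 0⟩, ⟨9, -2, -82, 4, -21, -2⟩, ⟨5, -3, -96, 5, -12, -3⟩, ⟨2, -3, -71, 3, -7, -1⟩,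 ⟨6, -2, -58, 2, -16, 0⟩, ⟨4, 1, -60, 3, -22, -2⟩, ⟨-3, 0, -66, 5, -3, -2⟩, ⟨3, -3, -50, 4, 10, 0⟩, ⟨10, -2, -44, 2, -7, 0⟩, ⟨8, 0, -39, 2, -15, -2⟩, ⟨-1, -1, -45, 5, 3, -2⟩, ⟨-13, -1, -24, 3, 2, 0⟩, ⟨-4, 0, -18, 0, -13, 0⟩, ⟨-7, 3, -7, 1, -14, -2⟩, ⟨-17, 2, -13, 5, 0, -2⟩, ⟨-10, -1, -6, 4, 10, 0⟩, ⟨0, 0, 0, 0, 0, 0⟩]⟩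

def d12 : Dat := ⟨[⟨15, 36, -11, -34, 25, -1⟩, ⟨7, -18, 24, -16, 26, -19⟩, ⟨-11, 11, -17, 5, 37, -5⟩, ⟨-23, -6, 6, -25, -34, 16⟩, ⟨1, -8, 15, -3, -24, 1⟩, ⟨9, 21, -2, -29, 26, 5⟩, ⟨10, -7, 1, -14, -7, -3⟩, ⟨43, 6, -22, -5, 10, -2⟩, ⟨2, -11, -12, 5, 1, 1⟩, ⟨-2, 0, 19, -4, -1, 1⟩, ⟨-9, -4, -21, -1, -14, 2⟩, ⟨13, -2, 1, -7, -5, -4⟩, ⟨-8, -2, -20, -1, -14, 2⟩, ⟨10, -3, 2, -6, -5, -4⟩, ⟨-9, -2, -18, -1, -14, 1⟩, ⟨8, -3, 1, -6, -5, -5⟩, ⟨-9, -1, -15, -1, -14, 1⟩, ⟨7, -3, 1, -5, -5, -5⟩],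
  [⟨0, 0, 0, 0, 0, 0⟩, ⟨15, 36, -11, -34, 25, -1⟩, ⟨23, -14, 46, -18, 13, -20⟩, ⟨-14, -30, 52, 8, 28, -12⟩, ⟨-22, -14, 63, 26, 59, 7⟩, ⟨-34, -9, 63, 37, 81, 2⟩, ⟨78, 43, -66, -46, 127, 18⟩, ⟨0, 1, 19, -9, 78, 7⟩, ⟨35, 7, 63, 16, 16, -9⟩, ⟨20, -1, 72, 13, -2, -8⟩, ⟨29, 20, 12, -16, 64, -3⟩, ⟨22, 23, 44, -17, 145, 5⟩, ⟨13, 2, 46, 12, 69, 0⟩, ⟨23, -5, 47, -2, 32, -3⟩, ⟨86, 1, 25, -7, -18, -5⟩, ⟨72, 15, 45, -14, -65, -2⟩, ⟨29, 9, 87, -9, -5, 0⟩, ⟨31, -2, 85, -4, 56, 1⟩, ⟨29, -2, 113, -8, 28, 2⟩, ⟨28, -2, 99, -2, 65, 1⟩, ⟨30, -2, 72, 2, 90, 0⟩, ⟨21, -6, 67, 1, 84, 2⟩, ⟨34, -8, 40, -6, 2, -2⟩, ⟨37, -4, 31, -5, 0,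 -4⟩, ⟨24, -2, 54, 2, 71, 0⟩, ⟨16, -4, 46, 1, 63, 2⟩, ⟨26, -7, 28, -5, 8, -2⟩, ⟨32, -5, 14, -4, 6, -4⟩, ⟨22, -2, 28, 2, 51, 0⟩, ⟨13, -4, 14, 1, 37, 1⟩, ⟨21, -7, 0, -5, -1, -4⟩, ⟨19, -4, 8, -5, -1, -5⟩, ⟨11, -1, 17, 1, 26, 0⟩, ⟨2, -2, 4, 0, 12, 1⟩, ⟨9, -5, 0, -5, -3, -4⟩, ⟨7, -3, 1, -5, -5, -5⟩, ⟨0, 0, 0, 0, 0, 0⟩]⟩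

def d13 : Dat := ⟨[⟨18, 18, 3, -29, 21, 5⟩, ⟨-4, -5, 10, -17, 32, -14⟩, ⟨3, -4, -1, -9, -6, -9⟩, ⟨3, 13, 17, -8, 10, -7⟩, ⟨-14, 9, -13, 10, 60, -6⟩, ⟨-24, -12, 13, 24, -19, 2⟩, ⟨8, -2, 27, -2, -6, 5⟩, ⟨3, 22, 2, -28, -12, -2⟩, ⟨-9, 4, 1, -1, -16, -4⟩, ⟨6, 0, -12, -3, 10, -7⟩, ⟨-1, 2, -1, 2, -6, -3⟩, ⟨-4, -1, -5, 0, 8, -2⟩, ⟨-3, 3, 2, 1, -8, -4⟩, ⟨-6, -2, -5, 1, 9, -3⟩, ⟨-4, 5, 4, 2, -9, -4⟩, ⟨-8, -2, -6, 2, 10, -4⟩, ⟨-4, 5, 7, 2, -9, -5⟩, ⟨-10, -2, -7, 4, 11, -4⟩],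
  [⟨0, 0, 0, 0, 0, 0⟩, ⟨18, 18, 3, -29, 21, 5⟩, ⟨5, -27, 44, -6, 25, -9⟩, ⟨-24, -40, 39, 10, 58, 5⟩, ⟨-17, -23, 48, 15, 68, 19⟩, ⟨-27, -32, 47, 11, 35, 10⟩, ⟨53, 9, -13, -25, 10, 3⟩, ⟨35, 6, 6, -14, 41, 8⟩, ⟨6, -7, 5, -6, 73, 15⟩, ⟨10, 2, 12, 4, 97, 9⟩, ⟨-14, -10, 73, 28, 94, 11⟩, ⟨-10, -20, 4, 34, 14, 2⟩, ⟨14, -8, -9, 10, 13, 0⟩, ⟨22, -10, 18, 8, 57, 5⟩, ⟨45, 12, 20, -20, -175, 3⟩, ⟨15, 14, -38, -20, -221, -2⟩, ⟨12, -8, -20, 8, 91, 0⟩, ⟨3, -4, -59, 7, 25, -4⟩, ⟨9, -4, -134, 4, -55, -11⟩, ⟨10, -2, -85, -1, -49, -7⟩, ⟨4, -2, -17, 2, 21, 0⟩, ⟨3, 0, -42, 4, 7, -3⟩, ⟨-1, -1, -61, 4, 1, -5⟩, ⟨5, -4, -34, 3, 24,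 -2⟩, ⟨9, -3, -17, 3, 28, 0⟩, ⟨6, 0, -39, 4, 2, -4⟩, ⟨0, -2, -59, 5, 1, -7⟩, ⟨-7, -3, -25, 2, 9, -3⟩, ⟨-1, -1, -8, 1, 8, 0⟩, ⟨-5, 4, -20, 3, -9, -4⟩, ⟨-13, 2, -38, 5, -5, -8⟩, ⟨-3, -3, -26, 3, 11, -4⟩, ⟨5, -1, -12, 1, 5, 0⟩, ⟨1, 4, -15, 3, -10, -5⟩, ⟨-9, 2, -26, 7, 1, -9⟩, ⟨-10, -2, -7, 4, 11, -4⟩, ⟨0, 0, 0, 0, 0, 0⟩]⟩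

def d14 : Dat := ⟨[⟨2, 10, -6, -4, -20, 3⟩, ⟨-3, 3, 7, -4, -8, 7⟩, ⟨-15, 16, -7, 14, 18, 1⟩, ⟨-18, -14, -32, -13, -12, 21⟩, ⟨5, 6, 2, -14, 44, 12⟩, ⟨29, 17, -25, 12, -14, -5⟩, ⟨-9, -7, -13, -8, 4, 5⟩, ⟨17, -16, -3, 21, -10, 2⟩, ⟨10, -1, 9, 6, 11, -5⟩, ⟨-16, 2, 3, 8, 11, 5⟩, ⟨3, 5, 11, 2, -1, -5⟩, ⟨-10, 2, -6, 5, 11, 0⟩, ⟨3, 6, 13, 3, -1, -6⟩, ⟨-11, 2, -7, 6, 12, -1⟩, ⟨3, 7, 14, 3, -2, -6⟩, ⟨-12, 1, -7, 7, 13, -1⟩, ⟨3, 7, 15, 3, -2, -7⟩, ⟨-14, 1, -7, 8, 14, -1⟩],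
  [⟨0, 0, 0, 0, 0, 0⟩, ⟨2, 10, -6, -4, -20, 3⟩, ⟨-14, -14, 15, 19, -14, 10⟩, ⟨17, 11, -5, -4, -24, 6⟩, ⟨14, 15, -5, -7, -37, -1⟩, ⟨21, 29, -4, 9, -16, 0⟩, ⟨-54, -13, 21, 24, 77, 21⟩, ⟨-72, -30, 22, 17, 48, 15⟩, ⟨-26, -16, 80, 30, -66, -6⟩, ⟨-9, -10, 54, 16, 50, 6⟩, ⟨20, 7, 53, 28, -4, 1⟩, ⟨12, 21, 3, 16, -67, -5⟩, ⟨-17, 4, 28, 4, -3, 0⟩, ⟨-26, -3, 15, -4, 51, 5⟩, ⟨-29, -19, 12, 17, 201, 7⟩, ⟨-2, -11, -29, 16, 129, 2⟩, ⟨-19, 5, -46, -5, -91, 0⟩, ⟨-9, 4, -87, 1, -70, -5⟩, ⟨-25, 6, -39, 9, 58, 0⟩, ⟨-28, 0, 2, 10, 102, 5⟩, ⟨-12, -2, -41, 2, -13, 0⟩, ⟨-9, 3, -70, 4, -38, -5⟩, ⟨-19, 5, -76, 9, 8, -5⟩, ⟨-21, 1, -37,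 6, 25, 0⟩, ⟨-11, -1, -31, 1, -16, 0⟩, ⟨-8, 5, -54, 4, -35, -6⟩, ⟨-19, 7, -66, 10, 2, -7⟩, ⟨-16, 1, -29, 7, 25, -1⟩, ⟨-5, -1, -18, 1, -7, 0⟩, ⟨-2, 6, -28, 4, -21, -6⟩, ⟨-14, 7, -38, 11, 10, -7⟩, ⟨-9, 0, -24, 8, 24, -1⟩, ⟨3, -1, -15, 1, -1, 0⟩, ⟨6, 6, -14, 4, -11, -7⟩, ⟨-8, 7, -22, 12, 10, -8⟩, ⟨-14, 1, -7, 8, 14, -1⟩, ⟨0, 0, 0, 0, 0, 0⟩]⟩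

def d15 : Dat := ⟨[⟨24, 13, 12, -30, 6, 3⟩, ⟨-5, 13, 7, 8, 37, -28⟩, ⟨16, 2, 4, -11, 7, -12⟩, ⟨2, 24, 17, 0, -3, -21⟩, ⟨22, 5, -3, -8, -34, -3⟩, ⟨16, 4, 5, -1, -10, -11⟩, ⟨-4, 13, -9, 7, 1, 3⟩, ⟨-13, -11, -14, 15, -7, 0⟩, ⟨15, 4, 18, 4, 13, -4⟩, ⟨-15, 7, -1, 9, 8, 6⟩, ⟨10, 4, 17, 2, 10, -3⟩, ⟨-9, 7, -3, 7, 7, 5⟩, ⟨10, 2, 14, 1, 11, -2⟩, ⟨-6, 6, -1, 6, 4, 6⟩, ⟨10, 1, 11, 1, 13, -1⟩, ⟨-3, 6, 0, 4, 2, 6⟩, ⟨10, 0, 9, 0, 14, 0⟩, ⟨-1, 6, 1, 3, 0, 7⟩],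
  [⟨0, 0, 0, 0, 0, 0⟩, ⟨24, 13, 12, -30, 6, 3⟩, ⟨-6, -3, 23, 7, -13, -25⟩, ⟨-22, -5, 9, 10, 27, -7⟩, ⟨-37, -13, 1, -3, 74, 21⟩, ⟨-44, -24, 19, -1, 45, 9⟩, ⟨42, 30, -48, -31, -63, -12⟩, ⟨-24, 11, -6, -2, -73, -13⟩, ⟨-74, -13, -23, -2, 56, 8⟩, ⟨-42, -8, -42, -10, 4, 5⟩, ⟨-26, -4, -39, -11, -94, -6⟩, ⟨-28, 4, -10, -8, -155, -11⟩, ⟨-44, 0, -15, -7, -35, 0⟩, ⟨-48, 13, -24, 0, -4, 3⟩, ⟨-61, 2, -38, 15, 99, 3⟩, ⟨-45, -5, -64, 9, 15, 0⟩, ⟨-32, 6, -50, -6, -128, 0⟩, ⟨-17, 10, -72, -2, -115, -4⟩, ⟨-32, 17, -19, 7, 28, 2⟩, ⟨-35, 9, 9, 7, 58, 6⟩, ⟨-20, 2, -38, -2, -70, 0⟩, ⟨-10, 6, -45, 0, -68, -3⟩, ⟨-19, 13, -13, 7, 23,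 2⟩, ⟨-20, 8, 2, 6, 35, 5⟩, ⟨-11, 1, -25, -1, -44, 0⟩, ⟨-1, 3, -23, 0, -39, -2⟩, ⟨-7, 9, 6, 6, 25, 4⟩, ⟨-15, 7, 10, 5, 22, 6⟩, ⟨-9, 1, -13, -1, -30, 0⟩, ⟨1, 2, -6, 0, -17, -1⟩, ⟨-2, 8, 12, 4, 15, 5⟩, ⟨-3, 6, 7, 4, 13, 6⟩, ⟨0, 0, -5, 0, -9, 0⟩, ⟨10, 0, 4, 0, 5, 0⟩, ⟨9, 6, 12, 3, 15, 7⟩, ⟨-1, 6, 1, 3, 0, 7⟩, ⟨0, 0, 0, 0, 0, 0⟩]⟩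

def d16 : Dat := ⟨[⟨-2, -2, 0, 3, 6, -1⟩, ⟨-1, -1, 1, 2, -3, -2⟩, ⟨9, -6, 1, -9, -1, 2⟩, ⟨9, 3, 16, 7, 1, -5⟩, ⟨5, -2, 7, 0, 0, -3⟩, ⟨0, 8, 5, -2, 5, 0⟩, ⟨0, 3, 0, -1, 1, -2⟩, ⟨3, 1, -9, -2, 4, 0⟩, ⟨-3, -11, -32, -13, 38, 27⟩, ⟨17, -22, 26, 2, -49, 21⟩, ⟨0, 3, 4, 0, -2, -2⟩, ⟨-4, -1, -3, 4, 3, -1⟩, ⟨1, 6, 8, 2, -5, -5⟩, ⟨-8, 0, -5, 5, 9, -3⟩, ⟨2, 8, 11, 4, -8, -7⟩, ⟨-13, 1, -7, 7, 13, -5⟩, ⟨3, 10, 14, 4, -11, -10⟩, ⟨-17, 1, -10, 8, 18, -6⟩],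
  [⟨0, 0, 0, 0, 0, 0⟩, ⟨-2, -2, 0, 3, 6, -1⟩, ⟨-4, -4, 1, 6, -1, -3⟩, ⟨-11, -11, 9, 13, -4, -4⟩, ⟨-14, -13, 11, 14, 5, -2⟩, ⟨-22, -22, 14, 8, 10, 0⟩, ⟨11, -5, 6, 1, -14, -5⟩, ⟨10, -2, 19, 12, -9, -4⟩, ⟨-5, -5, -11, 5, 20, 1⟩, ⟨-4, -7, -4, 5, 2, -2⟩, ⟨-4, 1, -3, 3, 7, -2⟩, ⟨-9, 1, -1, 6, 25, 0⟩, ⟨-9, -7, -6, 8, 20, 0⟩, ⟨-9, -4, -6, 7, 1, -2⟩, ⟨-6, -3, -15, 5, -5, -2⟩, ⟨-8, -2, 5, 1, -27, 0⟩, ⟨-11, -3, 14, 3, -11, 0⟩, ⟨-14, -14, 252, -10, 167, 27⟩, ⟨3, -36, 467, -8, 325, 48⟩, ⟨13, -26, 199, 6, 172, 21⟩, ⟨-4, -4, 5, 4, 37, 0⟩, ⟨-4, -1, -7, 4, 19, -2⟩, ⟨-8, -2, -17, 8, 43, -3⟩, ⟨-12, -3, -5, 6, 40, -1⟩, ⟨-8, -2,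 4, 2, 19, 0⟩, ⟨-7, 4, -18, 4, -4, -5⟩, ⟨-15, 4, -38, 9, 15, -8⟩, ⟨-15, -1, -16, 6, 26, -3⟩, ⟨-7, -1, 1, 1, 9, 0⟩, ⟨-5, 7, -16, 5, -11, -7⟩, ⟨-18, 8, -38, 12, 8, -12⟩, ⟨-3, -1, -21, 9, 36, -5⟩, ⟨10, -2, -4, 2, 19, 0⟩, ⟨13, 8, -10, 6, -4, -10⟩, ⟨-4, 9, -26, 14, 16, -16⟩, ⟨-17, 1, -10, 8, 18, -6⟩, ⟨0, 0, 0, 0, 0, 0⟩]⟩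

def d17 : Dat := ⟨[⟨2, 2, 0, -2, -3, 2⟩, ⟨0, 1, 0, -2, 1, 1⟩, ⟨-4, 3, 0, 3, 0, -1⟩, ⟨-3, -1, -7, -2, 0, 1⟩, ⟨-5, 3, -6, 3, 2, 1⟩, ⟨-5, -4, -2, 1, -5, -1⟩, ⟨0, 0, 5, -1, 0, 2⟩, ⟨2, 3, -1, -3, -3, 0⟩, ⟨-1, -3, -6, -3, 11, 6⟩, ⟨4, -4, 6, 0, -11, 7⟩, ⟨8, 5, 4, 5, -7, -9⟩, ⟨-10, 5, -7, 2, 15, -4⟩, ⟨6, 5, 3, 4, -6, -6⟩, ⟨-8, 4, -5, 2, 10, -3⟩, ⟨11, 10, 6, 6, -12, -12⟩, ⟨-16, 7, -10, 3, 19, -7⟩, ⟨-26, -24, -11, -14, 24, 27⟩, ⟨39, -14, 22, -8, -44, 15⟩],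
  [⟨0, 0, 0, 0, 0, 0⟩, ⟨2, 2, 0, -2, -3, 2⟩, ⟨1, 0, 2, -1, 0, 3⟩, ⟨8, 5, -3, -6, 0, 3⟩, ⟨10, 7, -4, -7, -4, 2⟩, ⟨13, 10, -5, -4, -7, 1⟩, ⟨-5, 1, 3, 2, -2, 2⟩, ⟨-4, 0, -5, -4, 4, 3⟩, ⟨1, 1, 6, -2, -2, 2⟩, ⟨2, 4, 6, 1, 6, 3⟩, ⟨-3, 0, 6, 2, -7, 2⟩, ⟨0, -3, 1, 1, -36, -1⟩, ⟨5, 1, 3, 0, -21, 0⟩, ⟨5, 1, 8, -1, -1, 2⟩, ⟨7, 4, 7, -4, -34, 2⟩, ⟨4, 5, -13, -5, -65, 0⟩, ⟨2, 2, -12, -2, -32, 0⟩, ⟨1, -1, 42, -5, 9, 6⟩, ⟨5, -5, 111, -5, 61, 13⟩, ⟨6, -2, 53, -2, 24, 7⟩, ⟨2, 2, -9, -2, -21, 0⟩, ⟨10, 7, -77, 3, -60, -9⟩, ⟨0, 12, -112, 5, -59, -13⟩, ⟨-3, 6, -44, 1, -18, -4⟩, ⟨7, 1, -13, -1, -21, 0⟩, ⟨13, 6, -46, 3, -39, -6⟩,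 ⟨5, 10, -66, 5, -34, -9⟩, ⟨15, 3, -35, 3, 0, -3⟩, ⟨23, -1, -18, 1, -6, 0⟩, ⟨34, 9, -60, 7, -42, -12⟩, ⟨18, 16, -91, 10, -35, -19⟩, ⟨15, 6, -47, 4, -6, -7⟩, ⟨31, -1, -23, 1, -17, 0⟩, ⟨5, -25, 20, -13, 33, 27⟩, ⟨44, -39, 57, -21, -4, 42⟩, ⟨39, -14, 22, -8, -44, 15⟩, ⟨0, 0, 0, 0, 0, 0⟩]⟩

def d18 : Dat := ⟨[⟨2, 2, 0, -2, -3, 2⟩, ⟨0, 2, 0, 0, 1, 0⟩, ⟨-4, 3, -1, 3, 0, -1⟩, ⟨-3, -1, -7, -2, 0, 2⟩, ⟨-5, 3, -6, 3, 2, 2⟩, ⟨-5, -5, -3, 0, -5, -2⟩, ⟨1, 0, 5, -1, 0, 2⟩, ⟨1, 3, -1, -3, -3, 0⟩, ⟨0, -3, -6, -3, 10, 6⟩, ⟨3, -3, 6, 0, -10, 6⟩, ⟨10, 7, 6, 7, -9, -12⟩, ⟨-13, 7, -9, 3, 20, -6⟩, ⟨13, 12, 7, 7, -15, -15⟩, ⟨-19,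 8, -12, 4, 24, -9⟩, ⟨-25, -22, -10, -13, 22, 26⟩, ⟨35, -13, 21, -8, -42, 13⟩, ⟨2, -2, -2, 0, 4, 1⟩, ⟨2, 1, 1, -2, -2, 2⟩],
  [⟨0, 0, 0, 0, 0, 0⟩, ⟨2, 2, 0, -2, -3, 2⟩, ⟨0, 2, 0, 0, -2, 2⟩, ⟨7, 7, -5, -5, -2, 2⟩, ⟨7, 7, -7, -7, -3, 2⟩, ⟨9, 10, -8, -4, -6, 1⟩, ⟨-9, 1, 0, 2, 4, 3⟩, ⟨-8, 0, -6, -3, 5, 3⟩, ⟨-3, 1, 5, -1, -7, 1⟩, ⟨-2, 4, 5, 2, 7, 3⟩, ⟨-7, -1, 2, 2, -14, 1⟩, ⟨-4, -4, -3, 0, -44, -2⟩, ⟨1, 1, 0, 0, -19, 0⟩, ⟨2, 1, 5, -1, 1, 2⟩, ⟨3, 4, 4, -4, -32, 2⟩, ⟨-1, 5, -17, -5, -63, 0⟩, ⟨-2, 2, -16, -2, -30, 0⟩, ⟨-2, -1, 38, -5, 10, 6⟩, ⟨1, -4, 98, -5, 54, 12⟩, ⟨1, -1, 38, -2, 17, 6⟩, ⟨-2, 2, -16, -2, -21, 0⟩,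 ⟨8, 9, -106, 5, -70, -12⟩, ⟨-5, 16, -157, 8, -71, -18⟩, ⟨-5, 7, -65, 3, -11, -6⟩, ⟨8, 0, -20, 0, -13, 0⟩, ⟨21, 12, -103, 7, -76, -15⟩, ⟨2, 20, -160, 11, -77, -24⟩, ⟨-8, 9, -81, 3, -37, -9⟩, ⟨11, 1, -33, -1, -41, 0⟩, ⟨-14, -21, 61, -14, 33, 26⟩, ⟨21, -34, 121, -22, 6, 39⟩, ⟨28, -12, 35, -9, -47, 13⟩, ⟨-7, 1, -12, -1, -15, 0⟩, ⟨-5, -1, -12, -1, -9, 1⟩, ⟨-3, 0, -9, -3, -11, 3⟩, ⟨2, 1, 1, -2, -2, 2⟩, ⟨0, 0, 0, 0, 0, 0⟩]⟩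

def d19 : Dat := ⟨[⟨-1, -1, 0, 2, 3, -1⟩, ⟨0, -1, 0, 0, -1, 0⟩, ⟨3, -3, 0, -3, 1, 1⟩, ⟨3, 1, 6, 2, 0, -1⟩, ⟨4, -2, 5, -3, 0, -1⟩, ⟨4, 4, 2, 0, 4, 2⟩, ⟨0, 0, -4, 0, 0, -1⟩, ⟨0, -2, 0, 2, 2, 0⟩, ⟨1, 2, 3, 2, -6, -4⟩, ⟨-2, 2, -3, 0, 7, -4⟩, ⟨-18, -15, -11, -12, 20, 23⟩, ⟨26, -12, 18, -6, -37, 13⟩, ⟨24, 18, 8, 13, -20, -24⟩, ⟨-31, 12, -19, 7, 40, -12⟩, ⟨-1, 2, 2, 0, -4, -2⟩, ⟨-3, -1, -2, 2, 3, -3⟩, ⟨-5, -1, 1, -1, 0, 2⟩, ⟨3, -3, 2, 1, -4, 0⟩],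
  [⟨0, 0, 0, 0, 0, 0⟩, ⟨-1, -1, 0, 2, 3, -1⟩, ⟨0, -1, 0, 1, 2, -1⟩, ⟨-3, -5, 6, 5, -1, -2⟩, ⟨-3, -5, 7, 6, 0, -2⟩, ⟨-6, -8, 7, 3, 4, -1⟩, ⟨8, -1, 2, -1, -1, -2⟩, ⟨6, -1, 11, 5, -1, -2⟩, ⟨1, -2, 1, 3, 5, -1⟩, ⟨1, -4, 0, 0, -1, -2⟩, ⟨5, 0, 2, 0, 19, 0⟩, ⟨2, 3, 4, 1, 39, 2⟩, ⟨-2, -1, 2, 1, 15, 0⟩, ⟨-2, -1, -2, 1, 5, -1⟩, ⟨-2, -3, -2, 3, 27, -1⟩, ⟨1, -3, 8, 3, 37, 0⟩, ⟨1, -1, 8, 1, 15, 0⟩, ⟨2, 1, -29, 3, -11, -4⟩, ⟨0, 3, -68, 3, -40, -8⟩, ⟨-1, 1, -31, 1, -18, -4⟩, ⟨1, -1, 4, 1, 7, 0⟩, ⟨-17, -16, 177, -11, 115, 23⟩, ⟨9, -28, 286, -17, 127, 36⟩, ⟨16, -12, 117, -6, 30, 13⟩, ⟨-10, 0, 21, 0, 25, 0⟩, ⟨14, 18, -115, 13,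 -61, -24⟩, ⟨-17, 30, -194, 20, -46, -36⟩, ⟨-17, 10, -64, 9, 40, -12⟩, ⟨14, -2, 3, 2, 20, 0⟩, ⟨13, 0, -3, 2, 8, -2⟩, ⟨10, -1, -14, 4, 8, -5⟩, ⟨-3, -1, -6, 2, -1, -3⟩, ⟨0, 0, 2, 0, -2, 0⟩, ⟨-5, -1, 7, -1, 0, 2⟩, ⟨-2, -4, 9, 0, -3, 2⟩, ⟨3, -3, 2, 1, -4, 0⟩, ⟨0, 0, 0, 0, 0, 0⟩]⟩

end H13SB.Num
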