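import Pool.Agent.H13.SB.Num.Pl

namespace H13SB.Num

def d20 : Dat := ⟨[⟨-10, -5, -4, 14, 11, -3⟩, ⟨3, -7, 0, -2, -13, 6⟩, ⟨15, -15, 1, -17, 3, 9⟩, ⟨18, 0, 29, 15, 4, -5⟩, ⟨23, -12, 26, -11, 15, -13⟩, ⟨17, 22, 21, 4, 20, 15⟩, ⟨0, -2, -5, -8, 0, -3⟩, ⟨13, -1, -9, 1, 4, 0⟩, ⟨6, 2, 6, 9, -10, -12⟩, ⟨-12, 4, -5, 4, 19, -6⟩, ⟨7, 9, 5, 6, -16, -13⟩, ⟨-14, 4, -10, 4, 20, -10⟩, ⟨-2, 4, 3, 2, -9, -3⟩, ⟨-5, -2, -3, 2, 5, -6⟩, ⟨-6, 0, 2, -1, -5, 1⟩, ⟨0, -4, 0, 1, -1, -3⟩, ⟨-8, -2, 1, -2, -2, 3⟩, ⟨3, -5, 2, 1, -5, -1⟩],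
  [⟨0, 0, 0, 0, 0, 0⟩, ⟨-10, -5, -4, 14, 11, -3⟩, ⟨3, -1, -5, 1, 10, 3⟩, ⟨-6, -14, 16, 15, -12, -5⟩, ⟨-4, -12, 20, 22, -17, -11⟩, ⟨-20, -29, 20, 7, 13, -2⟩, ⟨27, -7, 20, 0, -8, -7⟩, ⟨33, -1, 51, 23, 9, -4⟩, ⟨15, -1, -8, 8, 35, 1⟩, ⟨14, -13, -4, -3, -28, -12⟩, ⟨31, 9, 25, 1, 112, 3⟩, ⟨17, 20, 22, 14, 233, 15⟩, ⟨0, -2, 1, 10, 63, 0⟩, ⟨0, -4, -4, 2, 33, -3⟩, ⟨13, -5, -13, 3, 47, -3⟩, ⟨15, 3, 17, -3, 9, 0⟩, ⟨2, 4, 26, -4, -5, 0⟩, ⟨8, 6, -88, 5, -45, -12⟩, ⟨-4, 10, -147, 9, -44, -18⟩, ⟨-6, 2, -39, 6, 40, -6⟩, ⟨6, -2, 14, 2, 37, 0⟩, ⟨13, 7, -85, 8, -35, -13⟩, ⟨-1, 11, -165, 12, -57, -23⟩, ⟨-7, 3, -68,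 5, -7, -10⟩, ⟨7, -1, 2, 1, 9, 0⟩, ⟨5, 3, -13, 3, -6, -3⟩, ⟨0, 1, -46, 5, -21, -9⟩, ⟨13, -4, -31, 4, 4, -6⟩, ⟨18, -2, -4, 2, 15, 0⟩, ⟨12, -2, 2, 1, 10, 1⟩, ⟨12, -6, -7, 2, 3, -2⟩, ⟨11, -5, -9, 2, 1, -3⟩, ⟨11, -1, -3, 1, 6, 0⟩, ⟨3, -3, 4, -1, 6, 3⟩, ⟨6, -8, 5, 0, 1, 2⟩, ⟨3, -5, 2, 1, -5, -1⟩, ⟨0, 0, 0, 0, 0, 0⟩]⟩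

def d21 : Dat := ⟨[⟨-5, 3, -5, 8, 0, 3⟩, ⟨3, 3, 2, -1, -11, 2⟩, ⟨6, -6, 2, -6, 3, 8⟩, ⟨8, -2, 6, 10, 3, 0⟩, ⟨-12, 6, 0, 12, 15, 1⟩, ⟨-18, 9, -2, -4, -9, -3⟩, ⟨1, 5, 20, -17, 0, 4⟩, ⟨24, 12, -30, -9, -6, 0⟩, ⟨21, -6, -3, 14, 28, -8⟩, ⟨-22, -1, 9, 14, 12, 20⟩, ⟨-3, -6, 2, -5, 16, 10⟩, ⟨8, -1, 7, 0, -13, 11⟩, ⟨0, -5, 2, -3, 15, 6⟩, ⟨7, 1, 5, 0, -9, 10⟩, ⟨2, -5, 1, -2, 14, 5⟩, ⟨5, 2, 4, 1, -6, 10⟩, ⟨4, -3, 1, -1, 13, 3⟩, ⟨4, 3, 3, 0, -5, 9⟩],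
  [⟨0, 0, 0, 0, 0, 0⟩, ⟨-5, 3, -5, 8, 0, 3⟩, ⟨-4, 4, -3, 9, -7, 5⟩, ⟨7, 10, -4, 6, -32, -3⟩, ⟨6, 11, -10, 3, -27, -5⟩, ⟨2, 5, -10, -3, 0, 3⟩, ⟨-10, -1, 16, 11, 3, 3⟩, ⟨2, 4, 20, 16, 13, 5⟩, ⟨-2, 6, -6, 6, 10, 5⟩, ⟨-2, 12, 18, 18, 31, 6⟩, ⟨-20, 21, 8, 14, -2, 3⟩, ⟨-26, 9, -13, 13, -63, -3⟩, ⟨-8, 0, -11, 17, -24, 0⟩, ⟨-7, 5, 9, 0, 16, 4⟩, ⟨17, 17, -21, -9, -110, 4⟩, ⟨0, 34, -62, -31, -387, 0⟩, ⟨-24, 22, -32, -22, -291, 0⟩, ⟨-3, 16, -115, -8, -203, -8⟩, ⟨-25, 15, 74, 6, 115, 12⟩, ⟨-26, 1, 121, 12, 201, 20⟩, ⟨-4, 2, -48, -2, -83, 0⟩, ⟨-7, -4, 34, -7, -27, 10⟩, ⟨1, -5, 118, -7, 37, 21⟩, ⟨2, 1, 40, -2,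 -8, 11⟩, ⟨-6, 2, -33, -2, -61, 0⟩, ⟨-6, -3, 5, -5, -28, 6⟩, ⟨1, -2, 60, -5, 13, 16⟩, ⟨-3, 3, 24, -2, -15, 10⟩, ⟨-10, 2, -21, -2, -46, 0⟩, ⟨-8, -3, 0, -4, -20, 5⟩, ⟨-3, -1, 34, -3, 7, 15⟩, ⟨-2, 3, 17, 0, -4, 10⟩, ⟨-7, 1, -7, -1, -20, 0⟩, ⟨-3, -2, 0, -2, -3, 3⟩, ⟨1, 1, 12, -2, 1, 12⟩, ⟨4, 3, 3, 0, -5, 9⟩, ⟨0, 0, 0, 0, 0, 0⟩]⟩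

def d22 : Dat := ⟨[⟨6, 7, -1, -9, -17, 7⟩, ⟨-1, 2, 0, -8, 3, 5⟩, ⟨-9, 7, 1, -2, -7, -2⟩, ⟨-2, 1, -22, -1, 17, -7⟩, ⟨36, -4, -5, -22, 9, -23⟩, ⟨31, -12, 33, 18, 5, 22⟩, ⟨1, -10, 14, -5, -1, 6⟩, ⟨7, 9, 7, -4, -9, 0⟩, ⟨-3, -4, -6, -2, 10, 6⟩, ⟨4, -4, 5, -3, -8, 7⟩, ⟨-4, -6, -5, -2, 8, 6⟩, ⟨7, -2, 5, -4, -9, 6⟩, ⟨-2, -4, -5, -2, 7, 4⟩, ⟨6, -1, 3, -4, -6, 5⟩, ⟨-1, -4, -6, -1, 6, 3⟩, ⟨5, 0, 2, -4, -4, 4⟩, ⟨0, -3, -6, -1, 5, 2⟩, ⟨4, 1, 2, -4, -3, 4⟩],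
  [⟨0, 0, 0, 0, 0, 0⟩, ⟨6, 7, -1, -9, -17, 7⟩, ⟨2, -3, 8, -5, -4, 12⟩, ⟨28, 21, -21, -29, 3, 14⟩, ⟨36, 29, -22, -31, -15, 9⟩, ⟨35, 27, -24, -24, -28, 7⟩, ⟨-45, -12, 32, 15, -46, 0⟩, ⟨-28, -7, -3, -7, 25, 12⟩, ⟨-28, -8, 21, -6, 50, 19⟩, ⟨0, -12, -28, -28, -79, -4⟩, ⟨31, -24, 41, -10, 102, 18⟩, ⟨40, -2, 36, 13, 151, 22⟩, ⟨9, 10, 3, -5, -74, 0⟩, ⟨10, 0, 17, -10, -15, 6⟩, ⟨17, 9, 24, -14, -114, 6⟩, ⟨8, 14, -37, -9, -128, 0⟩, ⟨1, 5, -44, -5, -79, 0⟩, ⟨-2, 1, 10, -7, -29, 6⟩, ⟨2, -3, 78, -10, -1, 13⟩, ⟨7, -1, 26, -6, -24, 7⟩, ⟨3, 3, -35, -3, -48, 0⟩, ⟨-1, -3, 8, -5, -8, 6⟩, ⟨6, -5, 55, -9, -3, 12⟩, ⟨12,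 -1, 18, -5, -16, 6⟩, ⟨5, 1, -23, -1, -19, 0⟩, ⟨3, -3, -4, -3, 0, 4⟩, ⟨9, -4, 24, -7, -1, 9⟩, ⟨7, 0, 3, -5, -19, 5⟩, ⟨1, 1, -20, -1, -17, 0⟩, ⟨0, -3, -14, -2, -3, 3⟩, ⟨5, -3, 0, -6, -7, 7⟩, ⟨9, 0, 0, -4, -7, 4⟩, ⟨4, 0, -10, 0, -3, 0⟩, ⟨4, -3, -12, -1, 4, 2⟩, ⟨8, -2, -6, -5, 1, 6⟩, ⟨4, 1, 2, -4, -3, 4⟩, ⟨0, 0, 0, 0, 0, 0⟩]⟩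

def d23 : Dat := ⟨[⟨-4, 5, -7, 2, -11, -2⟩, ⟨6, 1, -4, 4, -5, -6⟩, ⟨-10, 7, -1, 0, -8, 3⟩, ⟨-2, -1, -16, 3, 10, -12⟩, ⟨-1, -3, -3, 8, -7, -8⟩, ⟨-8, -7, 9, -2, 4, -2⟩, ⟨1, 6, 5, -5, 0, -7⟩, ⟨5, 6, -11, -7, 7, 0⟩, ⟨10, -10, 2, 9, 0, -6⟩, ⟨-3, 11, 3, 0, 6, 0⟩, ⟨17, -3, -4, 5, -8, -7⟩, ⟨-1, 16, -2, -3, 7, -7⟩, ⟨20, -1, -6, 4, -10, -6⟩, ⟨-1, 18, -2, -5, 7, -10⟩, ⟨21, 1, -6, 3, -11, -5⟩, ⟨-2, 19, -2, -5, 6, -11⟩, ⟨22, 1, -7, 3, -12, -5⟩, ⟨-2, 20, -2, -6, 5, -11⟩],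
  [⟨0, 0, 0, 0, 0, 0⟩, ⟨-4, 5, -7, 2, -11, -2⟩, ⟨11, 29, -25, -17, -28, -8⟩, ⟨24, 40, -30, -26, -40, -13⟩, ⟨24, 36, -37, -27, -17, -7⟩, ⟨23, 36, -40, -20, -16, -4⟩, ⟨-39, 7, 4, 11, -66, -16⟩, ⟨-4, 18, -40, -16, -11, -7⟩, ⟨0, 19, -30, -19, 51, 5⟩, ⟨-7, 16, -17, -11, -4, -3⟩, ⟨-15, 9, -12, -13, -16, -5⟩, ⟨-9, 1, -2, -5, 15, -2⟩, ⟨-1, 8, -11, -3, 31, 0⟩, ⟨0, 14, -6, -8, -39, -7⟩, ⟨5, 20, -17, -15, -92, -7⟩, ⟨-8, 25, 52, -26, -137, 0⟩, ⟨-13, 19, 63, -19, -74, 0⟩, ⟨-3, 9, 5, -10, -44, -6⟩, ⟨-6, 20, 8, -10, -38, -6⟩, ⟨-18, 18, 56, -7, 34, 0⟩, ⟨-15, 7, 53, -7, 28, 0⟩, ⟨2, 4, -7, -2, 4, -7⟩, ⟨1, 20, -58,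 -5, -59, -14⟩, ⟨-17, 20, -4, -7, -20, -7⟩, ⟨-16, 4, 40, -4, 33, 0⟩, ⟨4, 3, -2, 0, 11, -6⟩, ⟨3, 21, -54, -5, -57, -16⟩, ⟨-13, 20, -12, -7, -24, -10⟩, ⟨-12, 2, 30, -2, 29, 0⟩, ⟨9, 3, 4, 1, 10, -5⟩, ⟨7, 22, -31, -4, -32, -16⟩, ⟨-9, 20, -15, -6, -14, -11⟩, ⟨-7, 1, 9, -1, 12, 0⟩, ⟨15, 2, -8, 2, -4, -5⟩, ⟨13, 22, -21, -4, -16, -16⟩, ⟨-2, 20, -2, -6, 5, -11⟩, ⟨0, 0, 0, 0, 0, 0⟩]⟩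

def d24 : Dat := ⟨[⟨1, -7, 5, -3, 6, -1⟩, ⟨-3, 11, 1, 12, 7, -8⟩, ⟨-9, 16, -5, 20, -21, -2⟩, ⟨-14, -5, -7, -7, -15, -6⟩, ⟨2, -20, 27, 18, 12, -8⟩, ⟨-18, 7, 8, 7, 20, 26⟩, ⟨-1, 14, -3, 9, 1, -2⟩, ⟨-9, -3, -6, -1, 2, 1⟩, ⟨3, 4, 1, -1, 3, -1⟩, ⟨-2, 0, -1, 4, 1, 3⟩, ⟨0, 1, 4, -2, 2, 2⟩, ⟨0, 0, 0, 4, -2, 2⟩, ⟨-1, 1, 5, -1, 3, 2⟩, ⟨0, -1, 0, 4, -1, 3⟩, ⟨-1, 0, 5, 0, 4, 1⟩, ⟨0, -1, 0, 4, -1, 4⟩, ⟨-2, 0, 5, -1, 4, 1⟩, ⟨0, -1, 0, 5, -1, 4⟩],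
  [⟨0, 0, 0, 0, 0, 0⟩, ⟨1, -7, 5, -3, 6, -1⟩, ⟨-17, -3, -2, 16, -3, -9⟩, ⟨-34, -13, -1, 23, 19, -2⟩, ⟨-47, -25, -9, 12, 36, 6⟩, ⟨-32, -5, -2, 28, 9, 4⟩, ⟨-16, 4, -39, 7, -36, -2⟩, ⟨29, 23, -108, -32, -127, -18⟩, ⟨53, 28, -87, -25, -76, -12⟩, ⟨15, 8, -24, -7, -112, -20⟩, ⟨-3, 15, -2, 0, 116, 6⟩, ⟨-10, -3, 6, 8, 304, 26⟩, ⟨8, -10, -2, 1, 24, 0⟩, ⟨7, 4, -5, 10, 5, -2⟩, ⟨-12, 1, -11, 9, 37, -1⟩, ⟨-10, -8, 10, 4, 15, 1⟩, ⟨-1, -5, 6, 5, 13, 0⟩, ⟨2, -1, -3, 4, -4, -1⟩, ⟨0, -1, 23, 8, 60, 2⟩, ⟨-2, -2, 24, 6, 44, 3⟩, ⟨0, -2, 1, 2, -13, 0⟩, ⟨0, -1, 21, 0, -11, 2⟩, ⟨0, -1, 35, 4, 29, 4⟩, ⟨-4, 0, 11, 4, 8,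 2⟩, ⟨-4, 0, -1, 0, -26, 0⟩, ⟨-5, 1, 16, -1, -17, 2⟩, ⟨-5, 0, 31, 3, 17, 5⟩, ⟨0, -1, 4, 4, 7, 3⟩, ⟨0, 0, -8, 0, -20, 0⟩, ⟨-1, 0, 1, 0, -12, 1⟩, ⟨-1, -1, 13, 4, 11, 5⟩, ⟨9, -2, 6, 5, 16, 4⟩, ⟨9, -1, -2, 1, 1, 0⟩, ⟨7, -1, 5, 0, 5, 1⟩, ⟨7, -2, 9, 5, 13, 5⟩, ⟨0, -1, 0, 5, -1, 4⟩, ⟨0, 0, 0, 0, 0, 0⟩]⟩

def d25 : Dat := ⟨[⟨-1, 3, -5, -3, -8, 0⟩, ⟨-2, -1, 1, -1, -1, -5⟩, ⟨-7, 8, -5, -4, -7, 0⟩, ⟨0, 0, -9, 0, 6, -16⟩, ⟨0, 2, -9, -1, -8, -3⟩, ⟨1, -7, 3, -2, -1, -10⟩, ⟨-2, 4, -5, 2, 2, -7⟩, ⟨-2, -2, -2, -5, 7, 2⟩, ⟨-2, 26, -21, 5, 9, -15⟩, ⟨-21, -30, -9, 5, 14, 9⟩, ⟨-8, -2, 10, -4, -17, 6⟩, ⟨3, -4, 2, 6,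 -6, -18⟩, ⟨-7, 0, 5, -1, -9, 3⟩, ⟨0, -7, 1, 4, -2, -10⟩, ⟨-7, 0, 4, 0, -7, 1⟩, ⟨0, -7, 1, 4, -1, -7⟩, ⟨-7, 0, 3, -1, -6, 1⟩, ⟨0, -7, 0, 4, -1, -6⟩],
  [⟨0, 0, 0, 0, 0, 0⟩, ⟨-1, 3, -5, -3, -8, 0⟩, ⟨-5, -4, 0, 2, -19, -5⟩, ⟨5, 3, -5, -6, -15, -6⟩, ⟨5, 4, -2, -5, 1, -1⟩, ⟨-4, 0, -1, 3, -6, -1⟩, ⟨-40, -18, 26, 21, -80, -17⟩, ⟨-19, -11, -1, 4, -39, -11⟩, ⟨-19, -11, 8, 4, 51, 5⟩, ⟨-15, -9, -3, 3, 25, 2⟩, ⟨-14, -16, -4, 1, -56, -8⟩, ⟨-7, -15, 2, 4, -72, -10⟩, ⟨-8, -8, -1, 6, 29, 0⟩, ⟨-10, -4, -6, 8, -39, -7⟩, ⟨-32, -6, -8, 3, -12, -5⟩, ⟨-32, -8, 64, 1, 38, 2⟩, ⟨-30, -6, 46, 6, 61, 0⟩, ⟨-32, 20, -125,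 11, -30, -15⟩, ⟨-53, -10, -53, 16, 110, -6⟩, ⟨-24, -31, 60, 6, 123, 9⟩, ⟨-3, -1, -3, 1, -3, 0⟩, ⟨-11, -3, 55, -3, -4, 6⟩, ⟨-8, -7, -69, 3, -94, -12⟩, ⟨-6, -3, -103, 5, -95, -18⟩, ⟨-9, 1, 3, -1, -17, 0⟩, ⟨-16, 1, 26, -2, -14, 3⟩, ⟨-16, -6, -23, 2, -46, -7⟩, ⟨0, -7, -42, 4, -32, -10⟩, ⟨0, 0, -3, 0, -6, 0⟩, ⟨-7, 0, 5, 0, -9, 1⟩, ⟨-7, -7, -15, 4, -19, -6⟩, ⟨9, -8, -11, 5, 2, -7⟩, ⟨9, -1, 2, 1, 9, 0⟩, ⟨2, -1, 7, 0, 3, 1⟩, ⟨2, -8, 1, 4, 0, -5⟩, ⟨0, -7, 0, 4, -1, -6⟩, ⟨0, 0, 0, 0, 0, 0⟩]⟩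

def d26 : Dat := ⟨[⟨-2, -3, 2, 3, 8, -4⟩, ⟨0, 4, 0, 7, 1, -2⟩, ⟨9, -11, 15, 8, 12, -6⟩, ⟨-5, 0, 10, -5, -3, 40⟩, ⟨7, -7, -5, -5, 1, 4⟩, ⟨4, -11, -3, 5, 6, 10⟩, ⟨1, 1, 14, 8, -1, 1⟩, ⟨-7, 10, 7, -2, 0, -1⟩, ⟨-1, 10, -4, -1, 6, -3⟩, ⟨-4, -6, -4, 0, 3, 7⟩, ⟨10, -11, 10, -3, -12, 8⟩, ⟨8, 16, 4, 7, -7, -14⟩, ⟨6, -3, 3, -1, -2, 2⟩, ⟨2, 8, 1, 3, -2, -2⟩, ⟨6, -2, 2, -1, -1, 2⟩, ⟨2, 8, 1, 2, -1, -1⟩, ⟨6, -3, 2, -1, -1, 2⟩, ⟨2, 8, 1, 2, -1, -1⟩],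
  [⟨0, 0, 0, 0, 0, 0⟩, ⟨-2, -3, 2, 3, 8, -4⟩, ⟨-6, 4, -5, 7, 5, -6⟩, ⟨-23, -7, 5, 19, 4, -5⟩, ⟨-30, -14, 1, 15, 9, -3⟩, ⟨-7, -6, -1, 4, 3, -9⟩, ⟨53, 24, -56, -31, 200, 31⟩, ⟨2, 6, -19, -8, 173, 29⟩, ⟨7, 6, -19, -3, -64, -11⟩, ⟨0, -1, -34, -8, -39, -7⟩, ⟨4, -12, -27, -3, 47, 3⟩, ⟨16, -7, -21, -7, 111, 10⟩, ⟨12, 4, -18, -12, 5, 0⟩, ⟨13, 5, -4, -4, 14, 1⟩, ⟨16, 15, 3, -6, -86, 0⟩, ⟨2, 7, -8, 1, -17, -1⟩, ⟨9, -3, -5, 3, 13, 0⟩, ⟨8, 7, -39, 2, -21, -3⟩, ⟨4, 1, 20, 2, 45, 4⟩, ⟨12, -4, 40, -2, 25, 7⟩, ⟨16, 2, -12, -2, -34, 0⟩, ⟨26, -9, 62, -5, -6, 8⟩, ⟨34, 7, -32, 2, -62, -6⟩, ⟨18, 16, -84, 7, -57, -14⟩,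 ⟨10, 0, -4, 0, -8, 0⟩, ⟨16, -3, 11, -1, -4, 2⟩, ⟨18, 5, 2, 2, -1, 0⟩, ⟨8, 8, -9, 3, -3, -2⟩, ⟨6, 0, -2, 0, -5, 0⟩, ⟨12, -2, 8, -1, -2, 2⟩, ⟨14, 6, 6, 1, 0, 1⟩, ⟨6, 8, -10, 2, -5, -1⟩, ⟨4, 0, -9, 0, -6, 0⟩, ⟨10, -3, -3, -1, -5, 2⟩, ⟨12, 5, -3, 1, -5, 1⟩, ⟨2, 8, 1, 2, -1, -1⟩, ⟨0, 0, 0, 0, 0, 0⟩]⟩

def d27 : Dat := ⟨[⟨-2, 0, -2, 1, 0, -1⟩, ⟨-1, 2, 1, 2, -1, -5⟩, ⟨1, -2, 4, 2, 3, -2⟩, ⟨-3, 0, 1, -2, 1, 11⟩, ⟨3, -3, -4, -1, -1, 0⟩, ⟨1, -6, 0, 1, 2, 1⟩, ⟨0, 2, 3, 3, 0, -2⟩, ⟨-2, 3, 0, -2, 2, 0⟩, ⟨1, 3, -3, 2, 3, -4⟩, ⟨-3, -2, -1, -1, 3, 4⟩, ⟨-18, 20, -10, 3, 18, -10⟩, ⟨-13, -25, -6, -8, 9, 22⟩, ⟨11,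 -13, 12, -5, -18, 11⟩, ⟨10, 15, 5, 13, -9, -21⟩, ⟨3, -4, 4, -2, -5, 4⟩, ⟨3, 4, 1, 5, -3, -6⟩, ⟨2, -2, 3, -1, -3, 2⟩, ⟨2, 2, 1, 4, -2, -4⟩],
  [⟨0, 0, 0, 0, 0, 0⟩, ⟨-2, 0, -2, 1, 0, -1⟩, ⟨-7, -2, -1, 7, -11, -6⟩, ⟨-8, -3, 1, 8, -12, -7⟩, ⟨-11, -5, 0, 6, 4, -2⟩, ⟨-5, -3, -1, 4, 1, -4⟩, ⟨10, 5, -18, -6, 57, 7⟩, ⟨-3, 0, -11, -2, 59, 8⟩, ⟨0, 0, -8, 0, -8, -3⟩, ⟨-3, -3, -14, -1, -9, -3⟩, ⟨-2, -9, -12, 0, 1, -2⟩, ⟨5, -8, -8, 0, 29, 1⟩, ⟨4, -2, -8, -1, 17, 0⟩, ⟨4, 0, -5, 2, -3, -2⟩, ⟨2, 3, -5, 0, -31, -2⟩, ⟨-3, 0, 15, 1, 2, 0⟩, ⟨-1, -3, 15, 3, 20, 0⟩, ⟨0, 0, -28, 5, 3, -4⟩, ⟨-3, -2, 7, 4, 33, 0⟩, ⟨-2,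 -5, 38, 2, 41, 4⟩, ⟨1, -3, 7, 3, 14, 0⟩, ⟨-17, 17, -83, 6, -24, -10⟩, ⟨-30, -8, 65, -2, 83, 12⟩, ⟨2, -24, 117, -9, 65, 22⟩, ⟨15, 1, -9, -1, -28, 0⟩, ⟨26, -12, 69, -6, -10, 11⟩, ⟨36, 3, -31, 7, -59, -10⟩, ⟨16, 15, -79, 13, -48, -21⟩, ⟨6, 0, 0, 0, -7, 0⟩, ⟨9, -4, 20, -2, -4, 4⟩, ⟨12, 0, 3, 3, -10, -2⟩, ⟨5, 4, -11, 5, -8, -6⟩, ⟨2, 0, 0, 0, -3, 0⟩, ⟨4, -2, 7, -1, -4, 2⟩, ⟨6, 0, 4, 3, -6, -2⟩, ⟨2, 2, 1, 4, -2, -4⟩, ⟨0, 0, 0, 0, 0, 0⟩]⟩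

def d28 : Dat := ⟨[⟨-1, 0, -1, 0, 0, 0⟩, ⟨-1, 0, 0, 1, 0, -2⟩, ⟨1, -1, 2, 1, 1, -1⟩, ⟨-1, 0, 0, -1, 1, 4⟩, ⟨1, -1, -2, -1, 0, 0⟩, ⟨0, -2, 0, 0, 1, 0⟩, ⟨0, 1, 1, 1, 0, -1⟩, ⟨-1, 1, 0, -1, 1, 0⟩, ⟨0, 1, -2, 1, 2, -2⟩, ⟨-1, -1, -1, -1, 1, 2⟩, ⟨-5, 5, -3, 1, 5, -3⟩, ⟨-4, -7, -2, -2, 3, 6⟩, ⟨-16, 13, -6, 4, 14, -9⟩, ⟨-9, -20, -4, -7, 7, 17⟩, ⟨18, -17, 13, -7, -22, 15⟩, ⟨13, 23, 6, 15, -12, -27⟩, ⟨0, 0, 1, 0, -1, 0⟩, ⟨0, 0, 0, 1, 0, -1⟩],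
  [⟨0, 0, 0, 0, 0, 0⟩, ⟨-1, 0, -1, 0, 0, 0⟩, ⟨-3, -1, -1, 2, -4, -2⟩, ⟨-4, -1, -2, 2, -3, -2⟩, ⟨-5, -2, -1, 2, 3, 0⟩, ⟨-2, -1, -1, 1, 1, -1⟩, ⟨2, 1, -6, -2, 22, 3⟩, ⟨-4, -1, -3, 0, 20, 3⟩, ⟨-3, -1, -1, 1, -5, -1⟩, ⟨-4, -2, -5, 0, -5, -1⟩, ⟨-4, -4, -5, 0, -4, -1⟩, ⟨-1, -3, -4, 0, 6, 0⟩, ⟨-1, -1, -4, 0, 5, 0⟩, ⟨-1, 0, -3, 1, -5, -1⟩, ⟨-2, 1, -3, 0, -14, -1⟩, ⟨-4, 0, 7, 0, -3, 0⟩, ⟨-3, -1, 7, 1, 6, 0⟩, ⟨-3, 0, -15, 2, -2, -2⟩, ⟨-4, -1, 2, 1, 8, 0⟩, ⟨-4, -2, 18, 0, 11, 2⟩, ⟨-3, -1, 3, 1, 2, 0⟩, ⟨-8, 4, -24, 2, -9, -3⟩, ⟨-12, -3, 16, 0, 22, 3⟩, ⟨-4, -7, 35, -2, 19, 6⟩, ⟨0, 0, 1, 0, -8, 0⟩, ⟨-16, 13,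 -59, 4, -24, -9⟩, ⟨-25, -7, 22, -3, 33, 8⟩, ⟨2, -19, 60, -8, 27, 17⟩, ⟨11, 1, -4, -1, -20, 0⟩, ⟨29, -16, 69, -8, -10, 15⟩, ⟨42, 7, -6, 7, -58, -12⟩, ⟨13, 23, -49, 15, -37, -27⟩, ⟨0, 0, -1, 0, -1, 0⟩, ⟨0, 0, 0, 0, -2, 0⟩, ⟨0, 0, -1, 1, -2, -1⟩, ⟨0, 0, 0, 1, 0, -1⟩, ⟨0, 0, 0, 0, 0, 0⟩]⟩

def d29 : Dat := ⟨[⟨1, 0, 1, 0, 0, 0⟩, ⟨1, -1, 0, -1, 0, 2⟩, ⟨0, 0, -1, -1, 0, 1⟩, ⟨1, 0, 0, 1, 0, -4⟩, ⟨0, 1, 1, 0, 0, 0⟩, ⟨0, 2, 0, 0, -1, 0⟩, ⟨0, -1, 0, -1, 0, 1⟩, ⟨1, -1, 0, 1, -1, 0⟩, ⟨0, -1, 1, -1, -2, 2⟩, ⟨1, 1, 1, 1, -1, -2⟩, ⟨4, -4, 2, -1, -4, 3⟩, ⟨3, 5, 1, 2, -2, -5⟩, ⟨10, -8, 3, -2, -8, 5⟩, ⟨6, 12, 3,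 4, -4, -10⟩, ⟨10, -7, 2, -3, -7, 5⟩, ⟨5, 12, 2, 3, -4, -9⟩, ⟨-20, 18, -13, 8, 24, -16⟩, ⟨-14, -25, -7, -15, 13, 29⟩],
  [⟨0, 0, 0, 0, 0, 0⟩, ⟨1, 0, 1, 0, 0, 0⟩, ⟨4, 1, 1, -3, 4, 2⟩, ⟨5, 1, 2, -3, 3, 2⟩, ⟨6, 2, 2, -2, -3, 0⟩, ⟨4, 1, 2, -2, 0, 1⟩, ⟨0, -1, 7, 1, -20, -3⟩, ⟨3, 0, 7, 1, -19, -3⟩, ⟨2, 0, 5, 0, 5, 1⟩, ⟨4, 1, 6, 0, 5, 1⟩, ⟨4, 3, 6, 0, 4, 1⟩, ⟨2, 3, 5, 0, -6, 0⟩, ⟨2, 1, 5, 0, -5, 0⟩, ⟨2, 0, 5, -1, 5, 1⟩, ⟨3, -1, 5, 0, 14, 1⟩, ⟨4, 0, -5, 0, 3, 0⟩, ⟨3, 1, -5, -1, -6, 0⟩, ⟨3, 0, 16, -2, 2, 2⟩, ⟨4, 1, -1, -1, -8, 0⟩, ⟨4, 2, -18, 0, -12, -2⟩, ⟨3, 1, -3, -1, -3, 0⟩, ⟨7, -3, 23, -2, 9, 3⟩, ⟨10,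 2, -11, 0, -14, -2⟩, ⟨5, 5, -33, 2, -13, -5⟩, ⟨2, 0, -4, 0, 7, 0⟩, ⟨12, -8, 29, -2, 17, 5⟩, ⟨18, 4, -18, 2, -17, -5⟩, ⟨3, 11, -35, 5, -9, -10⟩, ⟨-3, -1, 2, 1, 19, 0⟩, ⟨7, -8, 24, -2, 20, 5⟩, ⟨12, 4, -1, 1, -2, -4⟩, ⟨-15, 12, -11, 3, -7, -9⟩, ⟨-20, 0, 5, 0, 9, 0⟩, ⟨-40, 18, -40, 8, 17, -16⟩, ⟨-54, -7, -18, -7, 44, 13⟩, ⟨-14, -25, -7, -15, 13, 29⟩, ⟨0, 0, 0, 0, 0, 0⟩]⟩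

end H13SB.Num
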