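import Pool.Agent.H13.SB.Num.Pl

namespace H13SB.Num

def d30 : Dat := ⟨[⟨-13, 8, -20, 5, -12, 3⟩, ⟨-4, 6, 4, 4, -10, -33⟩, ⟨-3, -3, 10, -1, 6, -3⟩, ⟨-5, 1, -4, -1, 11, 14⟩, ⟨3, -5, -8, 4, -5, -7⟩, ⟨-3, -11, 6, 0, 4, -3⟩, ⟨0, 9, 2, -2, 0, -7⟩, ⟨1, 4, -8, -4, 5, 0⟩, ⟨11, -6, 7, -2, -12, 8⟩, ⟨2, 7, 4, 17, -6, -16⟩, ⟨-1, 3, 3, -1, -1, 1⟩, ⟨-2, -4, 0, 6, -1, -1⟩, ⟨-6, 4, 2, 0, 2, -1⟩, ⟨-3, -9, -1, 4, 1, 3⟩, ⟨-8, 5, 3, 1, 2, -2⟩, ⟨-3, -10, -1, 4, 1, 3⟩, ⟨-8, 4, 3, 1, 2, -2⟩, ⟨-3, -10, -1, 4, 2, 3⟩],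
  [⟨0, 0, 0, 0, 0, 0⟩, ⟨-13, 8, -20, 5, -12, 3⟩, ⟨-31, -4, -12, 27, -88, -30⟩, ⟨-6, 12, -21, 12, -106, -42⟩, ⟨-14, 8, -23, 6, 3, -9⟩, ⟨-5, 7, -29, 3, 0, -12⟩, ⟨-4, 10, -39, 0, 81, 2⟩, ⟨-22, 1, -38, -1, 155, 16⟩, ⟨-19, 0, -32, 0, 60, 2⟩, ⟨-26, -5, -32, 4, 13, -5⟩, ⟨-29, -16, -26, 4, -7, -8⟩, ⟨-16, -20, -16, 11, 43, -3⟩, ⟨-13, -9, -22, 11, 69, 0⟩, ⟨-13, 0, -20, 9, -1, -7⟩, ⟨-12, 4, -28, 5, -36, -7⟩, ⟨-21, 6, 42, -6, -78, 0⟩, ⟨-22, 2, 50, -2, -43, 0⟩, ⟨-11, -4, 137, -4, 5, 8⟩, ⟨-9, 3, -3, 13, 8, -8⟩, ⟨-16, 5, -86, 19, 10, -16⟩, ⟨-18, -2, 38, 2, 8, 0⟩, ⟨-19, 1, 49, 1, 7, 1⟩, ⟨-21, -3, 42, 7, 41, 0⟩,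 ⟨-17, -5, 23, 7, 32, -1⟩, ⟨-15, -1, 29, 1, 3, 0⟩, ⟨-21, 3, 25, 1, -1, -1⟩, ⟨-24, -6, 39, 5, 35, 2⟩, ⟨-17, -9, 33, 4, 26, 3⟩, ⟨-14, 0, 22, 0, -3, 0⟩, ⟨-22, 5, 17, 1, -5, -2⟩, ⟨-25, -5, 25, 5, 17, 1⟩, ⟨-9, -10, 14, 4, 13, 3⟩, ⟨-6, 0, 9, 0, -2, 0⟩, ⟨-14, 4, 8, 1, -2, -2⟩, ⟨-17, -6, 10, 5, 7, 1⟩, ⟨-3, -10, -1, 4, 2, 3⟩, ⟨0, 0, 0, 0, 0, 0⟩]⟩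

def d31 : Dat := ⟨[⟨-2, -1, -2, 1, 0, 3⟩, ⟨-3, 5, 3, 3, -1, -5⟩, ⟨1, 6, -11, 1, -7, 5⟩, ⟨4, -2, 2, 2, -10, -18⟩, ⟨-2, 3, 5, -7, 1, 9⟩, ⟨6, 6, -7, 0, -2, -2⟩, ⟨3, -15, 16, -6, -3, 5⟩, ⟨5, 13, 7, 5, -4, -3⟩, ⟨5, -2, 8, -7, -10, 12⟩, ⟨4, 3, 3, 15, -9, -14⟩, ⟨0, -5, 9, -4, -5, 8⟩, ⟨4, 1, 3, 11, -6, -7⟩, ⟨2, -7, 9, -4, -6, 8⟩, ⟨5, 4, 3, 11, -6, -8⟩, ⟨4, -7, 8, -4, -6, 8⟩, ⟨5, 5, 3, 11, -6, -8⟩, ⟨4, -7, 8, -3, -6, 7⟩, ⟨5, 6, 3, 10, -6, -7⟩],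
  [⟨0, 0, 0, 0, 0, 0⟩, ⟨-2, -1, -2, 1, 0, 3⟩, ⟨-16, -10, 4, 18, -11, -2⟩, ⟨-12, -8, 0, 15, -10, -3⟩, ⟨-18, -11, -2, 10, 6, 2⟩, ⟨-28, -10, 5, 16, 14, 7⟩, ⟨-36, -16, 19, 22, -86, -11⟩, ⟨-8, -4, 6, 16, -153, -24⟩, ⟨-8, -2, 0, 14, -35, -6⟩, ⟨-4, 1, -9, 7, 20, 3⟩, ⟨2, 7, -16, 7, 2, 1⟩, ⟨-6, 14, -20, -2, -28, -2⟩, ⟨-12, 8, -13, -2, -6, 0⟩, ⟨-9, -7, 3, -8, 41, 5⟩, ⟨26, 6, 10, -3, -93, 2⟩, ⟨12, 12, -43, 6, -56, -3⟩, ⟨7, -1, -20, 1, -72, 0⟩, ⟨12, -3, 108, -6, -32, 12⟩, ⟨16, 0, -15, 9, -32, -2⟩, ⟨15, 4, -127, 14, -69, -14⟩, ⟨11, 1, -18, -1, -68, 0⟩, ⟨11, -4, 55, -5, -41, 8⟩, ⟨15, -3, 9, 6, -19, 1⟩, ⟨13,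 2, -50, 10, -32, -7⟩, ⟨9, 1, -11, -1, -50, 0⟩, ⟨11, -6, 46, -5, -32, 8⟩, ⟨16, -2, 9, 6, -23, 0⟩, ⟨8, 5, -34, 10, -29, -8⟩, ⟨3, 1, -5, -1, -35, 0⟩, ⟨7, -6, 35, -5, -25, 8⟩, ⟨12, -1, 14, 6, -22, 0⟩, ⟨2, 6, -22, 10, -25, -8⟩, ⟨-3, 1, -9, -1, -25, 0⟩, ⟨1, -6, 13, -4, -23, 7⟩, ⟨6, 0, 9, 6, -26, 0⟩, ⟨5, 6, 3, 10, -6, -7⟩, ⟨0, 0, 0, 0, 0, 0⟩]⟩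

def d32 : Dat := ⟨[⟨10, 4, 8, -4, 2, 2⟩, ⟨3, -10, -1, -11, 2, 20⟩, ⟨-3, -2, 9, -5, 6, -3⟩, ⟨-1, 4, -6, 1, 12, 10⟩, ⟨1, 6, -2, 12, 4, -12⟩, ⟨-8, 2, 9, -1, -4, 3⟩, ⟨-3, 15, -22, -3, 2, 3⟩, ⟨2, -19, -12, -2, -2, 3⟩, ⟨2, -4, 5, -5, -6, 10⟩, ⟨3, 1, 3, 10, -7, -9⟩, ⟨-1, -5, 5, -3, -4, 6⟩, ⟨3, 1, 2, 6, -5, -5⟩, ⟨1, -6, 5, -2, -4, 6⟩, ⟨4, 2, 2, 6, -4, -5⟩, ⟨2, -6, 4, -3, -4, 6⟩, ⟨4, 3, 2, 6, -4, -5⟩, ⟨2, -6, 4, -3, -3, 6⟩, ⟨4, 3, 2, 5, -4, -5⟩],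
  [⟨0, 0, 0, 0, 0, 0⟩, ⟨10, 4, 8, -4, 2, 2⟩, ⟨27, 1, 14, -22, 44, 22⟩, ⟨31, 3, 14, -22, 38, 24⟩, ⟨43, 14, 21, -12, -24, 4⟩, ⟨47, 9, 16, -14, -27, 1⟩, ⟨29, 3, 27, -3, 35, 11⟩, ⟨11, -6, 28, -4, 128, 28⟩, ⟨4, -10, 32, -5, 56, 18⟩, ⟨17, -4, 54, 7, -12, 6⟩, ⟨9, -2, 61, 6, 8, 9⟩, ⟨5, -14, 51, 18, -53, 3⟩, ⟨13, -16, 42, 19, -79, 0⟩, ⟨10, -1, 20, 16, -47, 3⟩, ⟨-18, -20, 8, 14, 141, 6⟩, ⟨10, -17, -19, -4, -74, 3⟩, ⟨8, 2, -37, -2, -82, 0⟩, ⟨10, -2, 68, -7, -38, 10⟩, ⟨13, -1, -10, 3, -36, 1⟩, ⟨13, 3, -99, 8, -61, -9⟩, ⟨10, 2, -30, -2, -62, 0⟩, ⟨9, -3, 23, -5, -42, 6⟩, ⟨12, -2, -10, 1, -40, 1⟩, ⟨9, 3, -49,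 4, -49, -5⟩, ⟨6, 2, -21, -2, -50, 0⟩, ⟨7, -4, 20, -4, -30, 6⟩, ⟨11, -2, -3, 2, -29, 1⟩, ⟨16, 2, -28, 6, -17, -5⟩, ⟨12, 0, -10, 0, -17, 0⟩, ⟨14, -6, 18, -3, -9, 6⟩, ⟨18, -3, 5, 3, -10, 1⟩, ⟨10, 3, -13, 6, -10, -5⟩, ⟨6, 0, -5, 0, -8, 0⟩, ⟨8, -6, 11, -3, -5, 6⟩, ⟨12, -3, 8, 2, -9, 1⟩, ⟨4, 3, 2, 5, -4, -5⟩, ⟨0, 0, 0, 0, 0, 0⟩]⟩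

def d33 : Dat := ⟨[⟨7, -2, 14, -1, 12, -17⟩, ⟨5, -4, -2, 7, 5, 24⟩, ⟨1, 6, -4, 4, -5, 6⟩, ⟨0, -6, -1, -3, -5, 0⟩, ⟨6, -8, -16, -8, -1, 4⟩, ⟨5, -15, -3, -2, 5, -2⟩, ⟨-2, 8, 10, 1, 2, -11⟩, ⟨-1, 7, -4, -5, 6, 3⟩, ⟨19, -3, -4, 3, -5, 3⟩, ⟨-4, 3, 3, 22, -1, -8⟩, ⟨-2, 4, -1, 1, 1, -3⟩, ⟨-3, -4, -1, 0, 2, 1⟩, ⟨-2, 4, 0, 1, 1, -2⟩, ⟨-2, -4, -1, 0, 2, 1⟩, ⟨-2, 4, 0, 2, 1, -3⟩, ⟨-2, -4, -1, 0, 2, 1⟩, ⟨-2, 4, 0, 1, 1, -3⟩, ⟨-2, -4, -1, 0, 2, 1⟩],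
  [⟨0, 0, 0, 0, 0, 0⟩, ⟨7, -2, 14, -1, 12, -17⟩, ⟨23, 19, -2, -19, 65, 7⟩, ⟨-20, -5, 25, 10, 65, 15⟩, ⟨-25, -12, 24, 14, -12, -9⟩, ⟨-25, -8, 31, 20, 1, -3⟩, ⟨-32, -16, 37, 19, -4, -3⟩, ⟨-5, -5, 12, 7, -54, -12⟩, ⟨7, 1, 19, 10, -49, -12⟩, ⟨-3, -7, -13, 2, -26, -8⟩, ⟨2, -22, -20, 0, -37, -10⟩, ⟨26, -14, -11, -4, 41, -2⟩, ⟨21, 1, -8, -2, 56, 0⟩, ⟨19, 9, 2, -1, -52, -11⟩, ⟨-12, 16, -2, -6, -116, -8⟩, ⟨-31, 15, 110, -13, -77, 3⟩, ⟨-30, 8, 84, -8, -63, 0⟩, ⟨-11, 5, 110, -5, -8, 3⟩, ⟨-15, 8, 41, 17, 117, -5⟩, ⟨-19, 2, -19, 23, 141, -8⟩, ⟨-15, -1, 42, 1, 30, 0⟩, ⟨-17, 3, 17, 2, 15, -3⟩, ⟨-20, -1, 23,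 2, 24, -2⟩, ⟨-17, -4, 42, 0, 25, 1⟩, ⟨-14, 0, 37, 0, 17, 0⟩, ⟨-16, 4, 25, 1, 12, -2⟩, ⟨-18, 0, 29, 1, 19, -1⟩, ⟨-10, -4, 27, 0, 18, 1⟩, ⟨-8, 0, 24, 0, 12, 0⟩, ⟨-10, 4, 12, 2, 9, -3⟩, ⟨-12, 0, 14, 2, 14, -2⟩, ⟨3, -5, 16, 1, 22, 1⟩, ⟨5, -1, 15, 1, 18, 0⟩, ⟨3, 3, 9, 2, 15, -3⟩, ⟨1, -1, 9, 2, 18, -2⟩, ⟨-2, -4, -1, 0, 2, 1⟩, ⟨0, 0, 0, 0, 0, 0⟩]⟩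

def d34 : Dat := ⟨[⟨-4, -4, -3, 4, -1, 6⟩, ⟨-5, 2, 4, -1, -2, -6⟩, ⟨4, -6, -14, 0, 0, 3⟩, ⟨6, -8, 7, -7, -9, -10⟩, ⟨9, -4, -24, -3, 10, 8⟩, ⟨2, -14, -4, -10, 2, 14⟩, ⟨-1, 11, -9, -3, 1, -1⟩, ⟨1, -10, -7, -7, 1, 2⟩, ⟨-7, -8, 5, 1, 3, -3⟩, ⟨4, 6, -1, -11, 1, 6⟩, ⟨4, -3, 0, -1, 0, 3⟩, ⟨1, 3, 1, 6, -1, 0⟩, ⟨1, -2, 1, -2, 0, 2⟩, ⟨1, 0, 1, 4, -1, -1⟩, ⟨0, -1, 1, -1, -1, 2⟩, ⟨1, -1, 1, 3, -1, -1⟩, ⟨-1, -2, 1, 0, -1, 2⟩, ⟨1, -1, 1, 2, -1, -2⟩],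
  [⟨0, 0, 0, 0, 0, 0⟩, ⟨-4, -4, -3, 4, -1, 6⟩, ⟨-20, -23, 11, 24, -15, 0⟩, ⟨-8, -19, 6, 17, -15, -3⟩, ⟨-11, -18, 9, 15, 5, 3⟩, ⟨-25, -18, 7, 9, 14, 6⟩, ⟨-16, -24, 11, 0, -45, -4⟩, ⟨-11, -21, 49, 21, -139, -22⟩, ⟨-1, -13, 56, 28, -70, -12⟩, ⟨0, -17, 26, 25, -12, -4⟩, ⟨2, -31, 2, 15, 102, 10⟩, ⟨30, -28, -4, 7, 128, 14⟩, ⟨28, -14, 0, 17, -14, 0⟩, ⟨27, -3, -9, 14, -23, -1⟩, ⟨8, -13, -16, 7, 78, 1⟩, ⟨17, -10, -5, -7, -56, 2⟩, ⟨16, 0, -18, 0, -7, 0⟩, ⟨9, -8, -43, 1, -24, -3⟩, ⟨13, -2, 10, -10, -68, 3⟩, ⟨-1, 7, 55, -12, -64, 6⟩, ⟨-5, 1, 8, -1, -25, 0⟩, ⟨-1, -2, 32, -2, -9, 3⟩, ⟨0, 1, 33, 4, 32, 3⟩, ⟨-3,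 3, 5, 6, 26, 0⟩, ⟨-4, 0, 4, 0, -9, 0⟩, ⟨-3, -2, 17, -2, -9, 2⟩, ⟨-2, -2, 13, 2, 5, 1⟩, ⟨-17, 2, 0, 2, -15, -1⟩, ⟨-18, 2, 3, -2, -26, 0⟩, ⟨-18, 1, 12, -3, -23, 2⟩, ⟨-17, 0, 10, 0, -18, 1⟩, ⟨-17, 1, -7, 1, -23, -1⟩, ⟨-18, 2, -6, -2, -26, 0⟩, ⟨-19, 0, -1, -2, -23, 2⟩, ⟨-18, -1, -2, 0, -24, 0⟩, ⟨1, -1, 1, 2, -1, -2⟩, ⟨0, 0, 0, 0, 0, 0⟩]⟩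

def d35 : Dat := ⟨[⟨1, 5, 1, 1, 5, -14⟩, ⟨3, -5, 0, 1, 0, 4⟩, ⟨-6, 6, 4, -2, -1, 4⟩, ⟨-3, -1, -4, 1, 5, 1⟩, ⟨-3, -4, 3, -2, -5, -5⟩, ⟨1, 0, 2, 3, 2, -13⟩, ⟨1, 1, 5, 0, -1, -6⟩, ⟨0, 6, 0, 1, 3, -1⟩, ⟨-7, -11, 7, 1, 6, -8⟩, ⟨7, 14, -3, -16, 4, 13⟩, ⟨8, 2, 0, -3, 1, 6⟩, ⟨0, 1, 1, 17, -2, 2⟩, ⟨-1, 1, 3, -1, 0, 4⟩, ⟨-1, -5, 1, 11, -2, -1⟩, ⟨-3, 1, 4, -1, -1, 2⟩, ⟨-1, -7, 1, 10, -1, -2⟩, ⟨-3, 1, 4, 0, -1, 1⟩, ⟨-1, -8, 1, 8, -1, -3⟩],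
  [⟨0, 0, 0, 0, 0, 0⟩, ⟨1, 5, 1, 1, 5, -14⟩, ⟨12, 12, -3, -10, 13, -10⟩, ⟨-9, -2, 23, 9, -1, -11⟩, ⟨-10, -3, 25, 14, -13, -15⟩, ⟨-8, -5, 25, 20, -2, -11⟩, ⟨-17, -8, 27, 23, 8, -10⟩, ⟨3, -3, -9, 2, 76, 2⟩, ⟨8, -2, -7, 1, 65, 1⟩, ⟨-3, -6, -8, -1, 30, -4⟩, ⟨-2, -6, 0, 2, -72, -17⟩, ⟨-1, -4, 9, 7, -22, -13⟩, ⟨-2, -4, 7, 4, 106, 0⟩, ⟨-1, -3, 12, 4, 45, -6⟩, ⟨9, 3, 12, 5, -12, -7⟩, ⟨-3, 3, 71, 4, 39, -1⟩, ⟨-3, -3, 81, 3, 36, 0⟩, ⟨-10, -14, 8, 4, -28, -8⟩, ⟨-3, 0, 122, -12, -51, 5⟩, ⟨-38, 17, 209, -19, -66, 13⟩, ⟨-45, 3, 108, -3, -46, 0⟩, ⟨-37, 5, 156, -6, -21, 6⟩, ⟨-37, 6, 171, 11, 110, 8⟩, ⟨-35, 4,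 81, 14, 75, 2⟩, ⟨-35, 3, 68, -3, -37, 0⟩, ⟨-36, 4, 95, -4, -19, 4⟩, ⟨-37, -1, 91, 7, 29, 3⟩, ⟨-18, -4, 38, 10, 26, -1⟩, ⟨-17, 1, 41, -1, -12, 0⟩, ⟨-20, 2, 53, -2, -9, 2⟩, ⟨-21, -5, 48, 8, 14, 0⟩, ⟨-14, -6, 16, 9, 5, -2⟩, ⟨-13, 1, 19, -1, -10, 0⟩, ⟨-16, 2, 25, -1, -9, 1⟩, ⟨-17, -6, 23, 7, -5, -2⟩, ⟨-1, -8, 1, 8, -1, -3⟩, ⟨0, 0, 0, 0, 0, 0⟩]⟩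

def d36 : Dat := ⟨[⟨-1, 2, -3, -7, 5, -13⟩, ⟨6, -2, -7, 1, 2, -9⟩, ⟨10, 12, 4, 7, -2, 19⟩, ⟨9, 11, -11, 17, -4, 6⟩, ⟨3, 2, -4, 2, 3, 4⟩, ⟨-1, -1, -1, -4, -1, 7⟩, ⟨1, -1, -3, -6, -1, 4⟩, ⟨2, -2, -2, 1, -1, -2⟩, ⟨-6, 1, 4, 0, -1, 2⟩, ⟨-1, -5, 1, -4, -1, -3⟩, ⟨-2, 0, 1, 0, 0, 0⟩, ⟨0, -2, 0, 0, 0, -1⟩, ⟨-1, 0, 0, 1, 0, -1⟩, ⟨0, -1, 0, -1, 0, -1⟩, ⟨0, 0, 0, 0, 0, 0⟩, ⟨0, 0, 0, -1, 0, 0⟩, ⟨0, 0, 0, 0, 0, 0⟩, ⟨0, 0, 0, 0, 0, 0⟩],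
  [⟨0, 0, 0, 0, 0, 0⟩, ⟨-1, 2, -3, -7, 5, -13⟩, ⟨20, 29, -24, -35, -11, -22⟩, ⟨-9, 11, -4, -17, 7, -17⟩, ⟨-3, 10, -8, -15, 32, -8⟩, ⟨8, 17, 14, -3, 87, 11⟩, ⟨-69, -12, 89, 54, 113, 17⟩, ⟨-18, 9, 25, 27, 31, 4⟩, ⟨-49, -2, 2, 10, -1, -2⟩, ⟨-42, 0, 2, 12, 26, 2⟩, ⟨-43, -1, -7, 8, 81, 9⟩, ⟨-41, -3, -12, 4, 52, 7⟩, ⟨-40, -2, -11, 8, -17, 0⟩, ⟨-39, -3, -14, 2, 22, 4⟩, ⟨-17, -5, -16, 3, 41, 2⟩, ⟨-11, 1, -57, -2, -54, -2⟩, ⟨-13, 3, -35, -3, -43, 0⟩, ⟨-19, 4, -11, -3, -24, 2⟩, ⟨-20, -1, -37, -7, -88, -1⟩, ⟨-6, -4, -37, -5, -70, -3⟩, ⟨-5, 1, -14, -1, -13, 0⟩, ⟨-7, 1, -13, -1, -13, 0⟩, ⟨-7, -1, -20, -1,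 -20, -1⟩, ⟨-5, -1, -15, -1, -17, -1⟩, ⟨-5, 1, -9, -1, -11, 0⟩, ⟨-6, 1, -15, 0, -11, -1⟩, ⟨-6, 0, -20, -1, -21, -2⟩, ⟨0, -1, -4, -1, -7, -1⟩, ⟨0, 0, 0, 0, 1, 0⟩, ⟨0, 0, 0, 0, 1, 0⟩, ⟨0, 0, 0, -1, -2, 0⟩, ⟨0, 0, 0, -1, -2, 0⟩, ⟨0, 0, 0, 0, 0, 0⟩, ⟨0, 0, 0, 0, 0, 0⟩, ⟨0, 0, 0, 0, 0, 0⟩, ⟨0, 0, 0, 0, 0, 0⟩, ⟨0, 0, 0, 0, 0, 0⟩]⟩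

def d37 : Dat := ⟨[⟨4, 4, -1, 7, -4, 7⟩, ⟨0, -9, -1, -11, -3, 2⟩, ⟨0, 8, 2, 1, 4, -12⟩, ⟨-3, 16, 1, 12, 0, -4⟩, ⟨2, -2, 1, 2, 0, 14⟩, ⟨-1, 0, -4, -1, 0, 13⟩, ⟨-1, 0, 3, 7, 0, -5⟩, ⟨-2, 2, 2, 0, 1, 1⟩, ⟨6, -2, -3, -1, 1, -3⟩, ⟨2, 6, -1, 3, 1, 4⟩, ⟨2, 2, -1, 0, 0, 2⟩, ⟨-1, -2, 0, 4, 0, 0⟩, ⟨0, 1, 0, 0, 0, 0⟩, ⟨0, -2, 0, 1, 0, -2⟩, ⟨0, 0, 0, 1, 0, 0⟩, ⟨0, -2, 0, -1, 0, -2⟩, ⟨0, 1, 0, 0, 0, -1⟩, ⟨0, -1, 0, -1, 0, -2⟩],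
  [⟨0, 0, 0, 0, 0, 0⟩, ⟨4, 4, -1, 7, -4, 7⟩, ⟨14, -5, 8, -4, -3, 9⟩, ⟨54, 5, 20, -15, -36, -3⟩, ⟨66, 16, 29, -6, -39, -5⟩, ⟨69, 17, 37, 2, -71, -17⟩, ⟨86, 41, 18, 6, -91, -21⟩, ⟨42, 25, 30, 12, -87, -20⟩, ⟨13, 9, 5, 0, -63, -16⟩, ⟨11, 7, 10, 2, 21, -2⟩, ⟨10, 7, 4, 1, 125, 11⟩, ⟨11, 5, 6, -13, 127, 13⟩, ⟨12, 5, 10, -12, -3, 0⟩, ⟨11, 5, 13, -5, -53, -5⟩, ⟨-1, 7, 15, -5, -72, -4⟩, ⟨-8, 0, 66, 2, 55, 1⟩, ⟨-6, -2, 54, 2, 44, 0⟩, ⟨0, -4, 21, 1, 5, -3⟩, ⟨2, 2, 56, 4, 69, 1⟩, ⟨-21, 9, 63, 0, 36, 4⟩, ⟨-23, 3, 32, -3, -21, 0⟩, ⟨-21, 5, 47, -3, -5, 2⟩, ⟨-22, 3, 47, 1, 23, 2⟩, ⟨-10, -1, 14, 3, 24, 0⟩, ⟨-9,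 1, 14, -1, 0, 0⟩, ⟨-9, 2, 14, -1, 0, 0⟩, ⟨-9, 0, 4, 0, -5, -2⟩, ⟨-7, -1, -4, 0, -8, -2⟩, ⟨-7, 1, 4, -1, -4, 0⟩, ⟨-7, 1, 4, 0, 0, 0⟩, ⟨-7, -1, -2, -1, -9, -2⟩, ⟨9, -3, 0, 0, 9, -2⟩, ⟨9, -1, 4, 1, 15, 0⟩, ⟨9, 0, 2, 1, 13, -1⟩, ⟨9, -1, 0, 0, 10, -3⟩, ⟨0, -1, 0, -1, 0, -2⟩, ⟨0, 0, 0, 0, 0, 0⟩]⟩

def d38 : Dat := ⟨[⟨-1, 9, -3, 7, 3, -14⟩, ⟨4, -4, -2, 0, -2, 0⟩, ⟨-9, -1, 1, -9, 5, -3⟩, ⟨-3, -2, 0, -3, 4, -7⟩, ⟨4, 0, -1, 4, -1, 7⟩, ⟨-1, 0, -2, 0, 0, 8⟩, ⟨1, 2, 1, 3, -1, 2⟩, ⟨-1, 4, 0, 4, -1, -2⟩, ⟨-5, 5, 2, 1, -1, 3⟩, ⟨-3, -7, 1, -3, -1, -5⟩, ⟨-2, -3, 1, 0, 1, -5⟩, ⟨2, 8, -1, -9, 1, 5⟩, ⟨2, 2, 0, -2,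 1, 1⟩, ⟨1, 5, 0, 4, 0, 6⟩, ⟨1, 1, 1, -1, 1, 1⟩, ⟨0, 1, 0, 6, 0, 4⟩, ⟨0, 1, 1, -1, 1, 1⟩, ⟨0, -1, 0, 7, 0, 3⟩],
  [⟨0, 0, 0, 0, 0, 0⟩, ⟨-1, 9, -3, 7, 3, -14⟩, ⟨13, 21, -11, -9, 1, -14⟩, ⟨6, 11, 23, 8, -37, -23⟩, ⟨8, 11, 23, 12, -35, -23⟩, ⟨0, 2, 13, 11, -39, -26⟩, ⟨10, 6, 0, 2, -70, -33⟩, ⟨0, -2, 7, 1, 43, -14⟩, ⟨7, 0, 13, 4, 81, -7⟩, ⟨11, 0, 20, 8, 122, 0⟩, ⟨10, 0, 18, 8, 186, 8⟩, ⟨11, -4, 19, 1, 171, 8⟩, ⟨12, -4, 21, 1, 91, 0⟩, ⟨13, -2, 22, 4, 110, 2⟩, ⟨32, 2, 22, 8, 69, 0⟩, ⟨32, -1, 1, 9, 63, -2⟩, ⟨33, -5, 21, 5, 44, 0⟩, ⟨28, 0, 53, 6, 83, 3⟩, ⟨25, -7, 9, 3, 10, -2⟩, ⟨53, -17, -1, 7, 44, -5⟩,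 ⟨56, -10, 38, 10, 109, 0⟩, ⟨54, -13, -1, 10, 70, -5⟩, ⟨56, -5, 33, 1, 43, 0⟩, ⟨27, 3, 100, -4, 33, 5⟩, ⟨25, -5, 71, 5, 56, 0⟩, ⟨27, -3, 77, 3, 51, 1⟩, ⟨28, 2, 107, 7, 101, 7⟩, ⟨13, 3, 71, 6, 63, 6⟩, ⟨12, -2, 47, 2, 23, 0⟩, ⟨13, -1, 52, 1, 24, 1⟩, ⟨13, 0, 64, 7, 54, 5⟩, ⟨7, 0, 35, 7, 33, 4⟩, ⟨7, -1, 27, 1, 13, 0⟩, ⟨7, 0, 30, 0, 14, 1⟩, ⟨7, -1, 33, 7, 24, 4⟩, ⟨0, -1, 0, 7, 0, 3⟩, ⟨0, 0, 0, 0, 0, 0⟩]⟩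

def d39 : Dat := ⟨[⟨2, -2, 1, 5, 0, 10⟩, ⟨-7, -4, 6, -6, -1, 2⟩, ⟨4, 7, 0, 7, -3, 0⟩, ⟨-3, 7, 3, 7, -2, 2⟩, ⟨-3, -11, -2, -6, 1, -4⟩, ⟨1, -3, 1, -1, 2, -11⟩, ⟨0, 2, 0, -4, 0, -2⟩, ⟨1, 0, -1, -1, 0, 0⟩, ⟨-3, 0, 1, 4, -1, 2⟩, ⟨-2, -5, 1, -3, 0, -4⟩, ⟨-1, -5, 1, 0, 1, -6⟩, ⟨2, 8, -1, -10, 1, 4⟩, ⟨2, 1, 0, -2, 1, 1⟩, ⟨0, 4, 0, 4, 0, 4⟩, ⟨1, 1, 0, -1, 0, 2⟩, ⟨0, 0, 0, 5, 0, 2⟩, ⟨0, 0, 1, 0, 0, 1⟩, ⟨0, -2, 0, 5, 0, 0⟩],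
  [⟨0, 0, 0, 0, 0, 0⟩, ⟨2, -2, 1, 5, 0, 10⟩, ⟨-14, -34, 26, 27, 3, 12⟩, ⟨13, -27, 26, 17, -10, 6⟩, ⟨13, -21, 37, 21, -15, 4⟩, ⟨20, -14, 48, 28, -18, 4⟩, ⟨41, 5, 27, 23, -10, 6⟩, ⟨43, 8, 11, 17, -76, -5⟩, ⟨32, 1, -6, 10, -86, -7⟩, ⟨7, -10, -20, 4, -109, -11⟩, ⟨8, -13, -21, 3, -195, -22⟩, ⟨21, -7, -11, 7, -72, -11⟩, ⟨20, -4, -12, 8, 36, 0⟩, ⟨20, -2, -12, 4, 16, -2⟩, ⟨21, -2, -13, 3, 16, -2⟩, ⟨19, 2, 7, -3, -28, 0⟩, ⟨18, 2, 8, -2, -18, 0⟩, ⟨15, 2, 29, 2, 41, 2⟩, ⟨13, -3, -6, -1, -22, -2⟩, ⟨38, -13, -7, 5, 37, -4⟩, ⟨40, -8, 24, 8, 93, 0⟩, ⟨39, -13, -23, 8, 46, -6⟩, ⟨41, -5, 4, -2, 5, -2⟩, ⟨2, 6, 87,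 -8, -7, 4⟩, ⟨0, -2, 64, 2, 28, 0⟩, ⟨2, -1, 70, 0, 23, 1⟩, ⟨2, 3, 90, 4, 63, 5⟩, ⟨-15, 5, 62, 3, 28, 4⟩, ⟨-15, 1, 46, -1, -4, 0⟩, ⟨-14, 2, 54, -2, 0, 2⟩, ⟨-14, 2, 60, 3, 21, 4⟩, ⟨-11, 1, 16, 4, 3, 2⟩, ⟨-11, 1, 12, -1, -11, 0⟩, ⟨-11, 1, 15, -1, -9, 1⟩, ⟨-11, -1, 15, 4, -4, 1⟩, ⟨0, -2, 0, 5, 0, 0⟩, ⟨0, 0, 0, 0, 0, 0⟩]⟩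

end H13SB.Num
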