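import Pool.Agent.H13.SB.Num.Pl

namespace H13SB.Num

def d40 : Dat := ⟨[⟨2, -4, -3, -5, 0, -1⟩, ⟨1, -4, -3, -5, 0, -6⟩, ⟨1, -3, -1, 0, -1, 9⟩, ⟨3, -3, -3, -2, 0, 1⟩, ⟨-1, 6, 3, -1, -1, 0⟩, ⟨0, 1, 0, 2, -1, 1⟩, ⟨0, -2, 0, 10, 0, -2⟩, ⟨-2, -3, 2, -4, 0, 2⟩, ⟨8, -1, -6, -5, 1, -4⟩, ⟨2, 7, -2, 5, 1, 5⟩, ⟨-1, -8, 1, 0, 1, -6⟩, ⟨2, 8, -1, -10, 1, 3⟩, ⟨2, 1, -1, -1, 0, 4⟩, ⟨0, 0, 0, 7, -1, 2⟩, ⟨0, -1, 0, 0, 0, 2⟩, ⟨0, -4, 0, 4, 0, -2⟩, ⟨-1, -1, 0, 1, -1, 1⟩, ⟨0, -5, 0, 1, 0, -4⟩],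
  [⟨0, 0, 0, 0, 0, 0⟩, ⟨2, -4, -3, -5, 0, -1⟩, ⟨11, -1, -5, -17, -12, -7⟩, ⟨21, -11, 17, -16, 9, -7⟩, ⟨29, -6, 20, -12, 27, -1⟩, ⟨28, -6, 18, -15, 53, 8⟩, ⟨6, -21, 40, -5, 58, 9⟩, ⟨34, -11, 29, -10, 47, 7⟩, ⟨37, -8, 36, -8, 41, 6⟩, ⟨48, -2, 37, -9, 40, 6⟩, ⟨48, -1, 41, -7, 47, 7⟩, ⟨39, 0, 36, -7, -11, 1⟩, ⟨39, -1, 36, -9, -20, 0⟩, ⟨39, -3, 36, 1, -40, -2⟩, ⟨17, -6, 38, -3, -10, 0⟩, ⟨15, -16, 58, 9, 140, 2⟩, ⟨17, -13, 36, 13, 160, 0⟩, ⟨25, -14, -10, 8, 71, -4⟩, ⟨27, -7, 33, 13, 162, 1⟩, ⟨-15, 8, 33, 4, 74, 5⟩, ⟨-17, 1, -5, -1, -7, 0⟩, ⟨-18, -7, -52, -1, -54, -6⟩, ⟨-16, 1, -32, -11, -102,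 -3⟩, ⟨-61, 15, 63, -17, -111, 3⟩, ⟨-63, 7, 46, -7, -70, 0⟩, ⟨-61, 8, 69, -8, -52, 4⟩, ⟨-61, 8, 79, -1, -8, 6⟩, ⟨-45, 5, 16, 2, -18, 2⟩, ⟨-45, 5, 8, -5, -53, 0⟩, ⟨-45, 4, 16, -5, -45, 2⟩, ⟨-45, 0, 10, -1, -39, 0⟩, ⟨-29, -1, -6, 1, -28, -2⟩, ⟨-29, 3, -2, -3, -32, 0⟩, ⟨-30, 2, 0, -2, -29, 1⟩, ⟨-30, -3, -4, -1, -32, -3⟩, ⟨0, -5, 0, 1, 0, -4⟩, ⟨0, 0, 0, 0, 0, 0⟩]⟩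

def d41 : Dat := ⟨[⟨4, 0, -3, 4, 2, -1⟩, ⟨-2, -7, 1, -7, -1, -3⟩, ⟨-1, 1, -1, -1, 0, 8⟩, ⟨-1, -2, 1, -1, 0, -2⟩, ⟨-1, -4, -1, -2, 1, -1⟩, ⟨0, -1, 0, 1, 1, -4⟩, ⟨0, 2, -1, 7, 0, 5⟩, ⟨-1, 0, 1, 1, -1, 0⟩, ⟨1, 2, 0, -4, 0, -1⟩, ⟨1, 3, -1, 2, 0, 3⟩, ⟨-1, 2, 0, 4, -1, 3⟩, ⟨-2, -7, 1, 2, 0, -5⟩, ⟨-1, -4, 1, 0, 0, -6⟩, ⟨1, 6, -1, -10, 1, 2⟩, ⟨1, 0, 0, -3, 1, 0⟩, ⟨1, 6, 0, 1, 0, 6⟩, ⟨0, 1, 1, -2, 1, 2⟩, ⟨0, 2, 0, 6, 0, 4⟩],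
  [⟨0, 0, 0, 0, 0, 0⟩, ⟨4, 0, -3, 4, 2, -1⟩, ⟨6, -13, 8, 3, -5, -4⟩, ⟨36, -23, 52, 6, -21, -15⟩, ⟨42, -16, 61, 13, -11, -12⟩, ⟨40, -17, 61, 14, 13, -4⟩, ⟨46, -15, 55, 9, 3, -6⟩, ⟨71, -7, 38, 0, 10, -5⟩, ⟨76, -5, 39, 1, 22, -3⟩, ⟨67, -9, 34, -1, 17, -4⟩, ⟨67, -10, 36, 0, -14, -8⟩, ⟨72, -8, 39, 1, 30, -4⟩, ⟨72, -7, 39, 0, 69, 0⟩, ⟨72, -5, 38, 7, 119, 5⟩, ⟨71, -5, 39, 8, 118, 5⟩, ⟨77, -12, -11, 13, 125, 0⟩, ⟨78, -12, -12, 12, 116, 0⟩, ⟨79, -10, -22, 8, 66, -1⟩, ⟨80, -7, 4, 10, 111, 2⟩, ⟨64, 0, 2, 5, 61, 3⟩, ⟨63, -3, -21, 3, 21, 0⟩, ⟨62, -1, 3, 7, 76, 3⟩, ⟨60, -8, -31, 9, 55, -2⟩, ⟨112, -21,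 -59, 16, 120, -5⟩, ⟨114, -14, -30, 14, 138, 0⟩, ⟨113, -18, -65, 14, 102, -6⟩, ⟨114, -12, -56, 4, 63, -4⟩, ⟨65, -2, 51, -2, 59, 2⟩, ⟨64, -8, 44, 8, 90, 0⟩, ⟨65, -8, 44, 5, 79, 0⟩, ⟨66, -2, 62, 6, 100, 6⟩, ⟨17, 4, 54, 3, 44, 6⟩, ⟨16, -2, 42, 2, 30, 0⟩, ⟨16, -1, 47, 0, 31, 2⟩, ⟨16, 1, 51, 6, 41, 6⟩, ⟨0, 2, 0, 6, 0, 4⟩, ⟨0, 0, 0, 0, 0, 0⟩]⟩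

def d42 : Dat := ⟨[⟨-1, 4, 1, -1, -2, -2⟩, ⟨5, 2, -5, 3, 0, 2⟩, ⟨2, -2, -3, 0, 3, -7⟩, ⟨3, 1, -3, 1, -1, -1⟩, ⟨-1, -12, -2, 4, 2, -1⟩, ⟨0, -2, 0, -3, 1, -3⟩, ⟨1, -5, -3, -3, -1, 7⟩, ⟨0, 1, 0, 2, -1, -6⟩, ⟨2, 1, -1, -8, 1, -3⟩, ⟨2, 5, -1, 2, 0, 5⟩, ⟨-3, -4, 2, 5, 0, -2⟩, ⟨0, -3, 0, -4, 0, -4⟩, ⟨0, 2, 0, -1, 0, 1⟩, ⟨0, -1, 0, 2, 0, 0⟩, ⟨0, 0, 0, 1, 0, 0⟩, ⟨0, -1, 0, 1, 0, 0⟩, ⟨0, 0, 0, 0, 0, 0⟩, ⟨0, 0, 0, 0, 0, 0⟩],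
  [⟨0, 0, 0, 0, 0, 0⟩, ⟨-1, 4, 1, -1, -2, -2⟩, ⟨12, 27, -17, -19, 2, 0⟩, ⟨-1, 33, -34, -19, -2, 3⟩, ⟨1, 30, -41, -21, -8, 1⟩, ⟨-2, 30, -41, -23, -26, -6⟩, ⟨-23, 19, -20, -10, -32, -7⟩, ⟨-52, 9, 12, 7, -59, -12⟩, ⟨-57, 8, 13, 6, -52, -11⟩, ⟨-82, -4, 19, 10, -56, -12⟩, ⟨-82, -6, 13, 7, -79, -15⟩, ⟨-68, -10, 23, 8, 39, -3⟩, ⟨-68, -8, 23, 11, 68, 0⟩, ⟨-67, -13, 20, 8, 137, 7⟩, ⟨-7, -12, 20, 10, 126, 1⟩, ⟨2, -9, -51, 12, 74, -6⟩, ⟨2, -10, 9, 10, 115, 0⟩, ⟨4, -9, -22, 2, 6, -3⟩, ⟨6, -4, 22, 4, 69, 2⟩, ⟨-35, 14, 25, -7, -39, 5⟩, ⟨-37, 9, -14, -9, -95, 0⟩, ⟨-40, 5, -28, -4, -71, -2⟩, ⟨-40, 2, -56,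 -8, -127, -6⟩, ⟨-15, -2, -2, -5, -54, -4⟩, ⟨-15, 1, 22, -1, -6, 0⟩, ⟨-15, 3, 28, -2, -6, 1⟩, ⟨-15, 2, 28, 0, 4, 1⟩, ⟨-16, 1, -2, 0, -15, 0⟩, ⟨-16, 2, -2, -2, -23, 0⟩, ⟨-16, 2, -2, -1, -19, 0⟩, ⟨-16, 1, -2, 0, -16, 0⟩, ⟨0, -1, 0, 1, 2, 0⟩, ⟨0, 0, 0, 0, 0, 0⟩, ⟨0, 0, 0, 0, 0, 0⟩, ⟨0, 0, 0, 0, 0, 0⟩, ⟨0, 0, 0, 0, 0, 0⟩, ⟨0, 0, 0, 0, 0, 0⟩]⟩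

def d43 : Dat := ⟨[⟨4, 0, -1, -4, -5, 5⟩, ⟨7, -4, -8, -5, 0, -1⟩, ⟨5, -6, -5, 1, 3, 1⟩, ⟨6, -2, -4, -2, -1, 0⟩, ⟨-1, -7, 1, 3, 0, -1⟩, ⟨0, -1, 0, 1, 1, -2⟩, ⟨0, 1, 1, 4, 0, 1⟩, ⟨-1, 2, 0, 3, 0, 1⟩, ⟨0, 2, 0, 5, 0, 3⟩, ⟨-2, -4, 1, -1, 0, -4⟩, ⟨3, 7, -2, -7, 1, 2⟩, ⟨1, 4, -1, 5, 0, 5⟩, ⟨0, 0, 0, 0, 0, 0⟩, ⟨0, -1, 0, 1, 0, 0⟩, ⟨0, 1, 0, 0, 0, 0⟩, ⟨0, 0, 0, 0, 0, 0⟩, ⟨0, 0, 0, 0, 0, 0⟩, ⟨0, 0, 0, 1, 0, 1⟩],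
  [⟨0, 0, 0, 0, 0, 0⟩, ⟨4, 0, -1, -4, -5, 5⟩, ⟨30, 25, -19, -38, -7, 4⟩, ⟨51, 30, -18, -48, 1, 3⟩, ⟨64, 35, -21, -44, 4, 4⟩, ⟨60, 36, -22, -50, 10, 5⟩, ⟨26, 14, 14, -32, 9, 5⟩, ⟨18, 12, 45, -14, -52, -6⟩, ⟨16, 14, 53, -12, -51, -6⟩, ⟨1, 7, 60, -9, -57, -7⟩, ⟨1, 6, 62, -8, -72, -9⟩, ⟨7, 3, 69, -7, -3, -2⟩, ⟨7, 4, 69, -8, 16, 0⟩, ⟨7, 5, 70, -4, 26, 1⟩, ⟨-4, 7, 70, -1, 6, 2⟩, ⟨-4, 3, 60, 2, 30, 1⟩, ⟨-3, 1, 50, -1, -10, 0⟩, ⟨-3, 3, 80, 4, 70, 3⟩, ⟨-5, -1, 45, 3, 25, -1⟩, ⟨28, -16, 31, 11, 96, -4⟩, ⟨30, -12, 62, 12, 136, 0⟩, ⟨33, -5, 76, 5, 97, 2⟩, ⟨34, -1, 110, 10, 167, 7⟩, ⟨-1, 4, 40, 5, 62,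 5⟩, ⟨-2, 0, 11, 0, 2, 0⟩, ⟨-2, 0, 11, 0, 2, 0⟩, ⟨-2, -1, 11, 1, 7, 0⟩, ⟨-2, -1, 11, 1, 7, 0⟩, ⟨-2, 0, 11, 0, 3, 0⟩, ⟨-2, 1, 11, 0, 3, 0⟩, ⟨-2, 1, 11, 0, 3, 0⟩, ⟨0, 0, -1, 0, -2, 0⟩, ⟨0, 0, -1, 0, -2, 0⟩, ⟨0, 0, -1, 0, -2, 0⟩, ⟨0, 0, 0, 1, 0, 1⟩, ⟨0, 0, 0, 1, 0, 1⟩, ⟨0, 0, 0, 0, 0, 0⟩]⟩

def d44 : Dat := ⟨[⟨-1, -1, 2, -4, -2, 3⟩, ⟨3, 2, -2, 2, 1, 1⟩, ⟨3, -2, -1, 1, 0, -4⟩, ⟨2, 1, -2, 0, 0, 1⟩, ⟨0, 2, 1, 1, -1, 1⟩, ⟨0, 0, 0, 0, 0, 2⟩, ⟨0, -1, 1, -3, 0, -7⟩, ⟨0, -1, 0, -1, 1, 0⟩, ⟨-1, -2, 0, 2, 0, 0⟩, ⟨0, 0, 0, -1, 0, -1⟩, ⟨0, -1, 0, 3, 0, 1⟩, ⟨-1, -3, 0, 0, 0, -3⟩, ⟨0, -4, 0, -3, 0, -6⟩,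 ⟨1, 8, -1, -7, 1, 4⟩, ⟨1, 4, 0, -1, 0, 5⟩, ⟨-1, -3, 0, 10, 0, 2⟩, ⟨-1, 1, 0, 2, 0, 2⟩, ⟨-1, -6, 0, 2, 0, -5⟩],
  [⟨0, 0, 0, 0, 0, 0⟩, ⟨-1, -1, 2, -4, -2, 3⟩, ⟨5, 11, -7, -12, 1, 4⟩, ⟨-7, 18, -34, -17, 16, 11⟩, ⟨-7, 16, -39, -19, 12, 10⟩, ⟨-7, 17, -38, -21, 0, 6⟩, ⟨-20, 10, -25, -13, 5, 7⟩, ⟨-35, 6, -8, -3, -24, 2⟩, ⟨-39, 5, -6, -3, -30, 1⟩, ⟨-35, 7, -3, -2, -25, 2⟩, ⟨-35, 7, -3, -2, -9, 4⟩, ⟨-38, 6, -4, -3, -31, 2⟩, ⟨-38, 6, -4, -3, -51, 0⟩, ⟨-38, 5, -3, -6, -121, -7⟩, ⟨-38, 4, -3, -7, -110, -7⟩, ⟨-46, 7, 67, -9, -63, 0⟩, ⟨-46, 8, 67, -8, -54, 0⟩, ⟨-47, 6, 67, -6, -34, 0⟩, ⟨-47, 6, 58,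 -7, -52, -1⟩, ⟨-42, 4, 64, -5, -29, -1⟩, ⟨-42, 4, 72, -4, -13, 0⟩, ⟨-42, 3, 80, -1, 19, 1⟩, ⟨-43, 0, 59, -1, -2, -2⟩, ⟨-16, -6, 59, 3, 44, -3⟩, ⟨-15, -3, 77, 3, 62, 0⟩, ⟨-15, -7, 41, 0, 8, -6⟩, ⟨-14, 1, 60, -7, -6, -2⟩, ⟨-100, 17, 158, -16, -60, 4⟩, ⟨-101, 9, 143, -9, -49, 0⟩, ⟨-100, 13, 163, -10, -33, 5⟩, ⟨-101, 10, 169, 0, 3, 7⟩, ⟨-65, 3, 47, 4, -21, 2⟩, ⟨-64, 6, 43, -6, -45, 0⟩, ⟨-65, 7, 47, -4, -37, 2⟩, ⟨-66, 1, 42, -2, -40, -3⟩, ⟨-1, -6, 0, 2, 0, -5⟩, ⟨0, 0, 0, 0, 0, 0⟩]⟩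

def d45 : Dat := ⟨[⟨2, 0, 0, -1, -2, 3⟩, ⟨2, -2, -3, -2, 0, 0⟩, ⟨1, -2, -1, 1, 1, 1⟩, ⟨1, -1, 0, -1, 0, 0⟩, ⟨0, 1, 2, -1, -1, 1⟩, ⟨0, 0, 0, 2, 0, 0⟩, ⟨-1, 6, 2, 0, 1, -4⟩, ⟨0, 4, -1, 3, 0, 7⟩, ⟨-4, -2, 4, 2, 0, 1⟩, ⟨0, -1, 0, -1, 0, 0⟩, ⟨-3, -4, 2, 9, 0, 1⟩, ⟨-1, -6, 1, -3, 0, -6⟩, ⟨1, 5, -1, -2, 0, 3⟩, ⟨0, -1, 0, 5, 0, 1⟩, ⟨-1, -1, 0, 0, 0, -1⟩, ⟨0, 1, 0, -3, 0, 0⟩, ⟨0, 0, 0, -1, 0, 0⟩, ⟨0, 2, 0, 0, 0, 2⟩],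
  [⟨0, 0, 0, 0, 0, 0⟩, ⟨2, 0, 0, -1, -2, 3⟩, ⟨11, 8, -6, -13, -2, 3⟩, ⟨22, 11, -6, -18, -1, 2⟩, ⟨27, 13, -6, -16, -1, 2⟩, ⟨27, 14, -7, -18, 3, 3⟩, ⟨24, 11, -3, -17, 3, 3⟩, ⟨24, 11, 4, -13, -14, 0⟩, ⟨25, 12, 6, -12, -14, 0⟩, ⟨27, 13, 6, -13, -9, 1⟩, ⟨27, 13, 10, -11, -9, 1⟩, ⟨24, 14, 10, -12, -19, 0⟩, ⟨24, 14, 10, -14, -19, 0⟩, ⟨23, 20, 12, -14, -58, -4⟩, ⟨-47, 24, 11, -11, -98, 3⟩, ⟨-52, 24, 52, -17, -119, 7⟩, ⟨-52, 20, -17, -20, -219, 0⟩, ⟨-56, 18, -3, -18, -189, 1⟩, ⟨-56, 17, -3, -19, -198, 1⟩, ⟨-45, 14, 5, -16, -165, 0⟩, ⟨-45, 15, 5, -15, -157, 0⟩, ⟨-48, 11, 15, -6, -77, 1⟩, ⟨-49, 5,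 -26, -9, -140, -5⟩, ⟨23, -10, 6, 1, -2, -6⟩, ⟨24, -4, 41, 4, 52, 0⟩, ⟨25, 1, 58, 2, 58, 3⟩, ⟨25, 0, 63, 7, 88, 4⟩, ⟨31, -4, -20, 8, 48, 1⟩, ⟨31, -3, -24, 3, 24, 0⟩, ⟨30, -4, -28, 3, 20, -1⟩, ⟨30, -3, -28, 0, 11, -1⟩, ⟨20, -1, 0, -1, 14, 0⟩, ⟨20, -2, 0, 2, 20, 0⟩, ⟨20, -2, 0, 1, 18, 0⟩, ⟨20, 0, 2, 1, 20, 2⟩, ⟨0, 2, 0, 0, 0, 2⟩, ⟨0, 0, 0, 0, 0, 0⟩]⟩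

def d46 : Dat := ⟨[⟨0, 0, 1, -1, -1, 0⟩, ⟨1, 1, 0, 1, 0, 0⟩, ⟨0, -1, 0, 0, 1, -1⟩, ⟨1, 0, 0, 0, 0, 1⟩, ⟨0, 1, 1, 0, 0, 0⟩, ⟨0, 0, 0, 0, 0, 1⟩, ⟨0, -1, 0, -1, 0, -4⟩, ⟨0, -1, 0, -1, 0, -1⟩, ⟨0, -1, 0, 0, 0, -1⟩, ⟨0, 0, 0, 0, 0, 0⟩, ⟨0, -2, 0, -1, 0, -2⟩, ⟨0, 1, 0, -1, 0, 1⟩, ⟨0, -2, 0, 6, 0, 1⟩, ⟨-1, -4, 0, -2, 0, -4⟩, ⟨0, -2, 0, -4, 0, -4⟩, ⟨1, 7, -1, -4, 0, 4⟩, ⟨1, 4, 0, 0, 0, 5⟩, ⟨-1, -4, 0, 9, 0, 0⟩],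
  [⟨0, 0, 0, 0, 0, 0⟩, ⟨0, 0, 1, -1, -1, 0⟩, ⟨1, 3, -1, -2, -1, 0⟩, ⟨-3, 5, -8, -3, 2, 2⟩, ⟨-4, 4, -10, -4, 2, 2⟩, ⟨-4, 4, -11, -5, 0, 1⟩, ⟨-7, 2, -7, -3, 5, 2⟩, ⟨-12, 0, -1, 0, 5, 2⟩, ⟨-13, 0, -1, 0, -1, 1⟩, ⟨-11, 1, 0, 0, -1, 1⟩, ⟨-11, 1, 0, 0, 7, 2⟩, ⟨-13, 1, -1, 0, -3, 1⟩, ⟨-13, 1, -1, 0, -13, 0⟩, ⟨-13, 0, -1, -1, -53, -4⟩, ⟨-3, -1, -1, -2, -43, -5⟩, ⟨-7, 0, 39, -2, -4, -1⟩, ⟨-7, 1, 49, -1, 16, 0⟩, ⟨-7, 0, 39, -1, 6, -1⟩, ⟨-7, 0, 39, -1, 6, -1⟩, ⟨-12, 2, 47, -2, 2, 0⟩, ⟨-12, 2, 47, -2, 2, 0⟩, ⟨-12, 0, 31, -3, -22, -2⟩, ⟨-12, 1, 38, -4, -22, -1⟩, ⟨-34, 7, 64, -7, -40, 1⟩, ⟨-34, 6, 58,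 -6, -40, 0⟩, ⟨-34, 4, 64, 0, 2, 1⟩, ⟨-35, 0, 44, -2, -28, -3⟩, ⟨40, -11, 60, 5, 77, -4⟩, ⟨41, -7, 76, 7, 101, 0⟩, ⟨41, -9, 60, 3, 69, -4⟩, ⟨42, -2, 71, -1, 69, 0⟩, ⟨-62, 12, 143, -9, -5, 4⟩, ⟨-63, 5, 136, -5, -5, 0⟩, ⟨-62, 9, 146, -5, 5, 5⟩, ⟨-63, 5, 146, 4, 14, 5⟩, ⟨-1, -4, 0, 9, 0, 0⟩, ⟨0, 0, 0, 0, 0, 0⟩]⟩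

def d47 : Dat := ⟨[⟨0, -1, 0, 0, 0, 1⟩, ⟨-1, 0, 0, 0, 0, 0⟩, ⟨0, 0, 0, 0, 0, 0⟩, ⟨0, 0, -1, 0, 0, 1⟩, ⟨0, 1, -1, 1, 0, 0⟩, ⟨0, 0, 0, 0, 0, 1⟩, ⟨0, -3, -1, 1, 0, -2⟩, ⟨0, -2, 0, -2, 0, -5⟩, ⟨1, 1, -1, 1, 0, 0⟩, ⟨0, 0, 0, 0, 0, -1⟩, ⟨2, 3, -1, 1, 0, 2⟩, ⟨0, -1, 0, 1, 0, -1⟩, ⟨2, 5, -1, -8, 0, 0⟩, ⟨1, 5, 0, 3, 0, 5⟩, ⟨-1, -4, 1, 1, 0, -3⟩, ⟨0, 1, 0, -5, 0, -2⟩, ⟨0, 3, 0, 0, 0, 2⟩, ⟨0, -1, 0, 4, 0, 0⟩],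
  [⟨0, 0, 0, 0, 0, 0⟩, ⟨0, -1, 0, 0, 0, 1⟩, ⟨-2, -3, 1, 2, 0, 1⟩, ⟨0, -3, 1, 1, 2, 1⟩, ⟨0, -3, 2, 1, 2, 1⟩, ⟨0, -3, 2, 1, 2, 1⟩, ⟨-4, -5, 5, 3, 7, 2⟩, ⟨-4, -5, 5, 3, 7, 2⟩, ⟨-4, -5, 6, 3, 1, 1⟩, ⟨-2, -4, 7, 4, 1, 1⟩, ⟨-2, -4, 7, 4, 9, 2⟩, ⟨-2, -5, 6, 4, -2, 1⟩, ⟨-2, -5, 6, 4, -12, 0⟩, ⟨-2, -8, 5, 5, -32, -2⟩, ⟨48, -10, 5, 3, -12, -7⟩, ⟨47, -11, 25, 7, 49, -5⟩, ⟨47, -9, 75, 9, 119, 0⟩, ⟨48, -8, 74, 10, 129, 0⟩, ⟨48, -8, 65, 10, 120, -1⟩, ⟨53, -11, 64, 11, 131, -1⟩, ⟨53, -11, 72, 11, 139, 0⟩, ⟨55, -8, 87, 12, 163, 2⟩, ⟨55, -9, 80, 13, 163, 1⟩, ⟨77, -16, 45, 16, 177, -1⟩, ⟨77, -15, 51, 15,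 177, 0⟩, ⟨79, -10, 50, 7, 129, 0⟩, ⟨80, -5, 75, 10, 169, 5⟩, ⟨-8, 6, 14, 2, 23, 5⟩, ⟨-9, 1, -6, -1, -9, 0⟩, ⟨-10, -3, -17, 0, -17, -3⟩, ⟨-10, -2, -23, -5, -38, -5⟩, ⟨-28, 3, 72, -7, -7, -2⟩, ⟨-28, 2, 76, -2, 7, 0⟩, ⟨-28, 5, 80, -2, 11, 2⟩, ⟨-28, 4, 80, 2, 15, 2⟩, ⟨0, -1, 0, 4, 0, 0⟩, ⟨0, 0, 0, 0, 0, 0⟩]⟩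

def d48 : Dat := ⟨[⟨1, 0, 0, 0, 0, 0⟩, ⟨-1, 0, 0, 0, 0, 0⟩, ⟨0, 0, 0, 0, 0, 1⟩, ⟨0, 0, 0, 0, 0, 0⟩, ⟨0, 0, -1, 0, 0, 0⟩, ⟨0, 0, 0, 0, 0, 0⟩, ⟨0, -1, -1, 1, 0, 0⟩, ⟨0, 0, 0, 0, 0, -2⟩, ⟨0, 0, 0, 0, 0, 0⟩, ⟨0, 0, 0, 0, 0, 0⟩, ⟨0, 2, -1, 1, 0, 2⟩, ⟨0, -1, 0, 0, 0, -1⟩, ⟨1, 4, -1, 0, 0, 3⟩, ⟨0, -1, 0, 2, 0, 0⟩, ⟨1, 4, -1, -8, 0, -1⟩, ⟨0, 5, 0, 2, 0, 5⟩, ⟨0, -4, 0, 4, 0, -2⟩, ⟨0, -2, 0, -3, 0, -3⟩],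
  [⟨0, 0, 0, 0, 0, 0⟩, ⟨1, 0, 0, 0, 0, 0⟩, ⟨-1, -2, 1, 2, 0, 0⟩, ⟨3, -3, 6, 2, -1, -1⟩, ⟨3, -3, 7, 2, -1, -1⟩, ⟨3, -3, 7, 2, 2, 0⟩, ⟨3, -3, 7, 2, 2, 0⟩, ⟨6, -2, 5, 1, 2, 0⟩, ⟨6, -2, 5, 1, 2, 0⟩, ⟨6, -2, 4, 1, 2, 0⟩, ⟨6, -2, 4, 1, 2, 0⟩, ⟨7, -2, 4, 1, 2, 0⟩, ⟨7, -2, 4, 1, 2, 0⟩, ⟨7, -3, 3, 2, 2, 0⟩, ⟨27, -3, 3, 2, 2, -2⟩, ⟨28, -4, 3, 4, 23, -2⟩, ⟨28, -4, 23, 4, 43, 0⟩, ⟨28, -4, 23, 4, 43, 0⟩, ⟨28, -4, 23, 4, 43, 0⟩, ⟨28, -4, 23, 4, 43, 0⟩, ⟨28, -4, 23, 4, 43, 0⟩, ⟨28, -2, 38, 5, 67, 2⟩, ⟨28, -3, 31, 5, 60, 1⟩, ⟨50, -9, 4, 8, 77, -1⟩, ⟨50, -8, 10, 8, 83, 0⟩, ⟨51, -4, 27, 8, 101, 3⟩, ⟨51,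 -5, 27, 10, 111, 3⟩, ⟨79, -12, -44, 13, 106, 0⟩, ⟨79, -11, -44, 11, 98, 0⟩, ⟨80, -7, -49, 3, 62, -1⟩, ⟨80, -2, -34, 5, 83, 4⟩, ⟨-50, 11, -87, -4, -86, 5⟩, ⟨-50, 6, -97, -6, -100, 0⟩, ⟨-50, 2, -101, -2, -96, -2⟩, ⟨-50, 0, -104, -5, -102, -5⟩, ⟨0, -2, 0, -3, 0, -3⟩, ⟨0, 0, 0, 0, 0, 0⟩]⟩

def d49 : Dat := ⟨[⟨-1, 0, 0, 0, 0, -1⟩, ⟨1, 1, 0, 1, 0, 0⟩, ⟨0, 1, 0, 0, -1, -1⟩, ⟨-1, 0, 0, 0, 0, 0⟩, ⟨0, -1, 0, 0, 0, 0⟩, ⟨0, 0, 0, 0, 0, 0⟩, ⟨0, 1, 0, 0, 0, 4⟩, ⟨0, 1, 0, 1, 0, 6⟩, ⟨0, 0, 0, 0, 0, 0⟩, ⟨0, 0, 0, 0, 0, 0⟩, ⟨0, 0, 0, -1, 0, 0⟩, ⟨0, 0, 0, 0, 0, 0⟩, ⟨0, -2, 0, -2, 0, -1⟩, ⟨0, 1, 0, 0, 0, 1⟩,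 ⟨-1, -4, 1, 0, 0, -3⟩, ⟨0, 1, 0, -2, 0, 0⟩, ⟨0, -2, 0, 6, 0, 2⟩, ⟨0, -4, 0, 0, 0, -4⟩],
  [⟨0, 0, 0, 0, 0, 0⟩, ⟨-1, 0, 0, 0, 0, -1⟩, ⟨0, 3, -2, -1, 0, -1⟩, ⟨-5, 3, -5, 0, 1, 0⟩, ⟨-6, 2, -7, -1, 1, 0⟩, ⟨-6, 2, -6, 0, -3, -1⟩, ⟨-3, 4, -10, -2, -3, -1⟩, ⟨-4, 4, -12, -3, -3, -1⟩, ⟨-3, 4, -12, -3, -3, -1⟩, ⟨-5, 3, -12, -3, -3, -1⟩, ⟨-5, 3, -12, -3, -3, -1⟩, ⟨-4, 3, -11, -3, 7, 0⟩, ⟨-4, 3, -11, -3, 7, 0⟩, ⟨-4, 4, -11, -3, 47, 4⟩, ⟨-64, 5, -11, -2, 37, 10⟩, ⟨-60, 5, -51, -3, -13, 6⟩, ⟨-60, 4, -111, -4, -83, 0⟩, ⟨-60, 4, -111, -4, -83, 0⟩, ⟨-60, 4, -111, -4, -83, 0⟩, ⟨-60, 4, -111, -4, -83, 0⟩,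 ⟨-60, 4, -111, -4, -83, 0⟩, ⟨-60, 4, -111, -5, -91, 0⟩, ⟨-60, 4, -111, -5, -91, 0⟩, ⟨-68, 6, -113, -6, -105, 0⟩, ⟨-68, 6, -113, -6, -105, 0⟩, ⟨-68, 4, -119, -8, -123, -1⟩, ⟨-68, 5, -114, -8, -118, 0⟩, ⟨-103, 12, -90, -11, -147, 1⟩, ⟨-103, 11, -94, -11, -151, 0⟩, ⟨-104, 7, -105, -11, -163, -3⟩, ⟨-104, 8, -105, -13, -169, -3⟩, ⟨-138, 15, -12, -16, -156, 0⟩, ⟨-138, 14, -12, -14, -152, 0⟩, ⟨-138, 12, -8, -8, -136, 2⟩, ⟨-138, 8, -12, -8, -140, -2⟩, ⟨0, -4, 0, 0, 0, -4⟩, ⟨0, 0, 0, 0, 0, 0⟩]⟩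

end H13SB.Num
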