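import Pool.Agent.H13.SB.Num.Path

/-!
# The matrices along the relator
-/

namespace H13SB.Num

/-- A cocycle: its values on the generators and along the relator. -/
structure Dat where
  (xs Us : List V6)

/-- The matrices of the prefixes of the relator. -/
def Pl : List M6 := [⟨⟨1, 0, 0, 0, 0, 0⟩, ⟨0, 1, 0, 0, 0, 0⟩, ⟨0, 0, 1, 0, 0, 0⟩, ⟨0, 0, 0, 1, 0, 0⟩, ⟨0, 0, 0, 0, 1, 0⟩, ⟨0, 0, 0, 0, 0, 1⟩⟩,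
  ⟨⟨2, -1, -1, 0, 0, 0⟩, ⟨2, 0, -2, 1, 0, 0⟩, ⟨-1, 0, 2, -1, 0, 0⟩, ⟨-2, 1, 2, 0, 0, 0⟩, ⟨0, 0, 0, 0, 1, 2⟩, ⟨0, 0, 0, 0, 0, 1⟩⟩,
  ⟨⟨-5, 2, 4, -2, 1, 1⟩, ⟨1, -1, -1, 0, 1, 1⟩, ⟨-6, 3, 5, -2, -1, 0⟩, ⟨0, 0, 0, 0, -1, -1⟩, ⟨0, 2, 1, 2, 0, 0⟩, ⟨1, 0, -1, 1, 0, 0⟩⟩,
  ⟨⟨-4, 1, 3, -2, 1, -1⟩, ⟨1, -1, -1, 0, 1, -1⟩, ⟨-5, 2, 4, -2, -1, 2⟩, ⟨0, 0, 0, 0, -1, 1⟩, ⟨1, 2, 0, 3, 0, 0⟩, ⟨1, 0, -1, 1, 0, 0⟩⟩,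
  ⟨⟨0, 0, 1, 1, 0, 0⟩, ⟨0, 0, 0, 1, 0, 0⟩, ⟨1, 1, 0, 0, 0, 0⟩, ⟨0, 1, 0, 0, 0, 0⟩, ⟨0, 0, 0, 0, 1, 3⟩, ⟨0, 0, 0, 0, 0, 1⟩⟩,
  ⟨⟨-3, 1, 4, -1, 0, 0⟩, ⟨-2, 1, 2, 0, 0, 0⟩, ⟨4, -1, -3, 1, 0, 0⟩, ⟨2, 0, -2, 1, 0, 0⟩, ⟨0, 0, 0, 0, 1, 5⟩, ⟨0, 0, 0, 0, 0, 1⟩⟩,
  ⟨⟨2, -1, -1, 0, 2, 1⟩, ⟨0, 0, 0, 0, 1, 1⟩, ⟨0, 1, 1, 0, -2, -2⟩, ⟨-1, 1, 1, 0, -1, -1⟩, ⟨5, 0, -4, 5, 0, 0⟩, ⟨1, 0, -1, 1, 0, 0⟩⟩,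
  ⟨⟨1, 0, 0, 0, 2, -3⟩, ⟨0, 0, 0, 0, 1, -1⟩, ⟨-1, 2, 2, 0, -2, 2⟩, ⟨-1, 1, 1, 0, -1, 1⟩, ⟨6, 0, -5, 6, 0, 0⟩, ⟨1, 0, -1, 1, 0, 0⟩⟩,
  ⟨⟨1, 2, 0, 0, 0, 0⟩, ⟨0, 1, 0, 0, 0, 0⟩, ⟨0, 0, 1, 2, 0, 0⟩, ⟨0, 0, 0, 1, 0, 0⟩, ⟨0, 0, 0, 0, 1, 6⟩, ⟨0, 0, 0, 0, 0, 1⟩⟩,
  ⟨⟨1, 0, 0, 0, 0, 0⟩, ⟨0, 1, 0, 0, 0, 0⟩, ⟨0, 0, 1, 2, 0, 0⟩, ⟨0, 0, 0, 1, 0, 0⟩, ⟨0, 0, 0, 0, 1, 8⟩, ⟨0, 0, 0, 0, 0, 1⟩⟩,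
  ⟨⟨0, 1, 1, 0, 0, 0⟩, ⟨0, 0, 0, 1, 0, 0⟩, ⟨0, 1, 0, 0, 1, 2⟩, ⟨0, 0, 0, 0, 0, 1⟩, ⟨1, 8, 0, 1, 0, 1⟩, ⟨0, 1, 0, 0, 0, 0⟩⟩,
  ⟨⟨0, 1, 1, 0, 0, 0⟩, ⟨0, 0, 0, 1, 0, 0⟩, ⟨0, 1, 0, 0, 1, 0⟩, ⟨0, 0, 0, 0, 0, 1⟩, ⟨1, 10, 0, 1, 0, 1⟩, ⟨0, 1, 0, 0, 0, 0⟩⟩,
  ⟨⟨1, 0, 0, 0, 0, 0⟩, ⟨0, 1, 0, 0, 0, 0⟩, ⟨0, 0, 1, 0, 0, 0⟩, ⟨0, 0, 0, 1, 0, 0⟩, ⟨0, 0, 0, 0, 1, 10⟩, ⟨0, 0, 0, 0, 0, 1⟩⟩,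
  ⟨⟨1, 0, 0, 0, 0, -10⟩, ⟨0, 1, 0, 0, 0, 0⟩, ⟨0, 0, 1, 0, 0, 0⟩, ⟨0, 0, 0, 1, 0, 0⟩, ⟨0, -10, 0, 0, 1, 0⟩, ⟨0, 0, 0, 0, 0, 1⟩⟩,
  ⟨⟨1, 0, 1, 0, 0, -11⟩, ⟨0, 0, 0, 1, 0, 0⟩, ⟨1, 0, 0, 0, 0, 0⟩, ⟨0, 1, 0, -1, 0, 0⟩, ⟨0, 0, 0, -11, 1, 0⟩, ⟨0, 0, 0, 0, 0, 1⟩⟩,
  ⟨⟨1, 0, 1, 0, 0, -1⟩, ⟨0, 0, 0, 1, 0, 0⟩, ⟨1, 0, 0, 0, 0, 10⟩, ⟨0, 1, 0, -1, 0, 0⟩, ⟨0, 10, 0, -11, 1, 10⟩, ⟨0, 0, 0, 0, 0, 1⟩⟩,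
  ⟨⟨1, 0, 0, 0, 0, 0⟩, ⟨0, 1, 0, 0, 0, 0⟩, ⟨0, 0, 1, 0, 0, 10⟩, ⟨0, 0, 0, 1, 0, 0⟩, ⟨0, 0, 0, 10, 1, 10⟩, ⟨0, 0, 0, 0, 0, 1⟩⟩,
  ⟨⟨1, 0, 0, 0, 0, 0⟩, ⟨0, 1, 0, 0, 0, 0⟩, ⟨0, 0, 1, 0, 0, 9⟩, ⟨0, 0, 0, 1, 0, 0⟩, ⟨0, 0, 0, 9, 1, 9⟩, ⟨0, 0, 0, 0, 0, 1⟩⟩,
  ⟨⟨1, -2, 0, -4, 0, -3⟩, ⟨0, 1, 0, 2, 0, 1⟩, ⟨2, 0, -1, -2, 0, 9⟩, ⟨0, 0, 0, -1, 0, -1⟩, ⟨1, -1, -1, -13, 1, -3⟩, ⟨0, 0, 0, 0, 0, 1⟩⟩,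
  ⟨⟨1, -2, 0, -4, 0, -3⟩, ⟨0, 1, 0, 2, 0, 1⟩, ⟨2, 0, -1, -2, 0, 8⟩, ⟨0, 0, 0, -1, 0, -1⟩, ⟨1, -1, -1, -12, 1, -3⟩, ⟨0, 0, 0, 0, 0, 1⟩⟩,
  ⟨⟨1, 0, 0, 0, 0, 0⟩, ⟨0, 1, 0, 0, 0, 0⟩, ⟨0, 0, 1, 0, 0, 8⟩, ⟨0, 0, 0, 1, 0, 0⟩, ⟨0, 0, 0, 8, 1, 8⟩, ⟨0, 0, 0, 0, 0, 1⟩⟩,
  ⟨⟨1, 0, 0, 0, 0, 0⟩, ⟨0, 1, 0, 0, 0, 0⟩, ⟨0, 0, 1, 0, 0, 7⟩, ⟨0, 0, 0, 1, 0, 0⟩, ⟨0, 0, 0, 7, 1, 7⟩, ⟨0, 0, 0, 0, 0, 1⟩⟩,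
  ⟨⟨1, -2, 0, -8, 0, -5⟩, ⟨0, 1, 0, 2, 0, 1⟩, ⟨2, 4, -1, -2, 0, 11⟩, ⟨0, 0, 0, -1, 0, -1⟩, ⟨1, 1, -1, -15, 1, -3⟩, ⟨0, 0, 0, 0, 0, 1⟩⟩,
  ⟨⟨1, -2, 0, -8, 0, -5⟩, ⟨0, 1, 0, 2, 0, 1⟩, ⟨2, 4, -1, -2, 0, 10⟩, ⟨0, 0, 0, -1, 0, -1⟩, ⟨1, 1, -1, -14, 1, -3⟩, ⟨0, 0, 0, 0, 0, 1⟩⟩,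
  ⟨⟨1, 0, 0, 0, 0, 0⟩, ⟨0, 1, 0, 0, 0, 0⟩, ⟨0, 0, 1, 0, 0, 6⟩, ⟨0, 0, 0, 1, 0, 0⟩, ⟨0, 0, 0, 6, 1, 6⟩, ⟨0, 0, 0, 0, 0, 1⟩⟩,
  ⟨⟨1, 0, 0, 0, 0, 0⟩, ⟨0, 1, 0, 0, 0, 0⟩, ⟨0, 0, 1, 0, 0, 5⟩, ⟨0, 0, 0, 1, 0, 0⟩, ⟨0, 0, 0, 5, 1, 5⟩, ⟨0, 0, 0, 0, 0, 1⟩⟩,
  ⟨⟨1, -2, 0, -12, 0, -7⟩, ⟨0, 1, 0, 2, 0, 1⟩, ⟨2, 8, -1, -2, 0, 13⟩, ⟨0, 0, 0, -1, 0, -1⟩, ⟨1, 3, -1, -17, 1, -3⟩, ⟨0, 0, 0, 0, 0, 1⟩⟩,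
  ⟨⟨1, -2, 0, -12, 0, -7⟩, ⟨0, 1, 0, 2, 0, 1⟩, ⟨2, 8, -1, -2, 0, 12⟩, ⟨0, 0, 0, -1, 0, -1⟩, ⟨1, 3, -1, -16, 1, -3⟩, ⟨0, 0, 0, 0, 0, 1⟩⟩,
  ⟨⟨1, 0, 0, 0, 0, 0⟩, ⟨0, 1, 0, 0, 0, 0⟩, ⟨0, 0, 1, 0, 0, 4⟩, ⟨0, 0, 0, 1, 0, 0⟩, ⟨0, 0, 0, 4, 1, 4⟩, ⟨0, 0, 0, 0, 0, 1⟩⟩,
  ⟨⟨1, 0, 0, 0, 0, 0⟩, ⟨0, 1, 0, 0, 0, 0⟩, ⟨0, 0, 1, 0, 0, 3⟩, ⟨0, 0, 0, 1, 0, 0⟩, ⟨0, 0, 0, 3, 1, 3⟩, ⟨0, 0, 0, 0, 0, 1⟩⟩,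
  ⟨⟨1, -2, 0, -16, 0, -9⟩, ⟨0, 1, 0, 2, 0, 1⟩, ⟨2, 12, -1, -2, 0, 15⟩, ⟨0, 0, 0, -1, 0, -1⟩, ⟨1, 5, -1, -19, 1, -3⟩, ⟨0, 0, 0, 0, 0, 1⟩⟩,
  ⟨⟨1, -2, 0, -16, 0, -9⟩, ⟨0, 1, 0, 2, 0, 1⟩, ⟨2, 12, -1, -2, 0, 14⟩, ⟨0, 0, 0, -1, 0, -1⟩, ⟨1, 5, -1, -18, 1, -3⟩, ⟨0, 0, 0, 0, 0, 1⟩⟩,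
  ⟨⟨1, 0, 0, 0, 0, 0⟩, ⟨0, 1, 0, 0, 0, 0⟩, ⟨0, 0, 1, 0, 0, 2⟩, ⟨0, 0, 0, 1, 0, 0⟩, ⟨0, 0, 0, 2, 1, 2⟩, ⟨0, 0, 0, 0, 0, 1⟩⟩,
  ⟨⟨1, 0, 0, 0, 0, 0⟩, ⟨0, 1, 0, 0, 0, 0⟩, ⟨0, 0, 1, 0, 0, 1⟩, ⟨0, 0, 0, 1, 0, 0⟩, ⟨0, 0, 0, 1, 1, 1⟩, ⟨0, 0, 0, 0, 0, 1⟩⟩,
  ⟨⟨1, -2, 0, -20, 0, -11⟩, ⟨0, 1, 0, 2, 0, 1⟩, ⟨2, 16, -1, -2, 0, 17⟩, ⟨0, 0, 0, -1, 0, -1⟩, ⟨1, 7, -1, -21, 1, -3⟩, ⟨0, 0, 0, 0, 0, 1⟩⟩,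
  ⟨⟨1, -2, 0, -20, 0, -11⟩, ⟨0, 1, 0, 2, 0, 1⟩, ⟨2, 16, -1, -2, 0, 16⟩, ⟨0, 0, 0, -1, 0, -1⟩, ⟨1, 7, -1, -20, 1, -3⟩, ⟨0, 0, 0, 0, 0, 1⟩⟩,
  ⟨⟨1, 0, 0, 0, 0, 0⟩, ⟨0, 1, 0, 0, 0, 0⟩, ⟨0, 0, 1, 0, 0, 0⟩, ⟨0, 0, 0, 1, 0, 0⟩, ⟨0, 0, 0, 0, 1, 0⟩, ⟨0, 0, 0, 0, 0, 1⟩⟩]

theorem chkM_Pl : chkM ltn Pl = true := by decide +kernel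

end H13SB.Num
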