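import Pool.Agent.H13.SB.Num.Path
import Pool.Agent.H13.SB.Num.Pl

/-!
# Fast evaluation of scalar products
-/

namespace H13SB.Num

/-- The base. -/
def XX : ℕ := 68719476736

def eA : List ℕ → ℕ
  | [] => 0
  | a :: A => Nat.add a (Nat.mul XX (eA A))

/-- Horner. -/
def eB : ℕ → List ℕ → ℕ
  | acc, [] => acc
  | acc, b :: B => eB (Nat.add (Nat.mul acc XX) b) B

def dotN : List ℕ → List ℕ → ℕ
  | a :: A, b :: B => a * b + dotN A B
  | _, _ => 0

theorem eB_acc (acc : ℕ) (B : List ℕ) : eB acc B = acc * XX ^ B.length + eB 0 B := by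
  induction B generalizing acc with
  | nil => simp [eB]
  | cons b B ih =>
    rw [eB, ih, eB, ih (Nat.add (Nat.mul 0 XX) b)]
    simp only [List.length_cons, Nat.add_eq, Nat.mul_eq, zero_mul, zero_add]
    ring

theorem eB_cons (b : ℕ) (B : List ℕ) : eB 0 (b :: B) = b * XX ^ B.length + eB 0 B := by
  rw [eB, eB_acc]
  simp

theorem eA_cons (a : ℕ) (A : List ℕ) : eA (a :: A) = a + XX * eA A := rfl

theorem eB_bound (β : ℕ) (B : List ℕ) (hB : ∀ b ∈ B, b ≤ β) :
    (XX - 1) * eB 0 B + β ≤ β * XX ^ B.length := by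
  induction B with
  | nil => simp [eB]
  | cons b B ih =>
    have h1 := ih (fun x hx => hB x (List.mem_cons_of_mem _ hx))
    have h2 := hB b List.mem_cons_self
    rw [eB_cons, List.length_cons, pow_succ]
    have hX : (XX - 1) + 1 = XX := by simp [XX]
    have h3 : β * (XX ^ B.length * XX) = (XX - 1) * (β * XX ^ B.length) + β * XX ^ B.length := by
      have h5 : β * (XX ^ B.length * XX) = (β * XX ^ B.length) * ((XX - 1) + 1) := by
        rw [hX]; ring
      rw [h5]; ring
    rw [h3]
    have h4 : (XX - 1) * (b * XX ^ B.length) ≤ (XX - 1) * (β * XX ^ B.length) :=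
      Nat.mul_le_mul_left _ (Nat.mul_le_mul_right _ h2)
    rw [mul_add]
    omega

theorem kron_aux (α β : ℕ) : ∀ (A B : List ℕ), A.length = B.length → (∀ a ∈ A, a ≤ α) →
    (∀ b ∈ B, b ≤ β) → ∃ L H : ℕ, XX * (eA A * eB 0 B) = L + dotN A B * XX ^ B.length +
      H * XX ^ (B.length + 1) ∧ (XX - 1) * L ≤ B.length * (α * β) * XX ^ B.length ∧
      dotN A B ≤ B.length * (α * β)
  | [], [], _, _, _ => ⟨0, 0, by simp [eA, eB, dotN], by simp, by simp [dotN]⟩
  | [], _ :: _, h, _, _ => by simp at h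
  | _ :: _, [], h, _, _ => by simp at h
  | a :: A, b :: B, h, hA, hB => by
    obtain ⟨L, H, h1, h2, h3⟩ := kron_aux α β A B (by simpa using h)
      (fun x hx => hA x (List.mem_cons_of_mem _ hx)) (fun x hx => hB x (List.mem_cons_of_mem _ hx))
    have ha := hA a List.mem_cons_self
    have hb := hB b List.mem_cons_self
    have h4 := eB_bound β B (fun x hx => hB x (List.mem_cons_of_mem _ hx))
    refine ⟨XX * (L + a * eB 0 B), H + b * eA A, ?_, ?_, ?_⟩
    · rw [eA_cons, eB_cons, dotN, List.length_cons]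
      have e1 : XX * ((a + XX * eA A) * (b * XX ^ B.length + eB 0 B)) =
          XX * (XX * (eA A * eB 0 B)) + (XX * (a * eB 0 B) + a * b * XX ^ (B.length + 1) +
            b * eA A * XX ^ (B.length + 1 + 1)) := by ring
      rw [e1, h1]
      ring
    · rw [List.length_cons]
      calc (XX - 1) * (XX * (L + a * eB 0 B)) =
            XX * ((XX - 1) * L + a * ((XX - 1) * eB 0 B)) := by ring
        _ ≤ XX * (B.length * (α * β) * XX ^ B.length + α * (β * XX ^ B.length)) := by
            apply Nat.mul_le_mul_left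
            apply Nat.add_le_add h2
            exact Nat.mul_le_mul ha (by omega)
        _ = (B.length + 1) * (α * β) * XX ^ (B.length + 1) := by ring
    · rw [dotN, List.length_cons]
      have := Nat.mul_le_mul ha hb
      calc a * b + dotN A B ≤ α * β + B.length * (α * β) := Nat.add_le_add this h3
        _ = _ := by ring

/-- The scalar product is a digit of the product of the encodings. -/
theorem kron (α β : ℕ) (A B : List ℕ) (hl : A.length = B.length) (hA : ∀ a ∈ A, a ≤ α)
    (hB : ∀ b ∈ B, b ≤ β) (hX : B.length * (α * β) < XX - 1) :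
    (XX * (eA A * eB 0 B)) / XX ^ B.length % XX = dotN A B := by
  obtain ⟨L, H, h1, h2, h3⟩ := kron_aux α β A B hl hA hB
  have hX0 : 0 < XX := by simp [XX]
  have hX1 : 0 < XX - 1 := by simp [XX]
  have hP : 0 < XX ^ B.length := pow_pos hX0 _
  have hL : L < XX ^ B.length := by
    have h5 : (XX - 1) * L < (XX - 1) * XX ^ B.length :=
      lt_of_le_of_lt h2 (Nat.mul_lt_mul_of_pos_right hX hP)
    exact lt_of_mul_lt_mul_left h5 (Nat.zero_le _)
  have h6 : XX * (eA A * eB 0 B) = L + XX ^ B.length * (dotN A B + XX * H) := by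
    rw [h1]; ring
  rw [h6, Nat.add_mul_div_left _ _ hP, Nat.div_eq_of_lt hL, zero_add, Nat.add_mul_mod_self_left]
  exact Nat.mod_eq_of_lt (by omega)

/-! ### Integer lists -/

def dotZ : List ℤ → List ℤ → ℤ
  | a :: A, b :: B => a * b + dotZ A B
  | _, _ => 0

/-- The offset encoding. -/
def eN (x : ℤ) : ℕ := (x + 4096).toNat

theorem eN_cast (x : ℤ) (h : x.natAbs ≤ 4095) : (eN x : ℤ) = x + 4096 := by
  rw [eN, Int.toNat_of_nonneg (by omega)]

theorem eN_le (x : ℤ) (h : x.natAbs ≤ 4095) : eN x ≤ 8191 := by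
  have := eN_cast x h
  omega

theorem dotN_cast : ∀ (A B : List ℤ), A.length = B.length → (∀ a ∈ A, a.natAbs ≤ 4095) →
    (∀ b ∈ B, b.natAbs ≤ 4095) → (dotN (A.map eN) (B.map eN) : ℤ) + B.length * (4096 * 4096) =
      dotZ A B + 4096 * (((A.map eN).sum : ℕ) + ((B.map eN).sum : ℕ))
  | [], [], _, _, _ => by simp [dotN, dotZ]
  | [], _ :: _, h, _, _ => by simp at h
  | _ :: _, [], h, _, _ => by simp at h
  | a :: A, b :: B, h, hA, hB => by
    have ih := dotN_cast A B (by simpa using h)
      (fun x hx => hA x (List.mem_cons_of_mem _ hx)) (fun x hx => hB x (List.mem_cons_of_mem _ hx))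
    have ha := eN_cast a (hA a List.mem_cons_self)
    have hb := eN_cast b (hB b List.mem_cons_self)
    simp only [List.map_cons, dotN, dotZ, List.length_cons, List.sum_cons]
    push_cast
    push_cast at ih
    rw [ha, hb]
    linarith

def rotl (v : V6) (t : List ℤ) : List ℤ := -v.b :: v.a :: -v.d :: v.c :: -v.f :: v.e :: t
def difl (v w : V6) (t : List ℤ) : List ℤ :=
  (w.a - v.a) :: (w.b - v.b) :: (w.c - v.c) :: (w.d - v.d) :: (w.e - v.e) :: (w.f - v.f) :: t
def idl (v : V6) (t : List ℤ) : List ℤ := v.a :: v.b :: v.c :: v.d :: v.e :: v.f :: t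
def aU : List V6 → List ℤ → List ℤ
  | U :: U' :: Us, t => rotl U (aU (U' :: Us) t)
  | _, t => t
def bU : List V6 → List ℤ → List ℤ
  | U :: U' :: Us, t => difl U U' (bU (U' :: Us) t)
  | _, t => t
def aL (d : Dat) : List ℤ := aU d.Us (d.xs.foldr rotl [])
def bL (d : Dat) : List ℤ := bU d.Us (d.xs.foldr idl [])

/-- The value of the form. -/
def gram (d d' : Dat) : ℤ := pr d.Us d'.Us + oml d.xs d'.xs

theorem dotZ_x : ∀ (xs ys : List V6), dotZ (xs.foldr rotl []) (ys.foldr idl []) = oml xs ys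
  | [], ys => by cases ys <;> simp [dotZ, oml]
  | x :: xs, [] => by simp [dotZ, oml, rotl]
  | x :: xs, y :: ys => by
    have ih := dotZ_x xs ys
    simp only [List.foldr_cons, rotl, idl, dotZ, oml, V6.om, ih]
    ring

theorem dotZ_U (s t : List ℤ) : ∀ (Us Vs : List V6), Us.length = Vs.length →
    dotZ (aU Us s) (bU Vs t) = pr Us Vs + dotZ s t
  | [], [], _ => by simp [aU, bU, pr]
  | [_], [_], _ => by simp [aU, bU, pr]
  | [], _ :: _, h => by simp at h
  | _ :: _, [], h => by simp at h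
  | [_], _ :: _ :: _, h => by simp at h
  | _ :: _ :: _, [_], h => by simp at h
  | U :: U' :: Us, V :: V' :: Vs, h => by
    have ih := dotZ_U s t (U' :: Us) (V' :: Vs) (by simpa using h)
    simp only [aU, bU, rotl, difl, dotZ, pr, V6.om3, ih]
    ring

/-- Check of the lists. -/
def okL (d : Dat) : Bool :=
  Nat.beq d.Us.length 37 && (Nat.beq (aL d).length 324 && (Nat.beq (bL d).length 324 &&
    ((aL d).all (fun x => Nat.ble x.natAbs 4095) && (bL d).all (fun x => Nat.ble x.natAbs 4095))))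

def EA (d : Dat) : ℕ := eA ((aL d).map eN)
def EB (d : Dat) : ℕ := eB 0 ((bL d).map eN)
def SA (d : Dat) : ℕ := ((aL d).map eN).sum
def SB (d : Dat) : ℕ := ((bL d).map eN).sum
def gp (d d' : Dat) : ℕ := (XX * (EA d * EB d')) / XX ^ 324 % XX + 324 * (4096 * 4096)
def gm (d d' : Dat) : ℕ := 4096 * (SA d + SB d')

theorem gram_eq {d d' : Dat} (h : okL d = true) (h' : okL d' = true) :
    gram d d' = (gp d d' : ℤ) - gm d d' := by
  simp only [okL, Bool.and_eq_true, List.all_eq_true] at h h'
  obtain ⟨h1, h2, h3, h4, h5⟩ := h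
  obtain ⟨h1', h2', h3', h4', h5'⟩ := h'
  have h1 := Nat.eq_of_beq_eq_true h1
  have h2 := Nat.eq_of_beq_eq_true h2
  have h1' := Nat.eq_of_beq_eq_true h1'
  have h3' := Nat.eq_of_beq_eq_true h3'
  have h4 : ∀ x ∈ aL d, x.natAbs ≤ 4095 := fun x hx => Nat.le_of_ble_eq_true (h4 x hx)
  have h5' : ∀ x ∈ bL d', x.natAbs ≤ 4095 := fun x hx => Nat.le_of_ble_eq_true (h5' x hx)
  have hk := kron 8191 8191 ((aL d).map eN) ((bL d').map eN) (by simp [h2, h3'])
    (fun a ha => by
      obtain ⟨x, hx, rfl⟩ := List.mem_map.1 ha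
      exact eN_le x (h4 x hx))
    (fun a ha => by
      obtain ⟨x, hx, rfl⟩ := List.mem_map.1 ha
      exact eN_le x (h5' x hx))
    (by rw [List.length_map, h3', XX]; norm_num)
  rw [List.length_map, h3'] at hk
  have hd := dotN_cast (aL d) (bL d') (by rw [h2, h3']) h4 h5'
  rw [← hk, h3'] at hd
  have hg : gram d d' = dotZ (aL d) (bL d') := by
    rw [gram, aL, bL, dotZ_U _ _ _ _ (by rw [h1, h1']), dotZ_x]
  rw [hg, gp, gm, EA, EB, SA, SB]
  push_cast
  push_cast at hd
  linarith

/-- The absolute value of the form. -/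
def absG (d d' : Dat) : ℕ := (gp d d' - gm d d') + (gm d d' - gp d d')

theorem absG_eq {d d' : Dat} (h : okL d = true) (h' : okL d' = true) :
    absG d d' = (gram d d').natAbs := by
  rw [gram_eq h h', absG]
  omega

/-- The sum of the absolute values of a row. -/
def rowsum (D : List Dat) (d : Dat) : ℕ := D.foldr (fun d' s => Nat.add (absG d d') s) 0

/-- Diagonal dominance. -/
def rowOK (D : List Dat) (d : Dat) : Bool :=
  Nat.blt (gm d d) (gp d d) && Nat.blt (rowsum D d) (2 * (gp d d - gm d d))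

end H13SB.Num
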