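import Pool.Agent.H13.SB.Num.V6

/-!
# The matrices of the generators
-/

namespace H13SB.Num

open X

/-- Exponent sum of the generator with index `j` in a word. -/
def cnt (w : List ℕ) (j : ℕ) : ℤ :=
  w.foldr (fun n acc => bif Nat.beq (n / 2) j then
    (bif Nat.beq (n % 2) 0 then acc + 1 else acc - 1) else acc) 0

theorem idx_eq (n : ℕ) (hn : n / 2 < 6) (x : Gen 3) : gcode (n / 2) = x ↔ n / 2 = idx x := by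
  constructor
  · rintro rfl
    rw [idx_gcode _ hn]
  · intro h
    rw [h, gcode_idx]

theorem fclass_val (n : ℕ) (x : Gen 3) : fclass (val n) x =
    if n / 2 = idx x then (if n % 2 = 0 then 1 else -1) else 0 := by
  have hx := idx_lt x
  by_cases hn : n < 12
  · have h3 : n / 2 < 6 := by omega
    by_cases h4 : n % 2 = 0
    · simp only [val, hn, h4, if_true, fclass_of, idx_eq n h3 x]
    · simp only [val, hn, h4, if_true, if_false, fclass_inv, Pi.neg_apply, fclass_of,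
        idx_eq n h3 x]
      split_ifs <;> simp
  · have h4 : ¬ n / 2 = idx x := by omega
    simp only [val, hn, if_false, fclass_one, Pi.zero_apply, h4]

theorem fclass_wval (w : List ℕ) (x : Gen 3) : fclass (wval w) x = cnt w (idx x) := by
  induction w with
  | nil => rw [wval_nil, fclass_one]; rfl
  | cons n w ih =>
    rw [wval_cons, fclass_mul, Pi.add_apply, ih, fclass_val, cnt, cnt, List.foldr_cons]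
    by_cases h : n / 2 = idx x
    · have h' : Nat.beq (n / 2) (idx x) = true := by rw [h]; exact Nat.beq_refl _
      by_cases h2 : n % 2 = 0
      · have h2' : Nat.beq (n % 2) 0 = true := by rw [h2]; rfl
        rw [h', h2', if_pos h, if_pos h2, cond_true, cond_true, add_comm]
      · have h2' : Nat.beq (n % 2) 0 = false := by
          have : n % 2 = 1 := by omega
          rw [this]; rfl
        rw [h', h2', if_pos h, if_neg h2, cond_true, cond_false]; ring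
    · have h' : Nat.beq (n / 2) (idx x) = false := by
        rw [Bool.eq_false_iff]; intro h2; exact h (Nat.eq_of_beq_eq_true h2)
      rw [h', if_neg h, cond_false, zero_add]

/-- The exponent sums. -/
def cntV (w : List ℕ) : V6 := ⟨cnt w 0, cnt w 1, cnt w 2, cnt w 3, cnt w 4, cnt w 5⟩

theorem cntV_fn (w : List ℕ) : (cntV w).fn = fclass (wval w) := by
  funext x
  rw [fclass_wval]
  rcases x with ⟨i, b⟩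
  fin_cases i <;> cases b <;> rfl

/-- Check of the columns of a matrix. -/
def okMat (ws : List ℕ) (A : M6) : Bool :=
  ws.all (fun k => Nat.ble k 17) &&
  (decide (cntV (subs ws [0]) = A.tr.r0) && (decide (cntV (subs ws [2]) = A.tr.r1) &&
  (decide (cntV (subs ws [4]) = A.tr.r2) && (decide (cntV (subs ws [6]) = A.tr.r3) &&
  (decide (cntV (subs ws [8]) = A.tr.r4) && decide (cntV (subs ws [10]) = A.tr.r5))))))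

theorem MT_auto {ws : List ℕ} {A : M6} (h : okMat ws A = true) : MT (auto ws) = A.fn := by
  simp only [okMat, Bool.and_eq_true, List.all_eq_true, decide_eq_true_eq] at h
  obtain ⟨h0, h1, h2, h3, h4, h5, h6⟩ := h
  have key : ∀ y x, MT (auto ws) x y = (cntV (subs ws [2 * idx y])).fn x := by
    intro y x
    rw [MT_apply, of_eq_wval, auto_apply ws (fun k hk => by
      have := Nat.le_of_ble_eq_true (h0 k hk); omega), cntV_fn]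
  rw [← Matrix.transpose_inj, ← M6.fn_tr]
  apply M6.ext_mat <;> funext x <;> rw [Matrix.transpose_apply, key]
  · exact congrFun (congrArg V6.fn h1) x
  · exact congrFun (congrArg V6.fn h2) x
  · exact congrFun (congrArg V6.fn h3) x
  · exact congrFun (congrArg V6.fn h4) x
  · exact congrFun (congrArg V6.fn h5) x
  · exact congrFun (congrArg V6.fn h6) x

/-- The matrices of `a_i`. -/
def MA : List M6 := [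
  ⟨⟨2, -1, -1, 0, 0, 0⟩, ⟨2, 0, -2, 1, 0, 0⟩, ⟨-1, 0, 2, -1, 0, 0⟩, ⟨-2, 1, 2, 0, 0, 0⟩, ⟨0, 0, 0, 0, 1, 2⟩, ⟨0, 0, 0, 0, 0, 1⟩⟩,
  ⟨⟨2, -1, -1, 0, 0, 0⟩, ⟨2, 0, -2, 1, 0, 0⟩, ⟨-1, 0, 2, -1, 0, 0⟩, ⟨-2, 1, 2, 0, 0, 0⟩, ⟨0, 0, 0, 0, 1, 2⟩, ⟨0, 0, 0, 0, 0, 1⟩⟩,
  ⟨⟨1, -2, 0, 0, 0, 0⟩, ⟨0, 1, 0, 0, 0, 0⟩, ⟨0, 0, 1, 0, 0, 0⟩, ⟨0, 0, 0, 1, 0, 0⟩, ⟨0, 0, 0, 0, 1, 2⟩, ⟨0, 0, 0, 0, 0, 1⟩⟩,
  ⟨⟨1, 0, 0, 0, 0, -10⟩, ⟨0, 1, 0, 0, 0, 0⟩, ⟨0, 0, 1, 0, 0, 0⟩, ⟨0, 0, 0, 1, 0, 0⟩, ⟨0, -10, 0, 0, 1, -10⟩, ⟨0, 0, 0, 0, 0, 1⟩⟩,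
  ⟨⟨1, 0, 0, 0, 0, 0⟩, ⟨0, 1, 0, 0, 0, 0⟩, ⟨0, 0, 1, 0, 0, -1⟩, ⟨0, 0, 0, 1, 0, 0⟩, ⟨0, 0, 0, -1, 1, -1⟩, ⟨0, 0, 0, 0, 0, 1⟩⟩,
  ⟨⟨1, 0, 0, 0, 0, 0⟩, ⟨0, 1, 0, 0, 0, 0⟩, ⟨0, 0, 1, 0, 0, -1⟩, ⟨0, 0, 0, 1, 0, 0⟩, ⟨0, 0, 0, -1, 1, -1⟩, ⟨0, 0, 0, 0, 0, 1⟩⟩,
  ⟨⟨1, 0, 0, 0, 0, 0⟩, ⟨0, 1, 0, 0, 0, 0⟩, ⟨0, 0, 1, 0, 0, -1⟩, ⟨0, 0, 0, 1, 0, 0⟩, ⟨0, 0, 0, -1, 1, -1⟩, ⟨0, 0, 0, 0, 0, 1⟩⟩,
  ⟨⟨1, 0, 0, 0, 0, 0⟩, ⟨0, 1, 0, 0, 0, 0⟩, ⟨0, 0, 1, 0, 0, -1⟩, ⟨0, 0, 0, 1, 0, 0⟩, ⟨0, 0, 0, -1, 1, -1⟩, ⟨0, 0, 0, 0, 0, 1⟩⟩,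
  ⟨⟨1, 0, 0, 0, 0, 0⟩, ⟨0, 1, 0, 0, 0, 0⟩, ⟨0, 0, 1, 0, 0, -1⟩, ⟨0, 0, 0, 1, 0, 0⟩, ⟨0, 0, 0, -1, 1, -1⟩, ⟨0, 0, 0, 0, 0, 1⟩⟩]

/-- The matrices of `b_i`. -/
def MB : List M6 := [
  ⟨⟨-5, 2, 4, -2, 0, 1⟩, ⟨0, 0, 0, 0, -1, 1⟩, ⟨-5, 2, 4, -2, 0, 0⟩, ⟨1, -1, -1, 0, 1, -1⟩, ⟨-2, 2, 3, 0, 0, 0⟩, ⟨1, 0, -1, 1, 0, 0⟩⟩,
  ⟨⟨1, 0, 0, 0, 0, -1⟩, ⟨0, 0, 0, 0, 1, -1⟩, ⟨1, 0, 0, 0, 0, 0⟩, ⟨-1, 1, 1, 0, -1, 1⟩, ⟨0, 0, 1, 0, 0, 0⟩, ⟨1, 0, -1, 1, 0, 0⟩⟩,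
  ⟨⟨0, 1, 1, 0, 0, 0⟩, ⟨0, 0, 0, 1, 0, 0⟩, ⟨0, 1, 0, 0, 1, 0⟩, ⟨0, 0, 0, 0, 0, 1⟩, ⟨1, 0, 0, 1, 0, 1⟩, ⟨0, 1, 0, 0, 0, 0⟩⟩,
  ⟨⟨1, 0, 1, 0, 0, -1⟩, ⟨0, 0, 0, 1, 0, 0⟩, ⟨1, 0, 0, 0, 0, 0⟩, ⟨0, 1, 0, -1, 0, 0⟩, ⟨0, 0, 0, -1, 1, 0⟩, ⟨0, 0, 0, 0, 0, 1⟩⟩,
  ⟨⟨1, -2, 0, -4, 0, -3⟩, ⟨0, 1, 0, 2, 0, 1⟩, ⟨2, 0, -1, -2, 0, 0⟩, ⟨0, 0, 0, -1, 0, -1⟩, ⟨1, -1, -1, -4, 1, -3⟩, ⟨0, 0, 0, 0, 0, 1⟩⟩,
  ⟨⟨1, -2, 0, -8, 0, -5⟩, ⟨0, 1, 0, 2, 0, 1⟩, ⟨2, 4, -1, -2, 0, 4⟩, ⟨0, 0, 0, -1, 0, -1⟩, ⟨1, 1, -1, -8, 1, -3⟩, ⟨0, 0, 0, 0, 0, 1⟩⟩,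
  ⟨⟨1, -2, 0, -12, 0, -7⟩, ⟨0, 1, 0, 2, 0, 1⟩, ⟨2, 8, -1, -2, 0, 8⟩, ⟨0, 0, 0, -1, 0, -1⟩, ⟨1, 3, -1, -12, 1, -3⟩, ⟨0, 0, 0, 0, 0, 1⟩⟩,
  ⟨⟨1, -2, 0, -16, 0, -9⟩, ⟨0, 1, 0, 2, 0, 1⟩, ⟨2, 12, -1, -2, 0, 12⟩, ⟨0, 0, 0, -1, 0, -1⟩, ⟨1, 5, -1, -16, 1, -3⟩, ⟨0, 0, 0, 0, 0, 1⟩⟩,
  ⟨⟨1, -2, 0, -20, 0, -11⟩, ⟨0, 1, 0, 2, 0, 1⟩, ⟨2, 16, -1, -2, 0, 16⟩, ⟨0, 0, 0, -1, 0, -1⟩, ⟨1, 7, -1, -20, 1, -3⟩, ⟨0, 0, 0, 0, 0, 1⟩⟩]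

/-- The matrices of the generators. -/
def MM (x : Gen 9) : M6 := if x.2 then MB.getD x.1.val M6.one else MA.getD x.1.val M6.one

def matY : M6 := ⟨⟨1, -1, 0, 0, 0, -1⟩, ⟨0, 1, 0, 0, 0, 0⟩, ⟨0, 0, 1, 0, 0, 0⟩, ⟨0, 0, 0, 1, 0, 0⟩, ⟨0, -1, 0, 0, 1, -1⟩, ⟨0, 0, 0, 0, 0, 1⟩⟩
def matYi : M6 := ⟨⟨1, 1, 0, 0, 0, 1⟩, ⟨0, 1, 0, 0, 0, 0⟩, ⟨0, 0, 1, 0, 0, 0⟩, ⟨0, 0, 0, 1, 0, 0⟩, ⟨0, 1, 0, 0, 1, 1⟩, ⟨0, 0, 0, 0, 0, 1⟩⟩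
def mat1 : M6 := ⟨⟨1, 1, 0, 0, 0, 0⟩, ⟨0, 1, 0, 0, 0, 0⟩, ⟨0, 0, 1, 0, 0, 0⟩, ⟨0, 0, 0, 1, 0, 0⟩, ⟨0, 0, 0, 0, 1, 0⟩, ⟨0, 0, 0, 0, 0, 1⟩⟩
def mat5 : M6 := ⟨⟨1, 0, 0, 0, 0, 0⟩, ⟨0, 1, 0, 0, 0, 0⟩, ⟨0, 0, 1, 1, 0, 0⟩, ⟨0, 0, 0, 1, 0, 0⟩, ⟨0, 0, 0, 0, 1, 0⟩, ⟨0, 0, 0, 0, 0, 1⟩⟩
def mat14 : M6 := ⟨⟨1, 0, 0, 0, 0, 0⟩, ⟨0, 1, 0, 0, 0, 0⟩, ⟨0, 0, 1, -1, 0, -1⟩, ⟨0, 0, 0, 1, 0, 0⟩, ⟨0, 0, 0, -1, 1, -1⟩, ⟨0, 0, 0, 0, 0, 1⟩⟩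

/-- Powers. -/
def M6.pow (A : M6) : ℕ → M6
  | 0 => M6.one
  | n + 1 => A.mul (A.pow n)

theorem M6.fn_pow (A : M6) (n : ℕ) : (A.pow n).fn = A.fn ^ n := by
  induction n with
  | zero => rw [pow_zero]; exact M6.fn_one
  | succ n ih => rw [M6.pow, M6.fn_mul, ih, pow_succ']

theorem MT_rep {w : List ℕ} {A : M6} (h : MT (auto w) = A.fn) (n : ℕ) :
    MT (auto (rep n w)) = (A.pow n).fn := by
  rw [auto_rep, map_pow, h, M6.fn_pow]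

theorem MT_cY {w : List ℕ} {A : M6} (h : MT (auto w) = A.fn) (n : ℕ) :
    MT (auto (cY n w)) = (((matY.pow n).mul A).mul (matYi.pow n)).fn := by
  have h1 : MT (auto wY) = matY.fn := MT_auto (by decide +kernel)
  have h2 : MT (auto (iv wY)) = matYi.fn := MT_auto (by decide +kernel)
  have h3 : auto (iv (rep n wY)) = auto (rep n (iv wY)) := by
    rw [auto_iv _ (fun k hk => lt_wY k (mem_rep hk)), auto_rep, auto_rep, auto_iv _ lt_wY,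
      inv_pow]
  rw [cY, auto_append, auto_append, h3, map_mul, map_mul, MT_rep h1, MT_rep h2, h, M6.fn_mul,
    M6.fn_mul]

theorem mat_append {u w : List ℕ} {A B : M6} (hu : MT (auto u) = A.fn) (hw : MT (auto w) = B.fn) :
    MT (auto (u ++ w)) = (A.mul B).fn := by
  rw [auto_append, map_mul, hu, hw, M6.fn_mul]

theorem mat_a (i : Fin 9) : MT (auto (al i)) = (MM (i, false)).fn := by
  have hY : MT (auto wY) = matY.fn := MT_auto (by decide +kernel)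
  have h1 : MT (auto [1]) = mat1.fn := MT_auto (by decide +kernel)
  have h5 : MT (auto [5]) = mat5.fn := MT_auto (by decide +kernel)
  have h14 : MT (auto [14]) = mat14.fn := MT_auto (by decide +kernel)
  have c : ∀ n, ((((matY.pow n).mul mat14).mul (matYi.pow n)).mul mat5).fn =
      MT (auto (cY n [14] ++ [5])) := fun n => (mat_append (MT_cY h14 n) h5).symm
  fin_cases i
  · exact MT_auto (by decide +kernel)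
  · exact MT_auto (by decide +kernel)
  · exact MT_auto (by decide +kernel)
  · have h3 : al 3 = rep 10 wY ++ rep 10 [1] := by decide
    change MT (auto (al 3)) = _
    rw [h3, mat_append (MT_rep hY 10) (MT_rep h1 10)]
    exact congrArg M6.fn (by decide +kernel)
  · exact MT_auto (by decide +kernel)
  · exact (c 2).symm.trans (congrArg M6.fn (by decide +kernel))
  · exact (c 4).symm.trans (congrArg M6.fn (by decide +kernel))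
  · exact (c 6).symm.trans (congrArg M6.fn (by decide +kernel))
  · exact (c 8).symm.trans (congrArg M6.fn (by decide +kernel))

theorem mat_b (i : Fin 9) : MT (auto (be i)) = (MM (i, true)).fn := by
  have hG : MT (auto wG) = (MM (4, true)).fn := MT_auto (by decide +kernel)
  fin_cases i
  · exact MT_auto (by decide +kernel)
  · exact MT_auto (by decide +kernel)
  · exact MT_auto (by decide +kernel)
  · exact MT_auto (by decide +kernel)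
  · exact hG
  · exact (MT_cY hG 2).trans (congrArg M6.fn (by decide +kernel))
  · exact (MT_cY hG 4).trans (congrArg M6.fn (by decide +kernel))
  · exact (MT_cY hG 6).trans (congrArg M6.fn (by decide +kernel))
  · exact (MT_cY hG 8).trans (congrArg M6.fn (by decide +kernel))

theorem mat_gen (x : Gen 9) : X.piece.mat (sgen x) = (MM x).fn := by
  rcases x with ⟨i, t⟩
  cases t
  · change MT (rho (sgen (i, false))) = _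
    rw [rho_a]
    exact mat_a i
  · change MT (rho (sgen (i, true))) = _
    rw [rho_b]
    exact mat_b i

theorem lin_eq (γ : SurfaceGroup 9) (A : M6) (h : X.piece.mat γ = A.fn) (v : Gen 3 → ℝ) :
    X.piece.lin γ v = A.R.mulVec v := by
  change ((X.piece.mat γ).map (Int.cast : ℤ → ℝ)).mulVec v = _
  rw [h]
  rfl

theorem symp_check : ∀ x : Gen 9, (((MM x).tr.mul M6.J6).mul (MM x)) = M6.J6 := by
  decide +kernel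

theorem num_symp : Symp X.piece.lin := by
  intro γ
  let H : Subgroup (SurfaceGroup 9) :=
    { carrier := {γ | ∀ v w, omega (X.piece.lin γ v) (X.piece.lin γ w) = omega v w}
      mul_mem' := by
        intro x y hx hy v w
        rw [map_mul, Module.End.mul_apply, Module.End.mul_apply, hx, hy]
      one_mem' := by intro v w; simp
      inv_mem' := by
        intro x hx v w
        rw [← hx, ← Module.End.mul_apply, ← Module.End.mul_apply, ← map_mul, mul_inv_cancel,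
          map_one, Module.End.one_apply, Module.End.one_apply] }
  exact mem_of_gens H (fun x v w => by
    rw [lin_eq _ _ (mat_gen x), lin_eq _ _ (mat_gen x)]
    exact M6.symp_of _ (symp_check x) v w) γ

end H13SB.Num
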