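import Pool.Agent.H13.SB.Num.Pl

namespace H13SB.Num

def m0 : Dat := ⟨[⟨1, 0, 0, 0, 0, 0⟩, ⟨0, 0, 0, 0, 0, 0⟩, ⟨0, 0, 0, 0, 1, 1⟩, ⟨0, 0, 0, 0, 0, 0⟩, ⟨0, 0, 0, 0, 0, 0⟩, ⟨0, 0, 0, 0, 0, 0⟩, ⟨-1, -1, 0, 1, 0, -1⟩, ⟨0, -1, 0, 0, 0, -2⟩, ⟨-1, 0, 1, 3, 0, 2⟩, ⟨0, 1, 0, 0, 0, 1⟩, ⟨-1, -2, 1, 2, 0, -1⟩, ⟨0, 0, 0, 0, 0, 1⟩, ⟨-1, -3, 1, -4, 0, -5⟩, ⟨0, -2, 0, 1, 0, -1⟩, ⟨0, 1, 0, -8, 0, -3⟩, ⟨0, -4, 0, 0, 0, -4⟩, ⟨0, 3, 0, 6, 0, 6⟩, ⟨1, 5, 0, -3, 0, 3⟩],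
  [⟨0, 0, 0, 0, 0, 0⟩, ⟨1, 0, 0, 0, 0, 0⟩, ⟨1, 0, 0, 0, 0, 0⟩, ⟨5, -1, 5, 0, -1, -1⟩, ⟨5, -1, 5, 0, -1, -1⟩, ⟨5, -1, 5, 0, 3, 0⟩, ⟨5, -1, 5, 0, 3, 0⟩, ⟨6, -1, 5, 0, 3, 0⟩, ⟨6, -1, 5, 0, 3, 0⟩, ⟨6, -1, 5, 0, 3, 0⟩, ⟨6, -1, 5, 0, 3, 0⟩, ⟨6, -1, 5, 0, 3, 0⟩, ⟨6, -1, 5, 0, 3, 0⟩, ⟨5, -2, 5, 1, -7, -1⟩, ⟨25, -3, 5, 1, 3, -3⟩, ⟨25, -4, 16, 3, 34, -2⟩, ⟨25, -3, 36, 3, 54, 0⟩, ⟨24, -3, 57, 6, 104, 2⟩, ⟨24, -2, 66, 6, 113, 3⟩, ⟨43, -10, 59, 11, 157, 1⟩, ⟨43, -11, 51, 11, 149, 0⟩, ⟨42, -13, 44, 13, 157, -1⟩, ⟨42, -13, 51, 13, 164, 0⟩, ⟨50, -14, 76, 14, 193, 1⟩, ⟨50, -14, 70, 14, 187, 0⟩, ⟨49, -17, 41, 10, 133, -5⟩,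 ⟨49, -19, 36, 11, 133, -6⟩, ⟨-39, -3, 115, 2, 65, -1⟩, ⟨-39, -1, 119, 1, 65, 0⟩, ⟨-39, 0, 107, -7, 21, -3⟩, ⟨-39, -4, 95, -7, 9, -7⟩, ⟨-192, 14, 109, -18, -149, -4⟩, ⟨-192, 18, 117, -18, -141, 0⟩, ⟨-192, 21, 129, -12, -117, 6⟩, ⟨-191, 26, 132, -15, -117, 9⟩, ⟨1, 5, 0, -3, 0, 3⟩, ⟨0, 0, 0, 0, 0, 0⟩]⟩

def m1 : Dat := ⟨[⟨-1, 0, 0, 0, 0, -1⟩, ⟨0, 0, 0, 0, 0, 0⟩, ⟨0, 0, 0, 0, 1, -1⟩, ⟨0, 0, -1, 1, 0, 0⟩, ⟨-1, -1, 1, -1, 0, 0⟩, ⟨0, 0, 0, 0, 0, -1⟩, ⟨0, -2, 1, 0, 0, -2⟩, ⟨0, -3, 0, -2, 0, 2⟩, ⟨-1, -1, 1, 0, 0, 1⟩, ⟨0, 0, 0, 0, 0, 1⟩, ⟨0, -2, 1, -4, 0, -3⟩, ⟨0, -2, 0, 1, 0, -1⟩, ⟨1, 2, -1, -8, 0, -3⟩, ⟨0, -3, 0,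 0, 0, -3⟩, ⟨0, 5, -1, 4, 0, 7⟩, ⟨1, 4, 0, -3, 0, 2⟩, ⟨-1, -5, 0, 5, 0, -2⟩, ⟨0, 2, 0, 4, 0, 4⟩],
  [⟨0, 0, 0, 0, 0, 0⟩, ⟨-1, 0, 0, 0, 0, -1⟩, ⟨-1, 0, 0, 0, 0, -1⟩, ⟨-6, 0, -3, 1, 1, 0⟩, ⟨-6, 0, -3, 1, 1, 0⟩, ⟨-6, 0, -3, 1, -1, -1⟩, ⟨-11, -2, 1, 4, -1, -1⟩, ⟨-16, -4, 5, 6, -1, -1⟩, ⟨-16, -4, 4, 5, -1, -1⟩, ⟨-19, -5, 3, 4, -1, -1⟩, ⟨-19, -5, 3, 4, -9, -2⟩, ⟨-19, -4, 4, 4, 3, -1⟩, ⟨-19, -4, 4, 4, 13, 0⟩, ⟨-19, -6, 5, 4, -7, -2⟩, ⟨-39, -9, 5, 2, 23, 0⟩, ⟨-42, -9, 25, 4, 63, 2⟩, ⟨-42, -6, 5, 6, 63, 0⟩, ⟨-43, -7, 16, 6, 73, 1⟩, ⟨-43, -7, 25, 6, 82, 2⟩, ⟨-41, -7, 20, 7, 86, 1⟩, ⟨-41, -7, 12, 7, 78, 0⟩, ⟨-41, -9,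 -11, 3, 22, -3⟩, ⟨-41, -11, -18, 4, 22, -4⟩, ⟨-92, 2, 13, -3, -40, -1⟩, ⟨-92, 4, 19, -4, -40, 0⟩, ⟨-91, 6, 0, -12, -106, -3⟩, ⟨-91, 3, -15, -12, -121, -6⟩, ⟨-205, 20, -14, -23, -266, -3⟩, ⟨-205, 23, -2, -23, -254, 0⟩, ⟨-205, 28, 25, -19, -210, 7⟩, ⟨-204, 32, 31, -22, -213, 9⟩, ⟨-67, 12, -120, -11, -146, 2⟩, ⟨-68, 8, -124, -8, -144, 0⟩, ⟨-69, 3, -128, -3, -138, -2⟩, ⟨-69, 5, -124, 1, -130, 2⟩, ⟨0, 2, 0, 4, 0, 4⟩, ⟨0, 0, 0, 0, 0, 0⟩]⟩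

def m2 : Dat := ⟨[⟨-1, 0, 1, -1, 0, -1⟩, ⟨0, 0, 0, 0, 0, 0⟩, ⟨0, 0, -1, 0, 1, -2⟩, ⟨1, 0, -1, 1, 0, 0⟩, ⟨-1, 0, 1, -2, 0, 1⟩, ⟨0, 0, 0, 1, 0, 0⟩, ⟨0, -1, 1, -1, 0, -2⟩, ⟨0, -4, 0, -3, 0, 4⟩, ⟨-1, -1, 1, -4, 0, -2⟩, ⟨0, -1, 0, 0, 0, -1⟩, ⟨1, 1, -1, -7, 0, -2⟩, ⟨-1, -3, 0, 0, 0, -3⟩, ⟨0, 4, 0, 7, 0, 7⟩, ⟨1, 6, -1, -2, 0, 4⟩, ⟨0, -1, 0, -4, 0, -3⟩, ⟨-1, -4, 0, 2, 0, -3⟩, ⟨-1, -3, 0, 6, 0, 0⟩, ⟨0, 5, 0, 3, 0, 6⟩],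
  [⟨0, 0, 0, 0, 0, 0⟩, ⟨-1, 0, 1, -1, 0, -1⟩, ⟨-1, 0, 1, -1, 0, -1⟩, ⟨-11, 1, -8, 0, 4, 2⟩, ⟨-11, 1, -8, 0, 4, 2⟩, ⟨-12, 1, -8, 0, -1, 0⟩, ⟨-20, -3, 0, 5, -1, 0⟩, ⟨-28, -6, 8, 9, -6, -1⟩, ⟨-29, -6, 7, 8, -6, -1⟩, ⟨-30, -6, 4, 6, 0, 0⟩, ⟨-30, -6, 6, 7, 0, 0⟩, ⟨-31, -4, 6, 6, 2, 0⟩, ⟨-31, -4, 6, 5, 2, 0⟩, ⟨-31, -5, 7, 4, -18, -2⟩, ⟨-71, -9, 7, 1, 22, 2⟩, ⟨-74, -8, 27, 1, 41, 4⟩, ⟨-74, -4, -13, 4, 31, 0⟩, ⟨-75, -5, -32, 0, -29, -2⟩, ⟨-75, -6, -41, 0, -38, -3⟩, ⟨-98, 5, -30, -6, -91, -1⟩, ⟨-98, 6, -22, -6, -83, 0⟩, ⟨-97, 7, -39, -13, -155, -2⟩, ⟨-98, 4, -60, -13, -176, -5⟩, ⟨-163, 19, -61, -22, -283, -3⟩, ⟨-162,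 22, -43, -22, -265, 0⟩, ⟨-162, 26, -1, -15, -181, 7⟩, ⟨-161, 32, 18, -17, -171, 11⟩, ⟨-20, 7, -84, -3, -50, 4⟩, ⟨-21, 1, -99, -1, -58, 0⟩, ⟨-21, 0, -111, -5, -86, -3⟩, ⟨-22, -4, -120, -3, -89, -6⟩, ⟨-115, 8, -74, -10, -165, -3⟩, ⟨-114, 12, -68, -12, -163, 0⟩, ⟨-115, 9, -68, -6, -151, 0⟩, ⟨-115, 14, -62, -3, -142, 6⟩, ⟨0, 5, 0, 3, 0, 6⟩, ⟨0, 0, 0, 0, 0, 0⟩]⟩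

def m3 : Dat := ⟨[⟨-1, 0, 0, -1, 0, 0⟩, ⟨0, 0, 0, 0, 0, 0⟩, ⟨0, 0, -1, 0, 0, 0⟩, ⟨0, 1, 0, 1, 0, 0⟩, ⟨0, 1, 1, 0, 0, 0⟩, ⟨0, 0, 0, 0, 0, 0⟩, ⟨0, 0, 0, -2, 0, 0⟩, ⟨0, 0, 0, 0, 0, 3⟩, ⟨2, -2, -2, -7, 0, -5⟩, ⟨-1, -2, 1, -1, 0, -4⟩, ⟨0, 5, -1, 10, 0, 9⟩, ⟨2, 7, -1, -1, 0, 5⟩, ⟨0, -4, 0, 0, 0, -3⟩, ⟨0, -1, 0, 3, 0, 0⟩, ⟨1, 5, -1, -4, 0, 2⟩, ⟨0, -2, 0, -5, 0, -4⟩, ⟨-1, -5, 0, 3, 0, -3⟩, ⟨0, 0, 0, 7, 0, 4⟩],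
  [⟨0, 0, 0, 0, 0, 0⟩, ⟨-1, 0, 0, -1, 0, 0⟩, ⟨-1, 0, 0, -1, 0, 0⟩, ⟨-7, 1, -7, -1, 4, 2⟩, ⟨-7, 1, -7, -1, 4, 2⟩, ⟨-8, 1, -7, -1, 4, 2⟩, ⟨-8, 2, -7, 0, 4, 2⟩, ⟨-8, 2, -5, 1, -1, 1⟩, ⟨-10, 1, -7, 0, -1, 1⟩, ⟨-8, 2, -6, 0, -1, 1⟩, ⟨-8, 2, -6, 0, -1, 1⟩, ⟨-10, 2, -7, 0, -11, 0⟩, ⟨-10, 2, -7, 0, -11, 0⟩, ⟨-10, 2, -7, -2, -11, 0⟩, ⟨-40, 2, -7, -2, -11, 3⟩, ⟨-40, 4, -7, -4, -33, 3⟩, ⟨-40, 4, -37, -4, -63, 0⟩, ⟨-38, 2, -89, -11, -183, -5⟩, ⟨-39, 0, -124, -12, -228, -9⟩, ⟨-88, 21, -104, -24, -333, -4⟩, ⟨-87, 23, -73, -23, -293, 0⟩, ⟨-87, 28, -2, -13, -141, 9⟩, ⟨-85, 35, 32, -14, -113, 14⟩, ⟨50, 1, -59, 5, 48, 5⟩,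 ⟨48, -6, -88, 6, 24, 0⟩, ⟨48, -10, -106, 6, 6, -3⟩, ⟨48, -11, -106, 9, 21, -3⟩, ⟨19, -4, -38, 6, 24, 0⟩, ⟨19, -3, -38, 3, 12, 0⟩, ⟨20, 2, -31, -1, 4, 2⟩, ⟨20, 0, -43, -6, -23, -2⟩, ⟨-17, 1, -142, -8, -116, -4⟩, ⟨-17, 3, -134, -3, -98, 0⟩, ⟨-18, -2, -140, 0, -98, -3⟩, ⟨-18, -2, -136, 7, -87, 1⟩, ⟨0, 0, 0, 7, 0, 4⟩, ⟨0, 0, 0, 0, 0, 0⟩]⟩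

def m4 : Dat := ⟨[⟨-1, 1, 0, 1, 0, -2⟩, ⟨0, -1, 0, -1, 0, 0⟩, ⟨0, 0, -1, 0, 1, -1⟩, ⟨1, 0, -2, 0, 0, 0⟩, ⟨-1, -2, 2, -2, -1, 2⟩, ⟨0, 0, 0, 2, 0, 0⟩, ⟨0, -1, 2, -1, 0, -4⟩, ⟨0, -5, 0, -5, 0, 3⟩, ⟨0, -2, 0, -8, 0, -5⟩, ⟨-1, -3, 1, -1, 0, -3⟩, ⟨0, 3, 0, 3, 0, 4⟩, ⟨1, 3, 0, 0, 0, 3⟩, ⟨1, 2, -1, -5, 0, -1⟩, ⟨-1, -4, 0, -1, 0, -4⟩, ⟨-2, -8, 1, 6, -1, -4⟩, ⟨0, 3, 0, 10, 0, 9⟩, ⟨0, 4, 0, 1, 0, 5⟩, ⟨1, 5, 0, -7, 0, 1⟩],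
  [⟨0, 0, 0, 0, 0, 0⟩, ⟨-1, 1, 0, 1, 0, -2⟩, ⟨0, 0, 1, 0, 0, -2⟩, ⟨-5, 0, 0, 2, -4, -2⟩, ⟨-4, 1, 1, 3, -4, -2⟩, ⟨-5, 1, 1, 3, -6, -3⟩, ⟨-16, -5, 11, 9, -6, -3⟩, ⟨-21, -7, 17, 12, -11, -4⟩, ⟨-22, -7, 19, 12, -11, -4⟩, ⟨-27, -9, 17, 10, 0, -2⟩, ⟨-27, -9, 21, 12, 0, -2⟩, ⟨-27, -7, 24, 10, 21, 0⟩, ⟨-27, -7, 24, 8, 21, 0⟩, ⟨-27, -8, 26, 7, -19, -4⟩, ⟨-57, -13, 26, 2, 31, -1⟩, ⟨-63, -12, 66, 2, 70, 3⟩, ⟨-63, -7, 36, 7, 90, 0⟩, ⟨-63, -9, -14, -1, -40, -5⟩, ⟨-64, -12, -40, -2, -76, -8⟩, ⟨-115, 11, -16, -15, -189, -3⟩, ⟨-114, 14, 7, -14, -157, 0⟩, ⟨-114, 17, 39, -11, -101, 4⟩, ⟨-113, 20, 60, -11, -80, 7⟩, ⟨-63, 7,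 14, -4, -29, 3⟩, ⟨-64, 4, -4, -4, -47, 0⟩, ⟨-63, 6, -11, -9, -83, -1⟩, ⟨-64, 2, -31, -10, -108, -5⟩, ⟨-128, 11, -48, -16, -199, -4⟩, ⟨-127, 15, -32, -15, -179, 0⟩, ⟨-129, 7, -47, -9, -172, -4⟩, ⟨-129, 10, -20, 1, -115, 5⟩, ⟨-83, 10, 149, 3, 25, 9⟩, ⟨-83, 7, 131, -7, -13, 0⟩, ⟨-83, 11, 141, -6, -1, 5⟩, ⟨-82, 16, 142, -13, -7, 6⟩, ⟨1, 5, 0, -7, 0, 1⟩, ⟨0, 0, 0, 0, 0, 0⟩]⟩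

def m5 : Dat := ⟨[⟨1, 3, 0, 2, 1, -2⟩, ⟨-1, 0, 0, 0, 0, -1⟩, ⟨1, -1, -1, -1, 1, 0⟩, ⟨2, -1, -2, 0, 0, -1⟩, ⟨-2, -3, 3, -3, -2, 3⟩, ⟨0, 0, 0, 4, 0, -1⟩, ⟨0, 1, 3, -2, 0, -3⟩, ⟨0, -6, 0, -5, 0, 0⟩, ⟨-1, -1, 2, -5, 0, -2⟩, ⟨-1, -2, 1, 0, 0, -1⟩, ⟨1, 3, -1, -5, 0, 0⟩, ⟨-1, -3, 0, -1, 0, -4⟩, ⟨-3, -10, 2, 8, -1, -6⟩, ⟨0, 2, 0, 14, -1, 11⟩, ⟨-1, 5, 1, 1, 0, 4⟩, ⟨1, 6, -1, -7, 0, 2⟩, ⟨0, 3, 0, -2, 0, 3⟩, ⟨0, -1, 0, -8, 0, -5⟩],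
  [⟨0, 0, 0, 0, 0, 0⟩, ⟨1, 3, 0, 2, 1, -2⟩, ⟨-1, 1, 1, 4, -1, -3⟩, ⟨1, 0, 9, 7, -14, -6⟩, ⟨1, 0, 10, 7, -11, -5⟩, ⟨-1, -1, 10, 6, -10, -5⟩, ⟨-16, -10, 25, 14, -15, -6⟩, ⟨-19, -11, 32, 18, -20, -7⟩, ⟨-19, -10, 34, 18, -14, -6⟩, ⟨-27, -13, 31, 15, 2, -3⟩, ⟨-27, -13, 39, 19, -6, -4⟩, ⟨-27, -10, 44, 16, 26, -1⟩, ⟨-27, -10, 44, 12, 36, 0⟩, ⟨-27, -9, 47, 10, 6, -3⟩, ⟨-27, -15, 47, 5, 66, -3⟩, ⟨-33, -13, 77, 2, 64, 0⟩, ⟨-33, -7, 77, 7, 114, 0⟩, ⟨-34, -8, 59, 2, 44, -2⟩, ⟨-35, -10, 51, 2, 35, -3⟩, ⟨-62, 3, 61, -5, -29, -1⟩, ⟨-61, 5, 68, -5, -21, 0⟩, ⟨-60, 8, 67, -10, -61, 0⟩, ⟨-61, 5, 39, -11, -96, -4⟩, ⟨-96, 12,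 14, -16, -171, -4⟩, ⟨-95, 15, 38, -15, -141, 0⟩, ⟨-98, 5, 4, -7, -130, -6⟩, ⟨-98, 7, 59, 7, -6, 5⟩, ⟨-61, 7, 235, 9, 140, 11⟩, ⟨-61, 5, 191, -5, 41, 0⟩, ⟨-62, 10, 208, -4, 61, 4⟩, ⟨-61, 16, 213, -11, 46, 6⟩, ⟨2, 5, 102, -6, 53, 2⟩, ⟨1, -1, 99, 1, 63, 0⟩, ⟨1, 2, 105, -1, 65, 3⟩, ⟨1, 1, 100, -9, 52, -2⟩, ⟨0, -1, 0, -8, 0, -5⟩, ⟨0, 0, 0, 0, 0, 0⟩]⟩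

def m6 : Dat := ⟨[⟨1, -5, -2, -4, -2, 2⟩, ⟨3, 2, -2, 2, 0, 2⟩, ⟨-3, 2, 2, -2, -2, 1⟩, ⟨-4, 2, 5, 2, -1, 0⟩, ⟨3, 2, -7, 6, 5, -9⟩, ⟨1, 0, -1, -13, 0, 1⟩, ⟨0, -12, -3, 13, -1, -4⟩, ⟨1, 7, -3, 7, -1, 5⟩, ⟨0, -6, 0, -1, 0, -5⟩, ⟨-1, -3, 1, -2, -1, -3⟩, ⟨3, 2, -2, -4, 1, 0⟩, ⟨-1, -4, 0, -5, 0, -7⟩, ⟨-1, -5, 0, 2, 0, -6⟩, ⟨-1, -3, 0, 10, -1, 3⟩, ⟨-1, -2, 0, 3, -1, -2⟩, ⟨0, 3, 0, 6, 0, 6⟩, ⟨-1, 0, 0, 2, -1, 0⟩, ⟨0, 4, 0, 1, 0, 5⟩],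
  [⟨0, 0, 0, 0, 0, 0⟩, ⟨1, -5, -2, -4, -2, 2⟩, ⟨7, 7, -11, -12, 2, 4⟩, ⟨18, 3, -2, -16, 23, 5⟩, ⟨18, 1, -7, -18, 17, 3⟩, ⟨18, -1, -8, -16, 18, 4⟩, ⟨50, 19, -39, -32, 17, 4⟩, ⟨60, 22, -56, -42, 57, 11⟩, ⟨60, 20, -65, -44, 58, 11⟩, ⟨67, 22, -60, -38, 9, 2⟩, ⟨68, 22, -87, -51, 17, 3⟩, ⟨73, 16, -94, -42, -3, 1⟩, ⟨72, 16, -93, -29, -13, 0⟩, ⟨72, 4, -96, -16, -54, -4⟩, ⟨23, 11, -99, -9, -125, 1⟩, ⟨22, -2, -59, 16, 179, 5⟩, ⟨21, -9, -106, 9, 60, 0⟩, ⟨21, -15, -156, 8, 0, -5⟩, ⟨20, -18, -182, 6, -46, -8⟩, ⟨-11, -5, -144, 0, -79, -3⟩, ⟨-10, -2, -121, 2, -38, 0⟩, ⟨-7, 0, -123, -2, -69, 0⟩, ⟨-8, -4, -172, -7, -153,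 -7⟩, ⟨-39, 2, -196, -11, -217, -7⟩, ⟨-38, 6, -154, -6, -145, 0⟩, ⟨-39, 1, -190, -4, -169, -6⟩, ⟨-40, -2, -175, 6, -105, -3⟩, ⟨-67, 5, -57, 2, -75, 3⟩, ⟨-66, 8, -69, -8, -126, 0⟩, ⟨-67, 6, -77, -5, -123, -2⟩, ⟨-67, 9, -59, 1, -87, 4⟩, ⟨-40, 7, 1, 2, -27, 6⟩, ⟨-40, 4, -11, -4, -51, 0⟩, ⟨-41, 4, -11, -2, -48, 0⟩, ⟨-41, 8, -6, -1, -42, 5⟩, ⟨0, 4, 0, 1, 0, 5⟩, ⟨0, 0, 0, 0, 0, 0⟩]⟩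

def m7 : Dat := ⟨[⟨-8, -3, 3, -6, 0, -3⟩, ⟨-2, -4, 0, -4, -2, -2⟩, ⟨2, 0, -3, 2, 0, -4⟩, ⟨0, 1, -1, 1, 1, 0⟩, ⟨-2, 3, 2, -4, -1, 0⟩, ⟨-1, -1, 0, 1, 0, 1⟩, ⟨1, 6, -1, -9, 0, 2⟩, ⟨-1, 2, 2, 1, 0, 0⟩, ⟨0, 10, -1, 6, -1, 9⟩, ⟨4, 9, -2, 4, 1, 8⟩, ⟨6, 13, -4, -6, 1, 9⟩, ⟨1, 2, 0, -16, 1, -10⟩, ⟨1, -3, -1, -1, 0, -3⟩, ⟨-1, -5, 0, 6, 0, -1⟩, ⟨0, -2, -1, 1, 0, -2⟩, ⟨0, 0, 0, 7, 0, 3⟩, ⟨0, -1, 0, 2, -1, -1⟩, ⟨0, 3, 0, 4, 0, 5⟩],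
  [⟨0, 0, 0, 0, 0, 0⟩, ⟨-8, -3, 3, -6, 0, -3⟩, ⟨-8, -11, 9, -6, -6, -5⟩, ⟨-61, -6, -43, -3, 26, 12⟩, ⟨-57, -2, -37, 1, 34, 14⟩, ⟨-58, 0, -35, 1, 22, 10⟩, ⟨-62, -1, -32, 4, 23, 10⟩, ⟨-76, -5, -16, 13, -16, 3⟩, ⟨-78, -6, -17, 12, -17, 3⟩, ⟨-74, -3, -23, 8, -18, 3⟩, ⟨-75, -4, -21, 9, -10, 4⟩, ⟨-80, 0, -23, 9, -34, 1⟩, ⟨-79, 1, -23, 8, -44, 0⟩, ⟨-78, 7, -24, -1, -24, 2⟩, ⟨-79, 9, -22, 0, -44, 2⟩, ⟨-77, 18, -43, -15, -223, 0⟩, ⟨-76, 16, -45, -16, -233, 0⟩, ⟨-76, 26, 44, -10, -84, 9⟩, ⟨-72, 35, 114, -6, 25, 17⟩, ⟨-1, 4, 53, 9, 134, 8⟩, ⟨-5, -5, -9, 5, 37, 0⟩, ⟨1, 8, 59, -1, 62, 9⟩, ⟨2, 10, -11, -17, -119, -1⟩,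 ⟨19, 0, -181, -14, -200, -10⟩, ⟨18, -2, -121, 2, -45, 0⟩, ⟨19, -5, -140, 1, -69, -3⟩, ⟨18, -10, -145, 7, -44, -4⟩, ⟨-22, -2, -90, 3, -62, -1⟩, ⟨-21, 3, -86, -3, -82, 0⟩, ⟨-21, 1, -95, -2, -86, -2⟩, ⟨-21, 1, -86, 5, -56, 1⟩, ⟨-27, 3, -33, 4, -35, 3⟩, ⟨-27, 3, -39, -3, -55, 0⟩, ⟨-27, 2, -41, -1, -54, -1⟩, ⟨-27, 5, -36, 3, -45, 4⟩, ⟨0, 3, 0, 4, 0, 5⟩, ⟨0, 0, 0, 0, 0, 0⟩]⟩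

def m8 : Dat := ⟨[⟨-15, -10, 1, -15, -1, -7⟩, ⟨0, -5, -2, -6, -5, -2⟩, ⟨0, 1, -3, 1, 2, -12⟩, ⟨0, 2, -1, 3, 1, -2⟩, ⟨-6, 3, 4, -15, 4, -5⟩, ⟨-2, -1, -1, -6, 0, 1⟩, ⟨-1, 13, 0, 7, 2, 2⟩, ⟨1, 4, 1, 4, 0, -12⟩, ⟨3, -5, -2, -1, 1, -3⟩, ⟨-1, -4, 1, -1, -1, -5⟩, ⟨-2, -6, 1, 2, -1, -3⟩, ⟨-1, -1, 0, 9, -1, 4⟩, ⟨-1, 0, 0, 1, -1, 1⟩, ⟨0, 3, 0, 1, 0, 4⟩, ⟨-1, 0, 0, 0, 0, 2⟩, ⟨0, 3, 0, -1, 0, 2⟩, ⟨0, 0, 0, 0, 0, 2⟩, ⟨0, 3, 0, -3, 0, 1⟩],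
  [⟨0, 0, 0, 0, 0, 0⟩, ⟨-15, -10, 1, -15, -1, -7⟩, ⟨-8, -12, 3, -24, -10, -9⟩, ⟨-97, -12, -73, -18, 70, 22⟩, ⟨-89, -6, -68, -13, 81, 24⟩, ⟨-91, -5, -67, -12, 47, 12⟩, ⟨-96, -5, -63, -7, 38, 10⟩, ⟨-136, -19, -31, 9, 17, 6⟩, ⟨-140, -21, -36, 6, 28, 8⟩, ⟨-140, -18, -62, -9, 2, 3⟩, ⟨-142, -19, -75, -15, 10, 4⟩, ⟨-149, -4, -82, -10, 6, 1⟩, ⟨-147, -3, -81, -4, -4, 0⟩, ⟨-148, 10, -81, 3, 18, 2⟩, ⟨-27, 14, -80, 7, -22, -10⟩, ⟨-24, 7, -99, 1, -97, -12⟩, ⟨-25, 3, 20, -3, -17, 0⟩, ⟨-22, -2, -12, -4, -56, -3⟩, ⟨-23, -6, -56, -5, -111, -8⟩, ⟨-49, 4, -42, -9, -143, -5⟩, ⟨-48, 8, -3, -8, -94, 0⟩, ⟨-50, 2, -26, -6, -103,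 -3⟩, ⟨-51, 1, 2, 3, -13, 1⟩, ⟨-60, 6, 65, 2, 16, 4⟩, ⟨-59, 7, 41, -7, -61, 0⟩, ⟨-60, 7, 47, -6, -50, 1⟩, ⟨-60, 10, 67, -5, -25, 5⟩, ⟨-40, 7, 59, -3, -4, 4⟩, ⟨-40, 4, 43, -4, -24, 0⟩, ⟨-41, 4, 51, -4, -16, 2⟩, ⟨-41, 7, 57, -5, -13, 4⟩, ⟨-22, 5, 31, -3, -6, 2⟩, ⟨-22, 2, 27, -2, -8, 0⟩, ⟨-22, 2, 31, -2, -4, 2⟩, ⟨-22, 5, 32, -5, -6, 3⟩, ⟨0, 3, 0, -3, 0, 1⟩, ⟨0, 0, 0, 0, 0, 0⟩]⟩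

def m9 : Dat := ⟨[⟨6, 1, -1, 3, 1, 5⟩, ⟨-1, 3, 2, 4, 2, 3⟩, ⟨2, 0, 1, 0, -1, 0⟩, ⟨3, 0, -4, 0, 0, 2⟩, ⟨-1, 3, 4, -4, -5, 9⟩, ⟨-1, -1, 2, 8, 0, 1⟩, ⟨0, 8, 2, 7, 2, 22⟩, ⟨1, -1, 0, -6, 4, -12⟩, ⟨3, -18, -1, 7, 2, -11⟩, ⟨-3, -9, 1, -4, -2, -9⟩, ⟨6, 0, -3, -4, 2, 0⟩, ⟨-1, -6, 1, -8, 0, -12⟩, ⟨3, -2, -2, 0, 1, -3⟩, ⟨-1, -7, 1, 3, -1, -6⟩, ⟨1, -1, -2, 0, 0, -3⟩, ⟨-1, -5, 1, 6, -1, -1⟩, ⟨1, 0, -2, 1, 0, -3⟩, ⟨0, -3, 0, 8, -1, 1⟩],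
  [⟨0, 0, 0, 0, 0, 0⟩, ⟨6, 1, -1, 3, 1, 5⟩, ⟨-1, -1, 0, 12, 9, 8⟩, ⟨35, -3, 29, 8, -8, -2⟩, ⟨29, -7, 27, 5, -19, -5⟩, ⟨30, -7, 29, 5, -20, -5⟩, ⟨5, -21, 53, 19, -10, -3⟩, ⟨5, -20, 51, 19, -17, -4⟩, ⟨2, -20, 55, 19, -29, -6⟩, ⟨7, -17, 51, 15, 20, 3⟩, ⟨6, -18, 69, 23, 28, 4⟩, ⟨-1, -14, 71, 14, -6, 1⟩, ⟨0, -13, 69, 6, -16, 0⟩, ⟨0, -5, 71, 13, 206, 22⟩, ⟨121, -6, 71, 7, 220, 10⟩, ⟨141, -13, -149, 6, -5, -12⟩, ⟨140, -12, -29, 12, 171, 0⟩, ⟨143, -30, -140, 19, 133, -11⟩, ⟨140, -39, -220, 15, 14, -20⟩, ⟨96, -24, -125, 11, 41, -9⟩, ⟨99, -15, -54, 15, 147, 0⟩, ⟨105, -15, -57, 11, 117, 0⟩, ⟨104, -21, -140, 3, -23,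 -12⟩, ⟨66, -13, -163, -1, -90, -12⟩, ⟨67, -7, -92, 7, 30, 0⟩, ⟨70, -9, -112, 7, 13, -3⟩, ⟨69, -16, -141, 10, -3, -9⟩, ⟨41, -11, -97, 7, -12, -6⟩, ⟨42, -4, -74, 4, 1, 0⟩, ⟨43, -5, -88, 4, -11, -3⟩, ⟨42, -10, -90, 10, 3, -4⟩, ⟨12, -6, -40, 7, -4, -1⟩, ⟨13, -1, -39, 1, -13, 0⟩, ⟨14, -1, -47, 2, -17, -3⟩, ⟨14, -4, -46, 10, -9, -2⟩, ⟨0, -3, 0, 8, -1, 1⟩, ⟨0, 0, 0, 0, 0, 0⟩]⟩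

def m10 : Dat := ⟨[⟨6, 3, -4, 4, 1, 1⟩, ⟨3, 6, -2, 7, 3, 1⟩, ⟨-5, 0, 4, -6, 2, -1⟩, ⟨5, 2, -3, 2, -3, -1⟩, ⟨-8, -4, 3, -15, 6, -5⟩, ⟨-3, 0, -1, -9, -1, 1⟩, ⟨-2, 6, 2, 14, 1, -9⟩, ⟨3, 0, -2, 3, -2, -6⟩, ⟨-12, -7, 11, -6, -2, 3⟩, ⟨-3, -4, 1, 10, 1, 10⟩, ⟨0, 9, 2, -6, 0, 10⟩, ⟨2, 5, -1, -13, 2, -2⟩, ⟨1, 1, 1, -3, 1, 5⟩, ⟨0, -1, 0, -9, 1, -5⟩, ⟨1, 0, 1, -3, 1, 3⟩, ⟨-1, -3, 0, -6, 1, -6⟩, ⟨1, -1, 1, -2, 1, 3⟩, ⟨-1, -4, 0, -4, 1, -6⟩],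
  [⟨0, 0, 0, 0, 0, 0⟩, ⟨6, 3, -4, 4, 1, 1⟩, ⟨8, 20, -18, 0, 6, 2⟩, ⟨49, 13, 29, 0, -18, -12⟩, ⟨44, 6, 20, -6, -24, -13⟩, ⟨42, 0, 15, -6, -25, -14⟩, ⟨15, -14, 44, 12, -33, -15⟩, ⟨13, -17, 37, 6, 53, 0⟩, ⟨4, -19, 36, 4, 62, 1⟩, ⟨-12, -23, 9, -11, 38, -4⟩, ⟨-15, -23, -10, -20, 45, -3⟩, ⟨-14, -8, -12, -15, 113, 1⟩, ⟨-11, -8, -11, -6, 104, 0⟩, ⟨-13, -2, -9, 8, 15, -9⟩, ⟨50, -2, -11, 11, 13, -15⟩, ⟨41, -16, 81, 19, 196, -6⟩, ⟨38, -16, 143, 16, 228, 0⟩, ⟨26, -23, 184, 10, 196, 3⟩, ⟨23, -27, 275, 20, 377, 13⟩, ⟨6, -11, 274, 17, 332, 10⟩, ⟨9, -7, 193, 7, 171, 0⟩, ⟨9, 2, 275, 1, 203, 10⟩, ⟨11, 7, 260, -12, 100, 8⟩,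 ⟨31, 0, 114, -8, 39, -2⟩, ⟨29, -5, 127, 5, 127, 0⟩, ⟨30, -4, 158, 2, 140, 5⟩, ⟨30, -5, 133, -7, 71, 0⟩, ⟨30, -5, 58, -5, 34, -5⟩, ⟨30, -4, 78, 4, 89, 0⟩, ⟨31, -4, 91, 1, 90, 3⟩, ⟨30, -7, 73, -5, 55, -3⟩, ⟨8, -4, 24, -5, 9, -6⟩, ⟨9, -1, 36, 1, 32, 0⟩, ⟨10, -2, 43, -1, 35, 3⟩, ⟨9, -6, 37, -5, 26, -3⟩, ⟨-1, -4, 0, -4, 1, -6⟩, ⟨0, 0, 0, 0, 0, 0⟩]⟩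

def m11 : Dat := ⟨[⟨11, 9, -2, 11, 2, 12⟩, ⟨4, 7, -2, 10, 6, 1⟩, ⟨-6, 1, 9, -9, 2, 1⟩, ⟨13, 1, -9, 1, -6, 1⟩, ⟨-9, 5, 6, -20, 6, -8⟩, ⟨-6, -3, -2, -14, 1, 6⟩, ⟨1, 6, -1, -5, -1, 0⟩, ⟨-1, 0, 3, -1, 0, 4⟩, ⟨13, 17, -12, 1, 2, 3⟩, ⟨6, 9, -1, -11, 1, -8⟩, ⟨1, -4, -3, 3, 0, -4⟩, ⟨-1, -3, 0, 8, -1, 1⟩, ⟨0, -1, -2, 1, -1, -3⟩, ⟨0, 0, 0, 7, -1, 3⟩, ⟨0, 0, -2, 2, -1, -2⟩, ⟨0, 2, 0, 5, 0, 4⟩, ⟨-1, 0, -1, 1, -1, -1⟩, ⟨0, 3, 0, 5, 0, 4⟩],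
  [⟨0, 0, 0, 0, 0, 0⟩, ⟨11, 9, -2, 11, 2, 12⟩, ⟨14, 31, -20, 6, 10, 13⟩, ⟨87, 37, 25, -4, -52, -11⟩, ⟨79, 27, 14, -11, -61, -12⟩, ⟨79, 18, 9, -10, -56, -11⟩, ⟨4, -25, 88, 35, -57, -10⟩, ⟨9, -26, 64, 20, 78, 14⟩, ⟨-6, -27, 71, 19, 78, 13⟩, ⟨-5, -22, 37, -1, 36, 5⟩, ⟨-11, -25, 7, -15, 85, 11⟩, ⟨-22, -5, -4, -7, 72, 6⟩, ⟨-16, -2, -2, 7, 11, 0⟩, ⟨-15, 4, -3, 2, 10, 0⟩, ⟨-56, 4, 0, 1, 10, 4⟩, ⟨-56, 9, -1, -10, -104, 4⟩, ⟨-55, 9, -44, -9, -134, 0⟩, ⟨-42, 26, -26, -8, -92, 3⟩, ⟨-36, 35, -99, -19, -262, -5⟩, ⟨-2, 13, -159, -15, -251, -8⟩, ⟨-8, 4, -94, -4, -100, 0⟩, ⟨-7, 0, -129, -1, -108, -4⟩, ⟨-8, -3, -122, 7,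 -46, -3⟩, ⟨-13, -1, -65, 6, -16, 1⟩, ⟨-12, 2, -71, -2, -69, 0⟩, ⟨-12, 1, -91, -1, -82, -3⟩, ⟨-12, 1, -76, 6, -33, 0⟩, ⟨-23, 3, -32, 4, -24, 3⟩, ⟨-23, 3, -44, -3, -63, 0⟩, ⟨-23, 3, -54, -1, -64, -2⟩, ⟨-23, 5, -42, 4, -37, 2⟩, ⟨-9, 3, -12, 4, -8, 4⟩, ⟨-9, 1, -20, -1, -26, 0⟩, ⟨-10, 1, -23, 0, -27, -1⟩, ⟨-10, 4, -19, 5, -18, 3⟩, ⟨0, 3, 0, 5, 0, 4⟩, ⟨0, 0, 0, 0, 0, 0⟩]⟩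

end H13SB.Num
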