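import Pool.Agent.H13.SB.Num.Mats

/-!
# Walking along the relator
-/

namespace H13SB.Num

open X

/-- The generator with code `c`. -/
def gd (c : ℕ) : Gen 9 := (⟨c / 2 % 9, Nat.mod_lt _ (by norm_num)⟩, Nat.beq (c % 2) 1)

/-- The code of a generator. -/
def cd (x : Gen 9) : ℕ := 2 * x.1.val + (if x.2 then 1 else 0)

theorem cd_gd : ∀ c < 18, cd (gd c) = c := by decide

/-- The letters of the relator. -/
def ltn : List (ℕ × Bool) := [(0, true), (1, true), (0, false), (1, false), (2, true), (3, true), (2, false), (3, false), (4, true), (5, true), (4, false), (5, false), (6, true), (7, true), (6, false), (7, false), (8, true), (9, true), (8, false), (9, false), (10, true), (11, true), (10, false), (11, false), (12, true), (13, true), (12, false), (13, false), (14, true), (15, true), (14, false), (15, false), (16, true), (17, true), (16, false), (17, false)]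

/-- The letter. -/
def lt (s : ℕ × Bool) : Gen 9 × Bool := (gd s.1, s.2)

theorem lets9 : lets 9 = ltn.map lt := by decide

/-- Check of the matrices along a path. -/
def chkM : List (ℕ × Bool) → List M6 → Bool
  | [], [_] => true
  | (c, true) :: l, P :: P' :: Ps => Nat.blt c 18 && decide (P.mul (MM (gd c)) = P') &&
      chkM l (P' :: Ps)
  | (c, false) :: l, P :: P' :: Ps => Nat.blt c 18 && decide (P'.mul (MM (gd c)) = P) &&
      chkM l (P' :: Ps)
  | _, _ => false

/-- Check of the values of a cocycle along a path. -/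
def chkU (xs : List V6) : List (ℕ × Bool) → List M6 → List V6 → Bool
  | [], [_], [_] => true
  | (c, true) :: l, P :: P' :: Ps, U :: U' :: Us =>
      decide (U.add (P.mv (xs.getD c V6.zero)) = U') && chkU xs l (P' :: Ps) (U' :: Us)
  | (c, false) :: l, _ :: P' :: Ps, U :: U' :: Us =>
      decide (U'.add (P'.mv (xs.getD c V6.zero)) = U) && chkU xs l (P' :: Ps) (U' :: Us)
  | _, _, _ => false

/-- The vector attached to a generator. -/
noncomputable def xr (xs : List V6) (y : Gen 9) : Gen 3 → ℝ := (xs.getD (cd y) V6.zero).r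

theorem mat_inv (p y : SurfaceGroup 9) (P P' Q : M6) (hp : X.piece.mat p = P.fn)
    (hy : X.piece.mat y = Q.fn) (h : P'.mul Q = P) : X.piece.mat (p * y⁻¹) = P'.fn := by
  have h1 : X.piece.mat y * X.piece.mat y⁻¹ = 1 := by rw [← map_mul, mul_inv_cancel, map_one]
  rw [map_mul, hp, ← h, M6.fn_mul, ← hy, mul_assoc, h1, mul_one]

theorem lin_r (p : SurfaceGroup 9) (P : M6) (hp : X.piece.mat p = P.fn) (v : V6) :
    X.piece.lin p v.r = (P.mv v).r := by
  rw [lin_eq p P hp, M6.mulVec_r]

theorem track_walk (xs : List V6) : ∀ (l : List (ℕ × Bool)) (Ps : List M6) (Us : List V6)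
    (p : SurfaceGroup 9) (P : M6) (U : V6), chkM l (P :: Ps) = true →
    chkU xs l (P :: Ps) (U :: Us) = true → X.piece.mat p = P.fn →
    walk X.piece.lin (xr xs) p U.r (l.map lt) = ((U :: Us).getLast (List.cons_ne_nil _ _)).r := by
  intro l
  induction l with
  | nil =>
    intro Ps Us p P U h1 h2 h3
    cases Ps with
    | nil =>
      cases Us with
      | nil => rfl
      | cons U' Us => simp [chkU] at h2
    | cons P' Ps => simp [chkM] at h1
  | cons s l ih =>
    intro Ps Us p P U h1 h2 h3
    obtain ⟨c, t⟩ := s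
    cases Ps with
    | nil => cases t <;> simp [chkM] at h1
    | cons P' Ps =>
      cases Us with
      | nil => cases t <;> simp [chkU] at h2
      | cons U' Us =>
        cases t with
        | true =>
          simp only [chkM, chkU, Bool.and_eq_true, decide_eq_true_eq] at h1 h2
          obtain ⟨⟨hc, h1⟩, h1'⟩ := h1
          obtain ⟨h2, h2'⟩ := h2
          have hc' : c < 18 := by simpa [Nat.blt, Nat.ble_eq] using hc
          have h4 : X.piece.mat (p * sgen (gd c)) = P'.fn := by
            rw [map_mul, h3, mat_gen, ← M6.fn_mul, h1]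
          have := ih Ps Us (p * sgen (gd c)) P' U' h1' h2' h4
          rw [List.map_cons, List.getLast_cons (List.cons_ne_nil _ _), ← this]
          change walk X.piece.lin (xr xs) (p * sgen (gd c))
            (U.r + X.piece.lin p (xr xs (gd c))) _ = _
          rw [xr, cd_gd c hc', lin_r p P h3, ← V6.r_add, h2]
        | false =>
          simp only [chkM, chkU, Bool.and_eq_true, decide_eq_true_eq] at h1 h2
          obtain ⟨⟨hc, h1⟩, h1'⟩ := h1
          obtain ⟨h2, h2'⟩ := h2
          have hc' : c < 18 := by simpa [Nat.blt, Nat.ble_eq] using hc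
          have h4 : X.piece.mat (p * (sgen (gd c))⁻¹) = P'.fn :=
            mat_inv p _ P P' _ h3 (mat_gen _) h1
          have := ih Ps Us (p * (sgen (gd c))⁻¹) P' U' h1' h2' h4
          rw [List.map_cons, List.getLast_cons (List.cons_ne_nil _ _), ← this]
          change walk X.piece.lin (xr xs) (p * (sgen (gd c))⁻¹)
            (U.r - X.piece.lin (p * (sgen (gd c))⁻¹) (xr xs (gd c))) _ = _
          rw [xr, cd_gd c hc', lin_r _ P' h4, ← h2, V6.r_add, add_sub_cancel_right]

theorem track_vals (xs : List V6) (u : SurfaceGroup 9 → Gen 3 → ℝ) (hu : Coc X.piece.lin u)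
    (hx : ∀ y, u (sgen y) = xr xs y) : ∀ (l : List (ℕ × Bool)) (Ps : List M6) (Us : List V6)
    (p : SurfaceGroup 9) (P : M6) (U : V6), chkM l (P :: Ps) = true →
    chkU xs l (P :: Ps) (U :: Us) = true → X.piece.mat p = P.fn → u p = U.r →
    vals u p (l.map lt) = (U :: Us).map V6.r := by
  intro l
  induction l with
  | nil =>
    intro Ps Us p P U h1 h2 h3 h5
    cases Ps with
    | nil =>
      cases Us with
      | nil => simp [vals, h5]
      | cons U' Us => simp [chkU] at h2
    | cons P' Ps => simp [chkM] at h1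
  | cons s l ih =>
    intro Ps Us p P U h1 h2 h3 h5
    obtain ⟨c, t⟩ := s
    cases Ps with
    | nil => cases t <;> simp [chkM] at h1
    | cons P' Ps =>
      cases Us with
      | nil => cases t <;> simp [chkU] at h2
      | cons U' Us =>
        cases t with
        | true =>
          simp only [chkM, chkU, Bool.and_eq_true, decide_eq_true_eq] at h1 h2
          obtain ⟨⟨hc, h1⟩, h1'⟩ := h1
          obtain ⟨h2, h2'⟩ := h2
          have hc' : c < 18 := by simpa [Nat.blt, Nat.ble_eq] using hc
          have h4 : X.piece.mat (p * sgen (gd c)) = P'.fn := by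
            rw [map_mul, h3, mat_gen, ← M6.fn_mul, h1]
          have h6 : u (p * sgen (gd c)) = U'.r := by
            rw [hu, h5, hx, xr, cd_gd c hc', lin_r p P h3, ← V6.r_add, h2]
          have := ih Ps Us (p * sgen (gd c)) P' U' h1' h2' h4 h6
          rw [List.map_cons, List.map_cons, ← this, ← h5]
          rfl
        | false =>
          simp only [chkM, chkU, Bool.and_eq_true, decide_eq_true_eq] at h1 h2
          obtain ⟨⟨hc, h1⟩, h1'⟩ := h1
          obtain ⟨h2, h2'⟩ := h2
          have hc' : c < 18 := by simpa [Nat.blt, Nat.ble_eq] using hc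
          have h4 : X.piece.mat (p * (sgen (gd c))⁻¹) = P'.fn :=
            mat_inv p _ P P' _ h3 (mat_gen _) h1
          have h6 : u (p * (sgen (gd c))⁻¹) = U'.r := by
            have h7 := hu (p * (sgen (gd c))⁻¹) (sgen (gd c))
            rw [inv_mul_cancel_right, h5, hx, xr, cd_gd c hc', lin_r _ P' h4, ← h2,
              V6.r_add] at h7
            exact (add_right_cancel h7).symm
          have := ih Ps Us (p * (sgen (gd c))⁻¹) P' U' h1' h2' h4 h6
          rw [List.map_cons, List.map_cons, ← this, ← h5]
          rfl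

/-- The pairing of two lists of values. -/
def pr : List V6 → List V6 → ℤ
  | U :: U' :: Us, V :: V' :: Vs => V6.om3 U V V' + pr (U' :: Us) (V' :: Vs)
  | _, _ => 0

theorem pairR_r : ∀ (Us Vs : List V6), pairR (Us.map V6.r) (Vs.map V6.r) = (pr Us Vs : ℝ)
  | [], _ => by simp [pairR, pr]
  | [_], _ => by simp [pairR, pr]
  | _ :: _ :: _, [] => by simp [pairR, pr]
  | _ :: _ :: _, [_] => by simp [pairR, pr]
  | U :: U' :: Us, V :: V' :: Vs => by
    have h := pairR_r (U' :: Us) (V' :: Vs)
    simp only [List.map_cons] at h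
    simp only [List.map_cons, pairR, pr, V6.omega_r3, h]
    push_cast
    ring

/-- The sum of `ω` over two lists. -/
def oml : List V6 → List V6 → ℤ
  | x :: xs, y :: ys => V6.om x y + oml xs ys
  | _, _ => 0

theorem sum_gen9 (f : Gen 9 → ℝ) : ∑ x, f x = f (gd 0) + (f (gd 1) + (f (gd 2) + (f (gd 3) +
    (f (gd 4) + (f (gd 5) + (f (gd 6) + (f (gd 7) + (f (gd 8) + (f (gd 9) + (f (gd 10) +
    (f (gd 11) + (f (gd 12) + (f (gd 13) + (f (gd 14) + (f (gd 15) + (f (gd 16) +
    f (gd 17))))))))))))))))) := by
  have e : (Finset.univ : Finset (Gen 9)) = (Finset.range 18).image gd := by decide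
  rw [e, Finset.sum_image]
  · simp only [Finset.sum_range_succ, Finset.sum_range_zero]
    ring
  · intro x hx y hy hxy
    have hx' : x < 18 := Finset.mem_range.1 hx
    have hy' : y < 18 := Finset.mem_range.1 hy
    rw [← cd_gd x hx', hxy, cd_gd y hy']

theorem sum_oml (xs ys : List V6) (hx : xs.length = 18) (hy : ys.length = 18) :
    ∑ x : Gen 9, omega (xr xs x) (xr ys x) = (oml xs ys : ℝ) := by
  match xs, hx with
  | [x0, x1, x2, x3, x4, x5, x6, x7, x8, x9, x10, x11, x12, x13, x14, x15, x16, x17], _ =>
    match ys, hy with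
    | [y0, y1, y2, y3, y4, y5, y6, y7, y8, y9, y10, y11, y12, y13, y14, y15, y16, y17], _ =>
      rw [sum_gen9]
      simp only [xr, cd_gd 0 (by norm_num), cd_gd 1 (by norm_num), cd_gd 2 (by norm_num),
        cd_gd 3 (by norm_num), cd_gd 4 (by norm_num), cd_gd 5 (by norm_num),
        cd_gd 6 (by norm_num), cd_gd 7 (by norm_num), cd_gd 8 (by norm_num),
        cd_gd 9 (by norm_num), cd_gd 10 (by norm_num), cd_gd 11 (by norm_num),
        cd_gd 12 (by norm_num), cd_gd 13 (by norm_num), cd_gd 14 (by norm_num),
        cd_gd 15 (by norm_num), cd_gd 16 (by norm_num), cd_gd 17 (by norm_num),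
        List.getD_cons_zero, List.getD_cons_succ, V6.omega_r, oml]
      push_cast
      ring

end H13SB.Num
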