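import Pool.Agent.H13.SB.Num.Data0
import Pool.Agent.H13.SB.Num.Data1
import Pool.Agent.H13.SB.Num.Data2
import Pool.Agent.H13.SB.Num.Data3
import Pool.Agent.H13.SB.Num.Data4
import Pool.Agent.H13.SB.Num.Kron

/-!
# The Gram matrix is diagonally dominant
-/

namespace H13SB.Num

/-- Check of a cocycle. -/
def okD (d : Dat) : Bool :=
  Nat.beq d.xs.length 18 && (chkU d.xs ltn Pl d.Us && (decide (d.Us.head? = some V6.zero) &&
    decide (d.Us.getLast? = some V6.zero)))

def L0 : List Dat := [d0, d1, d2, d3, d4, d5, d6, d7, d8, d9]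
def L1 : List Dat := [d10, d11, d12, d13, d14, d15, d16, d17, d18, d19]
def L2 : List Dat := [d20, d21, d22, d23, d24, d25, d26, d27, d28, d29]
def L3 : List Dat := [d30, d31, d32, d33, d34, d35, d36, d37, d38, d39]
def L4 : List Dat := [d40, d41, d42, d43, d44, d45, d46, d47, d48, d49]

/-- All cocycles. -/
def dlist : List Dat := L0 ++ (L1 ++ (L2 ++ (L3 ++ L4)))

theorem dlist_length : dlist.length = 50 := by decide

theorem okD_all : dlist.all okD = true := by decide +kernel

theorem okL_all : dlist.all okL = true := by decide +kernel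

theorem rows_all : dlist.all (rowOK dlist) = true := by decide +kernel

end H13SB.Num
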