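import Pool.Agent.H13.SB.Sig.Coc
import Pool.Agent.H13.SB.Sig.Exist
import Pool.Agent.H13.SB.X.Rep

/-!
# Integer vectors and matrices of size six
-/

namespace H13SB.Num

/-- Integer vectors. -/
structure V6 where
  (a b c d e f : ℤ)
  deriving DecidableEq

namespace V6

def zero : V6 := ⟨0, 0, 0, 0, 0, 0⟩
def add (v w : V6) : V6 := ⟨v.a + w.a, v.b + w.b, v.c + w.c, v.d + w.d, v.e + w.e, v.f + w.f⟩
def smul (t : ℤ) (w : V6) : V6 := ⟨t * w.a, t * w.b, t * w.c, t * w.d, t * w.e, t * w.f⟩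
def dot (v w : V6) : ℤ := v.a * w.a + (v.b * w.b + (v.c * w.c + (v.d * w.d + (v.e * w.e +
  v.f * w.f))))
/-- `ω(U, V' - V)`. -/
def om3 (U V V' : V6) : ℤ :=
  U.a * (V'.b - V.b) - U.b * (V'.a - V.a) + (U.c * (V'.d - V.d) - U.d * (V'.c - V.c) +
    (U.e * (V'.f - V.f) - U.f * (V'.e - V.e)))
def om (v w : V6) : ℤ :=
  v.a * w.b - v.b * w.a + (v.c * w.d - v.d * w.c + (v.e * w.f - v.f * w.e))

/-- The vector as a function. -/
def fn (v : V6) : Gen 3 → ℤ := fun x => if x.2 then ![v.b, v.d, v.f] x.1 else ![v.a, v.c, v.e] x.1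

/-- The real vector. -/
def r (v : V6) : Gen 3 → ℝ := fun x => (v.fn x : ℝ)

theorem ext_gen {α : Type*} {f g : Gen 3 → α} (h0 : f (0, false) = g (0, false))
    (h1 : f (0, true) = g (0, true)) (h2 : f (1, false) = g (1, false))
    (h3 : f (1, true) = g (1, true)) (h4 : f (2, false) = g (2, false))
    (h5 : f (2, true) = g (2, true)) : f = g := by
  funext x
  rcases x with ⟨i, b⟩
  fin_cases i <;> cases b <;> assumption

theorem sum_gen {α : Type*} [AddCommMonoid α] (f : Gen 3 → α) :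
    ∑ x, f x = f (0, false) + (f (0, true) + (f (1, false) + (f (1, true) + (f (2, false) +
      f (2, true))))) := by
  simp only [Fintype.sum_prod_type, Fin.sum_univ_three, Fintype.sum_bool]
  abel

@[simp] theorem fn_0 (v : V6) : v.fn (0, false) = v.a := rfl
@[simp] theorem fn_1 (v : V6) : v.fn (0, true) = v.b := rfl
@[simp] theorem fn_2 (v : V6) : v.fn (1, false) = v.c := rfl
@[simp] theorem fn_3 (v : V6) : v.fn (1, true) = v.d := rfl
@[simp] theorem fn_4 (v : V6) : v.fn (2, false) = v.e := rfl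
@[simp] theorem fn_5 (v : V6) : v.fn (2, true) = v.f := rfl
@[simp] theorem r_0 (v : V6) : v.r (0, false) = v.a := rfl
@[simp] theorem r_1 (v : V6) : v.r (0, true) = v.b := rfl
@[simp] theorem r_2 (v : V6) : v.r (1, false) = v.c := rfl
@[simp] theorem r_3 (v : V6) : v.r (1, true) = v.d := rfl
@[simp] theorem r_4 (v : V6) : v.r (2, false) = v.e := rfl
@[simp] theorem r_5 (v : V6) : v.r (2, true) = v.f := rfl

theorem r_zero : zero.r = 0 := by
  apply ext_gen <;> simp [zero]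

theorem r_add (v w : V6) : (v.add w).r = v.r + w.r := by
  apply ext_gen <;> simp [add]

theorem omega_r (v w : V6) : omega v.r w.r = (v.om w : ℝ) := by
  simp only [omega, Fin.sum_univ_three, r_0, r_1, r_2, r_3, r_4, r_5, om]
  push_cast
  ring

theorem omega_r3 (U V V' : V6) : omega U.r (V'.r - V.r) = (U.om3 V V' : ℝ) := by
  simp only [omega, Fin.sum_univ_three, r_0, r_1, r_2, r_3, r_4, r_5, om3, Pi.sub_apply]
  push_cast
  ring

end V6

/-- Integer matrices. -/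
structure M6 where
  (r0 r1 r2 r3 r4 r5 : V6)
  deriving DecidableEq

namespace M6

/-- Product of a row vector with a matrix. -/
def rm (v : V6) (B : M6) : V6 :=
  ⟨v.a * B.r0.a + (v.b * B.r1.a + (v.c * B.r2.a + (v.d * B.r3.a + (v.e * B.r4.a + v.f * B.r5.a)))),
   v.a * B.r0.b + (v.b * B.r1.b + (v.c * B.r2.b + (v.d * B.r3.b + (v.e * B.r4.b + v.f * B.r5.b)))),
   v.a * B.r0.c + (v.b * B.r1.c + (v.c * B.r2.c + (v.d * B.r3.c + (v.e * B.r4.c + v.f * B.r5.c)))),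
   v.a * B.r0.d + (v.b * B.r1.d + (v.c * B.r2.d + (v.d * B.r3.d + (v.e * B.r4.d + v.f * B.r5.d)))),
   v.a * B.r0.e + (v.b * B.r1.e + (v.c * B.r2.e + (v.d * B.r3.e + (v.e * B.r4.e + v.f * B.r5.e)))),
   v.a * B.r0.f + (v.b * B.r1.f + (v.c * B.r2.f + (v.d * B.r3.f + (v.e * B.r4.f + v.f * B.r5.f))))⟩

def mul (A B : M6) : M6 := ⟨rm A.r0 B, rm A.r1 B, rm A.r2 B, rm A.r3 B, rm A.r4 B, rm A.r5 B⟩
def mv (A : M6) (v : V6) : V6 :=
  ⟨A.r0.dot v, A.r1.dot v, A.r2.dot v, A.r3.dot v, A.r4.dot v, A.r5.dot v⟩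
def tr (A : M6) : M6 :=
  ⟨⟨A.r0.a, A.r1.a, A.r2.a, A.r3.a, A.r4.a, A.r5.a⟩, ⟨A.r0.b, A.r1.b, A.r2.b, A.r3.b, A.r4.b, A.r5.b⟩,
   ⟨A.r0.c, A.r1.c, A.r2.c, A.r3.c, A.r4.c, A.r5.c⟩, ⟨A.r0.d, A.r1.d, A.r2.d, A.r3.d, A.r4.d, A.r5.d⟩,
   ⟨A.r0.e, A.r1.e, A.r2.e, A.r3.e, A.r4.e, A.r5.e⟩, ⟨A.r0.f, A.r1.f, A.r2.f, A.r3.f, A.r4.f, A.r5.f⟩⟩
def one : M6 := ⟨⟨1, 0, 0, 0, 0, 0⟩, ⟨0, 1, 0, 0, 0, 0⟩, ⟨0, 0, 1, 0, 0, 0⟩, ⟨0, 0, 0, 1, 0, 0⟩,
  ⟨0, 0, 0, 0, 1, 0⟩, ⟨0, 0, 0, 0, 0, 1⟩⟩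
def J6 : M6 := ⟨⟨0, 1, 0, 0, 0, 0⟩, ⟨-1, 0, 0, 0, 0, 0⟩, ⟨0, 0, 0, 1, 0, 0⟩, ⟨0, 0, -1, 0, 0, 0⟩,
  ⟨0, 0, 0, 0, 0, 1⟩, ⟨0, 0, 0, 0, -1, 0⟩⟩

/-- The rows. -/
def row (A : M6) : Gen 3 → V6 := fun x => if x.2 then ![A.r1, A.r3, A.r5] x.1
  else ![A.r0, A.r2, A.r4] x.1

/-- The matrix. -/
def fn (A : M6) : Matrix (Gen 3) (Gen 3) ℤ := Matrix.of fun x y => (A.row x).fn y

@[simp] theorem fn_0 (A : M6) (y) : A.fn (0, false) y = A.r0.fn y := rfl
@[simp] theorem fn_1 (A : M6) (y) : A.fn (0, true) y = A.r1.fn y := rfl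
@[simp] theorem fn_2 (A : M6) (y) : A.fn (1, false) y = A.r2.fn y := rfl
@[simp] theorem fn_3 (A : M6) (y) : A.fn (1, true) y = A.r3.fn y := rfl
@[simp] theorem fn_4 (A : M6) (y) : A.fn (2, false) y = A.r4.fn y := rfl
@[simp] theorem fn_5 (A : M6) (y) : A.fn (2, true) y = A.r5.fn y := rfl

theorem ext_mat {A B : Matrix (Gen 3) (Gen 3) ℤ} (h0 : A (0, false) = B (0, false))
    (h1 : A (0, true) = B (0, true)) (h2 : A (1, false) = B (1, false))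
    (h3 : A (1, true) = B (1, true)) (h4 : A (2, false) = B (2, false))
    (h5 : A (2, true) = B (2, true)) : A = B := V6.ext_gen h0 h1 h2 h3 h4 h5

theorem fn_mul (A B : M6) : (A.mul B).fn = A.fn * B.fn := by
  apply ext_mat <;> apply V6.ext_gen <;>
    simp [Matrix.mul_apply, V6.sum_gen, mul, rm]

theorem fn_one : one.fn = 1 := by
  apply ext_mat <;> apply V6.ext_gen <;> simp [one, Matrix.one_apply]

theorem fn_tr (A : M6) : A.tr.fn = A.fn.transpose := by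
  apply ext_mat <;> apply V6.ext_gen <;> rfl

/-- The real matrix. -/
def R (A : M6) : Matrix (Gen 3) (Gen 3) ℝ := A.fn.map (Int.cast : ℤ → ℝ)

theorem mulVec_r (A : M6) (v : V6) : A.R.mulVec v.r = (A.mv v).r := by
  apply V6.ext_gen <;>
    simp [Matrix.mulVec, dotProduct, V6.sum_gen, mv, V6.dot, R]

theorem map_mul' (A B : Matrix (Gen 3) (Gen 3) ℤ) :
    (A * B).map (Int.cast : ℤ → ℝ) = A.map (Int.cast : ℤ → ℝ) * B.map (Int.cast : ℤ → ℝ) := by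
  have h := Matrix.map_mul (L := A) (M := B) (f := Int.castRingHom ℝ)
  simpa only [Int.coe_castRingHom] using h

theorem omega_J (v w : Gen 3 → ℝ) : omega v w = v ⬝ᵥ (J6.R.mulVec w) := by
  simp [omega, Fin.sum_univ_three, dotProduct, Matrix.mulVec, V6.sum_gen, J6, R]
  ring

/-- Preserving the symplectic form. -/
theorem symp_of (A : M6) (h : ((A.tr.mul J6).mul A) = J6) (v w : Gen 3 → ℝ) :
    omega (A.R.mulVec v) (A.R.mulVec w) = omega v w := by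
  have h1 : A.R.transpose * J6.R * A.R = J6.R := by
    have h2 := congrArg M6.fn h
    rw [fn_mul, fn_mul, fn_tr] at h2
    have h3 := congrArg (fun B : Matrix (Gen 3) (Gen 3) ℤ => B.map (Int.cast : ℤ → ℝ)) h2
    simp only [map_mul'] at h3
    exact h3
  rw [omega_J, omega_J]
  conv_rhs => rw [← h1, ← Matrix.mulVec_mulVec, ← Matrix.mulVec_mulVec, Matrix.dotProduct_mulVec,
    Matrix.vecMul_transpose]

end M6

end H13SB.Num
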